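import Pool.Agent.H53.JM.Nat

/-!
# The triangular count

`tri_cnt`: the entropy of a vector of integers, if every coordinate is known up to a small interval
given the coordinates before it and the condition; the centres of the intervals are any functions
of the condition and of the coordinates before. `ntc_cnt`: the positions of a law over a family, if
digits of the natural coordinates, relative to such centres, are known.
-/

set_option autoImplicit false

namespace Pool.JPN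

open Finset Real MvPolynomial
open Pool.Agent.H49.Ent Pool.Agent.H32.Dense Pool.STK Pool.KA Pool.KSAT Pool.PB
  Pool.STAT Pool.GEN Pool.M3F
open Pool.R1 (cv)

/-- Integers with the same digits of the distance from the centre are near. -/
theorem near_fl {x y a : ℝ} {D J : ℕ}
    (h : ⌊(2 : ℝ) ^ D * (x / 2 ^ J - a)⌋ = ⌊(2 : ℝ) ^ D * (y / 2 ^ J - a)⌋) :
    |x - y| ≤ 2 ^ (J - D) := by
  rcases le_or_gt D J with hD | hD
  · exact near_of_floor hD h
  · have h1 := Ful.fl_eq h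
    have p1 : (0 : ℝ) < 2 ^ J := by positivity
    have p2 : (0 : ℝ) < 2 ^ D := by positivity
    have h2 : (2 : ℝ) ^ D * (x / 2 ^ J - a) - 2 ^ D * (y / 2 ^ J - a) =
        (x - y) * (2 ^ D / 2 ^ J) := by
      field_simp
      ring
    have h3 : (1 : ℝ) ≤ 2 ^ D / 2 ^ J := by
      rw [le_div_iff₀ p1, one_mul]
      exact pow_le_pow_right₀ (by norm_num) hD.le
    rw [h2, abs_mul, abs_of_pos (by positivity : (0 : ℝ) < 2 ^ D / 2 ^ J)] at h1
    rw [Nat.sub_eq_zero_of_le hD.le, pow_zero]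
    have h4 : |x - y| * 1 ≤ |x - y| * (2 ^ D / 2 ^ J) :=
      mul_le_mul_of_nonneg_left h3 (abs_nonneg _)
    linarith

/-- **The triangular count.** -/
theorem tri_cnt {Ω Γ : Type} [Fintype Ω] {q : Ω → ℝ} (hq : IsLaw q) {n J : ℕ}
    (X : Ω → Fin n → ℤ) (Z : Ω → Γ) (Φ : Ω → Fin n → ℝ) (t : Fin n → ℕ)
    (hΦ : ∀ i ω ω', 0 < q ω → 0 < q ω' → Z ω = Z ω' → (∀ j < i, X ω j = X ω' j) →
      Φ ω i = Φ ω' i)
    (hd : ∀ i ω ω', 0 < q ω → 0 < q ω' → Z ω = Z ω' → (∀ j < i, X ω j = X ω' j) →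
      ⌊(2 : ℝ) ^ t i * ((X ω i : ℝ) / 2 ^ J - Φ ω i)⌋ =
        ⌊(2 : ℝ) ^ t i * ((X ω' i : ℝ) / 2 ^ J - Φ ω' i)⌋) :
    CH q X Z ≤ ∑ i, (((J - t i : ℕ) : ℝ) * Real.log 2 + Real.log 3) := by
  have h2 := Ful.ch_vec hq X Z (fun i => if h : i < n then 2 ^ (J - t ⟨i, h⟩) else 0) (by
    intro i ω ω' hω hω' hZ hj
    rw [dif_pos i.2]
    have h1 := hd i ω ω' hω hω' hZ hj
    rw [hΦ i ω ω' hω hω' hZ hj] at h1
    push_cast
    exact near_fl h1)
  refine h2.trans (le_of_eq_of_le (Finset.sum_range _) (Finset.sum_le_sum fun i _ => ?_))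
  rw [dif_pos i.2]
  exact log_three _ _

section ent

variable {m J k : ℕ} {F : Fam m J} {V : Type} {c : ℕ → Fin m} {P : V → ℕ → PN} {z₀ : PtT F → V}
  {E : Type} [Fintype E] {q : E → ℝ} {pr : E → F.Ω}

omit [Fintype E] in
/-- The predicted value of a coordinate is known given the coordinates before. -/
theorem pred_eq {Γ : Type} {Z : E → Γ} (htri : ∀ v, TriN (P v))
    (hvZ : ∀ e e', 0 < q e → 0 < q e' → Z e = Z e' →
      z₀ (ptr F J (pr e)) = z₀ (ptr F J (pr e')))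
    (hTZ : ∀ e e', 0 < q e → 0 < q e' → Z e = Z e' → F.T (pr e) = F.T (pr e')) {e e' : E}
    (he : 0 < q e) (he' : 0 < q e') (h : Z e = Z e') {i : ℕ}
    (hj : ∀ j < i, F.X J (pr e) (c j) = F.X J (pr e') (c j)) :
    eval (px c (ptr F J (pr e))) (P (z₀ (ptr F J (pr e))) (i + 1)) =
      eval (px c (ptr F J (pr e'))) (P (z₀ (ptr F J (pr e'))) (i + 1)) := by
  rw [hvZ e e' he he' h]
  exact eval_px (htri _ _) (hTZ e e' he he' h) hj

/-- **The triangular count for the positions.** -/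
theorem ntc_cnt (hq : IsLaw q) {Γ : Type} (Z : E → Γ) (htri : ∀ v, TriN (P v)) (t : Fin k → ℕ)
    (ψ : E → Fin k → ℝ)
    (hvZ : ∀ e e', 0 < q e → 0 < q e' → Z e = Z e' →
      z₀ (ptr F J (pr e)) = z₀ (ptr F J (pr e')))
    (hTZ : ∀ e e', 0 < q e → 0 < q e' → Z e = Z e' → F.T (pr e) = F.T (pr e'))
    (hψ : ∀ (i : Fin k) (e e' : E), 0 < q e → 0 < q e' → Z e = Z e' →
      (∀ j < (i : ℕ), F.X J (pr e) (c j) = F.X J (pr e') (c j)) → ψ e i = ψ e' i)
    (hn : ∀ (i : Fin k) (e e' : E), 0 < q e → 0 < q e' → Z e = Z e' →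
      (∀ j < (i : ℕ), F.X J (pr e) (c j) = F.X J (pr e') (c j)) →
      ⌊(2 : ℝ) ^ t i * (ntc F c P z₀ (pr e) i - ψ e i)⌋ =
        ⌊(2 : ℝ) ^ t i * (ntc F c P z₀ (pr e') i - ψ e' i)⌋) :
    CH q (fun e (i : Fin k) => F.X J (pr e) (c i)) Z ≤
      ∑ i, (((J - t i : ℕ) : ℝ) * Real.log 2 + Real.log 3) := by
  have hlow : ∀ (i : Fin k) (e e' : E), (∀ j < i, F.X J (pr e) (c j) = F.X J (pr e') (c j)) →
      ∀ j < (i : ℕ), F.X J (pr e) (c j) = F.X J (pr e') (c j) := fun i e e' h j hj =>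
    h ⟨j, hj.trans i.2⟩ hj
  refine tri_cnt hq (fun e (i : Fin k) => F.X J (pr e) (c i)) Z
    (fun e i => eval (px c (ptr F J (pr e))) (P (z₀ (ptr F J (pr e))) (i + 1)) + ψ e i) t ?_ ?_
  · intro i e e' he he' hZ hj
    have h1 := hlow i e e' hj
    rw [pred_eq htri hvZ hTZ he he' hZ h1, hψ i e e' he he' hZ h1]
  · intro i e e' he he' hZ hj
    have h1 := hn i e e' he he' hZ (hlow i e e' hj)
    unfold ntc at h1
    rw [px_succ, px_succ] at h1
    have e1 : ∀ e : E, ((F.X J (pr e) (c i) : ℝ)) / 2 ^ J -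
        (eval (px c (ptr F J (pr e))) (P (z₀ (ptr F J (pr e))) (i + 1)) + ψ e i) =
        ((ptr F J (pr e)).1 (c i) : ℝ) / 2 ^ J -
          eval (px c (ptr F J (pr e))) (P (z₀ (ptr F J (pr e))) (i + 1)) - ψ e i := by
      intro e
      rw [sub_add_eq_sub_sub]
      rfl
    rw [e1, e1]
    exact h1

end ent

end Pool.JPN
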