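import Pool.Agent.H37.M3F.Fam
import Pool.Agent.H5.M3F.Wgt
import Pool.Agent.H5.M3F.All
import Pool.Agent.H53.JM.Tri

/-!
# The exact point of a line and its natural digits

`tP`: the time with `P` digits. `exn`: the exact point of the line at this time. `xpt`: the same in
the scaled coordinates of the labels, with the weight of the last coordinate. `near_box`: points
near a point of a natural box. `ndg_xpt`: the natural digits.
-/

set_option autoImplicit false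

namespace Pool.JPN

open Finset Real MvPolynomial
open Pool.Agent.H49.Ent Pool.Agent.H32.Dense Pool.STK Pool.KA Pool.KSAT Pool.PB
  Pool.STAT Pool.STAT.CLO Pool.GEN Pool.M3F

variable {m J : ℕ}

/-- The time with `P` digits. -/
noncomputable def tP (F : Fam m J) (P : ℕ) (ω : F.Ω) : ℝ :=
  ((F.T ω / 2 ^ (J - P) : ℕ) : ℝ) / 2 ^ P

/-- The exact point of the line at the time with `P` digits. -/
noncomputable def exn (F : Fam m J) (c : ℕ → Fin m) (P : ℕ) (ω : F.Ω) (i : ℕ) : ℝ :=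
  if i = 0 then tP F P ω else F.u ω (c (i - 1)) + tP F P ω * F.d ω (c (i - 1))

/-- The exact point in the scaled coordinates of the labels. -/
noncomputable def xpt (F : Fam m J) (c : ℕ → Fin m) (r W sg P : ℕ) (ω : F.Ω)
    (o : Option (Fin (r + 1))) : ℝ :=
  o.elim (2 ^ W * (exn F c P ω (r + 1) / 2 ^ sg)) (fun i => 2 ^ W * exn F c P ω i)

theorem tP_near {F : Fam m J} {P : ℕ} (hP : P ≤ J) (ω : F.Ω) : |tP F P ω - F.t ω| ≤ 1 / 2 ^ P := by
  have h1 : (2 : ℝ) ^ J = 2 ^ (J - P) * 2 ^ P := by rw [← pow_add, Nat.sub_add_cancel hP]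
  have p1 : (0 : ℝ) < 2 ^ (J - P) := by positivity
  have p2 : (0 : ℝ) < 2 ^ P := by positivity
  have h2 : F.t ω = (F.T ω : ℝ) / 2 ^ (J - P) / 2 ^ P := by
    unfold Fam.t
    rw [h1]
    field_simp
  obtain ⟨q, hq⟩ : ∃ q, q = F.T ω / 2 ^ (J - P) := ⟨_, rfl⟩
  have h3 : (q : ℝ) * 2 ^ (J - P) ≤ F.T ω := by
    have := Nat.div_mul_le_self (F.T ω) (2 ^ (J - P))
    rw [← hq] at this
    exact_mod_cast this
  have h4 : (F.T ω : ℝ) < 2 ^ (J - P) * (q + 1) := by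
    have := Nat.lt_mul_div_succ (F.T ω) (show 0 < 2 ^ (J - P) by positivity)
    rw [← hq] at this
    exact_mod_cast this
  unfold tP
  rw [← hq, h2, ← sub_div, abs_div, abs_of_pos p2]
  refine div_le_div_of_nonneg_right ?_ p2.le
  rw [abs_le]
  constructor
  · have : (F.T ω : ℝ) / 2 ^ (J - P) ≤ q + 1 := by
      rw [div_le_iff₀ p1]
      linarith
    linarith
  · have : (q : ℝ) ≤ F.T ω / 2 ^ (J - P) := by
      rw [le_div_iff₀ p1]
      exact h3
    linarith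

/-- The exact point is near the rounded position. -/
theorem exn_px {F : Fam m J} {P : ℕ} (hP : P ≤ J) (c : ℕ → Fin m) (ω : F.Ω) (i : ℕ) :
    |exn F c P ω i - px c (ptr F J ω) i| ≤ 2 / 2 ^ P := by
  have p2 : (0 : ℝ) < 2 ^ P := by positivity
  have pJ : (0 : ℝ) < 2 ^ J := by positivity
  have ht := tP_near hP ω
  have e2 : (2 : ℝ) / 2 ^ P = 1 / 2 ^ P + 1 / 2 ^ P := by ring
  have hJP : 1 / (2 : ℝ) ^ J ≤ 1 / 2 ^ P :=
    one_div_le_one_div_of_le p2 (pow_le_pow_right₀ (by norm_num) hP)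
  rcases Nat.eq_zero_or_pos i with rfl | hi
  · have h1 : px c (ptr F J ω) 0 = F.t ω := if_pos rfl
    have h2 : exn F c P ω 0 = tP F P ω := if_pos rfl
    rw [h1, h2, e2]
    have : (0 : ℝ) ≤ 1 / 2 ^ P := by positivity
    linarith
  · obtain ⟨i, rfl⟩ : ∃ i', i = i' + 1 := ⟨i - 1, by omega⟩
    rw [px_succ]
    have h2 : exn F c P ω (i + 1) = F.u ω (c i) + tP F P ω * F.d ω (c i) :=
      if_neg (Nat.succ_ne_zero i)
    have h3 : ((ptr F J ω).1 (c i) : ℝ) = (⌊(2 : ℝ) ^ J * F.x ω (c i)⌋ : ℤ) := rfl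
    have h4 : |F.x ω (c i) - (⌊(2 : ℝ) ^ J * F.x ω (c i)⌋ : ℤ) / 2 ^ J| ≤ 1 / 2 ^ J := by
      have a1 := Int.floor_le ((2 : ℝ) ^ J * F.x ω (c i))
      have a2 := Int.lt_floor_add_one ((2 : ℝ) ^ J * F.x ω (c i))
      have e3 : F.x ω (c i) - (⌊(2 : ℝ) ^ J * F.x ω (c i)⌋ : ℤ) / 2 ^ J =
          (2 ^ J * F.x ω (c i) - (⌊(2 : ℝ) ^ J * F.x ω (c i)⌋ : ℤ)) / 2 ^ J := by
        field_simp
      rw [e3, abs_div, abs_of_pos pJ]
      refine div_le_div_of_nonneg_right ?_ pJ.le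
      rw [abs_le]
      constructor <;> linarith
    have h5 : |(tP F P ω - F.t ω) * F.d ω (c i)| ≤ 1 / 2 ^ P := by
      rw [abs_mul]
      have h6 := F.dir ω (c i)
      calc |tP F P ω - F.t ω| * |F.d ω (c i)| ≤ 1 / 2 ^ P * 1 :=
            mul_le_mul ht h6 (abs_nonneg _) (by positivity)
        _ = 1 / 2 ^ P := mul_one _
    rw [h2, h3, e2]
    have e4 : F.u ω (c i) + tP F P ω * F.d ω (c i) - (⌊(2 : ℝ) ^ J * F.x ω (c i)⌋ : ℤ) / 2 ^ J =
        (tP F P ω - F.t ω) * F.d ω (c i) +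
          (F.x ω (c i) - (⌊(2 : ℝ) ^ J * F.x ω (c i)⌋ : ℤ) / 2 ^ J) := by
      unfold Fam.x
      ring
    rw [e4]
    exact (abs_add_le _ _).trans (add_le_add h5 (h4.trans hJP))

/-- **Points near a point of the box.** -/
theorem near_box {Φ : ℕ → PN} (hΦ : TriN Φ) {g : ℕ → ℕ} {n : ℕ} {L δ : ℝ} (hL : 0 ≤ L)
    (hδ : 0 ≤ δ)
    (hgrad : ∀ b : ℕ → ℝ, Bxr 4 g Φ n b → ∀ i ≤ n, ∀ l < i, |eval b (pderiv l (Φ i))| ≤ L)
    {a : ℕ → ℝ} (ha : Bxr 2 g Φ n a) (hδg : ∀ i < n, (1 + n * L) * δ ≤ 2 / 2 ^ g i) :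
    ∀ i ≤ n, (∀ b : ℕ → ℝ, (∀ j, |b j - a j| ≤ δ) → Bxr 4 g Φ i b) ∧
      ∀ b : ℕ → ℝ, (∀ j, |b j - a j| ≤ δ) → |eval b (Φ i) - eval a (Φ i)| ≤ n * L * δ := by
  have key : ∀ i ≤ n, (∀ b : ℕ → ℝ, (∀ j, |b j - a j| ≤ δ) → Bxr 4 g Φ i b) →
      ∀ b : ℕ → ℝ, (∀ j, |b j - a j| ≤ δ) → |eval b (Φ i) - eval a (Φ i)| ≤ n * L * δ := by
    intro i hi hB b hb
    refine (NEAR.mv (hΦ i) a b (fun _ => L) fun t ht0 ht1 l hl _ => ?_).trans ?_
    · have hseg : ∀ j, |(fun j => a j + t * (b j - a j)) j - a j| ≤ δ := by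
        intro j
        have e1 : (fun j => a j + t * (b j - a j)) j - a j = t * (b j - a j) := by
          change a j + t * (b j - a j) - a j = _
          ring
        rw [e1, abs_mul, abs_of_nonneg ht0]
        calc t * |b j - a j| ≤ 1 * δ := mul_le_mul ht1 (hb j) (abs_nonneg _) one_pos.le
          _ = δ := one_mul _
      obtain ⟨b', hb', hB'⟩ := bxr_ext hΦ (by norm_num) (hB _ hseg) n
      have h1 := hgrad b' hB' i hi l hl
      have h2 : eval (fun j => a j + t * (b j - a j)) (pderiv l (Φ i)) =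
          eval b' (pderiv l (Φ i)) :=
        eval_cg ((NEAR.vars_pd (Φ i) l).trans (hΦ i)) fun j hj => (hb' j hj).symm
      rw [h2]
      exact h1
    · calc ∑ l ∈ range i, L * |b l - a l| ≤ ∑ _l ∈ range i, L * δ :=
            Finset.sum_le_sum fun l _ => mul_le_mul_of_nonneg_left (hb l) hL
        _ = i * (L * δ) := by rw [Finset.sum_const, card_range, nsmul_eq_mul]
        _ ≤ n * (L * δ) := by
          have : (i : ℝ) ≤ n := by exact_mod_cast hi
          exact mul_le_mul_of_nonneg_right this (by positivity)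
        _ = n * L * δ := by ring
  intro i
  induction i with
  | zero =>
    intro hi
    have h0 : ∀ b : ℕ → ℝ, (∀ j, |b j - a j| ≤ δ) → Bxr 4 g Φ 0 b :=
      fun b _ j hj => absurd hj (Nat.not_lt_zero j)
    exact ⟨h0, key 0 hi h0⟩
  | succ i ih =>
    intro hi
    obtain ⟨h1, h2⟩ := ih (by omega)
    have h3 : ∀ b : ℕ → ℝ, (∀ j, |b j - a j| ≤ δ) → Bxr 4 g Φ (i + 1) b := by
      intro b hb j hj
      rcases Nat.lt_or_ge j i with hji | hji
      · exact h1 b hb j hji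
      · have : j = i := by omega
        subst this
        have c1 := ha j (by omega)
        have c2 := h2 b hb
        have c3 := hδg j (by omega)
        have c4 := hb j
        have e1 : (4 : ℝ) / 2 ^ g j = 2 / 2 ^ g j + 2 / 2 ^ g j := by ring
        have e2 : (1 + n * L) * δ = δ + n * L * δ := by ring
        rw [e1]
        rw [abs_le] at c1 c2 c4 ⊢
        constructor <;> linarith [c1.1, c1.2, c2.1, c2.2, c4.1, c4.2]
    exact ⟨h3, key (i + 1) hi h3⟩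

/-- **The natural digits of the exact point.** -/
theorem ndg_xpt {F : Fam m J} {c : ℕ → Fin m} {r W sg P : ℕ} {Φ : ℕ → PN} (hΦ : TriN Φ)
    (hWP : W ≤ P) (ω : F.Ω) (i : Fin (r + 1)) :
    ndg (2 ^ (P - W)) (fun i : Fin (r + 1) => toF (r + 1) W (Φ i)) (bse (xpt F c r W sg P ω)) i =
      ⌊(2 : ℝ) ^ P * (exn F c P ω i - eval (exn F c P ω) (Φ i))⌋ := by
  unfold ndg
  congr 1
  rw [eval_toF]
  have h1 : eval (unF (r + 1) W (bse (xpt F c r W sg P ω))) (Φ i) =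
      eval (exn F c P ω) (Φ i) := by
    refine eval_cg (hΦ i) fun j hj => ?_
    have hj' : j < r + 1 := hj.trans i.2
    unfold unF
    rw [dif_pos hj']
    change 2 ^ W * exn F c P ω j / 2 ^ W = exn F c P ω j
    field_simp
  rw [h1]
  change ((2 ^ (P - W) : ℕ) : ℝ) * (2 ^ W * exn F c P ω i - 2 ^ W * eval (exn F c P ω) (Φ i)) = _
  have h2 : (2 : ℝ) ^ P = 2 ^ (P - W) * 2 ^ W := by rw [← pow_add, Nat.sub_add_cancel hWP]
  rw [h2]
  push_cast
  ring

end Pool.JPN
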