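import Pool.Agent.H96.R1.Lbt

/-!
# The labels at two windows, from `TwoW`, with a universal degree of the equation
-/

set_option autoImplicit false

namespace Pool.JPN

open Finset Real
open Pool.Agent.H49.Ent Pool.Agent.H32.Dense Pool.STK Pool.KA Pool.KSAT Pool.K2S Pool.PB
open Pool.GEN Pool.S6C Pool.GRW Pool.PKG
open Pool.CHT (bet)
open Pool.ONE (lst)
open Pool.R1 (TwoW T2c_mono)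

variable {n : ℕ} {hn : 2 ≤ n} {S : PCl n} {P : ℝ → ℝ → ℝ} {ρ : ℝ → ℝ} {θ : ℝ}
  {PP : List (Fin n) × Fin n → ℝ → ℝ → ℝ} {w₀ w₁ α : ℝ} {c₀ c₁ : ℕ → Fin n} {P1 cD : ℝ}

/-- **The labels at two windows of a class.** The degree `Dq` of the equations is universal:
`Pool.JPN.m3d_ex`. -/
theorem lab2_twoD {Dq : ℕ} (hM : M3D (n - 1) Dq)
    (H : TwoW hn S P ρ θ PP w₀ w₁ α c₀ c₁ P1 cD) :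
    ∃ (D D' sh sh₂ K' sh' sh₂' K'' : ℕ) (S₀ E₀ S₀' E₀' : ℝ), sh ≤ sh₂ ∧ 1 ≤ K' ∧
    1 ≤ S₀ ∧ 1 ≤ E₀ ∧ sh' ≤ sh₂' ∧ 1 ≤ K'' ∧ 1 ≤ S₀' ∧ 1 ≤ E₀' ∧
    ∀ δ δ' : ℝ, 0 < δ → 0 < δ' → ∃ K₁ : ℝ, 0 < K₁ ∧ Bas S (fun J F A => ∃ B : F.Ω → Prop,
      Sub B A ∧ Pe F.p A ≤ K₁ * Pe F.p B ∧
      LbX F c₀ (n - 1) ⌊w₀ * J⌋₊ ⌊(1 - cD / 2 - P w₀ w₀) * J⌋₊ D sh sh₂ K' Dq S₀ E₀
        (fun l => bet PP c₀ l w₀ w₀) (P w₀ w₀) (1 - cD / 2)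
        (1 - cD / 2 - max (P w₀ w₀) (bet PP c₀ (n - 2) w₀ w₀)) δ B ∧
      LbX F c₁ (n - 1) ⌊w₁ * J⌋₊ ⌊(1 - cD / 2 - P1) * J⌋₊ D' sh' sh₂' K'' Dq S₀' E₀'
        (fun l => bet PP c₁ l w₁ w₁) P1 (1 - cD / 2)
        (1 - cD / 2 - max P1 (bet PP c₁ (n - 2) w₁ w₁)) δ' B) := by
  obtain ⟨al, g₀, s, d, e, K₀, N, hal, hg₀, hnum, he, hC⟩ := H.cl
  exact lab2D hM hn H.gdy0 H.gdy1 hC.ne (fun τ J F A h =>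
    let q := hC.mem τ J F A h
    ⟨q.1, q.2.1, q.2.2.1, q.2.2.2.1⟩) H.cht H.θ0
    H.tgs H.cD0 H.θ1 H.t1 (T2c_mono H.t2 (by linarith [H.cD0])) H.αP
    (Pool.TOP.q_le H.rate H.cD0 H.cD1) H.w0 H.w01 H.w1α
    H.P01.le H.P11.le H.wgd0 H.wgd1 H.dn0.1 H.dn1.1 H.dn0.2 H.dn1.2 H.ex0 H.ex1

end Pool.JPN
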