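import Pool.Agent.H53.JM.Own1
import Pool.Agent.H53.GEN.Lb2a

/-!
# The chain of a good window with the target on the top, of universal degree

`own_u`: at a good window with finite slopes on the left, the chain of `own_pt` has a degree which
does not depend on the losses.
-/

set_option autoImplicit false

namespace Pool.JPN

open Finset Real MvPolynomial
open Pool.Agent.H49.Ent Pool.Agent.H32.Dense Pool.STK Pool.KA Pool.KSAT Pool.K2S Pool.PB Pool.S6C
open Pool.GEN
open Pool.LBT (ThrOf)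
open Pool.LEV (Law)
open Pool.ONE (tgs)
open Pool.CHT (TmH chsys bet tau Up1 Rc Pts Ptq gpt_of bas_ev Csl)
open Pool.TOP (T1c T2c t1n)
open Pool.JTN (TgP jatn_pts)
open Pool.FRN (Gdy Wgd UpA tgP_of wgd_dense)

variable {m J : ℕ} {θ : ℝ} {S : PCl m} {P : List (Fin m) × Fin m → ℝ → ℝ → ℝ}

/-- **A finite slope on the left**, along the diagonal. -/
def Dn1 (f : ℝ → ℝ → ℝ) (w : ℝ) : Prop :=
  ∃ V o₀ : ℝ, 0 < o₀ ∧ ∀ o, 0 ≤ o → o ≤ o₀ → f w w ≤ f (w - o) (w - o) + V * o

theorem dn_fin {ι : Type} {f : ι → ℝ → ℝ → ℝ} {w : ℝ} (I : Finset ι)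
    (h : ∀ i ∈ I, Dn1 (f i) w) : ∃ V o₀ : ℝ, 0 ≤ V ∧ 0 < o₀ ∧ ∀ i ∈ I, ∀ o, 0 ≤ o → o ≤ o₀ →
      f i w w ≤ f i (w - o) (w - o) + V * o := by
  classical
  induction I using Finset.induction_on with
  | empty => exact ⟨0, 1, le_rfl, one_pos, fun i hi => absurd hi (Finset.notMem_empty i)⟩
  | insert a s ha ih =>
    obtain ⟨V, o₀, h1, h2, h3⟩ := ih fun i hi => h i (Finset.mem_insert_of_mem hi)
    obtain ⟨V', o', h4, h5⟩ := h a (Finset.mem_insert_self a s)
    refine ⟨max V V', min o₀ o', h1.trans (le_max_left _ _), lt_min h2 h4, fun i hi o ho ho' => ?_⟩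
    rcases Finset.mem_insert.1 hi with rfl | hi
    · have h6 := h5 o ho (ho'.trans (min_le_right _ _))
      have h7 := mul_le_mul_of_nonneg_right (le_max_right V V') ho
      linarith
    · have h6 := h3 i hi o ho (ho'.trans (min_le_left _ _))
      have h7 := mul_le_mul_of_nonneg_right (le_max_left V V') ho
      linarith

theorem tgp_mono {c : ℕ → Fin m} {r : ℕ} {P₀ P₁ a w sg : ℝ} (h : TgP S c r P₀ a w sg)
    (hP : P₁ ≤ P₀) : TgP S c r P₁ a w sg := by
  intro ε hε
  obtain ⟨K', K₁, hK₁, hb⟩ := h ε hε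
  refine ⟨K', K₁, hK₁, hb.mono 0 ?_⟩
  rintro J - F A ⟨B, c', i, e', q, h1, h2, h3, h4, h5, h6, h7, h8, h9⟩
  refine ⟨B, c', i, e', q, h1, h2, h3, h4, h5, h6, h7, le_trans ?_ h8, h9⟩
  exact mul_le_mul_of_nonneg_right (by linarith) (Nat.cast_nonneg J)

/-- The growth of a threshold along the diagonal. -/
theorem law_up {f : ℝ → ℝ → ℝ} (h : Law f) {x y : ℝ} (hx : 0 ≤ x) (hxy : x ≤ y) (hy : y ≤ 1) :
    min 1 (f x x + (y - x)) ≤ f y y := by
  have h1 := h.slope x x (y - x) hx le_rfl (by linarith) (by linarith)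
  have e1 : x + (y - x) = y := by ring
  rw [e1] at h1
  exact h1.trans (h.mono_w y x y hx hxy le_rfl hy)

/-- The growing sequence of losses. -/
theorem de_ex (n : ℕ) {C x : ℝ} (hC : 1 ≤ C) (hx : 0 < x) : ∃ de : ℕ → ℝ, 0 < de 0 ∧
    (∀ l, 0 < de l) ∧ (∀ l, l + 1 < n → C * de l < de (l + 1)) ∧ ∀ l < n, de l ≤ x := by
  have hc : (0 : ℝ) < 2 * C := by linarith
  refine ⟨fun l => x / (2 * C) ^ n * (2 * C) ^ l, by positivity, fun l => by positivity,
    fun l _ => ?_, fun l hl => ?_⟩
  · show C * (x / (2 * C) ^ n * (2 * C) ^ l) < x / (2 * C) ^ n * (2 * C) ^ (l + 1)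
    have h1 : 0 < x / (2 * C) ^ n * (2 * C) ^ l := by positivity
    rw [pow_succ, ← mul_assoc]
    nlinarith
  · show x / (2 * C) ^ n * (2 * C) ^ l ≤ x
    rw [div_mul_eq_mul_div, div_le_iff₀ (by positivity)]
    exact mul_le_mul_of_nonneg_left (pow_le_pow_right₀ (by linarith) hl.le) hx.le

/-- The precisions, up to a small error. -/
theorem own_near {x d ε : ℝ} {J : ℕ} (hx : 0 ≤ x) (hd : 0 ≤ d) (hdε : d ≤ ε / 2)
    (hJ : 2 ≤ ε * J) : |(⌊(x - d) * (J : ℝ)⌋₊ : ℝ) - x * J| ≤ ε * J := by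
  have hJ0 : (0 : ℝ) ≤ J := Nat.cast_nonneg J
  have h3 : d * J ≤ ε / 2 * J := mul_le_mul_of_nonneg_right hdε hJ0
  have h4 := Nat.lt_floor_add_one ((x - d) * (J : ℝ))
  have h5 : (⌊(x - d) * (J : ℝ)⌋₊ : ℝ) ≤ x * J := by
    rcases le_or_gt 0 (x - d) with h6 | h6
    · refine (Nat.floor_le (mul_nonneg h6 hJ0)).trans ?_
      exact mul_le_mul_of_nonneg_right (by linarith) hJ0
    · rw [Nat.floor_of_nonpos (mul_nonpos_of_nonpos_of_nonneg h6.le hJ0), Nat.cast_zero]
      positivity
  rw [abs_le]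
  constructor
  · linarith only [h3, h4, hJ]
  · linarith only [h5, hJ]

/-- **The chain of a good window**, with the target on the top, of universal degree. -/
theorem own_u {k : Fin m} {w : ℝ} {c : ℕ → Fin m} (h : Gdy P k w w c) (hne : S.Ne)
    (hP : ThrOf (chsys m θ) S P) (hθ : 0 < θ) (hS : TmH S) {Pt : ℝ → ℝ → ℝ}
    (hPt : ThrOf (tgs k) S (fun _ => Pt)) {α Q sg : ℝ} (hT1 : T1c S k α sg)
    (hT2 : T2c S k α Q sg) (hα : α ≤ 1) (hsgθ : sg + θ < 1) (hQ0 : 0 < Q) (hQ : Q ≤ sg)
    (hw : 0 < w) (hwα : w < α) (hwQ : w ≤ Q) (hwd : w ∈ Wgd P) (hm : 2 ≤ m)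
    (hd : ∀ i, Dn1 (P i) w) (hdt : Dn1 Pt w) :
    ∃ D : ℕ, ∀ ε : ℝ, 0 < ε → ∃ K₁ : ℝ, 0 < K₁ ∧ Bas S (fun J F A => ∃ (B : F.Ω → Prop)
      (e E : ℕ) (g : ℕ → ℕ) (G : PtT F → ℕ → MvPolynomial (Option (Fin m)) ℝ)
      (H : LnT F → ℕ → MvPolynomial (Option (Fin m)) ℝ), Sub B A ∧ Pe F.p A ≤ K₁ * Pe F.p B ∧
      (e : ℝ) ≤ ε * J ∧
      (E : ℝ) ≤ (sg - max (min (Pt w w) Q) (bet P c (m - 2) w w) + ε) * J ∧
      (∀ l < m - 1, |(g l : ℝ) - bet P c l w w * J| ≤ ε * J) ∧
      |(g (m - 1) : ℝ) - min (Pt w w) Q * J| ≤ ε * J ∧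
      ChOK F c (m - 1) (fun _ => D) ⌊w * J⌋₊ ⌊w * J⌋₊ e g B G H ∧
      ChOK F c (m - 1 + 1) (fun _ => D) ⌊w * J⌋₊ ⌊w * J⌋₊ E g B G H) := by
  classical
  have hw1 : w < 1 := hwα.trans_le hα
  have hsg : 0 ≤ sg := by linarith
  have hsg1 : sg < 1 := by linarith
  have hθw : 0 < θ * w := mul_pos hθ hw
  obtain ⟨r, hr⟩ : ∃ r, r = m - 1 := ⟨_, rfl⟩
  have hr1 : 1 ≤ r := by omega
  have hr2 : m - 2 = r - 1 := by omega
  rw [← hr, hr2]
  -- the slopes
  obtain ⟨V, o₀, hV, ho₀, hdV⟩ : ∃ V o₀ : ℝ, 0 ≤ V ∧ 0 < o₀ ∧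
      (∀ l < r, ∀ i < r, ∀ o, 0 ≤ o → o ≤ o₀ →
        tau P c l i w w ≤ tau P c l i (w - o) (w - o) + V * o) ∧
      ∀ o, 0 ≤ o → o ≤ o₀ → Pt w w ≤ Pt (w - o) (w - o) + V * o := by
    obtain ⟨V, o₀, h1, h2, h3⟩ := dn_fin (f := fun x : Option (ℕ × ℕ) =>
      match x with
      | none => Pt
      | some y => tau P c y.1 y.2) (w := w)
      (insert none ((range r ×ˢ range r).image some)) (by
        intro x hx
        rcases x with _ | y
        · exact hdt
        · exact hd _)
    refine ⟨V, o₀, h1, h2, fun l hl i hi o ho ho' => ?_, fun o ho ho' => ?_⟩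
    · exact h3 (some (l, i)) (Finset.mem_insert_of_mem (Finset.mem_image.2 ⟨(l, i), by
        rw [Finset.mem_product, Finset.mem_range, Finset.mem_range]
        exact ⟨hl, hi⟩, rfl⟩)) o ho ho'
    · exact h3 none (Finset.mem_insert_self _ _) o ho ho'
  obtain ⟨hdV, hdPt⟩ := hdV
  have hdb : ∀ l < r, ∀ o, 0 ≤ o → o ≤ o₀ →
      bet P c l w w ≤ bet P c l (w - o) (w - o) + V * o := fun l hl o ho ho' =>
    hdV l hl l hl o ho ho'
  -- the path
  obtain ⟨s, hs⟩ : ∃ s : ℝ, s = min o₀ (min (w / 2) (θ * w / (16 * (V + 1) * (Csl r r + 1)))) :=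
    ⟨_, rfl⟩
  have hs0 : 0 < s := by
    rw [hs]
    exact lt_min ho₀ (lt_min (by positivity) (by positivity))
  have hs1 : s ≤ o₀ := by rw [hs]; exact min_le_left _ _
  have hs2 : s ≤ w / 2 := by rw [hs]; exact (min_le_right _ _).trans (min_le_left _ _)
  have hs3 : s * (16 * (V + 1) * (Csl r r + 1)) ≤ θ * w := by
    have h1 : s ≤ θ * w / (16 * (V + 1) * (Csl r r + 1)) := by
      rw [hs]
      exact (min_le_right _ _).trans (min_le_right _ _)
    rwa [le_div_iff₀ (by positivity)] at h1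
  have hCsl : (0 : ℝ) ≤ Csl r r := Nat.cast_nonneg _
  have hVs0 : 0 ≤ V * s := mul_nonneg hV hs0.le
  have hs4 : 16 * (V * s) ≤ θ * w := by
    have h1 : 16 * (V * s) ≤ s * (16 * (V + 1) * (Csl r r + 1)) := by
      have h2 : s * (16 * (V + 1) * (Csl r r + 1)) = 16 * (V * s) + 16 * s +
          16 * (V + 1) * (s * Csl r r) := by ring
      have h3 : 0 ≤ 16 * (V + 1) * (s * Csl r r) := by positivity
      linarith
    linarith
  have hs5 : Csl r r * (V * s) < θ * w / 8 := by
    have h2 : s * (16 * (V + 1) * (Csl r r + 1)) = 16 * (Csl r r * (V * s)) +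
        16 * (s * Csl r r) + 16 * (V + 1) * s := by ring
    have h3 : 0 ≤ 16 * (s * Csl r r) := by positivity
    have h4 : 0 < 16 * (V + 1) * s := by positivity
    linarith
  obtain ⟨Sl, hSl⟩ : ∃ Sl : ℕ, Sl = max ⌈V⌉₊ (max ⌈2 / s⌉₊ 1) := ⟨_, rfl⟩
  have hSl1 : 1 ≤ Sl := by rw [hSl]; exact (le_max_right _ _).trans (le_max_right _ _)
  have hSlV : V ≤ Sl := by
    have h1 : ⌈V⌉₊ ≤ Sl := by rw [hSl]; exact le_max_left _ _
    exact (Nat.le_ceil V).trans (by exact_mod_cast h1)
  have hSls : 2 ≤ Sl * s := by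
    have h1 : ⌈2 / s⌉₊ ≤ Sl := by
      rw [hSl]
      exact (le_max_left _ _).trans (le_max_right _ _)
    have h2 : 2 / s ≤ Sl := (Nat.le_ceil _).trans (by exact_mod_cast h1)
    rwa [div_le_iff₀ hs0] at h2
  have hSl1' : (1 : ℝ) ≤ Sl := by exact_mod_cast hSl1
  obtain ⟨D, C, hC, hlab⟩ := lab2_absp (r + 1) r Sl (by omega) (by omega) hSl1
  refine ⟨D, fun ε hε => ?_⟩
  -- the numbers
  obtain ⟨b, hb⟩ : ∃ b : ℝ → ℕ → ℝ, b = fun κ l => if l < r then bet P c l (w - κ) (w - κ) else
    min (Pt (w - κ) (w - κ)) (Q - κ) := ⟨_, rfl⟩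
  have hbl : ∀ κ, ∀ l < r, b κ l = bet P c l (w - κ) (w - κ) := fun κ l hl => by
    rw [hb]; exact if_pos hl
  have hbr : ∀ κ, b κ r = min (Pt (w - κ) (w - κ)) (Q - κ) := fun κ => by
    rw [hb]; exact if_neg (lt_irrefl r)
  have hb0l : ∀ l < r, b 0 l = bet P c l w w := fun l hl => by rw [hbl 0 l hl, sub_zero]
  have hb0r : b 0 r = min (Pt w w) Q := by rw [hbr, sub_zero, sub_zero]
  have hbd : ∀ x, 0 < x → x ≤ w → ∀ l < r, bet P c l x x ≤ sg := by
    intro x hx hxw l hl
    refine t1n hT1 hne hP hθ hS hα hsg hsgθ l (h.inj.mono fun y (hy : y < l + 1) => ?_)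
      (fun j hj => h.ne j (by omega)) x x hx le_rfl (by linarith)
    show y < m - 1
    omega
  obtain ⟨μ, hμ⟩ : ∃ μ : ℝ, μ = max (min (Pt w w) Q) (bet P c (r - 1) w w) := ⟨_, rfl⟩
  have hμsg : μ ≤ sg := by
    rw [hμ]
    exact max_le ((min_le_right _ _).trans hQ) (hbd w hw le_rfl (r - 1) (by omega))
  rw [← hμ]
  have hr0 : (0 : ℝ) ≤ (r : ℝ) := Nat.cast_nonneg r
  obtain ⟨ep, hep⟩ : ∃ ep : ℝ, ep = min (θ * w / 8) (min (ε / 4) (ε / (4 * ((r : ℝ) + 1)))) :=
    ⟨_, rfl⟩
  have hep0 : 0 < ep := by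
    rw [hep]
    exact lt_min (by positivity) (lt_min (by positivity) (by positivity))
  have hep1 : ep ≤ θ * w / 8 := by rw [hep]; exact min_le_left _ _
  have hep2 : ep ≤ ε / 4 := by rw [hep]; exact (min_le_right _ _).trans (min_le_left _ _)
  have hep3 : ep * ((r : ℝ) + 1) ≤ ε / 4 := by
    have h1 : ep ≤ ε / (4 * ((r : ℝ) + 1)) := by
      rw [hep]
      exact (min_le_right _ _).trans (min_le_right _ _)
    rw [le_div_iff₀ (by positivity)] at h1
    linarith only [h1]
  obtain ⟨Ee, hEe⟩ : ∃ Ee : ℝ → ℝ, Ee = fun κ => if κ = 0 then sg - μ + ε / 2 else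
    (θ * w / 8 + V * s) * (r + 1) + 2 := ⟨_, rfl⟩
  have hEe0 : Ee 0 = sg - μ + ε / 2 := by rw [hEe]; exact if_pos rfl
  have hEe1 : ∀ κ, κ ≠ 0 → Ee κ = (θ * w / 8 + V * s) * (r + 1) + 2 := fun κ hκ => by
    rw [hEe]; exact if_neg hκ
  obtain ⟨de, hde0, hdep, hdes, hdex⟩ := de_ex (r + 1) hC
    (show 0 < min (w / 2) (ε / (4 * C)) by
      exact lt_min (by positivity) (by positivity))
  have hdew : ∀ l < r + 1, de l ≤ w / 2 := fun l hl => (hdex l hl).trans (min_le_left _ _)
  have hdee : ∀ l < r + 1, C * de l ≤ ε / 4 := by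
    intro l hl
    have h1 : de l ≤ ε / (4 * C) := (hdex l hl).trans (min_le_right _ _)
    rw [le_div_iff₀ (by positivity)] at h1
    linarith
  have hdee' : ∀ l < r + 1, de l ≤ ε / 4 := by
    intro l hl
    have h1 := hdee l hl
    have h2 : 1 * de l ≤ C * de l := mul_le_mul_of_nonneg_right hC (hdep l).le
    linarith
  have hQset : ∀ κ, w - κ ∈ Wgd P → 0 ≤ κ → κ ≤ w - (w - s) → 0 < w - κ ∧ w - κ ≤ w ∧
      w / 2 ≤ w - κ ∧ κ ≤ s := by
    intro κ _ hκ0 hκs
    have : κ ≤ s := by linarith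
    exact ⟨by linarith, by linarith, by linarith, this⟩
  obtain ⟨K₁, hK₁, hbas⟩ := hlab (Sc := S) (c := c) (a := w) (w := w) (v := w - s) (ε := 0)
    (ep := ep) (b := b) (Ee := Ee) (Q := {κ | w - κ ∈ Wgd P}) hS (by
      intro i hi j hj hij
      have hi' : i < r + 1 := hi
      have hj' : j < r + 1 := hj
      rcases Nat.lt_or_ge i r with k1 | k1 <;> rcases Nat.lt_or_ge j r with k2 | k2
      · exact h.inj (show i < m - 1 by omega) (show j < m - 1 by omega) hij
      · have e1 : j = m - 1 := by omega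
        rw [e1, h.top] at hij
        exact absurd hij (h.ne i (by omega))
      · have e1 : i = m - 1 := by omega
        rw [e1, h.top] at hij
        exact absurd hij.symm (h.ne j (by omega))
      · omega) (by linarith) (by linarith) le_rfl hw1 le_rfl (by
      rw [Set.mem_ofPred_eq, sub_zero]
      exact hwd) (by
      intro x y hx hxy hy
      obtain ⟨v, h1, h2, h3⟩ := wgd_dense hP (x := w - y) (y := w - x) (by linarith)
        (by linarith) (by linarith)
      refine ⟨w - v, ?_, by linarith, by linarith⟩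
      rw [Set.mem_ofPred_eq, sub_sub_cancel]
      exact h3) (by
      intro κ hκ hκ0 hκs l hl
      obtain ⟨h1, h2, h3, h4⟩ := hQset κ hκ hκ0 hκs
      have hSκ : V * κ ≤ Sl * κ := mul_le_mul_of_nonneg_right hSlV hκ0
      have hSκ1 : 1 * κ ≤ Sl * κ := mul_le_mul_of_nonneg_right hSl1' hκ0
      rcases Nat.lt_or_ge l r with k1 | k1
      · rw [hbl κ l k1, hb0l l k1]
        refine ⟨hP.low _ _ _ h1.le le_rfl (by linarith), hP.up _ _ _ h1.le le_rfl (by linarith),
          ?_⟩
        have := hdb l k1 κ hκ0 (by linarith)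
        linarith
      · have e1 : l = r := by omega
        subst e1
        rw [hbr κ, hb0r]
        refine ⟨le_min (hPt.low () _ _ h1.le le_rfl (by linarith)) (by linarith),
          (min_le_right _ _).trans (by linarith), ?_⟩
        have h5 := hdPt κ hκ0 (by linarith)
        rw [add_assoc, ← min_add_add_right]
        exact min_le_min (by linarith) (by linarith)) (by
      intro κ hκ κ' hκ' hκ0 hκκ hκs l hl
      obtain ⟨h1, h2, h3, h4⟩ := hQset κ hκ (hκ0.trans hκκ) hκs
      obtain ⟨h1', h2', h3', h4'⟩ := hQset κ' hκ' hκ0 (hκκ.trans hκs)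
      rcases Nat.lt_or_ge l r with k1 | k1
      · rw [hbl κ l k1, hbl κ' l k1]
        have h5 := law_up (hP.law ((List.range l).map c, c l)) h1.le
          (show w - κ ≤ w - κ' by linarith) (by linarith)
        have h6 : bet P c l (w - κ') (w - κ') ≤ sg := hbd _ h1' h2' l k1
        have h7 : min 1 (bet P c l (w - κ) (w - κ) + (w - κ' - (w - κ))) ≤
          bet P c l (w - κ') (w - κ') := h5
        rcases min_le_iff.1 h7 with h8 | h8
        · linarith
        · linarith
      · have e1 : l = r := by omega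
        subst e1
        rw [hbr κ, hbr κ']
        have h7 := law_up (hPt.law ()) h1.le
          (show w - κ ≤ w - κ' by linarith) (by linarith)
        refine le_min ?_ ?_
        · rcases min_le_iff.1 h7 with h8 | h8
          · refine le_trans ?_ h8
            have := min_le_right (Pt (w - κ) (w - κ)) (Q - κ)
            linarith
          · have := min_le_left (Pt (w - κ) (w - κ)) (Q - κ)
            linarith
        · have := min_le_right (Pt (w - κ) (w - κ)) (Q - κ)
          linarith) (by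
      intro N κ hκ φ hφ
      have hk : ∀ k < N, 0 < w - κ k ∧ w - κ k ≤ w ∧ w / 2 ≤ w - κ k ∧ κ k ≤ s := fun k hk =>
        hQset (κ k) (hκ k hk).1 (hκ k hk).2.1 (hκ k hk).2.2
      have hup : ∀ k < N, UpA P (w - κ k) (w - κ k) := fun k hk' => Wgd.self (hκ k hk').1 (by
        have := hk k hk'
        linarith)
      have hVk : ∀ k < N, 0 ≤ V * κ k ∧ V * κ k ≤ V * s := fun k hk' =>
        ⟨mul_nonneg hV (hκ k hk').2.1, mul_le_mul_of_nonneg_left (hk k hk').2.2.2 hV⟩
      obtain ⟨e, he⟩ : ∃ e : ℕ → ℝ, e = fun k => if κ k = 0 then ep else θ * w / 8 := ⟨_, rfl⟩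
      have he0 : ∀ k, κ k = 0 → e k = ep := fun k hk => by rw [he]; exact if_pos hk
      have he1 : ∀ k, κ k ≠ 0 → e k = θ * w / 8 := fun k hk => by rw [he]; exact if_neg hk
      have hptq : Ptq S P θ c r N (fun k => w - κ k) (fun k => w - κ k) (fun k => V * κ k)
          (fun _ => θ * w / 8) := by
        refine Ptq.of_up hne hP hθ hS (by rw [hr]; exact h.inj) (fun k hk' => (hVk k hk').1)
          (fun _ _ => by positivity) (fun k hk' => (hk k hk').1) (fun _ _ => le_rfl)
          (fun k hk' => by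
            have := hk k hk'
            linarith) (fun k hk' => ?_)
          (fun k hk' i _ l _ => (hup k hk').rc (by
            have := hk k hk'
            linarith) c l i) (fun k hk' i _ => (hup k hk').up c i) (fun k hk' i hi => ?_)
          fun k hk' i hi l hl => ?_
        · have h1 := (hVk k hk').2
          have h2 := mul_le_mul_of_nonneg_left (hk k hk').2.2.1 hθ.le
          linarith
        · have h1 := hbd _ (hk k hk').1 (hk k hk').2.1 i hi
          have h2 := mul_le_mul_of_nonneg_left (show w - κ k ≤ 1 by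
            have := hk k hk'
            linarith) hθ.le
          linarith
        · have h1 : bet P c l (w - κ k) (w - κ k) ≤ bet P c l w w :=
            (hP.law _).mono (hk k hk').1.le le_rfl (hk k hk').2.1 (hk k hk').2.1 le_rfl hw1.le
          have h2 : bet P c l w w ≤ tau P c l i w w := h.tau (by omega) hl
          have h3 := hdV l (by omega) i hi (κ k) (hκ k hk').2.1 (by
            have := (hk k hk').2.2.2
            linarith)
          linarith
      have hall : ∀ i, i ≠ c r → ∃ j < r, c j = i := by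
        rw [hr, h.top]
        exact h.all
      have hcr : c r = k := by rw [hr]; exact h.top
      have hT : ∀ k < N, TgP S c r (b (κ k) r) (w - κ k) (w - κ k) sg := by
        intro k hk'
        refine tgp_mono (tgP_of hne hP hθ hS hall (by rw [hcr]; exact hPt)
          (by rw [hcr]; exact hT1) (by rw [hcr]; exact hT2) hα hsgθ hQ0 hQ (hk k hk').1 le_rfl
          (by
            have := hk k hk'
            linarith) (hup k hk') (hκ k hk').1) ?_
        rw [hbr]
        exact min_le_min le_rfl (by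
          have := (hκ k hk').2.1
          linarith)
      have hj := jatn_pts hP hθ hS (c := c) (r := r) (N := N) (by rw [hr]; exact h.inj)
        (a := fun k => w - κ k) (w := fun k => w - κ k) (vs := fun k => V * κ k)
        (e₀ := fun _ => θ * w / 8) (e := e) (E := fun k => Ee (κ k)) (sg := fun _ => sg)
        (P₀ := fun k => b (κ k) r) (fun k hk' => (hVk k hk').1) hptq (fun k hk' => by
          by_cases h0 : κ k = 0
          · rw [he0 k h0, h0, mul_zero, mul_zero]
            exact hep0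
          · rw [he1 k h0]
            refine lt_of_le_of_lt ?_ hs5
            exact mul_le_mul_of_nonneg_left (hVk k hk').2 hCsl) (fun k hk' => by
          by_cases h0 : κ k = 0
          · rw [he0 k h0]
            exact hep1
          · rw [he1 k h0]) (fun k hk' => by
          rw [hbr]
          exact le_min (hPt.low () _ _ (hk k hk').1.le le_rfl (by
            have := hk k hk'
            linarith)) (by linarith)) hT (fun k' hk1 k hk2 ha _ => by
          rw [hbr, hbr]
          refine min_le_min ?_ (by linarith)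
          exact (hPt.law ()).mono (hk k hk2).1.le le_rfl ha ha le_rfl (by
            have := hk k' hk1
            linarith)) (fun k hk' => by
          by_cases h0 : κ k = 0
          · rw [he0 k h0, h0, hEe0, mul_zero, add_zero]
            linarith only [hep3, hμsg, hε]
          · rw [he1 k h0, hEe1 _ h0]
            have h1 := mul_le_mul_of_nonneg_right (add_le_add_right (hVk k hk').2 (θ * w / 8))
              (by linarith : (0 : ℝ) ≤ (r : ℝ) + 1)
            linarith) (fun k hk' => by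
          by_cases h0 : κ k = 0
          · rw [h0, hEe0, hb0r, sub_zero]
            rcases le_total (bet P c (r - 1) w w) (min (Pt w w) Q) with h1 | h1
            · left
              rw [hμ, max_eq_left h1]
              linarith only [hε]
            · right
              refine ⟨hr1, ?_⟩
              rw [hμ, max_eq_right h1]
              linarith only [hε]
          · left
            rw [hEe1 _ h0, hbr]
            have h1 : 0 ≤ min (Pt (w - κ k) (w - κ k)) (Q - κ k) := le_min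
              ((hk k hk').1.le.trans (hPt.low () _ _ (hk k hk').1.le le_rfl (by
                have := hk k hk'
                linarith))) (by
                have := hk k hk'
                linarith)
            have h2 : 0 ≤ (θ * w / 8 + V * s) * ((r : ℝ) + 1) := by positivity
            linarith)
      obtain ⟨K, d, δ, K₁, hK₁, h1, h2⟩ := hj φ hφ
      refine ⟨K, d, δ, K₁, hK₁, fun l hl => ?_, h2.mono 0 ?_⟩
      · obtain ⟨h3, h4, h5, h6⟩ := h1 l (by omega)
        exact ⟨h3, h4, h6⟩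
      · rintro J - F A ⟨B, G, H, k1, k2, k3, k4⟩
        have hval : ∀ k l, (if l < r then bet P c l (w - κ k) (w - κ k) else b (κ k) r) =
            b (κ k) l := by
          intro k l
          split_ifs with h3
          · rw [hbl _ _ h3]
          · rw [hb]
            show (if r < r then _ else _) = if l < r then _ else _
            rw [if_neg (lt_irrefl r), if_neg h3]
        simp only [hval] at k3 k4
        refine ⟨B, G, H, k1, k2, k3, fun k hk' h0 => ?_⟩
        have h3 := k4 k hk'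
        rw [he0 k h0] at h3
        exact h3)
    (by rw [sub_sub_cancel]; exact hSls) (by rw [hEe0]; linarith) hep0.le de hde0 (by rw [mul_zero]; exact hde0) hdes (fun l hl => by
      have := hdew l hl
      linarith)
  obtain ⟨J₁, hJ₁⟩ := exists_nat_ge (2 / ε)
  refine ⟨K₁, hK₁, hbas.mono J₁ ?_⟩
  rintro J hJ F A ⟨B, G, H, k1, k2, k3, k4⟩
  have hJ0 : (0 : ℝ) ≤ J := Nat.cast_nonneg J
  have hJ' : (J₁ : ℝ) ≤ J := by exact_mod_cast hJ
  have e1 : 2 / ε ≤ J := hJ₁.trans hJ'
  rw [div_le_iff₀ hε, mul_comm] at e1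
  have e2 : r + 1 - 1 = r := by omega
  rw [e2] at k3 k4
  refine ⟨B, ⌊(ep + C * de r) * J⌋₊, ⌊(Ee 0 + C * de r) * J⌋₊, fun l => ⌊(b 0 l - de l) * J⌋₊,
    G, H, k1, k2, ?_, ?_, fun l hl => ?_, ?_, k4, k3⟩
  · have h1 := hdee r (by omega)
    have h2 := hdep r
    refine (Nat.floor_le (mul_nonneg (by positivity) hJ0)).trans ?_
    exact mul_le_mul_of_nonneg_right (by linarith) hJ0
  · have h1 := hdee r (by omega)
    have h2 := hdep r
    have h3 : 0 ≤ C * de r := by positivity
    rw [hEe0]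
    refine (Nat.floor_le (mul_nonneg (by linarith) hJ0)).trans ?_
    exact mul_le_mul_of_nonneg_right (by linarith) hJ0
  · have h1 := hdee' l (by omega)
    show |((⌊(b 0 l - de l) * J⌋₊ : ℕ) : ℝ) - _| ≤ _
    rw [hb0l l hl]
    exact own_near (hw.le.trans (hP.low _ w w hw.le le_rfl hw1.le)) (hdep l).le (by linarith) e1
  · have h1 := hdee' r (by omega)
    show |((⌊(b 0 r - de r) * J⌋₊ : ℕ) : ℝ) - _| ≤ _
    rw [hb0r]
    exact own_near (le_min (hw.le.trans (hPt.low () w w hw.le le_rfl hw1.le)) hQ0.le)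
      (hdep r).le (by linarith) e1

end Pool.JPN
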