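import Pool.Agent.H53.JM.Tilt

/-!
# The law of pairs, restricted to an event of pairs, in a class

`full_E`: for every event `E` of pairs of probability at least `κ` there are an event `B` and a law
`Q` of pairs on `E`, with first marginal the conditional law of `B` and bounded density; the position
of the first sample is full given its time, the time of the second sample and every label of the
second sample which is closed at the window `w₁`, and also given its own closed labels.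
-/

set_option autoImplicit false

namespace Pool.JPR

open Finset Real
open Pool.Agent.H49.Ent Pool.Agent.H32.Dense Pool.STK Pool.KA Pool.KSAT Pool.K2S Pool.PB
  Pool.GEN Pool.KM7 Pool.S6C Pool.M3F
open Pool.GRW (TmWn)

variable {m k J : ℕ}

/-- Exactness for the members, with positive probability. -/
theorem exv_pos {S : PCl m} {w : ℝ} {β : Type} {Y : ∀ (J : ℕ) (F : Fam m J), F.Ω → β} {b : ℝ}
    (hex : ExvY S w Y b) {ρ : ℝ} (hρ : 0 < ρ) :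
    Bas S (fun J F A => ∀ (V : Type) (z : PtT F → V) (z' : LnT F → V),
      (∀ ω, A ω → z (ptr F J ω) = z' (slam F ⌊w * J⌋₊ ω)) →
      (b - ρ) * Real.log 2 * J ≤ CH (Pool.Agent.H49.Ent.cond F.p A True) (Y J F)
        (fun ω => (z' (slam F ⌊w * J⌋₊ ω), F.W ω))) := by
  have hl2 : 0 < Real.log 2 := Real.log_pos one_lt_two
  refine Bas.mono 0 hex fun J _ F A h V z z' hz => ?_
  refine le_trans ?_ (h V z z' hz)
  have hJ0 : (0 : ℝ) ≤ J := Nat.cast_nonneg J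
  exact mul_le_mul_of_nonneg_right (mul_le_mul_of_nonneg_right (by linarith) hl2.le) hJ0

/-- **(FULL_E)**. -/
theorem full_E (h : KP k) {S : PCl m} {w₀ w₁ : ℝ} (hw1 : w₀ ≤ 1)
    (htm : TmWn S w₀) {c : Fin k → Fin m} {b : ℝ}
    (hex : ExvY S w₁ (fun J F ω (i : Fin k) => F.X J ω (c i)) b) {Φ : Stat m} (hΦ : Bas S Φ)
    {κ : ℝ} (hκ : 0 < κ) (hκ1 : κ ≤ 1) {ρ : ℝ} (hρ : 0 < ρ) :
    Bas S (fun J F A => 0 < Pe F.p A ∧ ∀ E : F.Ω × F.Ω → Prop,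
      κ ≤ Pe (P2 (Pool.Agent.H49.Ent.cond F.p A True) (slam F ⌊w₀ * J⌋₊)) E →
      ∃ (B : F.Ω → Prop) (Q : F.Ω × F.Ω → ℝ), Sub B A ∧ κ / 2 * Pe F.p A ≤ Pe F.p B ∧
        Φ J F B ∧ IsLaw Q ∧ Psh Q Prod.fst (Pool.Agent.H49.Ent.cond F.p B True) ∧
        (∀ e, 0 < Q e → E e ∧ B e.1 ∧ A e.2 ∧
          slam F ⌊w₀ * J⌋₊ e.1 = slam F ⌊w₀ * J⌋₊ e.2) ∧
        (∀ e, Q e ≤ 4 / κ ^ 2 *
          P2 (Pool.Agent.H49.Ent.cond F.p A True) (slam F ⌊w₀ * J⌋₊) e) ∧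
        ∀ (V : Type) (z : PtT F → V) (z' : LnT F → V),
          (∀ ω, A ω → z (ptr F J ω) = z' (slam F ⌊w₁ * J⌋₊ ω)) →
          (b - ρ) * Real.log 2 * J ≤ CH Q (fun e i => F.X J e.1 (c i))
            (fun e => (F.T e.1, (z' (slam F ⌊w₁ * J⌋₊ e.2), F.W e.2))) ∧
          (b - ρ) * Real.log 2 * J ≤ CH Q (fun e i => F.X J e.1 (c i))
            (fun e => (z' (slam F ⌊w₁ * J⌋₊ e.1), F.W e.1))) := by
  classical
  have hC : (1 : ℝ) ≤ 4 / κ ^ 2 := by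
    rw [le_div_iff₀ (by positivity)]
    nlinarith
  refine ((full_dens h hw1 htm hex hC hρ).and (bas_big (Bas.and (exv_pos hex hρ) hΦ)
    (κ := κ / 2) (by positivity))).mono 0 ?_
  rintro J - F A ⟨⟨h1, h2⟩, h3⟩
  refine ⟨h1, fun E hE => ?_⟩
  have hl := isLaw_cond F.isLaw h1
  obtain ⟨B₀, Q, b1, b2, b3, b4, b5, b6⟩ := tilt hl (slam F ⌊w₀ * J⌋₊) E hκ hE
  have hB : κ / 2 * Pe F.p A ≤ Pe F.p (fun ω => A ω ∧ B₀ ω) := by
    rw [Pe_cnd, le_div_iff₀ h1] at b1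
    exact b1
  rw [cond_and F.p h1.ne'] at b3
  obtain ⟨h4, h5⟩ := h3 (fun ω => A ω ∧ B₀ ω) (fun ω h => h.1) hB
  have hsup : ∀ e, 0 < Q e → A e.1 ∧ A e.2 ∧ slam F ⌊w₀ * J⌋₊ e.1 = slam F ⌊w₀ * J⌋₊ e.2 := by
    intro e he
    obtain ⟨c1, c2, c3⟩ := (P2_pos hl e).1 (dens_sup hl b6 he)
    exact ⟨of_eq_true ((cond_pos_iff F.isLaw.nonneg A True e.1).1 c1).2,
      of_eq_true ((cond_pos_iff F.isLaw.nonneg A True e.2).1 c2).2, c3⟩
  refine ⟨fun ω => A ω ∧ B₀ ω, Q, fun ω h => h.1, hB, h5, b2, b3, fun e he => ?_, b6,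
    fun V z z' hz => ⟨h2 Q b2 b6 V z z' hz, ?_⟩⟩
  · obtain ⟨c1, c2, c3⟩ := hsup e he
    exact ⟨b4 e he, ⟨c1, b5 e he⟩, c2, c3⟩
  · have h6 := h4 V z z' fun ω h => hz ω h.1
    rw [← b3.CH_eq (fun ω (i : Fin k) => F.X J ω (c i))
      (fun ω => (z' (slam F ⌊w₁ * J⌋₊ ω), F.W ω))] at h6
    exact h6

end Pool.JPR
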