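import Pool.Agent.H80.GEN.NumA
import Pool.Agent.H53.JM.FullE

/-!
# The rate of the rows, for all digits, for laws over a family

`rate_unif`: the rate for all numbers of digits. `nf_pair`: the entropy of the rows of a coordinate,
given all the digits of the other coordinates, for a law whose image is the conditional law of an
event; the coordinate has a weight.
-/

set_option autoImplicit false

namespace Pool.JPN

open Finset Real
open Pool.Agent.H49.Ent Pool.Agent.H32.Dense Pool.STK Pool.KA Pool.KSAT Pool.K2S Pool.PB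
  Pool.GEN Pool.KM7 Pool.S6C Pool.M3F
open Pool.ALL (RateOf)
open Pool.GEN.N83 (oth)

variable {m J : ℕ}

/-- Coarser digits are a function of finer digits. -/
theorem X_coarse (F : Fam m J) {r r' : ℕ} (h : r ≤ r') (k : Fin m) (ω : F.Ω) :
    F.X r ω k = F.X r' ω k / 2 ^ (r' - r) := by
  have h1 : (2 : ℝ) ^ r * F.x ω k = (2 ^ r' * F.x ω k) / ((2 ^ (r' - r) : ℕ) : ℝ) := by
    have : (2 : ℝ) ^ r' = 2 ^ r * 2 ^ (r' - r) := by
      rw [← pow_add]; congr 1; omega
    rw [this]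
    push_cast
    field_simp
  change ⌊(2 : ℝ) ^ r * F.x ω k⌋ = ⌊(2 : ℝ) ^ r' * F.x ω k⌋ / 2 ^ (r' - r)
  rw [h1, Int.floor_div_natCast]
  push_cast
  rfl

/-- More digits have more entropy. -/
theorem X_mono {F : Fam m J} {p : F.Ω → ℝ} (hp : IsLaw p) (κ : Fin m) {n n' : ℕ} (h : n ≤ n')
    {β : Type} (Y : F.Ω → β) :
    CH p (fun ω => F.X n ω κ) Y ≤ CH p (fun ω => F.X n' ω κ) Y := by
  refine CH_mono_left hp.nonneg fun ω ω' _ _ e => ?_
  have e1 : F.X n' ω κ = F.X n' ω' κ := (Prod.ext_iff.1 e).1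
  rw [X_coarse F h κ ω, X_coarse F h κ ω', e1]

/-- **The rate for all numbers of digits.** -/
theorem rate_unif {S : PCl m} {κ : Fin m} {r : ℝ → ℝ} (hr : RateOf S κ r)
    (hpos : Bas S (fun _ F A => 0 < Pe F.p A)) {h : ℝ} (hh : 0 < h) :
    Bas S (fun J F A => ∀ n ≤ J, |CH (Pool.Agent.H49.Ent.cond F.p A True)
      (fun ω => F.X n ω κ) (fun ω => oth κ J F (ptr F J ω)) -
      r ((n : ℝ) / J) * Real.log 2 * J| ≤ h * J) := by
  have hl2 : 0 < Real.log 2 := Real.log_pos one_lt_two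
  have hl21 : Real.log 2 ≤ 1 := by
    have := Real.log_le_sub_one_of_pos (show (0 : ℝ) < 2 by norm_num)
    linarith
  obtain ⟨M, hM⟩ := exists_nat_ge (2 / h)
  have hM0 : (0 : ℝ) < M := lt_of_lt_of_le (by positivity) hM
  have hMh : 1 / (M : ℝ) ≤ h / 2 := by
    rw [div_le_iff₀ hM0]
    rw [div_le_iff₀ hh] at hM
    linarith
  have h1 : Bas S (fun J F A => ∀ i < M + 1, |CH (Pool.Agent.H49.Ent.cond F.p A True)
      (fun ω => F.X ⌊((i : ℝ) / M) * J⌋₊ ω κ) (fun ω => oth κ J F (ptr F J ω)) -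
      r ((i : ℝ) / M) * Real.log 2 * J| ≤ h / 2 * J) := by
    refine Bas.all (M + 1) (Φ := fun i J F A => |CH (Pool.Agent.H49.Ent.cond F.p A True)
      (fun ω => F.X ⌊((i : ℝ) / M) * J⌋₊ ω κ) (fun ω => oth κ J F (ptr F J ω)) -
      r ((i : ℝ) / M) * Real.log 2 * J| ≤ h / 2 * J) fun i hi => ?_
    refine hr.num ((i : ℝ) / M) (by positivity) ?_ (h / 2) (by positivity)
    rw [div_le_one hM0]
    exact_mod_cast (by omega : i ≤ M)
  refine (h1.and hpos).mono 1 ?_
  rintro J hJ F A ⟨h2, hA⟩ n hn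
  have hq := isLaw_cond F.isLaw hA
  have hJ0 : (0 : ℝ) < J := by exact_mod_cast hJ
  have hMn : 0 < M := by exact_mod_cast hM0
  obtain ⟨i, hi⟩ : ∃ i, i = n * M / J := ⟨_, rfl⟩
  have hi1 : i * J ≤ n * M := by
    rw [hi]
    exact Nat.div_mul_le_self _ _
  have hi2 : n * M < (i + 1) * J := by
    rw [hi]
    have := Nat.lt_div_mul_add (a := n * M) (b := J) (by omega)
    rw [Nat.add_mul, Nat.one_mul]
    exact this
  have hiM : i ≤ M := by
    by_contra hc
    push Not at hc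
    have : M * J < i * J := Nat.mul_lt_mul_of_pos_right hc hJ
    have h3 : n * M ≤ J * M := Nat.mul_le_mul_right _ hn
    nlinarith
  have hi1' : (i : ℝ) * J ≤ n * M := by exact_mod_cast hi1
  have hi2' : (n : ℝ) * M < (i + 1) * J := by exact_mod_cast hi2
  -- the lower bound
  have a1 : ⌊((i : ℝ) / M) * J⌋₊ ≤ n := by
    refine Nat.floor_le_of_le ?_
    rw [div_mul_eq_mul_div, div_le_iff₀ hM0]
    exact hi1'
  have a2 := X_mono hq κ a1 (fun ω => oth κ J F (ptr F J ω))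
  have a3 := (abs_le.1 (h2 i (by omega))).1
  have a4 : (i : ℝ) / M ≤ n / J := by
    rw [div_le_div_iff₀ hM0 hJ0]
    exact hi1'
  have lip : ∀ x y : ℝ, x ≤ y → r y ≤ r x + (y - x) := by
    intro x y hxy
    have := hr.lip.dist_le_mul y x
    rw [NNReal.coe_one, one_mul, Real.dist_eq, Real.dist_eq, abs_of_nonneg (by linarith :
      (0 : ℝ) ≤ y - x)] at this
    linarith [(abs_le.1 this).2]
  have a5 := lip _ _ a4
  have a6 : (n : ℝ) / J ≤ (i + 1) / M := by
    rw [div_le_div_iff₀ hJ0 hM0]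
    exact hi2'.le
  have a7 : ((i : ℝ) + 1) / M = i / M + 1 / M := by ring
  have low : r ((n : ℝ) / J) * Real.log 2 * J - h * J ≤
      CH (Pool.Agent.H49.Ent.cond F.p A True) (fun ω => F.X n ω κ)
        (fun ω => oth κ J F (ptr F J ω)) := by
    have b1 : r ((n : ℝ) / J) ≤ r ((i : ℝ) / M) + h / 2 := by linarith
    have b2 : r ((n : ℝ) / J) * Real.log 2 * J ≤ (r ((i : ℝ) / M) + h / 2) * Real.log 2 * J :=
      mul_le_mul_of_nonneg_right (mul_le_mul_of_nonneg_right b1 hl2.le) hJ0.le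
    have b3 : h / 2 * Real.log 2 * J ≤ h / 2 * 1 * J :=
      mul_le_mul_of_nonneg_right (mul_le_mul_of_nonneg_left hl21 (by positivity)) hJ0.le
    linarith
  have upp : CH (Pool.Agent.H49.Ent.cond F.p A True) (fun ω => F.X n ω κ)
        (fun ω => oth κ J F (ptr F J ω)) ≤ r ((n : ℝ) / J) * Real.log 2 * J + h * J := by
    rcases Nat.lt_or_ge i M with hlt | hge
    · have c1 : n ≤ ⌊(((i + 1 : ℕ) : ℝ) / M) * J⌋₊ := by
        refine Nat.le_floor ?_
        rw [div_mul_eq_mul_div, le_div_iff₀ hM0]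
        push_cast
        exact hi2'.le
      have c2 := X_mono hq κ c1 (fun ω => oth κ J F (ptr F J ω))
      have c3 := (abs_le.1 (h2 (i + 1) (by omega))).2
      have c4 : r (((i + 1 : ℕ) : ℝ) / M) ≤ r ((n : ℝ) / J) + h / 2 := by
        have c5 : (n : ℝ) / J ≤ ((i + 1 : ℕ) : ℝ) / M := by
          push_cast
          exact a6
        have c6 := lip _ _ c5
        have c7 : (((i + 1 : ℕ) : ℝ)) / M = i / M + 1 / M := by
          push_cast
          ring
        rw [c7] at c6 ⊢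
        linarith
      have b2 : r (((i + 1 : ℕ) : ℝ) / M) * Real.log 2 * J ≤
          (r ((n : ℝ) / J) + h / 2) * Real.log 2 * J :=
        mul_le_mul_of_nonneg_right (mul_le_mul_of_nonneg_right c4 hl2.le) hJ0.le
      have b3 : h / 2 * Real.log 2 * J ≤ h / 2 * 1 * J :=
        mul_le_mul_of_nonneg_right (mul_le_mul_of_nonneg_left hl21 (by positivity)) hJ0.le
      linarith
    · have e1 : i = M := le_antisymm hiM hge
      have e2 : n = J := by
        refine le_antisymm hn ?_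
        rw [e1] at hi1
        have : J * M ≤ n * M := by linarith
        exact Nat.le_of_mul_le_mul_right this hMn
      have c3 := (abs_le.1 (h2 i (by omega))).2
      rw [e1, div_self hM0.ne', one_mul, Nat.floor_natCast] at c3
      rw [e2, div_self hJ0.ne']
      have : 0 ≤ h / 2 * J := by positivity
      linarith
  exact abs_le.2 ⟨by linarith, by linarith⟩

/-- **The rows of one coordinate** given fewer digits and all the digits of the others. -/
theorem rate_row {S : PCl m} {κ : Fin m} {r : ℝ → ℝ} (hr : RateOf S κ r)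
    (hpos : Bas S (fun _ F A => 0 < Pe F.p A)) {h : ℝ} (hh : 0 < h) :
    Bas S (fun J F A => ∀ n n', n ≤ n' → n' ≤ J → CH (Pool.Agent.H49.Ent.cond F.p A True)
      (fun ω => F.X n' ω κ) (fun ω => (F.X n ω κ, oth κ J F (ptr F J ω))) ≤
      (r ((n' : ℝ) / J) - r ((n : ℝ) / J)) * Real.log 2 * J + h * J) := by
  refine ((rate_unif hr hpos (half_pos hh)).and hpos).mono 0 ?_
  rintro J - F A ⟨h1, hA⟩ n n' hn hn'
  have hq := isLaw_cond F.isLaw hA
  have h2 := (abs_le.1 (h1 n (hn.trans hn'))).1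
  have h3 := (abs_le.1 (h1 n' hn')).2
  have h4 := CH_chain hq.nonneg (fun ω => F.X n' ω κ) (fun ω => F.X n ω κ)
    (fun ω => oth κ J F (ptr F J ω))
  have h5 : CH (Pool.Agent.H49.Ent.cond F.p A True) (fun ω => (F.X n' ω κ, F.X n ω κ))
      (fun ω => oth κ J F (ptr F J ω)) ≤
      CH (Pool.Agent.H49.Ent.cond F.p A True) (fun ω => F.X n' ω κ)
        (fun ω => oth κ J F (ptr F J ω)) := by
    refine CH_mono_left hq.nonneg fun ω ω' _ _ e => ?_
    have e1 : F.X n' ω κ = F.X n' ω' κ := (Prod.ext_iff.1 e).1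
    refine Prod.ext e1 ?_
    change F.X n ω κ = F.X n ω' κ
    rw [X_coarse F hn κ ω, X_coarse F hn κ ω', e1]
  linarith

/-- The digits of a coordinate with a weight. -/
theorem X_wt (F : Fam m J) (κ : Fin m) {n sg : ℕ} (h : sg ≤ n) (ω : F.Ω) :
    ⌊(2 : ℝ) ^ n * (F.x ω κ / 2 ^ sg)⌋ = F.X (n - sg) ω κ := by
  change _ = ⌊(2 : ℝ) ^ (n - sg) * F.x ω κ⌋
  congr 1
  obtain ⟨d, rfl⟩ := Nat.exists_eq_add_of_le h
  rw [Nat.add_sub_cancel_left, pow_add]
  field_simp

/-- **The rows of the target**, for laws over a family. -/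
theorem nf_pair {S : PCl m} {κ : Fin m} {r : ℝ → ℝ} (hr : RateOf S κ r)
    (hpos : Bas S (fun _ F A => 0 < Pe F.p A)) {h : ℝ} (hh : 0 < h) :
    Bas S (fun J F B => ∀ (E : Type) [Fintype E] (Q : E → ℝ) (pr : E → F.Ω), IsLaw Q →
      Psh Q pr (Pool.Agent.H49.Ent.cond F.p B True) →
      ∀ (k : ℕ) (c : Fin k → Fin m), (∀ j, j ≠ κ → ∃ i, c i = j) →
      ∀ (β : Type) (W : E → β),
      (∀ e e', 0 < Q e → 0 < Q e' → W e = W e' → F.W (pr e) = F.W (pr e')) →
      ∀ sg n₁ n₂ : ℕ, sg ≤ n₁ → n₁ ≤ n₂ → n₂ ≤ J + sg →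
      CH Q (fun e => ⌊(2 : ℝ) ^ n₂ * (F.x (pr e) κ / 2 ^ sg)⌋)
        (fun e => (⌊(2 : ℝ) ^ n₁ * (F.x (pr e) κ / 2 ^ sg)⌋,
          ((fun i => F.X J (pr e) (c i)), W e))) ≤
      (r (((n₂ - sg : ℕ) : ℝ) / J) - r (((n₁ - sg : ℕ) : ℝ) / J)) * Real.log 2 * J + h * J) := by
  refine (rate_row hr hpos hh).mono 0 ?_
  intro J _ F B h1 E _ Q pr hQ hP k c hc β W hW sg n₁ n₂ hs h12 h2
  refine le_trans ?_ (h1 (n₁ - sg) (n₂ - sg) (Nat.sub_le_sub_right h12 _) (by omega))
  rw [← Psh.CH_eq hP]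
  have e1 : (fun e => ⌊(2 : ℝ) ^ n₂ * (F.x (pr e) κ / 2 ^ sg)⌋) =
      fun e => F.X (n₂ - sg) (pr e) κ := funext fun e => X_wt F κ (hs.trans h12) (pr e)
  rw [e1]
  refine CH_mono_cond hQ.nonneg fun e e' he he' hee => ?_
  simp only [Prod.mk.injEq] at hee ⊢
  obtain ⟨g1, g2, g3⟩ := hee
  rw [X_wt F κ hs, X_wt F κ hs] at g1
  refine ⟨g1, ?_⟩
  have g4 := hW e e' he he' g3
  unfold oth ptr
  refine Prod.ext (funext fun j => ?_) g4
  change Function.update (F.X J (pr e)) κ 0 j = Function.update (F.X J (pr e')) κ 0 j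
  by_cases hj : j = κ
  · rw [hj, Function.update_self, Function.update_self]
  · rw [Function.update_of_ne hj, Function.update_of_ne hj]
    obtain ⟨i, rfl⟩ := hc j hj
    exact congrFun g2 i

end Pool.JPN
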