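import Pool.Agent.H53.JM.Dens

/-!
# The law of pairs: laws of bounded density, restriction to an event of pairs

`two_pair`: the two-time theorem for laws of pairs of samples with the same line and window.
`dens_gen`, `dens_class`: for the laws of bounded density with respect to the law of pairs.
`dens_exv`: exactness for laws of bounded density. `full_dens`: both together.
`tilt`: restriction to an event of pairs, such that the first marginal is the conditional law of an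
event.
-/

set_option autoImplicit false

namespace Pool.JPR

open Finset Real
open Pool.Agent.H49.Ent Pool.Agent.H32.Dense Pool.STK Pool.KA Pool.KSAT Pool.K2S Pool.PB
  Pool.GEN Pool.KM7 Pool.S6C Pool.M3F
open Pool.GRW (TmWn)

variable {m k J : ℕ}

/-- **The family of the second samples** under a law `Q` of pairs, in the coordinates `c`. -/
noncomputable def prQ (F : Fam m J) (c : Fin k → Fin m) (Q : F.Ω × F.Ω → ℝ) (hQ : IsLaw Q) :
    Fam k J where
  Ω := F.Ω × F.Ω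
  ζ := F.ζ
  fin := inferInstance
  p := Q
  u := fun e i => F.u e.2 (c i)
  d := fun e i => F.d e.2 (c i)
  T := fun e => F.T e.2
  Z := fun e => F.Z e.2
  isLaw := hQ
  dir := fun e i => F.dir e.2 (c i)
  tim := fun e => F.tim e.2

/-- The time of the first sample from the window and the time in the window. -/
theorem tau1_T' (F : Fam m J) (w : ℕ) {e : F.Ω × F.Ω} (he : slam F w e.1 = slam F w e.2) :
    F.T e.2 / 2 ^ (J - w) * 2 ^ (J - w) + (tau1 F w e : ℕ) = F.T e.1 := by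
  have h : F.T1 w e.1 = F.T1 w e.2 := (Prod.ext_iff.1 (Prod.ext_iff.1 he).2).2
  unfold Fam.T1 at h
  rw [← h]
  exact Nat.div_add_mod' (F.T e.1) (2 ^ (J - w))

/-- **Two times of one line** for a law of pairs of samples. -/
theorem two_pair (h : KP k) : ∀ ε > 0, ∃ θ > 0, ∃ J₀ : ℕ, ∀ J ≥ J₀, ∀ (m : ℕ) (F : Fam m J)
    (c : Fin k → Fin m) (w : ℕ), w ≤ J → ∀ Q : F.Ω × F.Ω → ℝ, IsLaw Q →
    (∀ e, 0 < Q e → slam F w e.1 = slam F w e.2) → ∀ (κ : Type) (K : F.Ω × F.Ω → κ),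
    ((J - w : ℕ) : ℝ) * Real.log 2 - θ * J ≤
      CH Q (tau1 F w) (fun e => (F.l e.2, (K e, F.W e.2))) →
    CH Q (fun e i => F.X J e.2 (c i)) (fun e => (tau1 F w e, (K e, F.W e.2))) ≤
      CH Q (fun e i => F.X J e.1 (c i)) (fun e => (F.T e.1, (K e, F.W e.2))) + ε * J := by
  intro ε hε
  obtain ⟨θ, hθ, J₀, htwo⟩ := Pool.TWG.two_time_gen h ε hε
  refine ⟨θ, hθ, J₀, fun J hJ m F c w hw Q hQ hs κ K hf => ?_⟩
  have hq0 := hQ.nonneg
  have hmain := htwo J hJ (prQ F c Q hQ) w hw κ K (tau1 F w) (by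
    refine hf.trans ?_
    refine CH_mono_cond hq0 fun e e' _ _ h => ?_
    have h1 := Prod.ext_iff.1 h
    have h2 : F.l e.2 = F.l e'.2 := h1.1
    have h3 : (K e, F.W e.2) = (K e', F.W e'.2) := h1.2
    have h4 : F.u e.2 = F.u e'.2 := (Prod.ext_iff.1 h2).1
    have h5 : F.d e.2 = F.d e'.2 := (Prod.ext_iff.1 h2).2
    change (((fun i => F.u e.2 (c i)), (fun i => F.d e.2 (c i))), (K e, F.W e.2)) =
      (((fun i => F.u e'.2 (c i)), (fun i => F.d e'.2 (c i))), (K e', F.W e'.2))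
    rw [h3, h4, h5])
  have hx : ∀ e : F.Ω × F.Ω, 0 < Q e →
      fl J (Pool.TWG.xT (prQ F c Q hQ) w (tau1 F w) e) = fun i => F.X J e.1 (c i) := by
    intro e he
    have a0 := hs e he
    have a1 : F.u e.1 = F.u e.2 := (Prod.ext_iff.1 (Prod.ext_iff.1 a0).1).1
    have a2 : F.d e.1 = F.d e.2 := (Prod.ext_iff.1 (Prod.ext_iff.1 a0).1).2
    have a5 : Pool.TWG.tau (prQ F c Q hQ) w (tau1 F w) e = F.T e.1 := tau1_T' F w a0
    have a6 : Pool.TWG.xT (prQ F c Q hQ) w (tau1 F w) e = fun i => F.x e.1 (c i) := by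
      funext i
      unfold Pool.TWG.xT
      rw [a5]
      change F.u e.2 (c i) + (F.T e.1 : ℝ) / 2 ^ J * F.d e.2 (c i) =
        F.u e.1 (c i) + (F.T e.1 : ℝ) / 2 ^ J * F.d e.1 (c i)
      rw [a1, a2]
    rw [a6]
    rfl
  have e1 : CH Q (fun e => fl J (Pool.TWG.xT (prQ F c Q hQ) w (tau1 F w) e))
      (fun e => (tau1 F w e, (K e, F.W e.2))) =
      CH Q (fun e i => F.X J e.1 (c i)) (fun e => (F.T e.1, (K e, F.W e.2))) := by
    refine CH_congr hq0 ?_ ?_ ?_ ?_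
    · intro e e' he he' h
      have h1 := (Prod.ext_iff.1 h).1
      change fl J (Pool.TWG.xT (prQ F c Q hQ) w (tau1 F w) e) =
        fl J (Pool.TWG.xT (prQ F c Q hQ) w (tau1 F w) e') at h1
      rw [hx e he, hx e' he'] at h1
      exact h1
    · intro e e' he he' h
      have h1 := (Prod.ext_iff.1 h).1
      change (fun i => F.X J e.1 (c i)) = (fun i => F.X J e'.1 (c i)) at h1
      change fl J (Pool.TWG.xT (prQ F c Q hQ) w (tau1 F w) e) =
        fl J (Pool.TWG.xT (prQ F c Q hQ) w (tau1 F w) e')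
      rw [hx e he, hx e' he']
      exact h1
    · intro e e' he he' h
      have h1 := Prod.ext_iff.1 h
      have h2 : tau1 F w e = tau1 F w e' := h1.1
      have h3 : (K e, F.W e.2) = (K e', F.W e'.2) := h1.2
      have h4 : F.T e.2 = F.T e'.2 := (Prod.ext_iff.1 (Prod.ext_iff.1 h3).2).1
      refine Prod.ext ?_ h3
      change F.T e.1 = F.T e'.1
      rw [← tau1_T' F w (hs e he), ← tau1_T' F w (hs e' he'), h2, h4]
    · intro e e' _ _ h
      have h1 := Prod.ext_iff.1 h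
      have h2 : F.T e.1 = F.T e'.1 := h1.1
      refine Prod.ext ?_ h1.2
      change tau1 F w e = tau1 F w e'
      unfold tau1
      simp only [h2]
  have hmain' : CH Q (fun e i => F.X J e.2 (c i)) (fun e => (tau1 F w e, (K e, F.W e.2))) ≤
      CH Q (fun e => fl J (Pool.TWG.xT (prQ F c Q hQ) w (tau1 F w) e))
        (fun e => (tau1 F w e, (K e, F.W e.2))) + ε * J := hmain
  rw [e1] at hmain'
  exact hmain'

/-- Laws of bounded density are supported on the pairs. -/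
theorem dens_sup {F : Fam m J} {w : ℕ} {p : F.Ω → ℝ} (hp : IsLaw p) {Q : F.Ω × F.Ω → ℝ} {C : ℝ}
    (hd : ∀ e, Q e ≤ C * P2 p (slam F w) e) {e : F.Ω × F.Ω} (he : 0 < Q e) :
    0 < P2 p (slam F w) e := by
  have h1 := hd e
  by_contra hcon
  have h2 : P2 p (slam F w) e = 0 := le_antisymm (not_lt.1 hcon) ((P2_isLaw hp _).nonneg e)
  rw [h2, mul_zero] at h1
  linarith

/-- **Two samples, laws of bounded density, one family.** -/
theorem dens_gen (h : KP k) {C : ℝ} (hC : 1 ≤ C) : ∀ ε > 0, ∃ θ > 0, ∃ J₀ : ℕ, ∀ J ≥ J₀,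
    ∀ (m : ℕ) (F : Fam m J) (c : Fin k → Fin m) (w : ℕ), w ≤ J →
    ((J - w : ℕ) : ℝ) * Real.log 2 - θ * J ≤ CH F.p F.T (slam F w) →
    ∀ Q : F.Ω × F.Ω → ℝ, IsLaw Q → (∀ e, Q e ≤ C * P2 F.p (slam F w) e) →
    ∀ (κ : Type) (K : F.Ω → κ),
    CH Q (fun e i => F.X J e.2 (c i)) (fun e => (K e.2, F.W e.2)) ≤
      CH Q (fun e i => F.X J e.1 (c i)) (fun e => (F.T e.1, (K e.2, F.W e.2))) + ε * J := by
  intro ε hε
  have hC0 : 0 < C := by linarith
  obtain ⟨θ₁, hθ₁, J₁, htwo⟩ := two_pair h (ε / 2) (by positivity)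
  obtain ⟨σ, hσ⟩ : ∃ σ, σ = min θ₁ (ε / 2) := ⟨_, rfl⟩
  have hσ0 : 0 < σ := by rw [hσ]; exact lt_min hθ₁ (by positivity)
  have hσ1 : σ ≤ θ₁ := by rw [hσ]; exact min_le_left _ _
  have hσ2 : σ ≤ ε / 2 := by rw [hσ]; exact min_le_right _ _
  obtain ⟨J₂, hJ₂⟩ := exists_nat_ge (2 * C * Real.log 2 / σ)
  refine ⟨σ / (2 * C), by positivity, max J₁ J₂, fun J hJ m F c w hw hf Q hQ hd κ K => ?_⟩
  have hJ1 : J₁ ≤ J := (le_max_left _ _).trans hJ
  have hJ2 : (J₂ : ℝ) ≤ J := by exact_mod_cast (le_max_right J₁ J₂).trans hJ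
  have hJ0 : (0 : ℝ) ≤ J := Nat.cast_nonneg J
  have hp := F.isLaw
  have hq := P2_isLaw hp (slam F w)
  have hQ0 := hQ.nonneg
  -- the time is full given the second sample
  have hlog : C * Real.log 2 ≤ σ / 2 * J := by
    have h1 := hJ₂.trans hJ2
    rw [div_le_iff₀ hσ0] at h1
    linarith
  have hfull : ∀ {T : Type} (G : F.Ω → T), ((J - w : ℕ) : ℝ) * Real.log 2 - σ * J ≤
      CH Q (tau1 F w) (fun e => G e.2) := by
    intro T G
    have h1 := tau1_full F w hf G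
    have h2 := dens_full hq hQ hC hd (tau1 F w) (fun e => G e.2)
      (M := ((J - w : ℕ) : ℝ) * Real.log 2) (θ := σ / (2 * C) * J)
      (fun r hr => log_fin (J - w) hr (tau1 F w) (fun e => G e.2)) h1
    have h3 : C * (σ / (2 * C) * J + Real.log 2) = σ / 2 * J + C * Real.log 2 := by
      field_simp
    rw [h3] at h2
    linarith
  have h1 := htwo J hJ1 m F c w hw Q hQ (fun e he =>
    ((P2_pos hp e).1 (dens_sup hp hd he)).2.2) κ (fun e => K e.2) (by
      have h2 := hfull (fun ω => (F.l ω, (K ω, F.W ω)))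
      have h3 := mul_le_mul_of_nonneg_right hσ1 hJ0
      linarith)
  -- the entropy of the second sample
  have c1 := CH_chain hQ0 (fun e i => F.X J e.2 (c i)) (tau1 F w) (fun e => (K e.2, F.W e.2))
  have c2 := CH_chain hQ0 (tau1 F w) (fun e i => F.X J e.2 (c i)) (fun e => (K e.2, F.W e.2))
  have c3 : CH Q (fun e => ((fun i => F.X J e.2 (c i)), tau1 F w e)) (fun e => (K e.2, F.W e.2)) =
      CH Q (fun e => (tau1 F w e, fun i => F.X J e.2 (c i))) (fun e => (K e.2, F.W e.2)) :=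
    Pool.MIC.CH_swl hQ0 _ _ _
  have c4 := hfull (fun ω => ((fun i => F.X J ω (c i)), (K ω, F.W ω)))
  have c5 := log_fin (J - w) hQ (tau1 F w) (fun e => (K e.2, F.W e.2))
  have c6 := mul_le_mul_of_nonneg_right hσ2 hJ0
  have c4' : ((J - w : ℕ) : ℝ) * Real.log 2 - σ * J ≤
      CH Q (tau1 F w) (fun e => ((fun i => F.X J e.2 (c i)), (K e.2, F.W e.2))) := c4
  linarith

/-- The basic form of the time condition. -/
theorem tm_ful {S : PCl m} {w₀ : ℝ} (hw1 : w₀ ≤ 1) (htm : TmWn S w₀) {θ : ℝ} (hθ : 0 < θ) :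
    Bas S (fun J F A => 0 < Pe F.p A ∧ ⌊w₀ * J⌋₊ ≤ J ∧
      ((J - ⌊w₀ * J⌋₊ : ℕ) : ℝ) * Real.log 2 - θ * J ≤
      CH (Pool.Agent.H49.Ent.cond F.p A True) F.T (slam F ⌊w₀ * J⌋₊)) := by
  refine (htm θ hθ).mono 0 fun J _ F A hh => ?_
  have hJ0 : (0 : ℝ) ≤ J := Nat.cast_nonneg J
  have hwJ : ⌊w₀ * (J : ℝ)⌋₊ ≤ J := by
    have h1 : ⌊w₀ * (J : ℝ)⌋₊ ≤ ⌊(J : ℝ)⌋₊ :=
      Nat.floor_le_floor (by
        calc w₀ * (J : ℝ) ≤ 1 * J := mul_le_mul_of_nonneg_right hw1 hJ0
          _ = J := one_mul _)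
    rwa [Nat.floor_natCast] at h1
  refine ⟨hh.1, hwJ, ?_⟩
  have h2 := hh.2 (J - ⌊w₀ * (J : ℝ)⌋₊) (by omega)
  have h3 : ⌊w₀ * (J : ℝ)⌋₊ + (J - ⌊w₀ * (J : ℝ)⌋₊) = J := by omega
  have h4 : F.T1 J = F.T := by
    funext ω
    unfold Fam.T1
    rw [Nat.sub_self, pow_zero, Nat.div_one]
  rw [h3, h4] at h2
  exact h2

/-- **Two samples, laws of bounded density, in a class.** -/
theorem dens_class (h : KP k) {S : PCl m} {w₀ : ℝ} (hw1 : w₀ ≤ 1) (htm : TmWn S w₀)
    (c : Fin k → Fin m) {C : ℝ} (hC : 1 ≤ C) {ρ : ℝ} (hρ : 0 < ρ) :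
    Bas S (fun J F A => 0 < Pe F.p A ∧ ∀ Q : F.Ω × F.Ω → ℝ, IsLaw Q →
      (∀ e, Q e ≤ C * P2 (Pool.Agent.H49.Ent.cond F.p A True) (slam F ⌊w₀ * J⌋₊) e) →
      ∀ (κ : Type) (K : F.Ω → κ),
      CH Q (fun e i => F.X J e.2 (c i)) (fun e => (K e.2, F.W e.2)) - ρ * J ≤
        CH Q (fun e i => F.X J e.1 (c i)) (fun e => (F.T e.1, (K e.2, F.W e.2)))) := by
  obtain ⟨θ, hθ, J₀, hgen⟩ := dens_gen h hC ρ hρ
  refine (tm_ful hw1 htm hθ).mono J₀ fun J hJ F A hh => ⟨hh.1, fun Q hQ hd κ K => ?_⟩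
  have hl := isLaw_cond F.isLaw hh.1
  have h1 := hgen J hJ m (F.res A True hl) c ⌊w₀ * J⌋₊ hh.2.1 hh.2.2 Q hQ hd κ K
  have h2 : CH Q (fun e i => F.X J e.2 (c i)) (fun e => (K e.2, F.W e.2)) ≤
      CH Q (fun e i => F.X J e.1 (c i)) (fun e => (F.T e.1, (K e.2, F.W e.2))) + ρ * J := h1
  linarith

/-- Statements about all members hold for all events of the members of probability at least `κ`. -/
theorem bas_big {S : PCl m} {Φ : Stat m} (h : Bas S Φ) {κ : ℝ} (hκ : 0 < κ) :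
    Bas S (fun J F A => ∀ B : F.Ω → Prop, Sub B A → κ * Pe F.p A ≤ Pe F.p B → Φ J F B) := by
  obtain ⟨τ, hτ, J₁, h⟩ := h
  obtain ⟨J₂, hJ₂⟩ := exists_nat_ge (-Real.log κ / (τ / 2))
  refine ⟨τ / 2, by positivity, max J₁ J₂, fun J hJ F A hA B hB hP => ?_⟩
  refine h J ((le_max_left _ _).trans hJ) F B ?_
  have h1 := S.res (τ := τ / 2) (τ' := τ / 2) (by positivity) hA hB (by
    refine le_trans (mul_le_mul_of_nonneg_right ?_ (Pe_nonneg F.isLaw A)) hP
    have hJ' : (J₂ : ℝ) ≤ J := by exact_mod_cast (le_max_right _ _).trans hJ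
    have h2 : -Real.log κ / (τ / 2) ≤ J := hJ₂.trans hJ'
    rw [div_le_iff₀ (by positivity)] at h2
    have h3 : -(τ / 2 * (J : ℝ)) ≤ Real.log κ := by linarith
    exact (Real.exp_le_exp.2 h3).trans (Real.exp_log hκ).le)
  rwa [add_halves] at h1

/-- **Exactness for laws of bounded density.** -/
theorem dens_exv {S : PCl m} {w : ℝ} {β : Type} {Y : ∀ (J : ℕ) (F : Fam m J), F.Ω → β} {b : ℝ}
    (hex : ExvY S w Y b) {C : ℝ} (hC : 1 ≤ C) {ρ : ℝ} (hρ : 0 < ρ) :
    Bas S (fun J F A => 0 < Pe F.p A → ∀ r : F.Ω → ℝ, IsLaw r →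
      (∀ ω, r ω ≤ C * Pool.Agent.H49.Ent.cond F.p A True ω) →
      ∀ (V : Type) (z : PtT F → V) (z' : LnT F → V),
      (∀ ω, A ω → z (ptr F J ω) = z' (slam F ⌊w * J⌋₊ ω)) →
      (b - ρ) * Real.log 2 * J ≤ CH r (Y J F) (fun ω => (z' (slam F ⌊w * J⌋₊ ω), F.W ω))) := by
  have hl2 : 0 < Real.log 2 := Real.log_pos one_lt_two
  have hC0 : 0 < C := by linarith
  rcases le_or_gt (b - ρ) 0 with hb | hb
  · refine ⟨1, one_pos, 0, fun J _ F A _ _ r hr _ V z z' _ => ?_⟩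
    refine le_trans ?_ (CH_nonneg hr.nonneg _ _)
    exact mul_nonpos_of_nonpos_of_nonneg (mul_nonpos_of_nonpos_of_nonneg hb hl2.le)
      (Nat.cast_nonneg J)
  · have hb0 : 0 < b := by linarith
    obtain ⟨η, hη⟩ : ∃ η, η = ρ / (2 * C * b) := ⟨_, rfl⟩
    have hη0 : 0 < η := by rw [hη]; positivity
    refine (bas_big hex hη0).mono 0 fun J _ F A hh hA r hr hd V z z' hz => ?_
    have hJ0 : (0 : ℝ) ≤ J := Nat.cast_nonneg J
    have hl := isLaw_cond F.isLaw hA
    have h1 := layer hl hr hC hd (Y J F) (fun ω => (z' (slam F ⌊w * J⌋₊ ω), F.W ω))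
      (h₀ := b * Real.log 2 * J) (η := η) (by positivity) hη0 (fun B hB => by
        rw [cond_and F.p hA.ne']
        refine hh (fun ω => A ω ∧ B ω) (fun ω h => h.1) ?_ V z z' fun ω h => hz ω h.1
        rw [Pe_cnd, le_div_iff₀ hA] at hB
        exact hB)
    refine le_trans (le_of_eq ?_) h1
    rw [hη]
    field_simp

/-- **(F) for laws of bounded density**: the position of the first sample is full given its time,
the time of the second sample and every label of the second sample which is closed at the window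
`w₁`. -/
theorem full_dens (h : KP k) {S : PCl m} {w₀ w₁ : ℝ} (hw1 : w₀ ≤ 1)
    (htm : TmWn S w₀) {c : Fin k → Fin m} {b : ℝ}
    (hex : ExvY S w₁ (fun J F ω (i : Fin k) => F.X J ω (c i)) b) {C : ℝ} (hC : 1 ≤ C) {ρ : ℝ}
    (hρ : 0 < ρ) :
    Bas S (fun J F A => 0 < Pe F.p A ∧ ∀ Q : F.Ω × F.Ω → ℝ, IsLaw Q →
      (∀ e, Q e ≤ C * P2 (Pool.Agent.H49.Ent.cond F.p A True) (slam F ⌊w₀ * J⌋₊) e) →
      ∀ (V : Type) (z : PtT F → V) (z' : LnT F → V),
      (∀ ω, A ω → z (ptr F J ω) = z' (slam F ⌊w₁ * J⌋₊ ω)) →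
      (b - ρ) * Real.log 2 * J ≤ CH Q (fun e i => F.X J e.1 (c i))
        (fun e => (F.T e.1, (z' (slam F ⌊w₁ * J⌋₊ e.2), F.W e.2)))) := by
  classical
  have hl2 : 0 < Real.log 2 := Real.log_pos one_lt_two
  refine ((dens_class h hw1 htm c hC (ρ := ρ / 2 * Real.log 2) (by positivity)).and
    (dens_exv hex hC (ρ := ρ / 2) (by positivity))).mono 0 ?_
  rintro J - F A ⟨⟨h1, h2⟩, h3⟩
  refine ⟨h1, fun Q hQ hd V z z' hz => ?_⟩
  have hl := isLaw_cond F.isLaw h1
  have h4 := h2 Q hQ hd V (fun ω => z' (slam F ⌊w₁ * J⌋₊ ω))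
  -- the law of the second sample
  obtain ⟨r, hr⟩ : ∃ r : F.Ω → ℝ, r = fun ω => law Q Prod.snd ω := ⟨_, rfl⟩
  have hpsh : Psh Q Prod.snd r := fun ω => by rw [hr]
  have hrl : IsLaw r := by
    refine ⟨fun ω => ?_, ?_⟩
    · rw [hr]
      exact law_nonneg hQ.nonneg _ _
    · have h5 := hpsh.Ex_eq (fun _ => (1 : ℝ))
      unfold Ex at h5
      simp only [mul_one] at h5
      rw [← h5, hQ.sum_one]
  have hrd : ∀ ω, r ω ≤ C * Pool.Agent.H49.Ent.cond F.p A True ω := by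
    intro ω
    have h5 := P2_snd hl (slam F ⌊w₀ * J⌋₊) ω
    rw [hr, ← h5]
    simp only
    unfold law
    rw [Finset.mul_sum]
    refine Finset.sum_le_sum fun e _ => ?_
    split_ifs
    · exact hd e
    · rw [mul_zero]
  have h5 := h3 h1 r hrl hrd V z z' hz
  rw [← hpsh.CH_eq (fun ω (i : Fin k) => F.X J ω (c i))
    (fun ω => (z' (slam F ⌊w₁ * J⌋₊ ω), F.W ω))] at h5
  have h6 : (b - ρ) * Real.log 2 * J = (b - ρ / 2) * Real.log 2 * J - ρ / 2 * Real.log 2 * J := by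
    ring
  rw [h6]
  linarith

/-! ### Restriction to an event of pairs -/

/-- **Restriction to an event of pairs**: the first marginal is the conditional law of an event, the
density is bounded. -/
theorem tilt {Ω GT : Type} [Fintype Ω] {p : Ω → ℝ} (hp : IsLaw p) (g : Ω → GT)
    (E : Ω × Ω → Prop) {c : ℝ} (hc : 0 < c) (hE : c ≤ Pe (P2 p g) E) :
    ∃ (B : Ω → Prop) (Q : Ω × Ω → ℝ), c / 2 ≤ Pe p B ∧ IsLaw Q ∧
      Psh Q Prod.fst (Pool.Agent.H49.Ent.cond p B True) ∧ (∀ e, 0 < Q e → E e) ∧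
      (∀ e, 0 < Q e → B e.1) ∧ ∀ e, Q e ≤ 4 / c ^ 2 * P2 p g e := by
  classical
  have hq := P2_isLaw hp g
  have hq0 := hq.nonneg
  -- the conditional probability of the event, unnormalized
  obtain ⟨a, ha⟩ : ∃ a : Ω → ℝ, a = fun ω => ∑ ω', if E (ω, ω') then P2 p g (ω, ω') else 0 :=
    ⟨_, rfl⟩
  have ha0 : ∀ ω, 0 ≤ a ω := by
    intro ω
    rw [ha]
    refine Finset.sum_nonneg fun ω' _ => ?_
    split_ifs
    · exact hq0 _
    · exact le_rfl
  have hfst : ∀ ω, ∑ ω', P2 p g (ω, ω') = p ω := by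
    intro ω
    have h2 : law (P2 p g) Prod.fst ω = ∑ ω', P2 p g (ω, ω') := by
      unfold law
      rw [Fintype.sum_prod_type, Finset.sum_eq_single ω]
      · refine Finset.sum_congr rfl fun ω' _ => ?_
        rw [if_pos rfl]
      · intro b _ hb
        refine Finset.sum_eq_zero fun ω' _ => ?_
        rw [if_neg hb]
      · intro h
        exact absurd (Finset.mem_univ _) h
    rw [← h2]
    exact P2_fst hp g ω
  have hap : ∀ ω, a ω ≤ p ω := by
    intro ω
    rw [← hfst ω, ha]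
    refine Finset.sum_le_sum fun ω' _ => ?_
    split_ifs
    · exact le_rfl
    · exact hq0 _
  have hsum : ∑ ω, a ω = Pe (P2 p g) E := by
    rw [K2S.Pe_eq, Fintype.sum_prod_type, ha]
  obtain ⟨B, hB⟩ : ∃ B : Ω → Prop, B = fun ω => 0 < p ω ∧ c / 2 * p ω ≤ a ω := ⟨_, rfl⟩
  have hPB : c / 2 ≤ Pe p B := by
    have h1 : ∑ ω, a ω ≤ Pe p B + c / 2 := by
      have h2 : ∀ ω, a ω ≤ (if B ω then p ω else 0) + c / 2 * p ω := by
        intro ω
        by_cases h3 : B ω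
        · rw [if_pos h3]
          have h4 := hap ω
          have h5 : 0 ≤ c / 2 * p ω := mul_nonneg (by positivity) (hp.nonneg ω)
          linarith
        · rw [if_neg h3, zero_add]
          rcases (hp.nonneg ω).eq_or_lt with h4 | h4
          · have := hap ω
            rw [← h4] at this
            rw [← h4, mul_zero]
            exact this
          · rw [hB] at h3
            by_contra h5
            exact h3 ⟨h4, (not_le.1 h5).le⟩
      have h3 := Finset.sum_le_sum fun ω (_ : ω ∈ (univ : Finset Ω)) => h2 ω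
      rw [Finset.sum_add_distrib, ← Finset.mul_sum, hp.sum_one, mul_one, ← K2S.Pe_eq] at h3
      exact h3
    rw [hsum] at h1
    linarith
  have hPB0 : 0 < Pe p B := lt_of_lt_of_le (by positivity) hPB
  obtain ⟨Q, hQ⟩ : ∃ Q : Ω × Ω → ℝ, Q = fun e =>
    if E e ∧ B e.1 then P2 p g e * (p e.1 / (a e.1 * Pe p B)) else 0 := ⟨_, rfl⟩
  have hBa : ∀ ω, B ω → 0 < a ω ∧ p ω / (a ω * Pe p B) ≤ 4 / c ^ 2 := by
    intro ω h
    rw [hB] at h
    obtain ⟨h1, h2⟩ := h
    have h3 : 0 < c / 2 * p ω := by positivity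
    have h4 : 0 < a ω := h3.trans_le h2
    refine ⟨h4, ?_⟩
    rw [div_le_div_iff₀ (by positivity) (by positivity)]
    have h5 : c / 2 * p ω * (c / 2) ≤ a ω * Pe p B :=
      mul_le_mul h2 hPB (by positivity) h4.le
    nlinarith
  have hQ0 : ∀ e, 0 ≤ Q e := by
    intro e
    rw [hQ]
    simp only
    split_ifs with h
    · exact mul_nonneg (hq0 e) (div_nonneg (hp.nonneg _) (mul_nonneg (ha0 _) hPB0.le))
    · exact le_rfl
  have hrow : ∀ ω, ∑ ω', Q (ω, ω') = Pool.Agent.H49.Ent.cond p B True ω := by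
    intro ω
    rw [cond_ev]
    by_cases h : B ω
    · rw [if_pos h]
      have h1 : ∑ ω', Q (ω, ω') = a ω * (p ω / (a ω * Pe p B)) := by
        rw [ha, Finset.sum_mul]
        refine Finset.sum_congr rfl fun ω' _ => ?_
        rw [hQ]
        simp only
        by_cases h2 : E (ω, ω')
        · rw [if_pos ⟨h2, h⟩, if_pos h2, ha]
        · rw [if_neg (fun h3 => h2 h3.1), if_neg h2, zero_mul]
      rw [h1]
      have h2 := (hBa ω h).1
      field_simp
    · rw [if_neg h]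
      refine Finset.sum_eq_zero fun ω' _ => ?_
      rw [hQ]
      simp only
      rw [if_neg (fun h3 => h h3.2)]
  have hl := isLaw_cond hp hPB0
  refine ⟨B, Q, hPB, ⟨hQ0, ?_⟩, ?_, ?_, ?_, ?_⟩
  · rw [Fintype.sum_prod_type]
    rw [← hl.sum_one]
    exact Finset.sum_congr rfl fun ω _ => hrow ω
  · intro ω
    rw [← hrow ω]
    unfold law
    rw [Fintype.sum_prod_type, Finset.sum_eq_single ω]
    · refine Finset.sum_congr rfl fun ω' _ => ?_
      rw [if_pos rfl]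
    · intro b _ hb
      refine Finset.sum_eq_zero fun ω' _ => ?_
      rw [if_neg hb]
    · intro h
      exact absurd (Finset.mem_univ _) h
  · intro e he
    by_contra h
    rw [hQ] at he
    simp only at he
    rw [if_neg (fun h3 => h h3.1)] at he
    exact lt_irrefl _ he
  · intro e he
    by_contra h
    rw [hQ] at he
    simp only at he
    rw [if_neg (fun h3 => h h3.2)] at he
    exact lt_irrefl _ he
  · intro e
    rw [hQ]
    simp only
    split_ifs with h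
    · rw [mul_comm]
      exact mul_le_mul_of_nonneg_right (hBa e.1 h.2).2 (hq0 e)
    · exact mul_nonneg (by positivity) (hq0 e)

end Pool.JPR
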