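import Pool.Agent.H5.M3F.Enc
import Pool.Agent.H5.M3F.Fu
import Pool.Agent.H96.R1.Rst

/-!
# Natural digits of the positions of a law over a family

`ntc`: the natural coordinates of the point of a sample in the chart `P (z₀ (ptr F J ω))`.
`ce`: the cell of the depths `g i + d`. `yc`: the position in the cell.
`nat_dc`, `nat_cnt`, `nat_full`: the digits in the cell are a function of the position; the number
of the positions in a cell; the entropy of the positions given the cell.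
-/

set_option autoImplicit false

namespace Pool.JPN

open Finset Real MvPolynomial
open Pool.Agent.H49.Ent Pool.Agent.H32.Dense Pool.STK Pool.KA Pool.KSAT Pool.PB
  Pool.STAT Pool.GEN Pool.M3F
open Pool.R1 (cv)

variable {m J k : ℕ} {F : Fam m J} {V : Type}

/-- The natural coordinates. -/
noncomputable def ntc (F : Fam m J) (c : ℕ → Fin m) (P : V → ℕ → PN) (z₀ : PtT F → V) (ω : F.Ω)
    (i : ℕ) : ℝ :=
  px c (ptr F J ω) (i + 1) - eval (px c (ptr F J ω)) (P (z₀ (ptr F J ω)) (i + 1))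

/-- The cell of the depths `g i + d`. -/
noncomputable def ce (k : ℕ) (F : Fam m J) (c : ℕ → Fin m) (P : V → ℕ → PN) (z₀ : PtT F → V)
    (g : ℕ → ℕ) (d : ℕ) (ω : F.Ω) (i : Fin k) : ℤ := ⌊(2 : ℝ) ^ (g i + d) * ntc F c P z₀ ω i⌋

/-- The position in the cell. -/
noncomputable def yc (k : ℕ) (F : Fam m J) (c : ℕ → Fin m) (P : V → ℕ → PN) (z₀ : PtT F → V)
    (g : ℕ → ℕ) (d : ℕ) (ω : F.Ω) (i : Fin k) : ℝ :=
  (2 : ℝ) ^ (g i + d) * ntc F c P z₀ ω i - ce k F c P z₀ g d ω i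

variable {c : ℕ → Fin m} {P : V → ℕ → PN} {z₀ : PtT F → V} {g : ℕ → ℕ} {d : ℕ}

theorem yc_nonneg (ω : F.Ω) (i : Fin k) : 0 ≤ yc k F c P z₀ g d ω i := by
  unfold yc ce
  linarith [Int.floor_le ((2 : ℝ) ^ (g i + d) * ntc F c P z₀ ω i)]

theorem yc_lt (ω : F.Ω) (i : Fin k) : yc k F c P z₀ g d ω i < 1 := by
  unfold yc ce
  linarith [Int.lt_floor_add_one ((2 : ℝ) ^ (g i + d) * ntc F c P z₀ ω i)]

/-- The digits of the sum. -/
theorem floor_add_digits (a b : ℕ) (x : ℝ) :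
    ⌊(2 : ℝ) ^ (a + b) * x⌋ = 2 ^ b * ⌊(2 : ℝ) ^ a * x⌋ +
      ⌊(2 : ℝ) ^ b * (2 ^ a * x - ⌊(2 : ℝ) ^ a * x⌋)⌋ := by
  have h1 : (2 : ℝ) ^ (a + b) * x = ((2 ^ b * ⌊(2 : ℝ) ^ a * x⌋ : ℤ) : ℝ) +
      2 ^ b * (2 ^ a * x - ⌊(2 : ℝ) ^ a * x⌋) := by
    push_cast
    rw [pow_add]
    ring
  rw [h1, Int.floor_intCast_add]

/-- The cell and the digits in the cell are the natural digits. -/
theorem dig_of_cv (X : ℕ) (t : Fin k → ℕ) {ω ω' : F.Ω}
    (h0 : ce k F c P z₀ g d ω = ce k F c P z₀ g d ω')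
    (h1 : cv X (yc k F c P z₀ g d) t ω = cv X (yc k F c P z₀ g d) t ω') (i : Fin k) :
    ⌊(2 : ℝ) ^ (g i + d + t i * X) * ntc F c P z₀ ω i⌋ =
      ⌊(2 : ℝ) ^ (g i + d + t i * X) * ntc F c P z₀ ω' i⌋ := by
  have h2 : ⌊(2 : ℝ) ^ (g i + d) * ntc F c P z₀ ω i⌋ =
      ⌊(2 : ℝ) ^ (g i + d) * ntc F c P z₀ ω' i⌋ := congrFun h0 i
  have h3 : ⌊(2 : ℝ) ^ (t i * X) * (2 ^ (g i + d) * ntc F c P z₀ ω i -
      ⌊(2 : ℝ) ^ (g i + d) * ntc F c P z₀ ω i⌋)⌋ =
      ⌊(2 : ℝ) ^ (t i * X) * (2 ^ (g i + d) * ntc F c P z₀ ω' i -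
      ⌊(2 : ℝ) ^ (g i + d) * ntc F c P z₀ ω' i⌋)⌋ := congrFun h1 i
  rw [floor_add_digits (g i + d) (t i * X), floor_add_digits (g i + d) (t i * X), h2, ← h3, h2]

/-- The natural coordinates are functions of the rounded position. -/
theorem ntc_eq (htri : ∀ v, TriN (P v)) {ω ω' : F.Ω}
    (hv : z₀ (ptr F J ω) = z₀ (ptr F J ω')) (hT : F.T ω = F.T ω') {i : ℕ}
    (hX : ∀ j ≤ i, F.X J ω (c j) = F.X J ω' (c j)) :
    ntc F c P z₀ ω i = ntc F c P z₀ ω' i := by
  unfold ntc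
  rw [hv]
  have h1 : eval (px c (ptr F J ω)) (P (z₀ (ptr F J ω')) (i + 1)) =
      eval (px c (ptr F J ω')) (P (z₀ (ptr F J ω')) (i + 1)) :=
    eval_px (htri _ _) hT fun j hj => hX j hj.le
  rw [h1]
  have h2 : px c (ptr F J ω) (i + 1) = px c (ptr F J ω') (i + 1) := by
    rw [px_succ, px_succ]
    have h3 : (ptr F J ω).1 (c i) = (ptr F J ω').1 (c i) := hX i le_rfl
    rw [h3]
  rw [h2]

section ent

variable {E : Type} [Fintype E] {q : E → ℝ} {pr : E → F.Ω}

/-- **The digits of the positions given the natural digits.** -/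
theorem pos_le (hq : IsLaw q) {Γ : Type} (Z : E → Γ) (htri : ∀ v, TriN (P v)) {D : ℕ → ℕ}
    (hD : ∀ i < k, D i ≤ J)
    (hvZ : ∀ e e', 0 < q e → 0 < q e' → Z e = Z e' →
      z₀ (ptr F J (pr e)) = z₀ (ptr F J (pr e')))
    (hTZ : ∀ e e', 0 < q e → 0 < q e' → Z e = Z e' → F.T (pr e) = F.T (pr e'))
    (hn : ∀ e e', 0 < q e → 0 < q e' → Z e = Z e' → ∀ i : Fin k,
      ⌊(2 : ℝ) ^ D i * ntc F c P z₀ (pr e) i⌋ = ⌊(2 : ℝ) ^ D i * ntc F c P z₀ (pr e') i⌋) :
    CH q (fun e (i : Fin k) => F.X J (pr e) (c i)) Z ≤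
      ∑ i ∈ range k, (((J - D i : ℕ) : ℝ) * Real.log 2 + Real.log 3) := by
  have h2 := Ful.ch_vec hq (fun e (i : Fin k) => F.X J (pr e) (c i)) Z
    (fun i => 2 ^ (J - D i)) (by
      intro i e e' he he' h hj
      have h6 := hn e e' he he' h i
      unfold ntc at h6
      rw [px_succ, px_succ, hvZ e e' he he' h] at h6
      have h7 : eval (px c (ptr F J (pr e))) (P (z₀ (ptr F J (pr e'))) (i + 1)) =
          eval (px c (ptr F J (pr e'))) (P (z₀ (ptr F J (pr e'))) (i + 1)) := by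
        refine eval_px (htri _ _) ?_ fun j hj' => ?_
        · exact hTZ e e' he he' h
        · exact hj ⟨j, by have := i.2; omega⟩ (by
            rw [Fin.lt_def]
            exact hj')
      rw [h7] at h6
      have h8 := near_of_floor (hD i i.2) h6
      push_cast
      exact h8)
  exact h2.trans (Finset.sum_le_sum fun i _ => log_three _ _)

omit [Fintype E] in
/-- **The digits in the cell are a function of the position.** -/
theorem nat_dc {Γ : Type} {W : E → Γ} (htri : ∀ v, TriN (P v)) (X : ℕ) (t : Fin k → ℕ)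
    (hvW : ∀ e e', 0 < q e → 0 < q e' → W e = W e' →
      z₀ (ptr F J (pr e)) = z₀ (ptr F J (pr e')))
    (hTW : ∀ e e', 0 < q e → 0 < q e' → W e = W e' → F.T (pr e) = F.T (pr e')) :
    Det q (fun e => ((fun (i : Fin k) => F.X J (pr e) (c i)), W e))
      (cv X (fun e => yc k F c P z₀ g d (pr e)) t) := by
  intro e e' he he' h
  have h1 := Prod.ext_iff.1 h
  have h2 : (fun (i : Fin k) => F.X J (pr e) (c i)) = fun (i : Fin k) => F.X J (pr e') (c i) := h1.1
  have h3 : W e = W e' := h1.2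
  funext i
  have h4 : ntc F c P z₀ (pr e) i = ntc F c P z₀ (pr e') i :=
    ntc_eq htri (hvW e e' he he' h3) (hTW e e' he he' h3) fun j hj =>
      congrFun h2 ⟨j, by have := i.2; omega⟩
  unfold cv yc ce
  simp only [h4]

/-- **The number of the positions in a cell.** -/
theorem nat_cnt (hq : IsLaw q) {Γ : Type} {W : E → Γ} (htri : ∀ v, TriN (P v)) {X : ℕ}
    {t : Fin k → ℕ} (ht : ∀ i : Fin k, g i + d + t i * X ≤ J)
    (hvW : ∀ e e', 0 < q e → 0 < q e' → W e = W e' →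
      z₀ (ptr F J (pr e)) = z₀ (ptr F J (pr e')))
    (hTW : ∀ e e', 0 < q e → 0 < q e' → W e = W e' → F.T (pr e) = F.T (pr e'))
    (hcW : ∀ e e', 0 < q e → 0 < q e' → W e = W e' →
      ce k F c P z₀ g d (pr e) = ce k F c P z₀ g d (pr e')) :
    CH q (fun e (i : Fin k) => F.X J (pr e) (c i))
      (fun e => (W e, cv X (fun e => yc k F c P z₀ g d (pr e)) t e)) ≤
      (∑ i : Fin k, ((J : ℝ) - g i - d)) * Real.log 2 - (∑ i, (t i : ℝ)) * (X * Real.log 2) +
        k * Real.log 3 := by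
  obtain ⟨D, hD⟩ : ∃ D : ℕ → ℕ, D = fun i => if h : i < k then g i + d + t ⟨i, h⟩ * X else 0 :=
    ⟨_, rfl⟩
  have hDi : ∀ i : Fin k, D i = g i + d + t i * X := by
    intro i
    rw [hD]
    simp only
    rw [dif_pos i.2]
  have h1 := pos_le (c := c) (P := P) (z₀ := z₀) (pr := pr) (k := k) (D := D) hq
    (fun e => (W e, cv X (fun e => yc k F c P z₀ g d (pr e)) t e)) htri (by
      intro i hi
      have := hDi ⟨i, hi⟩
      simp only at this
      rw [this]
      exact ht ⟨i, hi⟩) (fun e e' he he' h => hvW e e' he he' (Prod.ext_iff.1 h).1)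
    (fun e e' he he' h => hTW e e' he he' (Prod.ext_iff.1 h).1) (by
      intro e e' he he' h i
      rw [hDi i]
      have h2 := Prod.ext_iff.1 h
      have h3 : cv X (fun e => yc k F c P z₀ g d (pr e)) t e =
        cv X (fun e => yc k F c P z₀ g d (pr e)) t e' := h2.2
      exact dig_of_cv X t (hcW e e' he he' h2.1) h3 i)
  refine h1.trans (le_of_eq ?_)
  rw [Finset.sum_add_distrib, ← Finset.sum_mul, Finset.sum_const, card_range, nsmul_eq_mul]
  congr 1
  have h2 : ∑ i ∈ range k, ((J - D i : ℕ) : ℝ) = ∑ i : Fin k, (((J : ℝ) - g i - d) - t i * X) := by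
    rw [Finset.sum_range]
    refine Finset.sum_congr rfl fun i _ => ?_
    rw [hDi i, Nat.cast_sub (ht i)]
    push_cast
    ring
  rw [h2, Finset.sum_sub_distrib, ← Finset.sum_mul]
  ring

/-- The entropy of the cell. -/
theorem ce_le (hq : IsLaw q) {Γ : Type} (Z : E → Γ)
    (hb : ∀ e, 0 < q e → ∀ i < k, |ntc F c P z₀ (pr e) i| ≤ 1 / 2 ^ g i) :
    CH q (fun e => ce k F c P z₀ g d (pr e)) Z ≤ k * (d * Real.log 2 + Real.log 5) := by
  have h0 : ∀ e, 0 < q e → ∀ i : Fin k, |((ce k F c P z₀ g d (pr e) i : ℤ) : ℝ)| ≤ 2 ^ d := by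
    intro e he i
    refine floor_pm ?_
    have h1 := hb e he i i.2
    have p1 : (0 : ℝ) < 2 ^ (g i + d) := by positivity
    rw [abs_mul, abs_of_pos p1]
    calc (2 : ℝ) ^ (g i + d) * |ntc F c P z₀ (pr e) i| ≤ 2 ^ (g i + d) * (1 / 2 ^ g i) :=
          mul_le_mul_of_nonneg_left h1 p1.le
      _ = 2 ^ d := by
        rw [pow_add]
        field_simp
  have h1 := Ful.ch_vec hq (fun e => ce k F c P z₀ g d (pr e)) Z
    (fun _ => 2 * 2 ^ d) (by
      intro i e e' he he' _ _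
      have h2 := h0 e he i
      have h3 := h0 e' he' i
      push_cast
      rw [abs_le] at h2 h3 ⊢
      constructor <;> linarith [h2.1, h2.2, h3.1, h3.2])
  refine h1.trans ((Finset.sum_le_sum fun i _ => log_five _).trans (le_of_eq ?_))
  rw [Finset.sum_const, card_range, nsmul_eq_mul]

/-- **The entropy of the positions given the cell and a variable with few values.** -/
theorem nat_full (hq : IsLaw q) {Γ Δ : Type} {Z : E → Γ} {W : E → Δ} {n₀ : ℕ} (br : E → Fin n₀)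
    (hb : ∀ e, 0 < q e → ∀ i < k, |ntc F c P z₀ (pr e) i| ≤ 1 / 2 ^ g i)
    (hW : ∀ e e', 0 < q e → 0 < q e' → Z e = Z e' → ce k F c P z₀ g d (pr e) =
      ce k F c P z₀ g d (pr e') → br e = br e' → W e = W e') {E₀ : ℝ}
    (hE : E₀ ≤ CH q (fun e (i : Fin k) => F.X J (pr e) (c i)) Z) :
    E₀ - k * (d * Real.log 2 + Real.log 5) - Real.log n₀ ≤
      CH q (fun e (i : Fin k) => F.X J (pr e) (c i)) W := by
  have hq0 := hq.nonneg
  have h1 := CH_le_add hq0 (fun e (i : Fin k) => F.X J (pr e) (c i))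
    (fun e => ce k F c P z₀ g d (pr e)) Z
  have h2 := ce_le (c := c) (P := P) (z₀ := z₀) (pr := pr) (d := d) hq Z hb
  have h3 := CH_le_add hq0 (fun e (i : Fin k) => F.X J (pr e) (c i)) br
    (fun e => (ce k F c P z₀ g d (pr e), Z e))
  have h4 := CH_le_card hq0 hq.sum_one br (fun e => (ce k F c P z₀ g d (pr e), Z e))
    (fun _ => univ) (fun _ _ => Finset.mem_univ _)
  rw [Ex_const hq.sum_one, Finset.card_univ, Fintype.card_fin] at h4
  have h5 : CH q (fun e (i : Fin k) => F.X J (pr e) (c i))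
      (fun e => (br e, (ce k F c P z₀ g d (pr e), Z e))) ≤
      CH q (fun e (i : Fin k) => F.X J (pr e) (c i)) W := by
    refine CH_mono_cond hq0 fun e e' he he' h => ?_
    simp only [Prod.mk.injEq] at h
    exact hW e e' he he' h.2.2 h.2.1 h.1
  linarith

end ent

end Pool.JPN
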