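import Pool.Agent.H53.JM.Lab1

/-!
# The labels of two windows of a class, on one event

`LbX`: the labels of one window on one event, with losses at most `δ J`. `two_ev`: two hereditary
statements on one event. `lab2`: the labels at two windows of a class, each in its own order, with
degrees independent of the losses; the target is divided by `2 ^ ((1 - cD / 2 - P) J)` where `P` is
its precision at the window.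
-/

set_option autoImplicit false

namespace Pool.JPN

open Finset Real MvPolynomial
open Pool.Agent.H49.Ent Pool.Agent.H32.Dense Pool.STK Pool.KA Pool.KSAT Pool.K2S Pool.KS3 Pool.PB
  Pool.STAT Pool.STAT.CLO Pool.GEN Pool.S6C Pool.M3F
open Pool.LBT (ThrOf)
open Pool.ONE (tgs)
open Pool.CHT (TmH chsys bet bas_ev)
open Pool.TOP (T1c T2c)
open Pool.FRN (Gdy Wgd)

variable {m J : ℕ} {θ : ℝ} {S : PCl m} {P : List (Fin m) × Fin m → ℝ → ℝ → ℝ}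

/-- **The labels of one window on the event `B`**, with losses at most `δ J`: orders `c`, `r`
coordinates and the target `c r`; precisions `β l J` and `pN J` of the raw chains; the target
divided by `2 ^ sg` has the precision `sr J`; `EE J` is the exponent of the raw chain with the
target. -/
def LbX (F : Fam m J) (c : ℕ → Fin m) (r W sg D sh sh₂ K' Dq : ℕ) (S₀ E₀ : ℝ) (β : ℕ → ℝ)
    (pN sr EE δ : ℝ) (B : F.Ω → Prop) : Prop :=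
  ∃ (e EN kk : ℕ) (g g₁ g₂ : ℕ → ℕ) (L : ℝ) (G : PtT F → ℕ → MvPolynomial (Option (Fin m)) ℝ)
    (H : LnT F → ℕ → MvPolynomial (Option (Fin m)) ℝ) (V : Type) (z : PtT F → V)
    (z' : LnT F → V) (Pv : V → ℕ → PN) (Qv : V → PN) (T : V → ℝ) (kf : V → ℕ),
    NuW J r sg sh sh₂ β pN sr EE δ e EN kk g g₁ g₂ L ∧
    LbW F c r W sg D K' Dq S₀ E₀ e EN kk g g₁ g₂ L B G H z z' Pv Qv T kf

theorem LbX.sub {F : Fam m J} {c : ℕ → Fin m} {r W sg D sh sh₂ K' Dq : ℕ} {S₀ E₀ : ℝ}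
    {β : ℕ → ℝ} {pN sr EE δ : ℝ} {B B' : F.Ω → Prop}
    (h : LbX F c r W sg D sh sh₂ K' Dq S₀ E₀ β pN sr EE δ B) (hB : Sub B' B) :
    LbX F c r W sg D sh sh₂ K' Dq S₀ E₀ β pN sr EE δ B' := by
  obtain ⟨e, EN, kk, g, g₁, g₂, L, G, H, V, z, z', Pv, Qv, T, kf, h1, h2⟩ := h
  exact ⟨e, EN, kk, g, g₁, g₂, L, G, H, V, z, z', Pv, Qv, T, kf, h1, h2.sub hB⟩

/-- `Pool.M3F.m3f_clsw`. -/
theorem m3s (r : ℕ) : M3S r := m3f_clsw r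

/-- `Pool.M3F.m3f_clsw`: the degree of the equation is universal. -/
theorem m3d_ex (r : ℕ) : ∃ Dq : ℕ, M3D r Dq := m3s r

/-- Two hereditary statements on one event. -/
theorem two_ev {Φ Ψ : Stat m} (hΦ : ∀ J (F : Fam m J) (B B' : F.Ω → Prop), Sub B' B →
    Φ J F B → Φ J F B') {K₁ K₂ : ℝ} (hK₁ : 0 < K₁)
    (h1 : Bas S (fun J F A => ∃ B : F.Ω → Prop, Sub B A ∧ Pe F.p A ≤ K₁ * Pe F.p B ∧ Φ J F B))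
    (h2 : Bas S (fun J F A => ∃ B : F.Ω → Prop, Sub B A ∧ Pe F.p A ≤ K₂ * Pe F.p B ∧ Ψ J F B)) :
    Bas S (fun J F A => ∃ B : F.Ω → Prop, Sub B A ∧ Pe F.p A ≤ K₁ * K₂ * Pe F.p B ∧ Φ J F B ∧
      Ψ J F B) := by
  refine Bas.mono 0 (h1.and (bas_ev h2 (inv_pos.2 hK₁))) ?_
  rintro J - F A ⟨⟨B, hB, hP, hf⟩, h3⟩
  obtain ⟨B', hB', hP', hf'⟩ := h3 B hB (by
    rw [inv_mul_le_iff₀ hK₁]
    exact hP)
  refine ⟨B', fun ω hω => hB ω (hB' ω hω), ?_, hΦ J F B B' hB' hf, hf'⟩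
  calc Pe F.p A ≤ K₁ * Pe F.p B := hP
    _ ≤ K₁ * (K₂ * Pe F.p B') := mul_le_mul_of_nonneg_left hP' hK₁.le
    _ = _ := by ring

theorem T1c_mono {k : Fin m} {α σ σ' : ℝ} (h : T1c S k α σ) (hσ : σ ≤ σ') : T1c S k α σ' := by
  intro K ε hε
  refine (h K ε hε).mono 0 ?_
  rintro J - F A h1 l a q hl ha hq
  refine h1 l a q hl ha (le_trans ?_ hq)
  exact mul_le_mul_of_nonneg_right (by linarith) (Nat.cast_nonneg J)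

/-- **The labels of one window of a class**, in the letters of the row `R1`: `sg = 1 - cD / 2`. The
degree `Dq` of the equation is universal. -/
theorem labxD {Dq : ℕ} (hM : M3D (m - 1) Dq) {k : Fin m} {w : ℝ} {c : ℕ → Fin m}
    (h : Gdy P k w w c)
    (hne : S.Ne) (hmem : ∀ (τ : ℝ) (J : ℕ) (F : Fam m J) (A : F.Ω → Prop), S.St τ J F A →
      F.Tr ∧ F.Tm (τ * J) ∧ F.Rb (τ * J) ∧ Real.exp (-(τ * J)) ≤ Pe F.p A)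
    (hP : ThrOf (chsys m θ) S P) (hθ : 0 < θ) {Pt : ℝ → ℝ → ℝ}
    (hPt : ThrOf (tgs k) S (fun _ => Pt)) {α Q cD : ℝ} (hcD : 0 < cD) (hθc : θ < cD / 2)
    (hT1 : T1c S k α (1 - 3 / 4 * cD)) (hT2 : T2c S k α Q (1 - cD / 2)) (hα : α ≤ Q)
    (hQ : Q ≤ 1 - cD) (hw : 0 < w) (hwα : w < α) (hwd : w ∈ Wgd P) (hm : 2 ≤ m)
    (hd : ∀ i, Dn1 (P i) w) (hdt : Dn1 Pt w)
    (hex : ∀ ρ : ℝ, 0 < ρ → ExvY S w (fun J F ω (i : Fin (m - 1)) => F.X J ω (c i))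
      ((∑ l ∈ range (m - 1), (1 - bet P c l w w)) - ρ)) :
    ∃ (D sh sh₂ K' : ℕ) (S₀ E₀ : ℝ), sh ≤ sh₂ ∧ 1 ≤ K' ∧ 1 ≤ S₀ ∧ 1 ≤ E₀ ∧
    ∀ δ : ℝ, 0 < δ → ∃ K₁ : ℝ, 0 < K₁ ∧ Bas S (fun J F A => ∃ B : F.Ω → Prop, Sub B A ∧
      Pe F.p A ≤ K₁ * Pe F.p B ∧
      LbX F c (m - 1) ⌊w * J⌋₊ ⌊(1 - cD / 2 - min (Pt w w) Q) * J⌋₊ D sh sh₂ K' Dq S₀ E₀
        (fun l => bet P c l w w) (min (Pt w w) Q) (1 - cD / 2)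
        (1 - cD / 2 - max (min (Pt w w) Q) (bet P c (m - 2) w w)) δ B) := by
  obtain ⟨γ, hγ⟩ : ∃ γ : ℝ, γ = min (cD / 8) w := ⟨_, rfl⟩
  have hγ0 : 0 < γ := by rw [hγ]; exact lt_min (by positivity) hw
  have hγ1 : γ ≤ cD / 8 := by rw [hγ]; exact min_le_left _ _
  obtain ⟨D, sh, sh₂, K', S₀, E₀, h1, h2, h3, h4, h5⟩ := lab1D hM h hne hmem hP hθ hPt
    (α := α) (Q := Q) (sg := 1 - cD / 2) (γ := γ) (T1c_mono hT1 (by linarith)) hT2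
    (by linarith) (by linarith) (by linarith) (by linarith) hw hwα (by linarith) hwd hm hd hdt
    hγ0 (by rw [hγ]; exact min_le_right _ _) (by linarith) hex
  refine ⟨D, sh, sh₂, K', S₀, E₀, h1, h2, h3, h4, fun δ hδ => ?_⟩
  obtain ⟨K₁, hK₁, hb⟩ := h5 δ hδ
  refine ⟨K₁, hK₁, hb.mono 0 ?_⟩
  rintro J - F A ⟨B, e, EN, kk, g, g₁, g₂, L, G, H, V, z, z', Pv, Qv, T, kf, a1, a2, a3, a4⟩
  exact ⟨B, a1, a2, e, EN, kk, g, g₁, g₂, L, G, H, V, z, z', Pv, Qv, T, kf, a3, a4⟩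

/-- **The labels of two windows of a class**, on one event. At `w₀` the precision of the target is
`P w₀ w₀`, at `w₁` it is the row `P₁`. The two losses are independent. The degree `Dq` of the
equations is universal. -/
theorem lab2D {Dq : ℕ} (hM : M3D (m - 1) Dq) (hm : 2 ≤ m) {k : Fin m} {w₀ w₁ α P₁ cD : ℝ}
    {c₀ c₁ : ℕ → Fin m} (h0 : Gdy P k w₀ w₀ c₀) (h1 : Gdy P k w₁ w₁ c₁)
    (hne : S.Ne) (hmem : ∀ (τ : ℝ) (J : ℕ) (F : Fam m J) (A : F.Ω → Prop), S.St τ J F A →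
      F.Tr ∧ F.Tm (τ * J) ∧ F.Rb (τ * J) ∧ Real.exp (-(τ * J)) ≤ Pe F.p A)
    (hP : ThrOf (chsys m θ) S P) (hθ : 0 < θ) {Pt : ℝ → ℝ → ℝ}
    (hPt : ThrOf (tgs k) S (fun _ => Pt)) (hcD : 0 < cD) (hθc : θ < cD / 2)
    (hT1 : T1c S k α (1 - 3 / 4 * cD)) (hT2 : T2c S k α P₁ (1 - cD / 2)) (hα : α ≤ P₁)
    (hP₁ : P₁ ≤ 1 - cD) (hw0 : 0 < w₀) (hw01 : w₀ < w₁) (hw1 : w₁ < α) (hPt0 : Pt w₀ w₀ ≤ P₁)
    (hPt1 : P₁ ≤ Pt w₁ w₁) (hwd0 : w₀ ∈ Wgd P) (hwd1 : w₁ ∈ Wgd P)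
    (hd0 : ∀ i, Dn1 (P i) w₀) (hd1 : ∀ i, Dn1 (P i) w₁) (hdt0 : Dn1 Pt w₀) (hdt1 : Dn1 Pt w₁)
    (hex0 : ∀ ρ : ℝ, 0 < ρ → ExvY S w₀ (fun J F ω (i : Fin (m - 1)) => F.X J ω (c₀ i))
      ((∑ l ∈ range (m - 1), (1 - bet P c₀ l w₀ w₀)) - ρ))
    (hex1 : ∀ ρ : ℝ, 0 < ρ → ExvY S w₁ (fun J F ω (i : Fin (m - 1)) => F.X J ω (c₁ i))
      ((∑ l ∈ range (m - 1), (1 - bet P c₁ l w₁ w₁)) - ρ)) :
    ∃ (D D' sh sh₂ K' sh' sh₂' K'' : ℕ) (S₀ E₀ S₀' E₀' : ℝ), sh ≤ sh₂ ∧ 1 ≤ K' ∧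
    1 ≤ S₀ ∧ 1 ≤ E₀ ∧ sh' ≤ sh₂' ∧ 1 ≤ K'' ∧ 1 ≤ S₀' ∧ 1 ≤ E₀' ∧
    ∀ δ δ' : ℝ, 0 < δ → 0 < δ' → ∃ K₁ : ℝ, 0 < K₁ ∧ Bas S (fun J F A => ∃ B : F.Ω → Prop,
      Sub B A ∧ Pe F.p A ≤ K₁ * Pe F.p B ∧
      LbX F c₀ (m - 1) ⌊w₀ * J⌋₊ ⌊(1 - cD / 2 - Pt w₀ w₀) * J⌋₊ D sh sh₂ K' Dq S₀ E₀
        (fun l => bet P c₀ l w₀ w₀) (Pt w₀ w₀) (1 - cD / 2)
        (1 - cD / 2 - max (Pt w₀ w₀) (bet P c₀ (m - 2) w₀ w₀)) δ B ∧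
      LbX F c₁ (m - 1) ⌊w₁ * J⌋₊ ⌊(1 - cD / 2 - P₁) * J⌋₊ D' sh' sh₂' K'' Dq S₀' E₀'
        (fun l => bet P c₁ l w₁ w₁) P₁ (1 - cD / 2)
        (1 - cD / 2 - max P₁ (bet P c₁ (m - 2) w₁ w₁)) δ' B) := by
  obtain ⟨D, sh, sh₂, K', S₀, E₀, a1, a2, a3, a4, a5⟩ := labxD hM h0 hne hmem hP hθ hPt hcD
    hθc hT1 hT2 hα hP₁ hw0 (hw01.trans hw1) hwd0 hm hd0 hdt0 hex0
  obtain ⟨D', sh', sh₂', K'', S₀', E₀', b1, b2, b3, b4, b5⟩ := labxD hM h1 hne hmem hP hθ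
    hPt hcD hθc hT1 hT2 hα hP₁ (hw0.trans hw01) hw1 hwd1 hm hd1 hdt1 hex1
  rw [min_eq_left hPt0] at a5
  rw [min_eq_right hPt1] at b5
  refine ⟨D, D', sh, sh₂, K', sh', sh₂', K'', S₀, E₀, S₀', E₀', a1, a2, a3, a4, b1, b2, b3,
    b4, fun δ δ' hδ hδ' => ?_⟩
  obtain ⟨K₁, hK₁, hb0⟩ := a5 δ hδ
  obtain ⟨K₂, hK₂, hb1⟩ := b5 δ' hδ'
  exact ⟨K₁ * K₂, mul_pos hK₁ hK₂, two_ev (fun J F B B' hB h => h.sub hB) hK₁ hb0 hb1⟩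

/-- **The labels of one window of a class**, in the letters of the row `R1`: `sg = 1 - cD / 2`. -/
theorem labx (hM : M3S (m - 1)) {k : Fin m} {w : ℝ} {c : ℕ → Fin m} (h : Gdy P k w w c)
    (hne : S.Ne) (hmem : ∀ (τ : ℝ) (J : ℕ) (F : Fam m J) (A : F.Ω → Prop), S.St τ J F A →
      F.Tr ∧ F.Tm (τ * J) ∧ F.Rb (τ * J) ∧ Real.exp (-(τ * J)) ≤ Pe F.p A)
    (hP : ThrOf (chsys m θ) S P) (hθ : 0 < θ) {Pt : ℝ → ℝ → ℝ}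
    (hPt : ThrOf (tgs k) S (fun _ => Pt)) {α Q cD : ℝ} (hcD : 0 < cD) (hθc : θ < cD / 2)
    (hT1 : T1c S k α (1 - 3 / 4 * cD)) (hT2 : T2c S k α Q (1 - cD / 2)) (hα : α ≤ Q)
    (hQ : Q ≤ 1 - cD) (hw : 0 < w) (hwα : w < α) (hwd : w ∈ Wgd P) (hm : 2 ≤ m)
    (hd : ∀ i, Dn1 (P i) w) (hdt : Dn1 Pt w)
    (hex : ∀ ρ : ℝ, 0 < ρ → ExvY S w (fun J F ω (i : Fin (m - 1)) => F.X J ω (c i))
      ((∑ l ∈ range (m - 1), (1 - bet P c l w w)) - ρ)) :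
    ∃ (D sh sh₂ K' Dq : ℕ) (S₀ E₀ : ℝ), sh ≤ sh₂ ∧ 1 ≤ K' ∧ 1 ≤ S₀ ∧ 1 ≤ E₀ ∧
    ∀ δ : ℝ, 0 < δ → ∃ K₁ : ℝ, 0 < K₁ ∧ Bas S (fun J F A => ∃ B : F.Ω → Prop, Sub B A ∧
      Pe F.p A ≤ K₁ * Pe F.p B ∧
      LbX F c (m - 1) ⌊w * J⌋₊ ⌊(1 - cD / 2 - min (Pt w w) Q) * J⌋₊ D sh sh₂ K' Dq S₀ E₀
        (fun l => bet P c l w w) (min (Pt w w) Q) (1 - cD / 2)
        (1 - cD / 2 - max (min (Pt w w) Q) (bet P c (m - 2) w w)) δ B) := by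
  obtain ⟨Dq, hM⟩ := hM
  obtain ⟨D, sh, sh₂, K', S₀, E₀, h1⟩ := labxD hM h hne hmem hP hθ hPt hcD hθc hT1 hT2 hα hQ hw
    hwα hwd hm hd hdt hex
  exact ⟨D, sh, sh₂, K', Dq, S₀, E₀, h1⟩

/-- **The labels of two windows of a class**, on one event. At `w₀` the precision of the target is
`P w₀ w₀`, at `w₁` it is the row `P₁`. The two losses are independent. -/
theorem lab2 (hM : M3S (m - 1)) (hm : 2 ≤ m) {k : Fin m} {w₀ w₁ α P₁ cD : ℝ}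
    {c₀ c₁ : ℕ → Fin m} (h0 : Gdy P k w₀ w₀ c₀) (h1 : Gdy P k w₁ w₁ c₁)
    (hne : S.Ne) (hmem : ∀ (τ : ℝ) (J : ℕ) (F : Fam m J) (A : F.Ω → Prop), S.St τ J F A →
      F.Tr ∧ F.Tm (τ * J) ∧ F.Rb (τ * J) ∧ Real.exp (-(τ * J)) ≤ Pe F.p A)
    (hP : ThrOf (chsys m θ) S P) (hθ : 0 < θ) {Pt : ℝ → ℝ → ℝ}
    (hPt : ThrOf (tgs k) S (fun _ => Pt)) (hcD : 0 < cD) (hθc : θ < cD / 2)
    (hT1 : T1c S k α (1 - 3 / 4 * cD)) (hT2 : T2c S k α P₁ (1 - cD / 2)) (hα : α ≤ P₁)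
    (hP₁ : P₁ ≤ 1 - cD) (hw0 : 0 < w₀) (hw01 : w₀ < w₁) (hw1 : w₁ < α) (hPt0 : Pt w₀ w₀ ≤ P₁)
    (hPt1 : P₁ ≤ Pt w₁ w₁) (hwd0 : w₀ ∈ Wgd P) (hwd1 : w₁ ∈ Wgd P)
    (hd0 : ∀ i, Dn1 (P i) w₀) (hd1 : ∀ i, Dn1 (P i) w₁) (hdt0 : Dn1 Pt w₀) (hdt1 : Dn1 Pt w₁)
    (hex0 : ∀ ρ : ℝ, 0 < ρ → ExvY S w₀ (fun J F ω (i : Fin (m - 1)) => F.X J ω (c₀ i))
      ((∑ l ∈ range (m - 1), (1 - bet P c₀ l w₀ w₀)) - ρ))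
    (hex1 : ∀ ρ : ℝ, 0 < ρ → ExvY S w₁ (fun J F ω (i : Fin (m - 1)) => F.X J ω (c₁ i))
      ((∑ l ∈ range (m - 1), (1 - bet P c₁ l w₁ w₁)) - ρ)) :
    ∃ (D D' sh sh₂ K' Dq sh' sh₂' K'' Dq' : ℕ) (S₀ E₀ S₀' E₀' : ℝ), sh ≤ sh₂ ∧ 1 ≤ K' ∧
    1 ≤ S₀ ∧ 1 ≤ E₀ ∧ sh' ≤ sh₂' ∧ 1 ≤ K'' ∧ 1 ≤ S₀' ∧ 1 ≤ E₀' ∧
    ∀ δ δ' : ℝ, 0 < δ → 0 < δ' → ∃ K₁ : ℝ, 0 < K₁ ∧ Bas S (fun J F A => ∃ B : F.Ω → Prop,
      Sub B A ∧ Pe F.p A ≤ K₁ * Pe F.p B ∧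
      LbX F c₀ (m - 1) ⌊w₀ * J⌋₊ ⌊(1 - cD / 2 - Pt w₀ w₀) * J⌋₊ D sh sh₂ K' Dq S₀ E₀
        (fun l => bet P c₀ l w₀ w₀) (Pt w₀ w₀) (1 - cD / 2)
        (1 - cD / 2 - max (Pt w₀ w₀) (bet P c₀ (m - 2) w₀ w₀)) δ B ∧
      LbX F c₁ (m - 1) ⌊w₁ * J⌋₊ ⌊(1 - cD / 2 - P₁) * J⌋₊ D' sh' sh₂' K'' Dq' S₀' E₀'
        (fun l => bet P c₁ l w₁ w₁) P₁ (1 - cD / 2)
        (1 - cD / 2 - max P₁ (bet P c₁ (m - 2) w₁ w₁)) δ' B) := by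
  obtain ⟨Dq, hM⟩ := hM
  obtain ⟨D, D', sh, sh₂, K', sh', sh₂', K'', S₀, E₀, S₀', E₀', h2⟩ := lab2D hM hm h0 h1 hne hmem
    hP hθ hPt hcD hθc hT1 hT2 hα hP₁ hw0 hw01 hw1 hPt0 hPt1 hwd0 hwd1 hd0 hd1 hdt0 hdt1 hex0 hex1
  exact ⟨D, D', sh, sh₂, K', Dq, sh', sh₂', K'', Dq, S₀, E₀, S₀', E₀', h2⟩

/-- The record without the target. -/
theorem _root_.Pool.M3F.NLabW.noN {F : Fam m J} {c : ℕ → Fin m} {r W sg : ℕ} {g : ℕ → ℕ} {K : ℕ}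
    {L : ℝ} {B : F.Ω → Prop} {V : Type} {z : PtT F → V} {z' : LnT F → V} {P : V → ℕ → PN}
    (h : NLabW F c r W sg g K L B z z' P) (hr : 1 ≤ r) :
    NLab F c (r - 1) W g K L B z z' P := by
  have hr' : r - 1 + 1 = r := by omega
  refine ⟨h.deg, h.tri, h.cls, h.zero, fun ω hω i hi => h.pos ω hω i (by omega),
    fun ω hω b hb i hi l hl => ?_⟩
  rw [hr'] at hb hi
  obtain ⟨b', hb'⟩ : ∃ b' : ℕ → ℝ, b' = Function.update b r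
    (eval b (P (z (ptr F J ω)) r)) := ⟨_, rfl⟩
  have hbb : ∀ j < r, b j = b' j := fun j hj => by
    rw [hb']
    exact (Function.update_of_ne (by omega) _ _).symm
  have hev : ∀ j ≤ r, eval b (P (z (ptr F J ω)) j) = eval b' (P (z (ptr F J ω)) j) := fun j hj =>
    eval_cg (h.tri _ j) fun i hi => hbb i (by omega)
  have h1 : eval b (pderiv l (P (z (ptr F J ω)) i)) = eval b' (pderiv l (P (z (ptr F J ω)) i)) := by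
    refine eval_cg ((Pool.STAT.NEAR.vars_pd _ l).trans (h.tri _ i)) fun j hj =>
      hbb j (by omega)
  rw [h1]
  refine h.grad ω hω b' (fun j hj => ?_) i (by omega) l hl
  rcases Nat.lt_or_ge j r with h2 | h2
  · rw [← hbb j h2, ← hev j h2.le]
    exact hb j h2
  · have e1 : j = r := by omega
    subst e1
    rw [← hev j le_rfl, hb', Function.update_self, sub_self, abs_zero]
    positivity

end Pool.JPN
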