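import Pool.Agent.H53.JM.Dna
import Pool.Agent.H2.GEN.AttI

/-!
# The labels of one window of a class, with jets

`M3S r`: `Pool.M3F.m3f_clsw` with a loss in the exactness. `LbW`: the raw chains with the target on
the top, the closed labels and the equation of the target, on one event. `lab1`: at a good window
they exist, with degrees independent of the losses.
-/

set_option autoImplicit false

namespace Pool.JPN

open Finset Real MvPolynomial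
open Pool.Agent.H49.Ent Pool.Agent.H32.Dense Pool.STK Pool.KA Pool.KSAT Pool.K2S Pool.KS3 Pool.PB
  Pool.STAT Pool.STAT.CLO Pool.GEN Pool.S6C Pool.M3F
open Pool.LBT (ThrOf)
open Pool.ONE (tgs)
open Pool.CHT (TmH chsys bet tau Pts bas_ev tmH_of_reg)
open Pool.TOP (T1c T2c t1n)
open Pool.FRN (Gdy Wgd UpA)

variable {m J : ℕ} {θ : ℝ} {S : PCl m} {P : List (Fin m) × Fin m → ℝ → ℝ → ℝ}

/-- `Pool.M3F.m3f_clsw` with a loss in the exactness, for the degree `D` of the equation. -/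
def M3D (r D : ℕ) : Prop := ∀ K : ℕ, ∃ (sh sh₂ K' : ℕ) (S₀ E : ℝ), sh ≤ sh₂ ∧ 1 ≤ K' ∧
    1 ≤ S₀ ∧ 1 ≤ E ∧ ∀ {m : ℕ} (S : PCl m),
    (∀ (τ : ℝ) (J : ℕ) (F : Fam m J) (A : F.Ω → Prop), S.St τ J F A →
      F.Tr ∧ F.Tm (τ * J) ∧ F.Rb (τ * J) ∧ Real.exp (-(τ * J)) ≤ Pe F.p A) →
    ∀ (c : ℕ → Fin m) (w : ℝ) (g : ℕ → ℝ) (γ : ℝ), Inj c (r + 1) → 0 ≤ w → 0 < γ →
    (∀ l ≤ r, w ≤ g l) → (∀ l ≤ r, γ ≤ g l) → (∀ l l', l ≤ l' → l' ≤ r → g l ≤ g l') →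
    (∀ l < r, g l + 2 * γ ≤ g r) → w + 2 * γ ≤ g r → g r ≤ 1 →
    (∀ ρ : ℝ, 0 < ρ → ExvY S w (fun J F ω (i : Fin r) => F.X J ω (c i))
      ((∑ l ∈ range r, (1 - g l)) - ρ)) →
    ∀ δ : ℝ, 0 < δ → ∃ φ : ℝ, 0 < φ ∧ Bas S (fun J F A => ∀ (e sg : ℕ) (g' Kv : ℕ → ℕ)
      (G : PtT F → ℕ → MvPolynomial (Option (Fin m)) ℝ)
      (H : LnT F → ℕ → MvPolynomial (Option (Fin m)) ℝ),
      (∀ l ≤ r, |(g' l : ℝ) - g l * J| ≤ φ * J) → (e : ℝ) ≤ φ * J → (∀ i < r + 1, Kv i ≤ K) →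
      ChOK F c r Kv ⌊w * J⌋₊ ⌊w * J⌋₊ e g' A G H →
      (∀ ω, A ω → |F.x ω (c r) - eval (bt F ω) (G (ptr F J ω) r)| ≤ 2 ^ sg / 2 ^ g' r) →
      (∀ ω, A ω → ∀ b : Option (Fin m) → ℝ, NBx c (G (ptr F J ω)) g' ⌊w * J⌋₊ (F.t ω) r b →
        |eval b (G (ptr F J ω) r) - eval b (H (slam F ⌊w * J⌋₊ ω) r)| ≤ 2 ^ sg / 2 ^ g' r) →
      (∀ ω, A ω → ∀ b : Option (Fin m) → ℝ, NBx c (G (ptr F J ω)) g' ⌊w * J⌋₊ (F.t ω) r b →
        ∀ l < r, |eval b (pderiv (some (c l)) (G (ptr F J ω) r))| ≤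
          2 ^ sg * 2 ^ (e + nlp g' l r)) →
      ∃ (g₂ g'' : ℕ → ℕ) (B : F.Ω → Prop) (L : ℝ) (V : Type) (z : PtT F → V) (z' : LnT F → V)
        (P : V → ℕ → PN) (Q : V → PN) (T : V → ℝ) (k : V → ℕ),
        (∀ l < r, g'' l = g' l) ∧ g'' r ≤ g' r ∧ (∀ l < r, g₂ l = g' l - sh) ∧
        (∀ l < r, sh ≤ g' l) ∧ g₂ r + sh₂ = g'' r ∧ (g r - δ) * J ≤ g₂ r ∧ g'' r ≤ J ∧
        (∀ ω, B ω → A ω) ∧ Pe F.p A ≤ 4 * (K' * 5 ^ (m + 1)) * Pe F.p B ∧ 0 ≤ L ∧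
        Real.log (1 + L) ≤ δ * J ∧ NLabW F c r ⌊w * J⌋₊ sg g₂ K' L B z z' P ∧
        ∀ ω, B ω → Nr K' S₀ (gg ⌊w * J⌋₊ g'') (P (z (ptr F J ω)))
            (sy c (r + 1) ((F.T1 ⌊w * J⌋₊ ω : ℝ) / 2 ^ ⌊w * J⌋₊) (Gw sg r (G (ptr F J ω))))
            (r + 2) ∧
          (k (z (ptr F J ω)) : ℝ) ≤ δ * J ∧
          Jet r D (wid ⌊w * J⌋₊ g₂) (P (z (ptr F J ω))) (Q (z (ptr F J ω)))
            (2 ^ k (z (ptr F J ω)) / 2 ^ g₂ r) (T (z (ptr F J ω))) ∧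
          JetP c r D (Gw sg r (G (ptr F J ω))) g' ⌊w * J⌋₊ (F.t ω) (bk c (Q (z (ptr F J ω))))
            (2 ^ k (z (ptr F J ω)) / 2 ^ g₂ r) (4 / 3 * T (z (ptr F J ω))) E)

/-- `Pool.M3F.m3f_clsw` with a loss in the exactness. -/
def M3S (r : ℕ) : Prop := ∃ D : ℕ, M3D r D

/-- **The labels of one window**, on one event: the raw chains of the coordinates `c i`, `i < r`
(exponent `e`) and with the target `c r` (exponent `EN`), degree `D`, precisions `g`; the closed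
labels with the target divided by `2 ^ sg`, degree `K'`, precisions `g₂`, gradients at most `L`;
the equation `Q` of degree `Dq`. -/
structure LbW (F : Fam m J) (c : ℕ → Fin m) (r W sg D K' Dq : ℕ) (S₀ E₀ : ℝ) (e EN kk : ℕ)
    (g g₁ g₂ : ℕ → ℕ) (L : ℝ) (B : F.Ω → Prop)
    (G : PtT F → ℕ → MvPolynomial (Option (Fin m)) ℝ)
    (H : LnT F → ℕ → MvPolynomial (Option (Fin m)) ℝ) {V : Type} (z : PtT F → V)
    (z' : LnT F → V) (P : V → ℕ → PN) (Q : V → PN) (T : V → ℝ) (k : V → ℕ) : Prop where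
  chV : ChOK F c r (fun _ => D) W W e g B G H
  chN : ChOK F c (r + 1) (fun _ => D) W W EN g B G H
  nlab : NLabW F c r W sg g₂ K' L B z z' P
  nr : ∀ ω, B ω → Nr K' S₀ (gg W g₁) (P (z (ptr F J ω)))
    (sy c (r + 1) ((F.T1 W ω : ℝ) / 2 ^ W) (Gw sg r (G (ptr F J ω)))) (r + 2)
  kle : ∀ ω, B ω → k (z (ptr F J ω)) ≤ kk
  jet : ∀ ω, B ω → Jet r Dq (wid W g₂) (P (z (ptr F J ω))) (Q (z (ptr F J ω)))
    (2 ^ k (z (ptr F J ω)) / 2 ^ g₂ r) (T (z (ptr F J ω)))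
  jetp : ∀ ω, B ω → JetP c r Dq (Gw sg r (G (ptr F J ω))) (Function.update g r (g r + sg)) W
    (F.t ω) (bk c (Q (z (ptr F J ω)))) (2 ^ k (z (ptr F J ω)) / 2 ^ g₂ r)
    (4 / 3 * T (z (ptr F J ω))) E₀

theorem _root_.Pool.M3F.NLabW.sub {F : Fam m J} {c : ℕ → Fin m} {r W sg : ℕ} {g : ℕ → ℕ} {K : ℕ}
    {L : ℝ} {B B' : F.Ω → Prop} {V : Type} {z : PtT F → V} {z' : LnT F → V} {P : V → ℕ → PN}
    (h : NLabW F c r W sg g K L B z z' P) (hB : Sub B' B) :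
    NLabW F c r W sg g K L B' z z' P :=
  ⟨h.deg, h.tri, fun ω hω => h.cls ω (hB ω hω), fun ω hω => h.zero ω (hB ω hω),
    fun ω hω => h.pos ω (hB ω hω), fun ω hω => h.posN ω (hB ω hω),
    fun ω hω => h.grad ω (hB ω hω)⟩

theorem LbW.sub {F : Fam m J} {c : ℕ → Fin m} {r W sg D K' Dq : ℕ} {S₀ E₀ : ℝ} {e EN kk : ℕ}
    {g g₁ g₂ : ℕ → ℕ} {L : ℝ} {B B' : F.Ω → Prop}
    {G : PtT F → ℕ → MvPolynomial (Option (Fin m)) ℝ}
    {H : LnT F → ℕ → MvPolynomial (Option (Fin m)) ℝ} {V : Type} {z : PtT F → V}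
    {z' : LnT F → V} {P : V → ℕ → PN} {Q : V → PN} {T : V → ℝ} {k : V → ℕ}
    (h : LbW F c r W sg D K' Dq S₀ E₀ e EN kk g g₁ g₂ L B G H z z' P Q T k) (hB : Sub B' B) :
    LbW F c r W sg D K' Dq S₀ E₀ e EN kk g g₁ g₂ L B' G H z z' P Q T k :=
  ⟨h.chV.sub hB, h.chN.sub hB, h.nlab.sub hB, fun ω hω => h.nr ω (hB ω hω),
    fun ω hω => h.kle ω (hB ω hω), fun ω hω => h.jet ω (hB ω hω),
    fun ω hω => h.jetp ω (hB ω hω)⟩

/-- The numbers of the labels of one window. -/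
structure NuW (J r sg sh sh₂ : ℕ) (β : ℕ → ℝ) (PN sr EE δ : ℝ) (e EN kk : ℕ) (g g₁ g₂ : ℕ → ℕ)
    (L : ℝ) : Prop where
  e_le : (e : ℝ) ≤ δ * J
  EN_le : (EN : ℝ) ≤ (EE + δ) * J
  kk_le : (kk : ℝ) ≤ δ * J
  gV : ∀ l < r, |(g l : ℝ) - β l * J| ≤ δ * J
  gN : |(g r : ℝ) - PN * J| ≤ δ * J
  g1 : ∀ l < r, g₁ l = g l
  g1N : g₁ r ≤ g r + sg
  g2 : ∀ l < r, g₂ l + sh = g l
  g2N : g₂ r + sh₂ = g₁ r
  g2l : (sr - δ) * J ≤ g₂ r
  g1J : g₁ r ≤ J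
  L0 : 0 ≤ L
  logL : Real.log (1 + L) ≤ δ * J
  lip : ∀ l < r, EN + nlp g l r ≤ sg + e

/-- The slopes of the target. -/
theorem lip_num {EN gl gr sg e' : ℕ} (h : EN + gl ≤ sg + e' + gr) (hg : gr ≤ gl) :
    EN + (gl - gr) ≤ sg + e' := by omega

/-- **The labels of one window of a class.** The degree `Dq` of the equation is universal. -/
theorem lab1D {Dq : ℕ} (hM : M3D (m - 1) Dq) {k : Fin m} {w : ℝ} {c : ℕ → Fin m}
    (h : Gdy P k w w c)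
    (hne : S.Ne) (hmem : ∀ (τ : ℝ) (J : ℕ) (F : Fam m J) (A : F.Ω → Prop), S.St τ J F A →
      F.Tr ∧ F.Tm (τ * J) ∧ F.Rb (τ * J) ∧ Real.exp (-(τ * J)) ≤ Pe F.p A)
    (hP : ThrOf (chsys m θ) S P) (hθ : 0 < θ) {Pt : ℝ → ℝ → ℝ}
    (hPt : ThrOf (tgs k) S (fun _ => Pt)) {α Q sg γ : ℝ} (hT1 : T1c S k α (sg - 2 * γ))
    (hT2 : T2c S k α Q sg) (hα : α ≤ 1) (hsgθ : sg + θ < 1) (hQ0 : 0 < Q) (hQ : Q ≤ sg)
    (hw : 0 < w) (hwα : w < α) (hwQ : w ≤ Q) (hwd : w ∈ Wgd P) (hm : 2 ≤ m)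
    (hd : ∀ i, Dn1 (P i) w) (hdt : Dn1 Pt w) (hγ : 0 < γ) (hγw : γ ≤ w) (hwγ : w + 2 * γ ≤ sg)
    (hex : ∀ ρ : ℝ, 0 < ρ → ExvY S w (fun J F ω (i : Fin (m - 1)) => F.X J ω (c i))
      ((∑ l ∈ range (m - 1), (1 - bet P c l w w)) - ρ)) :
    ∃ (D sh sh₂ K' : ℕ) (S₀ E₀ : ℝ), sh ≤ sh₂ ∧ 1 ≤ K' ∧ 1 ≤ S₀ ∧ 1 ≤ E₀ ∧
    ∀ δ : ℝ, 0 < δ → ∃ K₁ : ℝ, 0 < K₁ ∧ Bas S (fun J F A => ∃ (B : F.Ω → Prop) (e EN kk : ℕ)
      (g g₁ g₂ : ℕ → ℕ) (L : ℝ) (G : PtT F → ℕ → MvPolynomial (Option (Fin m)) ℝ)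
      (H : LnT F → ℕ → MvPolynomial (Option (Fin m)) ℝ) (V : Type) (z : PtT F → V)
      (z' : LnT F → V) (Pv : V → ℕ → PN) (Qv : V → PN) (T : V → ℝ) (kf : V → ℕ), Sub B A ∧
      Pe F.p A ≤ K₁ * Pe F.p B ∧
      NuW J (m - 1) ⌊(sg - min (Pt w w) Q) * J⌋₊ sh sh₂ (fun l => bet P c l w w)
        (min (Pt w w) Q) sg (sg - max (min (Pt w w) Q) (bet P c (m - 2) w w)) δ e EN kk g g₁ g₂
        L ∧
      LbW F c (m - 1) ⌊w * J⌋₊ ⌊(sg - min (Pt w w) Q) * J⌋₊ D K' Dq S₀ E₀ e EN kk g g₁ g₂ L B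
        G H z z' Pv Qv T kf) := by
  classical
  have hw1 : w < 1 := hwα.trans_le hα
  have hsg0 : 0 ≤ sg - 2 * γ := by linarith
  have hsg1 : sg < 1 := by linarith
  have hS : TmH S := tmH_of_reg hmem
  have hT1' : T1c S k α sg := by
    intro K ε hε
    refine (hT1 K ε hε).mono 0 ?_
    rintro J - F A h1 l a q hl ha hq
    refine h1 l a q hl ha (le_trans ?_ hq)
    exact mul_le_mul_of_nonneg_right (by linarith) (Nat.cast_nonneg J)
  have hbd := h.bd hne hP hθ hS hT1 hα hsg0 (by linarith) hw le_rfl hwα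
  obtain ⟨r, hr⟩ : ∃ r, r = m - 1 := ⟨_, rfl⟩
  have hr1 : 1 ≤ r := by omega
  have hr2 : m - 2 = r - 1 := by omega
  obtain ⟨D, hown⟩ := own_u h hne hP hθ hS hPt hT1' hT2 hα hsgθ hQ0 hQ hw hwα hwQ hwd hm hd hdt
  obtain ⟨sh, sh₂, K', S₀, E₀, hsh, hK', hS₀, hE₀, hM⟩ := hM D
  refine ⟨D, sh, sh₂, K', S₀, E₀, hsh, hK', hS₀, hE₀, fun δ hδ => ?_⟩
  rw [← hr] at hM hbd hex hown ⊢
  rw [hr2] at hown ⊢
  obtain ⟨β, hβ⟩ : ∃ β : ℕ → ℝ, β = fun l => bet P c l w w := ⟨_, rfl⟩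
  have hβl : ∀ l, bet P c l w w = β l := fun l => by rw [hβ]
  obtain ⟨PN, hPN⟩ : ∃ PN : ℝ, PN = min (Pt w w) Q := ⟨_, rfl⟩
  have hPN0 : w ≤ PN := by
    rw [hPN]
    exact le_min (hPt.low () w w hw.le le_rfl hw1.le) hwQ
  have hPNsg : PN ≤ sg := by
    rw [hPN]
    exact (min_le_right _ _).trans hQ
  -- sorted numbers
  have hθw : 0 < θ * w := mul_pos hθ hw
  have hup : UpA P w w := Wgd.self hwd hw1
  have hpts : Pts S P θ c r 1 (fun _ => w) (fun _ => w) 0 (θ * w / 2) := by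
    refine Pts.of_up hne hP hθ hS (by rw [hr]; exact h.inj) le_rfl (by positivity)
      (fun _ _ => hw) (fun _ _ => le_rfl) (fun _ _ => hw1) (fun _ _ => ?_)
      (fun _ _ i _ l _ => hup.rc hw1 c l i) (fun _ _ i _ => hup.up c i) (fun _ _ i hi => ?_)
      fun _ _ i hi l hl => ?_
    · linarith only [hθw]
    · have h4 := hbd i hi
      have h5 : θ * w ≤ θ * 1 := mul_le_mul_of_nonneg_left hw1.le hθ.le
      linarith only [h4, h5, hsgθ, hγ]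
    · rw [add_zero]
      exact h.tau (by omega) hl
  have hsrt : ∀ l l', l ≤ l' → l' < r → β l ≤ β l' := by
    intro l l' h1 h2
    rcases h1.eq_or_lt with rfl | h1
    · exact le_rfl
    · have := hpts.srt 0 one_pos l' h2 l h1
      rw [hβl, hβl] at this
      linarith
  have hβsg : ∀ l < r, β l + 2 * γ ≤ sg := fun l hl => by
    have := hbd l hl
    rw [hβl] at this
    linarith
  have hβw : ∀ l, w ≤ β l := fun l => by
    rw [hβ]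
    exact hP.low _ w w hw.le le_rfl hw1.le
  have hinj : Inj c (r + 1) := by
    intro i hi j hj hij
    rcases Nat.lt_or_ge i r with k1 | k1 <;> rcases Nat.lt_or_ge j r with k2 | k2
    · exact h.inj (show i < m - 1 by omega) (show j < m - 1 by omega) hij
    · have e1 : j = m - 1 := by omega
      rw [e1, h.top] at hij
      exact absurd hij (h.ne i (by omega))
    · have e1 : i = m - 1 := by omega
      rw [e1, h.top] at hij
      exact absurd hij.symm (h.ne j (by omega))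
    · omega
  obtain ⟨gr, hgr⟩ : ∃ gr : ℕ → ℝ, gr = fun l => if l < r then β l else sg := ⟨_, rfl⟩
  have hgl : ∀ l < r, gr l = β l := fun l hl => by rw [hgr]; exact if_pos hl
  have hgrr : gr r = sg := by rw [hgr]; exact if_neg (lt_irrefl r)
  obtain ⟨φ, hφ, hbas⟩ := hM S hmem c w gr γ hinj hw.le hγ
    (fun l hl => by
      rcases Nat.lt_or_ge l r with h1 | h1
      · rw [hgl l h1]
        exact hβw l
      · have : l = r := by omega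
        rw [this, hgrr]
        linarith)
    (fun l hl => by
      rcases Nat.lt_or_ge l r with h1 | h1
      · rw [hgl l h1]
        exact hγw.trans (hβw l)
      · have : l = r := by omega
        rw [this, hgrr]
        linarith)
    (fun l l' hl hl' => by
      rcases Nat.lt_or_ge l' r with h1 | h1
      · rw [hgl l (by omega), hgl l' h1]
        exact hsrt l l' hl h1
      · have e1 : l' = r := by omega
        rw [e1, hgrr]
        rcases Nat.lt_or_ge l r with h2 | h2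
        · rw [hgl l h2]
          have := hβsg l h2
          linarith
        · have e2 : l = r := by omega
          rw [e2, hgrr])
    (fun l hl => by
      rw [hgl l hl, hgrr]
      exact hβsg l hl) (by rw [hgrr]; exact hwγ) (by rw [hgrr]; exact hsg1.le)
    (fun ρ hρ => by
      have e1 : ∑ l ∈ range r, (1 - gr l) = ∑ l ∈ range r, (1 - bet P c l w w) :=
        Finset.sum_congr rfl fun l hl => by rw [hgl l (mem_range.1 hl), hβl]
      rw [e1]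
      exact hex ρ hρ) δ hδ
  -- the losses
  obtain ⟨ε, hε⟩ : ∃ ε : ℝ, ε = min (φ / 8) (δ / 8) := ⟨_, rfl⟩
  have hε0 : 0 < ε := by rw [hε]; exact lt_min (by positivity) (by positivity)
  have hε1 : ε ≤ φ / 8 := by rw [hε]; exact min_le_left _ _
  have hε2 : ε ≤ δ / 8 := by rw [hε]; exact min_le_right _ _
  obtain ⟨K₁, hK₁, hob⟩ := hown ε hε0
  have hmb := bas_ev hbas (inv_pos.2 hK₁)
  obtain ⟨J₁, hJ₁⟩ := exists_nat_ge (8 / φ)
  obtain ⟨J₂, hJ₂⟩ := exists_nat_ge (8 / δ)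
  have hK'0 : (0 : ℝ) < K' := by exact_mod_cast hK'
  refine ⟨K₁ * (4 * (K' * 5 ^ (m + 1))), by positivity, Bas.mono (max J₁ J₂) (hob.and hmb) ?_⟩
  rintro J hJ F A ⟨⟨B, e, E, g, G, H, hBA, hPe, he, hE, hgV, hgN, hchV, hchN⟩, hm3⟩
  have hJ0 : (0 : ℝ) ≤ J := Nat.cast_nonneg J
  have hJ' : (J₁ : ℝ) ≤ J := by exact_mod_cast (le_max_left _ _).trans hJ
  have e1 : 8 / φ ≤ J := hJ₁.trans hJ'
  rw [div_le_iff₀ hφ] at e1
  have hJ'' : (J₂ : ℝ) ≤ J := by exact_mod_cast (le_max_right _ _).trans hJ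
  have e2 : 8 / δ ≤ J := hJ₂.trans hJ''
  rw [div_le_iff₀ hδ] at e2
  rw [← hPN] at hE hgN ⊢
  simp only [hβl] at hE hgV ⊢
  obtain ⟨sgW, hsgW⟩ : ∃ sgW, sgW = ⌊(sg - PN) * J⌋₊ := ⟨_, rfl⟩
  have hsgW1 : (sgW : ℝ) ≤ (sg - PN) * J := by
    rw [hsgW]
    exact Nat.floor_le (mul_nonneg (by linarith) hJ0)
  have hsgW2 : (sg - PN) * J < sgW + 1 := by
    rw [hsgW]
    exact Nat.lt_floor_add_one _
  obtain ⟨g', hg'⟩ : ∃ g' : ℕ → ℕ, g' = Function.update g r (g r + sgW) := ⟨_, rfl⟩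
  have hg'l : ∀ l, l ≠ r → g' l = g l := fun l hl => by
    rw [hg']
    exact Function.update_of_ne hl _ _
  have hg'r : g' r = g r + sgW := by
    rw [hg']
    exact Function.update_self _ _ _
  obtain ⟨e', he'⟩ : ∃ e', e' = e + ⌈3 * ε * J + 1⌉₊ := ⟨_, rfl⟩
  have he'1 : 3 * ε * J + 1 ≤ e' := by
    rw [he']
    push_cast
    have := Nat.le_ceil (3 * ε * (J : ℝ) + 1)
    have : (0 : ℝ) ≤ e := Nat.cast_nonneg e
    linarith
  have hεJ : ε * (J : ℝ) ≤ φ / 8 * J := mul_le_mul_of_nonneg_right hε1 hJ0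
  have he'2 : (e' : ℝ) ≤ φ * J := by
    rw [he']
    push_cast
    have h1 := (Nat.ceil_lt_add_one (show 0 ≤ 3 * ε * (J : ℝ) + 1 by positivity)).le
    linarith
  have he'3 : (e' : ℝ) ≤ δ * J := by
    rw [he']
    push_cast
    have h1 := (Nat.ceil_lt_add_one (show 0 ≤ 3 * ε * (J : ℝ) + 1 by positivity)).le
    have h2 : ε * (J : ℝ) ≤ δ / 8 * J := mul_le_mul_of_nonneg_right hε2 hJ0
    linarith
  have hnbx : ∀ {y : PtT F} {t : ℝ} {b : Option (Fin m) → ℝ},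
      NBx c (G y) g' ⌊w * J⌋₊ t r b → NBx c (G y) g ⌊w * J⌋₊ t r b := by
    intro y t b hb
    refine ⟨hb.1, fun l hl => ?_⟩
    have h1 := hb.2 l hl
    rwa [hg'l l (by omega)] at h1
  have hpw : (2 : ℝ) ^ sgW / 2 ^ g' r = 1 / 2 ^ g r := by
    rw [hg'r, pow_add, div_eq_div_iff (by positivity) (by positivity)]
    ring
  have hlip : ∀ l < r, E + nlp g l r ≤ sgW + e' := by
    intro l hl
    have h1 : (Finset.Icc l r).sup g ≤ sgW + e' + g r - E := by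
      refine Finset.sup_le fun j hj => ?_
      rw [Finset.mem_Icc] at hj
      have h2 : ((E + g j : ℕ) : ℝ) ≤ ((sgW + e' + g r : ℕ) : ℝ) := by
        push_cast
        have h3 := (abs_le.1 hgN).1
        have h4 : (g j : ℝ) ≤ (max PN (β (r - 1)) + ε) * J := by
          rcases Nat.lt_or_ge j r with h5 | h5
          · have h6 := (abs_le.1 (hgV j h5)).2
            have h7 := mul_le_mul_of_nonneg_right ((hsrt j (r - 1) (by omega)
              (by omega)).trans (le_max_right PN (β (r - 1)))) hJ0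
            linarith
          · have e2 : j = r := by omega
            rw [e2]
            have h6 := (abs_le.1 hgN).2
            have h7 := mul_le_mul_of_nonneg_right (le_max_left PN (β (r - 1))) hJ0
            linarith
        linarith
      have h3 : E + g j ≤ sgW + e' + g r := by exact_mod_cast h2
      omega
    have h2 : g r ≤ (Finset.Icc l r).sup g :=
      Finset.le_sup (f := g) (Finset.mem_Icc.2 ⟨hl.le, le_rfl⟩)
    have h5 : E + g r ≤ sgW + e' + g r := by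
      have h6 : ((E + g r : ℕ) : ℝ) ≤ ((sgW + e' + g r : ℕ) : ℝ) := by
        push_cast
        have h3 := (abs_le.1 hgN).1
        have h6 := (abs_le.1 hgN).2
        have h7 := mul_le_mul_of_nonneg_right (le_max_left PN (β (r - 1))) hJ0
        linarith
      exact_mod_cast h6
    unfold nlp
    omega
  obtain ⟨g₂, g'', B', L, V, z, z', Pv, Qv, T, kf, a1, a2, a3, a4, a5, a6, a7, a8, a9, a10, a11,
    a12, a13⟩ := hm3 B hBA (by
      rw [inv_mul_le_iff₀ hK₁]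
      exact hPe) e' sgW g' (fun _ => D) G H (fun l hl => by
      rcases Nat.lt_or_ge l r with h1 | h1
      · rw [hg'l l (by omega), hgl l h1]
        have := hgV l h1
        linarith
      · have : l = r := by omega
        rw [this, hg'r, hgrr]
        push_cast
        have h2 := abs_le.1 hgN
        rw [abs_le]
        constructor <;> linarith [h2.1, h2.2]) he'2 (fun _ _ => le_rfl)
      ((hchV.mono le_rfl (fun _ => le_rfl) le_rfl (by rw [he']; omega)).cg fun l hl =>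
        (hg'l l (by omega)).symm) (fun ω hω => by
        rw [hpw]
        exact hchN.pos ω hω r (Nat.lt_succ_self r)) (fun ω hω b hb => by
        rw [hpw]
        exact hchN.agr ω hω r (Nat.lt_succ_self r) b (hnbx hb)) (fun ω hω b hb l hl => by
        refine (hchN.lip ω hω r (Nat.lt_succ_self r) b (hnbx hb) l hl).trans ?_
        rw [← pow_add]
        exact pow_le_pow_right₀ one_le_two ((hlip l hl).trans (by omega)))
  refine ⟨B', e', E, ⌊δ * J⌋₊, g, g'', g₂, L, G, H, V, z, z', Pv, Qv, T, kf,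
    fun ω hω => hBA ω (a8 ω hω), ?_, ?_, ?_⟩
  · calc Pe F.p A ≤ K₁ * Pe F.p B := hPe
      _ ≤ K₁ * (4 * (K' * 5 ^ (m + 1)) * Pe F.p B') := mul_le_mul_of_nonneg_left a9 hK₁.le
      _ = _ := by ring
  · have hδε : ε * (J : ℝ) ≤ δ * J := mul_le_mul_of_nonneg_right (by linarith) hJ0
    refine ⟨he'3, hE.trans ?_, Nat.floor_le (by positivity), fun l hl =>
      (hgV l hl).trans hδε, hgN.trans hδε, fun l hl => ?_, ?_, fun l hl => ?_, a5, ?_, a7, a10,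
      a11, by rw [← hsgW]; exact hlip⟩
    · linarith
    · rw [a1 l hl, hg'l l (by omega)]
    · rw [← hsgW, ← hg'r]
      exact a2
    · have h1 := a4 l hl
      have h2 := a3 l hl
      have h3 := hg'l l (by omega)
      omega
    · rw [hgrr] at a6
      exact a6
  · rw [← hsgW]
    refine ⟨(hchV.mono le_rfl (fun _ => le_rfl) le_rfl (by rw [he']; omega)).sub a8,
      hchN.sub a8, a12, fun ω hω => (a13 ω hω).1, fun ω hω => ?_,
      fun ω hω => (a13 ω hω).2.2.1, fun ω hω => ?_⟩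
    · exact Nat.le_floor (a13 ω hω).2.1
    · rw [← hg']
      exact (a13 ω hω).2.2.2

/-- **The labels of one window of a class.** -/
theorem lab1 (hM : M3S (m - 1)) {k : Fin m} {w : ℝ} {c : ℕ → Fin m} (h : Gdy P k w w c)
    (hne : S.Ne) (hmem : ∀ (τ : ℝ) (J : ℕ) (F : Fam m J) (A : F.Ω → Prop), S.St τ J F A →
      F.Tr ∧ F.Tm (τ * J) ∧ F.Rb (τ * J) ∧ Real.exp (-(τ * J)) ≤ Pe F.p A)
    (hP : ThrOf (chsys m θ) S P) (hθ : 0 < θ) {Pt : ℝ → ℝ → ℝ}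
    (hPt : ThrOf (tgs k) S (fun _ => Pt)) {α Q sg γ : ℝ} (hT1 : T1c S k α (sg - 2 * γ))
    (hT2 : T2c S k α Q sg) (hα : α ≤ 1) (hsgθ : sg + θ < 1) (hQ0 : 0 < Q) (hQ : Q ≤ sg)
    (hw : 0 < w) (hwα : w < α) (hwQ : w ≤ Q) (hwd : w ∈ Wgd P) (hm : 2 ≤ m)
    (hd : ∀ i, Dn1 (P i) w) (hdt : Dn1 Pt w) (hγ : 0 < γ) (hγw : γ ≤ w) (hwγ : w + 2 * γ ≤ sg)
    (hex : ∀ ρ : ℝ, 0 < ρ → ExvY S w (fun J F ω (i : Fin (m - 1)) => F.X J ω (c i))
      ((∑ l ∈ range (m - 1), (1 - bet P c l w w)) - ρ)) :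
    ∃ (D sh sh₂ K' Dq : ℕ) (S₀ E₀ : ℝ), sh ≤ sh₂ ∧ 1 ≤ K' ∧ 1 ≤ S₀ ∧ 1 ≤ E₀ ∧
    ∀ δ : ℝ, 0 < δ → ∃ K₁ : ℝ, 0 < K₁ ∧ Bas S (fun J F A => ∃ (B : F.Ω → Prop) (e EN kk : ℕ)
      (g g₁ g₂ : ℕ → ℕ) (L : ℝ) (G : PtT F → ℕ → MvPolynomial (Option (Fin m)) ℝ)
      (H : LnT F → ℕ → MvPolynomial (Option (Fin m)) ℝ) (V : Type) (z : PtT F → V)
      (z' : LnT F → V) (Pv : V → ℕ → PN) (Qv : V → PN) (T : V → ℝ) (kf : V → ℕ), Sub B A ∧
      Pe F.p A ≤ K₁ * Pe F.p B ∧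
      NuW J (m - 1) ⌊(sg - min (Pt w w) Q) * J⌋₊ sh sh₂ (fun l => bet P c l w w)
        (min (Pt w w) Q) sg (sg - max (min (Pt w w) Q) (bet P c (m - 2) w w)) δ e EN kk g g₁ g₂
        L ∧
      LbW F c (m - 1) ⌊w * J⌋₊ ⌊(sg - min (Pt w w) Q) * J⌋₊ D K' Dq S₀ E₀ e EN kk g g₁ g₂ L B
        G H z z' Pv Qv T kf) := by
  obtain ⟨Dq, hM⟩ := hM
  obtain ⟨D, sh, sh₂, K', S₀, E₀, h1⟩ := lab1D hM h hne hmem hP hθ hPt hT1 hT2 hα hsgθ hQ0 hQ hw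
    hwα hwQ hwd hm hd hdt hγ hγw hwγ hex
  exact ⟨D, sh, sh₂, K', Dq, S₀, E₀, h1⟩

end Pool.JPN
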