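import Pool.Agent.H53.JM.Pair

/-!
# Laws of bounded density

`CH_mix`, `CH_mix_le`: the entropy of a mixture. `dens_full`: fullness for laws of bounded density.
`layer`: a lower bound of the entropy on all large events holds for the laws of bounded density.
-/

set_option autoImplicit false

namespace Pool.JPR

open Finset Real
open Pool.Agent.H49.Ent Pool.Agent.H32.Dense Pool.STK Pool.KA Pool.KSAT Pool.K2S Pool.PB
  Pool.GEN Pool.KM7 Pool.S6C Pool.M3F
open Pool.GRW (TmWn)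

section Mix

variable {Ω ι S T : Type} [Fintype Ω] [Fintype ι]

/-- The normalized weight. -/
noncomputable def nrm (s : Ω → ℝ) (ω : Ω) : ℝ := s ω / ∑ ω', s ω'

theorem nrm_isLaw {s : Ω → ℝ} (h0 : ∀ ω, 0 ≤ s ω) (h1 : 0 < ∑ ω, s ω) : IsLaw (nrm s) := by
  refine ⟨fun ω => div_nonneg (h0 ω) h1.le, ?_⟩
  unfold nrm
  rw [← Finset.sum_div, div_self h1.ne']

theorem law_snd (s : ι → Ω → ℝ) (i : ι) :
    law (fun e : Ω × ι => s e.2 e.1) Prod.snd i = ∑ ω, s i ω := by
  classical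
  unfold law
  rw [Fintype.sum_prod_type]
  refine Finset.sum_congr rfl fun ω _ => ?_
  rw [Finset.sum_eq_single i]
  · simp
  · intro j _ hj
    rw [if_neg hj]
  · intro h
    exact absurd (Finset.mem_univ _) h

theorem psh_cond (s : ι → Ω → ℝ) (i : ι) :
    Psh (Pool.Agent.H49.Ent.cond (fun e : Ω × ι => s e.2 e.1) Prod.snd i) Prod.fst (nrm (s i)) := by
  classical
  intro ω
  have h1 := law_snd s i
  unfold law nrm
  rw [← h1, Fintype.sum_prod_type, Finset.sum_eq_single ω]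
  · rw [Finset.sum_eq_single i]
    · rw [if_pos rfl]
      unfold Pool.Agent.H49.Ent.cond
      rw [if_pos rfl]
    · intro j _ hj
      rw [if_pos rfl]
      unfold Pool.Agent.H49.Ent.cond
      rw [if_neg hj]
    · intro h
      exact absurd (Finset.mem_univ _) h
  · intro ω' _ hω
    refine Finset.sum_eq_zero fun j _ => ?_
    rw [if_neg hω]
  · intro h
    exact absurd (Finset.mem_univ _) h

theorem psh_mix {r : Ω → ℝ} (s : ι → Ω → ℝ) (hr : ∀ ω, r ω = ∑ i, s i ω) :
    Psh (fun e : Ω × ι => s e.2 e.1) Prod.fst r := by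
  classical
  intro ω
  rw [hr]
  unfold law
  rw [Fintype.sum_prod_type, Finset.sum_eq_single ω]
  · refine Finset.sum_congr rfl fun i _ => ?_
    rw [if_pos rfl]
  · intro ω' _ hω
    refine Finset.sum_eq_zero fun j _ => ?_
    rw [if_neg hω]
  · intro h
    exact absurd (Finset.mem_univ _) h

theorem mix_split (s : ι → Ω → ℝ) (hs : ∀ i ω, 0 ≤ s i ω) (X : Ω → S) (W : Ω → T) :
    CH (fun e : Ω × ι => s e.2 e.1) (fun e => X e.1) (fun e => (W e.1, e.2)) =
      ∑ i, (∑ ω, s i ω) * CH (nrm (s i)) X W := by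
  classical
  have hR0 : ∀ e : Ω × ι, 0 ≤ (fun e : Ω × ι => s e.2 e.1) e := fun e => hs e.2 e.1
  have h1 := CH_split hR0 (fun e => X e.1) (fun e => W e.1) (Prod.snd : Ω × ι → ι)
  have h2 : (fun e : Ω × ι => (W e.1, e.2)) = fun e => (W e.1, Prod.snd e) := rfl
  rw [h2, h1]
  rcases isEmpty_or_nonempty Ω with hΩ | hΩ
  · rw [Finset.univ_eq_empty (α := Ω × ι), Finset.image_empty, Finset.sum_empty]
    refine (Finset.sum_eq_zero fun i _ => ?_).symm
    rw [Finset.univ_eq_empty, Finset.sum_empty, zero_mul]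
  · have h3 : univ.image (Prod.snd : Ω × ι → ι) = univ := by
      rw [Finset.eq_univ_iff_forall]
      intro i
      obtain ⟨ω⟩ := hΩ
      exact Finset.mem_image.2 ⟨(ω, i), Finset.mem_univ _, rfl⟩
    rw [h3]
    refine Finset.sum_congr rfl fun i _ => ?_
    rw [law_snd, ← (psh_cond s i).CH_eq X W]

/-- **Concavity**. -/
theorem CH_mix {r : Ω → ℝ} (s : ι → Ω → ℝ) (hs : ∀ i ω, 0 ≤ s i ω)
    (hr : ∀ ω, r ω = ∑ i, s i ω) (X : Ω → S) (W : Ω → T) :
    ∑ i, (∑ ω, s i ω) * CH (nrm (s i)) X W ≤ CH r X W := by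
  have hR0 : ∀ e : Ω × ι, 0 ≤ (fun e : Ω × ι => s e.2 e.1) e := fun e => hs e.2 e.1
  rw [← mix_split s hs X W, ← (psh_mix s hr).CH_eq X W]
  exact CH_mono_cond hR0 fun _ _ _ _ h => (Prod.ext_iff.1 h).1

/-- The entropy of a mixture is at most the mean, up to the logarithm of the number of the parts. -/
theorem CH_mix_le {r : Ω → ℝ} (hl : IsLaw r) (s : ι → Ω → ℝ) (hs : ∀ i ω, 0 ≤ s i ω)
    (hr : ∀ ω, r ω = ∑ i, s i ω) (X : Ω → S) (W : Ω → T) :
    CH r X W ≤ ∑ i, (∑ ω, s i ω) * CH (nrm (s i)) X W + Real.log (Fintype.card ι) := by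
  have hR0 : ∀ e : Ω × ι, 0 ≤ (fun e : Ω × ι => s e.2 e.1) e := fun e => hs e.2 e.1
  rw [← mix_split s hs X W, ← (psh_mix s hr).CH_eq X W]
  have h1 := CH_le_add hR0 (fun e : Ω × ι => X e.1) (Prod.snd : Ω × ι → ι) (fun e => W e.1)
  have hR1 : ∑ e : Ω × ι, (fun e : Ω × ι => s e.2 e.1) e = 1 := by
    rw [Fintype.sum_prod_type, ← hl.sum_one]
    exact Finset.sum_congr rfl fun ω _ => (hr ω).symm
  have h2 := CH_le_card hR0 hR1 (Prod.snd : Ω × ι → ι) (fun e => W e.1) (fun _ => univ)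
    (fun _ _ => Finset.mem_univ _)
  rw [Ex_const hR1, Finset.card_univ] at h2
  have h3 : CH (fun e : Ω × ι => s e.2 e.1) (fun e => X e.1) (fun e => (e.2, W e.1)) =
      CH (fun e : Ω × ι => s e.2 e.1) (fun e => X e.1) (fun e => (W e.1, e.2)) := by
    refine CH_congr hR0 (fun _ _ _ _ h => (Prod.ext_iff.1 h).1)
      (fun _ _ _ _ h => (Prod.ext_iff.1 h).1) ?_ ?_ <;>
    · intro e e' _ _ h
      exact Prod.ext (Prod.ext_iff.1 h).2 (Prod.ext_iff.1 h).1
  change CH (fun e : Ω × ι => s e.2 e.1) (fun e => X e.1) (fun e => W e.1) ≤ _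
  change CH (fun e : Ω × ι => s e.2 e.1) (fun e => X e.1) (fun e => W e.1) ≤
    CH (fun e : Ω × ι => s e.2 e.1) Prod.snd (fun e => W e.1) +
      CH (fun e : Ω × ι => s e.2 e.1) (fun e => X e.1) (fun e => (e.2, W e.1)) at h1
  rw [h3] at h1
  linarith

end Mix

/-! ### Events -/

theorem cond_ev {Ω : Type} [Fintype Ω] (p : Ω → ℝ) (A : Ω → Prop) [DecidablePred A] (ω : Ω) :
    Pool.Agent.H49.Ent.cond p A True ω = if A ω then p ω / Pe p A else 0 := by
  classical
  unfold Pool.Agent.H49.Ent.cond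
  by_cases h : A ω
  · rw [if_pos (eq_true h), if_pos h]
  · rw [if_neg (fun h' => h (of_eq_true h')), if_neg h]

theorem Pe_cnd {Ω : Type} [Fintype Ω] (p : Ω → ℝ) (A B : Ω → Prop) :
    Pe (Pool.Agent.H49.Ent.cond p A True) B = Pe p (fun ω => A ω ∧ B ω) / Pe p A :=
  Pool.K2S.Pe_cond B

theorem cond_and {Ω : Type} [Fintype Ω] (p : Ω → ℝ) {A B : Ω → Prop} (hA : Pe p A ≠ 0) :
    Pool.Agent.H49.Ent.cond (Pool.Agent.H49.Ent.cond p A True) B True =
      Pool.Agent.H49.Ent.cond p (fun ω => A ω ∧ B ω) True := by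
  classical
  funext ω
  rw [cond_ev, cond_ev, cond_ev, Pe_cnd]
  by_cases h1 : A ω
  · by_cases h2 : B ω
    · rw [if_pos h2, if_pos h1, if_pos (⟨h1, h2⟩ : A ω ∧ B ω), div_div_div_cancel_right₀ hA]
    · rw [if_neg h2, if_neg (fun h : A ω ∧ B ω => h2 h.2)]
  · rw [if_neg h1, if_neg (fun h : A ω ∧ B ω => h1 h.1), zero_div]
    split_ifs <;> rfl

/-! ### Fullness for laws of bounded density -/

section Full

variable {Ω S T : Type} [Fintype Ω]

/-- **Fullness for laws of bounded density.** -/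
theorem dens_full {q Q : Ω → ℝ} (hq : IsLaw q) (hQ : IsLaw Q) {C : ℝ} (hC : 1 ≤ C)
    (h : ∀ ω, Q ω ≤ C * q ω) (X : Ω → S) (W : Ω → T) {M θ : ℝ}
    (hM : ∀ r : Ω → ℝ, IsLaw r → CH r X W ≤ M) (hf : M - θ ≤ CH q X W) :
    M - C * (θ + Real.log 2) ≤ CH Q X W := by
  classical
  have hC0 : 0 < C := by linarith
  obtain ⟨s, hs⟩ : ∃ s : Fin 2 → Ω → ℝ, s = fun i ω => if i = 0 then Q ω / C else q ω - Q ω / C :=
    ⟨_, rfl⟩
  have hs0 : s 0 = fun ω => Q ω / C := by
    rw [hs]
    funext ω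
    exact if_pos rfl
  have hs1 : s 1 = fun ω => q ω - Q ω / C := by
    rw [hs]
    funext ω
    exact if_neg (by decide)
  have hpos : ∀ i ω, 0 ≤ s i ω := by
    intro i ω
    rw [hs]
    simp only
    split_ifs
    · exact div_nonneg (hQ.nonneg ω) hC0.le
    · have := h ω
      rw [sub_nonneg, div_le_iff₀ hC0, mul_comm]
      exact this
  have hsum : ∀ ω, q ω = ∑ i, s i ω := by
    intro ω
    rw [Fin.sum_univ_two, hs0, hs1]
    ring
  have h1 := CH_mix_le hq s hpos hsum X W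
  rw [Fin.sum_univ_two, Fintype.card_fin] at h1
  have m0 : ∑ ω, s 0 ω = 1 / C := by
    rw [hs0, ← Finset.sum_div, hQ.sum_one]
  have m1 : ∑ ω, s 1 ω = 1 - 1 / C := by
    rw [hs1, Finset.sum_sub_distrib, ← Finset.sum_div, hQ.sum_one, hq.sum_one]
  have n0 : nrm (s 0) = Q := by
    funext ω
    unfold nrm
    rw [m0, hs0]
    field_simp
  rw [m0, m1, n0] at h1
  have h2 : (1 - 1 / C) * CH (nrm (s 1)) X W ≤ (1 - 1 / C) * M := by
    rcases (sub_nonneg.2 (by rw [div_le_one hC0]; exact hC) : 0 ≤ 1 - 1 / C).eq_or_lt with h3 | h3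
    · rw [← h3, zero_mul, zero_mul]
    · refine mul_le_mul_of_nonneg_left (hM _ (nrm_isLaw (hpos 1) ?_)) h3.le
      rw [m1]
      exact h3
  push_cast at h1
  have h3 : M - θ - Real.log 2 - (1 - 1 / C) * M ≤ 1 / C * CH Q X W := by linarith
  have h4 : C * (M - θ - Real.log 2 - (1 - 1 / C) * M) ≤ C * (1 / C * CH Q X W) :=
    mul_le_mul_of_nonneg_left h3 hC0.le
  have h5 : C * (1 / C * CH Q X W) = CH Q X W := by field_simp
  have h6 : C * (M - θ - Real.log 2 - (1 - 1 / C) * M) = M - C * (θ + Real.log 2) := by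
    field_simp
    ring
  linarith

/-- **Layer cake**: a lower bound of the entropy on all large events holds for the laws of bounded
density. -/
theorem layer {p r : Ω → ℝ} (hp : IsLaw p) (hr : IsLaw r) {C : ℝ} (hC : 1 ≤ C)
    (h : ∀ ω, r ω ≤ C * p ω) (X : Ω → S) (W : Ω → T) {h₀ η : ℝ} (h0 : 0 ≤ h₀) (hη : 0 < η)
    (hη1 : ∀ B : Ω → Prop, η ≤ Pe p B → h₀ ≤ CH (Pool.Agent.H49.Ent.cond p B True) X W) :
    (1 - 2 * C * η) * h₀ ≤ CH r X W := by
  classical
  have hC0 : 0 < C := by linarith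
  obtain ⟨M, hM⟩ := exists_nat_gt (1 / η)
  have hMr : (0 : ℝ) < M := lt_trans (by positivity) hM
  have hM0 : 0 < M := by exact_mod_cast hMr
  have hMη : 1 / M ≤ η := by
    rw [div_lt_iff₀ hη] at hM
    rw [div_le_iff₀ hMr]
    linarith
  -- the levels
  obtain ⟨B, hB⟩ : ∃ B : Fin M → Ω → Prop, B = fun (j : Fin M) (ω : Ω) =>
      C * (((j : ℕ) : ℝ) + 1) / M * p ω ≤ r ω ∧
    0 < p ω := ⟨_, rfl⟩
  obtain ⟨s₀, hs₀⟩ : ∃ s₀ : Fin M → Ω → ℝ, s₀ = fun j ω => if B j ω then C / M * p ω else 0 :=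
    ⟨_, rfl⟩
  have hcount : ∀ ω, ∑ j, s₀ j ω ≤ r ω ∧ r ω - C / M * p ω ≤ ∑ j, s₀ j ω := by
    intro ω
    rcases (hp.nonneg ω).eq_or_lt with h1 | h1
    · have h2 : r ω = 0 := le_antisymm (by
        have := h ω
        rw [← h1, mul_zero] at this
        exact this) (hr.nonneg ω)
      have h3 : ∑ j, s₀ j ω = 0 := by
        refine Finset.sum_eq_zero fun j _ => ?_
        rw [hs₀]
        simp only
        split_ifs
        · rw [← h1, mul_zero]
        · rfl
      rw [h2, h3, ← h1]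
      simp
    · obtain ⟨f, hf⟩ : ∃ f, f = r ω * M / (C * p ω) := ⟨_, rfl⟩
      have hf0 : 0 ≤ f := by
        rw [hf]
        exact div_nonneg (mul_nonneg (hr.nonneg ω) hMr.le) (by positivity)
      have hfM : f ≤ M := by
        rw [hf, div_le_iff₀ (by positivity)]
        have := mul_le_mul_of_nonneg_right (h ω) hMr.le
        linarith
      have hrf : r ω = f * (C / M * p ω) := by
        rw [hf]
        field_simp
      have hiff : ∀ j : Fin M, B j ω ↔ (j : ℕ) < ⌊f⌋₊ := by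
        intro j
        rw [hB]
        simp only
        rw [and_iff_left h1, hrf, ← Nat.succ_le_iff, Nat.le_floor_iff hf0]
        have e1 : C * (((j : ℕ) : ℝ) + 1) / M * p ω = (((j : ℕ) : ℝ) + 1) * (C / M * p ω) := by ring
        rw [e1, mul_le_mul_iff_left₀ (by positivity)]
        push_cast
        rfl
      have hsum : ∑ j, s₀ j ω = ⌊f⌋₊ * (C / M * p ω) := by
        rw [hs₀]
        simp only
        rw [← Finset.sum_filter]
        rw [Finset.sum_const, nsmul_eq_mul]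
        congr 1
        have h2 : (univ.filter fun j : Fin M => B j ω) =
            univ.filter fun j : Fin M => (j : ℕ) < ⌊f⌋₊ := by
          ext j
          simp only [Finset.mem_filter, Finset.mem_univ, true_and]
          exact hiff j
        rw [h2]
        have h3 := Pool.M3F.card_lt M ⌊f⌋₊
        rw [h3, min_eq_left]
        have h4 : ⌊f⌋₊ ≤ ⌊(M : ℝ)⌋₊ := Nat.floor_le_floor hfM
        rwa [Nat.floor_natCast] at h4
      rw [hsum, hrf]
      have h2 : 0 ≤ C / M * p ω := by positivity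
      have h3 := Nat.floor_le hf0
      have h4 := (Nat.lt_floor_add_one f).le
      constructor
      · exact mul_le_mul_of_nonneg_right h3 h2
      · have h5 : f * (C / M * p ω) - C / M * p ω = (f - 1) * (C / M * p ω) := by ring
        rw [h5]
        exact mul_le_mul_of_nonneg_right (by linarith) h2
  obtain ⟨s, hs⟩ : ∃ s : Option (Fin M) → Ω → ℝ, s = fun o ω =>
    o.elim (r ω - ∑ j, s₀ j ω) (fun j => s₀ j ω) := ⟨_, rfl⟩
  have hs₀0 : ∀ j ω, 0 ≤ s₀ j ω := by
    intro j ω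
    rw [hs₀]
    simp only
    split_ifs
    · exact mul_nonneg (by positivity) (hp.nonneg ω)
    · exact le_rfl
  have hpos : ∀ o ω, 0 ≤ s o ω := by
    intro o ω
    rw [hs]
    cases o with
    | none => exact sub_nonneg.2 (hcount ω).1
    | some j => exact hs₀0 j ω
  have hsum : ∀ ω, r ω = ∑ o, s o ω := by
    intro ω
    rw [Fintype.sum_option, hs]
    simp only [Option.elim]
    ring
  have h1 := CH_mix s hpos hsum X W
  rw [Fintype.sum_option] at h1
  have hn : 0 ≤ (∑ ω, s none ω) * CH (nrm (s none)) X W := by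
    refine mul_nonneg (Finset.sum_nonneg fun ω _ => hpos none ω) ?_
    refine CH_nonneg ?_ _ _
    intro ω
    exact div_nonneg (hpos none ω) (Finset.sum_nonneg fun ω _ => hpos none ω)
  have hsj : ∀ j, s (some j) = s₀ j := by
    intro j
    rw [hs]
    rfl
  have hmass : ∀ j, ∑ ω, s₀ j ω = C / M * Pe p (B j) := by
    intro j
    rw [K2S.Pe_eq, Finset.mul_sum, hs₀]
    refine Finset.sum_congr rfl fun ω _ => ?_
    simp only
    split_ifs
    · rfl
    · rw [mul_zero]
  have hj : ∀ j, (∑ ω, s₀ j ω) * h₀ - C / M * η * h₀ ≤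
      (∑ ω, s (some j) ω) * CH (nrm (s (some j))) X W := by
    intro j
    rw [hsj j]
    by_cases h2 : η ≤ Pe p (B j)
    · have h3 : 0 < Pe p (B j) := hη.trans_le h2
      have h4 : nrm (s₀ j) = Pool.Agent.H49.Ent.cond p (B j) True := by
        funext ω
        unfold nrm
        rw [hmass, cond_ev, hs₀]
        simp only
        split_ifs
        · field_simp
        · rw [zero_div]
      rw [h4]
      have h5 := hη1 (B j) h2
      have h6 := mul_le_mul_of_nonneg_left h5 (Finset.sum_nonneg fun ω _ => hs₀0 j ω :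
        0 ≤ ∑ ω, s₀ j ω)
      have h7 : 0 ≤ C / M * η * h₀ := by positivity
      linarith
    · have h3 : (∑ ω, s₀ j ω) * h₀ ≤ C / M * η * h₀ := by
        refine mul_le_mul_of_nonneg_right ?_ h0
        rw [hmass]
        exact mul_le_mul_of_nonneg_left (not_le.1 h2).le (by positivity)
      have h4 : 0 ≤ (∑ ω, s₀ j ω) * CH (nrm (s₀ j)) X W := by
        refine mul_nonneg (Finset.sum_nonneg fun ω _ => hs₀0 j ω) ?_
        refine CH_nonneg ?_ _ _
        intro ω
        exact div_nonneg (hs₀0 j ω) (Finset.sum_nonneg fun ω _ => hs₀0 j ω)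
      linarith
  have h2 := Finset.sum_le_sum fun j (_ : j ∈ (univ : Finset (Fin M))) => hj j
  rw [Finset.sum_sub_distrib, ← Finset.sum_mul, Finset.sum_const, Finset.card_univ,
    Fintype.card_fin, nsmul_eq_mul] at h2
  have h3 : 1 - C / M ≤ ∑ j, ∑ ω, s₀ j ω := by
    rw [Finset.sum_comm]
    have h4 := Finset.sum_le_sum fun ω (_ : ω ∈ (univ : Finset Ω)) => (hcount ω).2
    rw [Finset.sum_sub_distrib, ← Finset.mul_sum, hr.sum_one, hp.sum_one, mul_one] at h4
    exact h4
  have h4 : (M : ℝ) * (C / M * η * h₀) = C * η * h₀ := by field_simp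
  rw [h4] at h2
  have h5 : C / M ≤ C * η := by
    calc C / M = C * (1 / M) := by ring
      _ ≤ C * η := mul_le_mul_of_nonneg_left hMη hC0.le
  have h6 : (1 - C * η) * h₀ ≤ (∑ j, ∑ ω, s₀ j ω) * h₀ :=
    mul_le_mul_of_nonneg_right (by linarith) h0
  have h7 : (1 - 2 * C * η) * h₀ = (1 - C * η) * h₀ - C * η * h₀ := by ring
  linarith

end Full

end Pool.JPR
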