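import Pool.Agent.H53.JM.Own2
import Pool.Agent.H20.GEN.Upd

/-!
# Finite slopes of the thresholds at almost every window
-/

set_option autoImplicit false

namespace Pool.JPN

open MeasureTheory Set
open Pool.LEV (Law)
open Pool.GEN.Upd (Lg upd)
open Pool.CHT (Up1)

theorem Dn1.of_lg {f : ℝ → ℝ → ℝ} {w : ℝ} (h : Lg (fun x => f x x) w) : Dn1 f w := by
  obtain ⟨V, o₀, hV, ho, h1⟩ := h
  refine ⟨V, o₀ / 2, by positivity, fun o ho1 ho2 => ?_⟩
  have h2 := h1 (-o) (by rw [abs_neg, abs_of_nonneg ho1]; linarith)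
  rw [abs_neg, abs_of_nonneg ho1, ← sub_eq_add_neg] at h2
  have h3 := (abs_le.1 h2).1
  linarith

theorem up1_of_lg {f : ℝ → ℝ → ℝ} {w : ℝ} (h : Lg (fun x => f x x) w) : Up1 f w w := by
  obtain ⟨V, o₀, hV, ho, h1⟩ := h
  refine ⟨V, o₀, hV, ho, fun o ho1 ho2 => ?_⟩
  have h2 := h1 o (by rwa [abs_of_pos ho1])
  rw [abs_of_pos ho1] at h2
  have h3 := (abs_le.1 h2).2
  linarith

/-- **Almost every window has finite slopes**, for countably many thresholds. -/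
theorem lg_ae {ι : Type*} [Countable ι] {f : ι → ℝ → ℝ → ℝ} (h : ∀ i, Law (f i)) :
    ∀ᵐ t ∂(volume.restrict (Ioo (0 : ℝ) 1)), ∀ i, Lg (fun x => f i x x) t :=
  upd (fun i x => f i x x) 0 1 fun i _ hx _ hy hxy =>
    (h i).mono hx.1 le_rfl hxy hxy le_rfl hy.2

theorem dn1_ae {ι : Type*} [Countable ι] {f : ι → ℝ → ℝ → ℝ} (h : ∀ i, Law (f i)) :
    ∀ᵐ t ∂(volume.restrict (Ioo (0 : ℝ) 1)), ∀ i, Dn1 (f i) t ∧ Up1 (f i) t t := by
  filter_upwards [lg_ae h] with t ht i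
  exact ⟨Dn1.of_lg (ht i), up1_of_lg (ht i)⟩

end Pool.JPN
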