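import Pool.Agent.H45.EXA.Exv
import Pool.Agent.H71.GEN.Kpf
import Pool.Agent.H83.GN.NumX
import Pool.Agent.H53.JM.Nf

/-!
# The inputs of `full_E` for the classes of the induction

`exv_vs`, `exv_bet`: exactness with the numbers of the closed labels and with the thresholds of the
chains. `full_clx`: `full_E` with the rows of the target, for a class of the induction.
-/

set_option autoImplicit false

namespace Pool.JPN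

open Finset Real
open Pool.Agent.H49.Ent Pool.Agent.H32.Dense Pool.STK Pool.KA Pool.KSAT Pool.K2S Pool.PB
  Pool.GEN Pool.KM7 Pool.S6C Pool.M3F
open Pool.ALL (RateOf)
open Pool.GEN.N83 (oth)
open Pool.GRW (TmWn VExa Wp)
open Pool.CHT (chsys bet)
open Pool.LBT (ThrOf)
open Pool.JPR (full_E)

variable {m n k J : ℕ}

/-- Exactness with the numbers of the closed labels. -/
theorem exv_vs {S : PCl m} {L : Finset (Fin m) → Fin m → ℝ → ℝ → ℝ} {ε : Fin n → Fin m} {w : ℝ}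
    (hex : VExa S L ε w) {ρ : ℝ} (hρ : 0 < ρ) :
    ExvY S w (fun J F ω (i : Fin n) => F.X J ω (ε i))
      ((∑ j : Fin n, (1 - vs L ε w (j + 1))) - ρ) := hex ρ hρ

/-- Exactness with the thresholds of the chains. -/
theorem exv_bet {θ : ℝ} (hθ : 0 < θ) {S : PCl m} (hS : S.Ne) {C₀ : ℝ} (htm : TmC S C₀)
    (hpos : Bas S (fun _ F A => 0 < Pe F.p A)) {L : Finset (Fin m) → Fin m → ℝ → ℝ → ℝ}
    (hL : LamW S L) {P : List (Fin m) × Fin m → ℝ → ℝ → ℝ} (hP : ThrOf (chsys m θ) S P)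
    {ε : Fin n → Fin m} (hε : Function.Injective ε) {c : ℕ → Fin m}
    (hcε : ∀ i : Fin n, c i = ε i) {w : ℝ} (hw : w ∈ Wp L P ε) (hex : VExa S L ε w)
    {ρ : ℝ} (hρ : 0 < ρ) :
    ExvY S w (fun J F ω (i : Fin n) => F.X J ω (ε i))
      ((∑ j : Fin n, (1 - bet P c j w w)) - ρ) :=
  (Pool.GRW.vst_exb hθ hS htm hpos hL hP hε hcε hw hex hρ).mono 0 fun _ _ _ _ h => h

/-- The members of a class of the induction have positive probability. -/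
theorem clx_pos {s : Fin m → ℝ} {d : ℕ → ℝ} {al : ℝ} {g₀ : ℝ → ℝ} {e : ℝ} {K₀ : ℕ}
    {N : ℚ → ℚ → ℝ} {S : PCl m} (hC : ClX s d al g₀ e K₀ N S) :
    Bas S (fun _ F A => 0 < Pe F.p A) :=
  ⟨1, one_pos, 0, fun J _ F A hA => hC.pos 1 J F A hA⟩

/-- **(FULL_E) with the rows of the target.** -/
theorem full_clx (hF : FZX k) {s : Fin m → ℝ} {d : ℕ → ℝ} {al : ℝ} {g₀ : ℝ → ℝ} {e : ℝ} {K₀ : ℕ}
    {N : ℚ → ℚ → ℝ} {S : PCl m} (hC : ClX s d al g₀ e K₀ N S) {w₀ w₁ : ℝ} (hw0 : w₀ ≤ 1)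
    {c : Fin k → Fin m} {b : ℝ} (hex : ExvY S w₁ (fun J F ω (i : Fin k) => F.X J ω (c i)) b)
    {κ : Fin m} {r : ℝ → ℝ} (hr : RateOf S κ r) (hc : ∀ j, j ≠ κ → ∃ i, c i = j) {Φ : Stat m}
    (hΦ : Bas S Φ) {δ : ℝ} (hδ : 0 < δ) (hδ1 : δ ≤ 1) {ρ : ℝ} (hρ : 0 < ρ) :
    Bas S (fun J F A => 0 < Pe F.p A ∧ ∀ E : F.Ω × F.Ω → Prop,
      δ ≤ Pe (P2 (Pool.Agent.H49.Ent.cond F.p A True) (slam F ⌊w₀ * J⌋₊)) E →
      ∃ (B : F.Ω → Prop) (Q : F.Ω × F.Ω → ℝ), Sub B A ∧ δ / 2 * Pe F.p A ≤ Pe F.p B ∧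
        Φ J F B ∧ IsLaw Q ∧ Psh Q Prod.fst (Pool.Agent.H49.Ent.cond F.p B True) ∧
        (∀ e, 0 < Q e → E e ∧ B e.1 ∧ A e.2 ∧
          slam F ⌊w₀ * J⌋₊ e.1 = slam F ⌊w₀ * J⌋₊ e.2) ∧
        (∀ e, Q e ≤ 4 / δ ^ 2 *
          P2 (Pool.Agent.H49.Ent.cond F.p A True) (slam F ⌊w₀ * J⌋₊) e) ∧
        (∀ (V : Type) (z : PtT F → V) (z' : LnT F → V),
          (∀ ω, A ω → z (ptr F J ω) = z' (slam F ⌊w₁ * J⌋₊ ω)) →
          (b - ρ) * Real.log 2 * J ≤ CH Q (fun e i => F.X J e.1 (c i))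
            (fun e => (F.T e.1, (z' (slam F ⌊w₁ * J⌋₊ e.2), F.W e.2))) ∧
          (b - ρ) * Real.log 2 * J ≤ CH Q (fun e i => F.X J e.1 (c i))
            (fun e => (z' (slam F ⌊w₁ * J⌋₊ e.1), F.W e.1))) ∧
        ∀ (β : Type) (W : F.Ω × F.Ω → β),
          (∀ e e', 0 < Q e → 0 < Q e' → W e = W e' → F.W e.1 = F.W e'.1) →
          ∀ sg n₁ n₂ : ℕ, sg ≤ n₁ → n₁ ≤ n₂ → n₂ ≤ J + sg →
          CH Q (fun e => ⌊(2 : ℝ) ^ n₂ * (F.x e.1 κ / 2 ^ sg)⌋)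
            (fun e => (⌊(2 : ℝ) ^ n₁ * (F.x e.1 κ / 2 ^ sg)⌋,
              ((fun i => F.X J e.1 (c i)), W e))) ≤
          (r (((n₂ - sg : ℕ) : ℝ) / J) - r (((n₁ - sg : ℕ) : ℝ) / J)) * Real.log 2 * J +
            ρ * J) := by
  refine (full_E (kp_fzx hF) hw0 (Pool.GRW.TmC.wn (Pool.GEN.N83.clx_tmc hC) w₀) hex
    (hΦ.and (nf_pair hr (clx_pos hC) hρ)) hδ hδ1 hρ).mono 0 ?_
  rintro J - F A ⟨h1, h2⟩
  refine ⟨h1, fun E hE => ?_⟩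
  obtain ⟨B, Q, b1, b2, ⟨b3, b3'⟩, b4, b5, b6, b7, b8⟩ := h2 E hE
  exact ⟨B, Q, b1, b2, b3, b4, b5, b6, b7, b8, fun β W hW sg n₁ n₂ i1 i2 i3 =>
    b3' (F.Ω × F.Ω) Q Prod.fst b4 b5 k c hc β W hW sg n₁ n₂ i1 i2 i3⟩

end Pool.JPN
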