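import Pool.Agent.H53.JM.Fux
import Pool.Agent.H53.JM.Exv
import Pool.Agent.H86.GEO.Def

/-!
# Fullness of the natural digits of the exact point, in the letters of the geometry of the pairs

`ful_g`: for one member; the label may contain everything of the second sample which is closed at
the window `W₁`, and its time. `ful_gc`: the same in a class, for the law of the pairs.
-/

set_option autoImplicit false

namespace Pool.JPN

open Finset Real MvPolynomial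
open Pool.Agent.H49.Ent Pool.Agent.H32.Dense Pool.STK Pool.KA Pool.KSAT Pool.K2S Pool.PB
  Pool.STAT Pool.STAT.CLO Pool.GEN Pool.M3F Pool.KM7 Pool.S6C
open Pool.GRW (TmWn)
open Pool.JPR (tau1 tau1_T tau1_full tm_ful dens_full dens_sup log_fin full_pair pair_time)
open Pool.GEO (gsy gsy_succ xte tmw lna lnb xte_dig)

variable {m J : ℕ}

/-- The two forms of the exact point. -/
theorem xpt_eq_xte {F : Fam m J} (c : ℕ → Fin m) (k : ℕ) {W P : ℕ} (sg : ℕ) (hWP : W ≤ P)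
    (ω : F.Ω) : xpt F c k W sg P ω = xte c k W P sg F ω := by
  have e1 : (2 : ℝ) ^ P = 2 ^ (P - W) * 2 ^ W := by rw [← pow_add, Nat.sub_add_cancel hWP]
  have ht : 2 ^ W * tP F P ω = tmw W P F ω := by
    unfold tP tmw
    push_cast
    rw [e1]
    field_simp
  funext o
  cases o with
  | none =>
    show 2 ^ W * ((if k + 1 = 0 then tP F P ω else F.u ω (c (k + 1 - 1)) +
      tP F P ω * F.d ω (c (k + 1 - 1))) / 2 ^ sg) = 2 ^ W * F.u ω (c k) / 2 ^ sg +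
      tmw W P F ω * (F.d ω (c k) / 2 ^ sg)
    rw [if_neg (Nat.succ_ne_zero k), Nat.add_sub_cancel, ← ht]
    ring
  | some i =>
    show 2 ^ W * (if i.val = 0 then tP F P ω else F.u ω (c (i.val - 1)) +
      tP F P ω * F.d ω (c (i.val - 1))) = (if i.val = 0 then 0 else 2 ^ W * F.u ω (c (i.val - 1))) +
      tmw W P F ω * (if i.val = 0 then 1 else F.d ω (c (i.val - 1)))
    split_ifs
    · rw [← ht]
      ring
    · rw [← ht]
      ring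

theorem ndg_xte {F : Fam m J} {c : ℕ → Fin m} {k W sg P : ℕ} {Φ : ℕ → PN} (hΦ : TriN Φ)
    (hWP : W ≤ P) (ω : F.Ω) (i : Fin k) :
    ndg (2 ^ (P - W)) (gsy k W Φ) (bse (xte c k W P sg F ω)) i.succ =
      ⌊(2 : ℝ) ^ P * (exn F c P ω (i.val + 1) - eval (exn F c P ω) (Φ (i.val + 1)))⌋ := by
  have h1 := ndg_xpt (F := F) (c := c) (r := k) (W := W) (sg := sg) (P := P) hΦ hWP ω i.succ
  rw [xpt_eq_xte c k sg hWP ω] at h1
  exact h1

section ex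

variable {F : Fam m J} {c : ℕ → Fin m} {k W₀ W₁ sg sx P : ℕ} {g : ℕ → ℕ} {K : ℕ} {L : ℝ}
  {A : F.Ω → Prop} {V₀ V₁ : Type} {z₀ : PtT F → V₀} {z₀' : LnT F → V₀} {P₀ : V₀ → ℕ → PN}
  {z₁ : PtT F → V₁} {z₁' : LnT F → V₁} {Q : F.Ω × F.Ω → ℝ}

/-- **Fullness of the natural digits of the exact point**, in the letters of the geometry. -/
theorem ful_g (hQ : IsLaw Q) (hN : NLabW F c k W₀ sg g K L A z₀ z₀' P₀) (hw : W₀ ≤ W₁)
    (hWP : W₁ ≤ P) (hP : P ≤ J) (hL : 0 ≤ L) {s : ℕ}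
    (hs : 2 * (1 + ((k + 1 : ℕ) : ℝ) * L) ≤ 2 * 2 ^ s)
    (hc : ∀ i < k + 1, wid W₀ g i + s ≤ P)
    (hsup : ∀ e, 0 < Q e → A e.1 ∧ A e.2 ∧ slam F W₀ e.1 = slam F W₀ e.2)
    (h1 : ∀ ω, A ω → z₁ (ptr F J ω) = z₁' (slam F W₁ ω)) {E₀ θ : ℝ}
    (hE : ∀ (V : Type) (z : PtT F → V) (z' : LnT F → V),
      (∀ ω, A ω → z (ptr F J ω) = z' (slam F W₁ ω)) →
      E₀ ≤ CH Q (fun e (i : Fin k) => F.X J e.1 (c i))
        (fun e => (F.T e.1, (z' (slam F W₁ e.2), F.W e.2))))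
    (hT : ((J - W₀ : ℕ) : ℝ) * Real.log 2 - θ ≤ CH Q (fun e => F.T e.1) (fun e => e.2)) :
    ∑ i : Fin (k + 1), Real.log ((2 ^ (P - wid W₀ g i) : ℕ) : ℝ) -
      CH Q (fun e => nrem (fun i : Fin (k + 1) => 2 ^ (P - wid W₀ g i))
        (ndg (2 ^ (P - W₁)) (gsy k W₁ (P₀ (z₀' (slam F W₀ e.1))))
          (bse (xte c k W₁ P sx F e.1))))
        (fun e => ((z₁' (slam F W₁ e.2), F.W e.2), (z₀' (slam F W₀ e.1), (F.T1 W₀ e.1,
          nidx (fun i : Fin (k + 1) => 2 ^ (P - wid W₀ g i))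
            (ndg (2 ^ (P - W₁)) (gsy k W₁ (P₀ (z₀' (slam F W₀ e.1))))
              (bse (xte c k W₁ P sx F e.1))))))) ≤
      (∑ i ∈ range k, ((J : ℝ) - g i)) * Real.log 2 - E₀ + θ +
        k * Real.log (11 + 8 * ((k + 1 : ℕ) : ℝ) * L) + ((k + 1 : ℕ) : ℝ) * Real.log 21 := by
  have hQ0 := hQ.nonneg
  have hWJ : W₀ ≤ J := (hw.trans hWP).trans hP
  have hA : ∀ e, 0 < Q e → A e.1 := fun e he => (hsup e he).1
  obtain ⟨N₀, hN₀⟩ : ∃ N₀ : Fin (k + 1) → ℕ, N₀ = fun i : Fin (k + 1) =>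
    2 ^ (P - wid W₀ g i) := ⟨_, rfl⟩
  have hN₀1 : ∀ i, 1 ≤ N₀ i := fun i => by rw [hN₀]; exact Nat.one_le_two_pow
  obtain ⟨ng, hng⟩ : ∃ ng : F.Ω × F.Ω → Fin (k + 1) → ℤ, ng = fun e =>
    ndg (2 ^ (P - W₁)) (gsy k W₁ (P₀ (z₀' (slam F W₀ e.1)))) (bse (xte c k W₁ P sx F e.1)) :=
    ⟨_, rfl⟩
  have hngd : ∀ e : F.Ω × F.Ω, ndg (2 ^ (P - W₁)) (gsy k W₁ (P₀ (z₀' (slam F W₀ e.1))))
    (bse (xte c k W₁ P sx F e.1)) = ng e := fun e => by rw [hng]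
  simp only [hngd]
  rw [← hN₀]
  obtain ⟨TP, hTP⟩ : ∃ TP : F.Ω × F.Ω → ℕ, TP = fun e => F.T e.1 / 2 ^ (J - P) := ⟨_, rfl⟩
  have hng0 : ∀ e, ng e 0 = (TP e : ℤ) := by
    intro e
    rw [hng, hTP]
    exact (xte_dig c k W₁ P sx e.1 (G := gsy k W₁ (P₀ (z₀' (slam F W₀ e.1)))) rfl).2
  have hngs : ∀ e, 0 < Q e → ∀ i : Fin k, ng e i.succ = ngx F c P z₀ P₀ e.1 (i.val + 1) := by
    intro e he i
    rw [hng]
    show ndg (2 ^ (P - W₁)) (gsy k W₁ (P₀ (z₀' (slam F W₀ e.1)))) (bse (xte c k W₁ P sx F e.1))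
      i.succ = _
    rw [ndg_xte (hN.tri _) hWP e.1 i, ← hN.cls _ (hA e he)]
    rfl
  have hTP0 : ∀ e, 0 < Q e → ngx F c P z₀ P₀ e.1 0 = (TP e : ℤ) - F.T1 W₀ e.1 * 2 ^ (P - W₀) := by
    intro e he
    unfold ngx
    rw [hN.zero _ (hA e he), eval_C]
    have b1 : exn F c P e.1 0 = (TP e : ℝ) / 2 ^ P := by
      rw [hTP]
      rfl
    rw [b1]
    have hWP' : W₀ ≤ P := hw.trans hWP
    have b2 : (2 : ℝ) ^ P = 2 ^ (P - W₀) * 2 ^ W₀ := by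
      rw [← pow_add, Nat.sub_add_cancel hWP']
    have b3 : (2 : ℝ) ^ P * ((TP e : ℝ) / 2 ^ P - (F.T1 W₀ e.1 : ℝ) / 2 ^ W₀) =
        (((TP e : ℤ) - F.T1 W₀ e.1 * 2 ^ (P - W₀) : ℤ) : ℝ) := by
      push_cast
      rw [b2]
      field_simp
    rw [b3, Int.floor_intCast]
  obtain ⟨R, hR⟩ : ∃ R : F.Ω × F.Ω → (V₁ × (ℕ × F.ζ)) × (V₀ × ℕ), R = fun e =>
    ((z₁' (slam F W₁ e.2), F.W e.2), (z₀' (slam F W₀ e.1), F.T1 W₀ e.1)) := ⟨_, rfl⟩
  -- the digits of the exact point from the position in the box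
  have a1 : CH Q ng (fun e => ((z₁' (slam F W₁ e.2), F.W e.2), (z₀' (slam F W₀ e.1),
      (F.T1 W₀ e.1, nidx N₀ (ng e))))) ≤ CH Q (fun e => nrem N₀ (ng e))
      (fun e => ((z₁' (slam F W₁ e.2), F.W e.2), (z₀' (slam F W₀ e.1),
        (F.T1 W₀ e.1, nidx N₀ (ng e))))) := by
    refine CH_mono_left hQ0 fun e e' _ _ h => ?_
    simp only [Prod.mk.injEq] at h
    obtain ⟨h2, -, -, -, h3⟩ := h
    funext i
    have h4 := nrem_cast hN₀1 (ng e) i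
    have h5 := nrem_cast hN₀1 (ng e') i
    rw [h2, h3] at h4
    linarith
  -- without the index
  have a2 : CH Q ng R ≤ CH Q ng (fun e => ((z₁' (slam F W₁ e.2), F.W e.2),
      (z₀' (slam F W₀ e.1), (F.T1 W₀ e.1, nidx N₀ (ng e))))) +
      CH Q (fun e => nidx N₀ (ng e)) R := by
    have b1 := CH_le_add hQ0 ng (fun e => nidx N₀ (ng e)) R
    have b2 : CH Q ng (fun e => (nidx N₀ (ng e), R e)) ≤
        CH Q ng (fun e => ((z₁' (slam F W₁ e.2), F.W e.2), (z₀' (slam F W₀ e.1),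
          (F.T1 W₀ e.1, nidx N₀ (ng e))))) := by
      refine CH_mono_cond hQ0 fun e e' _ _ h => ?_
      rw [hR] at h
      simp only [Prod.mk.injEq] at h ⊢
      exact ⟨h.2.1, h.2.2.1, h.2.2.2, h.1⟩
    linarith
  have hT1 : ∀ e, nidx N₀ (ng e) 0 = (F.T1 W₀ e.1 : ℤ) := by
    intro e
    unfold nidx
    rw [hng0 e, hN₀, hTP]
    have b1 : wid W₀ g ((0 : Fin (k + 1)) : ℕ) = W₀ := by
      rw [Fin.val_zero]
      rfl
    simp only [b1]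
    unfold Fam.T1
    rw [← Int.natCast_div, Nat.div_div_eq_div_mul, ← pow_add]
    have : J - P + (P - W₀) = J - W₀ := by omega
    rw [this]
  have a3 : CH Q (fun e => nidx N₀ (ng e)) R ≤ ((k + 1 : ℕ) : ℝ) * Real.log 21 := by
    have b1 := idx_cnt hQ hN hWJ hP hL hs hc hA R
    rw [← hN₀] at b1
    refine le_trans ?_ b1
    refine CH_mono_left hQ0 fun e e' he he' h => ?_
    obtain ⟨h2, h3⟩ := Prod.ext_iff.1 h
    funext i
    have h2' := congrFun h2 i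
    refine Fin.cases ?_ (fun i h2' => ?_) i h2'
    · intro _
      rw [hT1 e, hT1 e']
      have h4 : R e = R e' := h3
      rw [hR] at h4
      simp only [Prod.mk.injEq] at h4
      rw [h4.2.2]
    · unfold nidx at h2' ⊢
      rw [hngs e he i, hngs e' he' i]
      exact h2'
  have a4 : CH Q (fun e => (ng e, TP e)) R ≤ CH Q ng R := by
    refine CH_mono_left hQ0 fun e e' he he' h => ?_
    obtain ⟨h2, h3⟩ := Prod.ext_iff.1 h
    have h2' : ng e = ng e' := h2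
    refine Prod.ext h2' ?_
    have h5 := congrFun h2' 0
    rw [hng0, hng0] at h5
    exact_mod_cast h5
  have a5 := CH_chain hQ0 ng TP R
  -- the entropy of the time
  have hslam : ∀ e, 0 < Q e → z₀' (slam F W₀ e.1) = z₀' (slam F W₀ e.2) ∧
      F.T1 W₀ e.1 = F.T1 W₀ e.2 := by
    intro e he
    obtain ⟨b1, b2, b3⟩ := hsup e he
    exact ⟨by rw [b3], (Prod.ext_iff.1 (Prod.ext_iff.1 b3).2).2⟩
  have a6 : CH Q TP (fun e => e.2) ≤ CH Q TP R := by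
    refine CH_mono_cond hQ0 fun e e' he he' h => ?_
    have h2 : e.2 = e'.2 := h
    rw [hR]
    simp only
    rw [(hslam e he).1, (hslam e' he').1, (hslam e he).2, (hslam e' he').2, h2]
  have a7 : CH Q (fun e => F.T e.1) (fun e => e.2) ≤
      CH Q TP (fun e => e.2) + ((J - P : ℕ) : ℝ) * Real.log 2 := by
    have b1 := CH_le_add hQ0 (fun e => F.T e.1) TP (fun e => e.2)
    obtain ⟨τ, hτ⟩ : ∃ τ : F.Ω × F.Ω → Fin (2 ^ (J - P)), τ = fun e =>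
      ⟨F.T e.1 % 2 ^ (J - P), Nat.mod_lt _ (by positivity)⟩ := ⟨_, rfl⟩
    have b2 : CH Q (fun e => F.T e.1) (fun e => (TP e, e.2)) ≤ CH Q τ (fun e => (TP e, e.2)) := by
      refine CH_mono_left hQ0 fun e e' _ _ h => ?_
      obtain ⟨h2, h3⟩ := Prod.ext_iff.1 h
      have h4 : TP e = TP e' := (Prod.ext_iff.1 h3).1
      have h5 : F.T e.1 % 2 ^ (J - P) = F.T e'.1 % 2 ^ (J - P) := by
        have h6 : τ e = τ e' := h2
        rw [hτ] at h6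
        exact congrArg Fin.val h6
      rw [hTP] at h4
      have h7 : F.T e.1 / 2 ^ (J - P) = F.T e'.1 / 2 ^ (J - P) := h4
      change F.T e.1 = F.T e'.1
      rw [← Nat.div_add_mod (F.T e.1) (2 ^ (J - P)), ← Nat.div_add_mod (F.T e'.1) (2 ^ (J - P)),
        h5, h7]
    have b3 := log_fin (J - P) hQ τ (fun e => (TP e, e.2))
    linarith
  -- the positions
  have e0' : ∀ ω, z₀' ((slam F W₁ ω).1, (slam F W₁ ω).2.1, (slam F W₁ ω).2.2 / 2 ^ (W₁ - W₀)) =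
      z₀' (slam F W₀ ω) := fun ω => by rw [← slam_coarse F hw (hWP.trans hP) ω]
  have a8 := hE (V₀ × V₁) (fun x => (z₀ x, z₁ x))
    (fun s => (z₀' (s.1, s.2.1, s.2.2 / 2 ^ (W₁ - W₀)), z₁' s)) (fun ω hω => by
      rw [e0', ← hN.cls ω hω, h1 ω hω])
  obtain ⟨Y, hY⟩ : ∃ Y : F.Ω × F.Ω → ℕ × ((V₀ × V₁) × (ℕ × F.ζ)), Y = fun e =>
    (F.T e.1, ((z₀' ((slam F W₁ e.2).1, (slam F W₁ e.2).2.1,
      (slam F W₁ e.2).2.2 / 2 ^ (W₁ - W₀)), z₁' (slam F W₁ e.2)), F.W e.2)) := ⟨_, rfl⟩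
  have a8' : E₀ ≤ CH Q (fun e (i : Fin k) => F.X J e.1 (c i)) Y := by
    rw [hY]
    exact a8
  have hY' : ∀ e e', 0 < Q e → 0 < Q e' → Y e = Y e' → F.T e.1 = F.T e'.1 ∧
      z₀' (slam F W₀ e.1) = z₀' (slam F W₀ e'.1) ∧
      z₁' (slam F W₁ e.2) = z₁' (slam F W₁ e'.2) ∧ F.W e.2 = F.W e'.2 ∧
      F.T1 W₀ e.1 = F.T1 W₀ e'.1 := by
    intro e e' he he' h
    rw [hY] at h
    simp only [Prod.mk.injEq] at h
    obtain ⟨b1, ⟨b2, b3⟩, b4⟩ := h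
    rw [e0', e0'] at b2
    refine ⟨b1, ?_, b3, b4, ?_⟩
    · rw [(hslam e he).1, (hslam e' he').1]
      exact b2
    · unfold Fam.T1
      rw [b1]
  have a9 : CH Q ng Y ≤ CH Q ng (fun e => (TP e, R e)) := by
    refine CH_mono_cond hQ0 fun e e' he he' h => ?_
    obtain ⟨b1, b2, b3, b4, b5⟩ := hY' e e' he he' h
    rw [hR, hTP]
    simp only
    rw [b1, b2, b3, b4, b5]
  have a10 := CH_le_add hQ0 (fun e (i : Fin k) => F.X J e.1 (c i)) ng Y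
  have a11 := ngx_cnt (Z := fun e => (ng e, Y e)) hQ hN hWJ hP hL hs hc hA
    (fun e e' he he' h => (hY' e e' he he' (Prod.ext_iff.1 h).2).1)
    (fun e e' he he' h => by
      rw [hN.cls _ (hA e he), hN.cls _ (hA e' he')]
      exact (hY' e e' he he' (Prod.ext_iff.1 h).2).2.1)
    (fun e e' he he' h i hi => by
      have h2 : ng e = ng e' := (Prod.ext_iff.1 h).1
      rcases Nat.eq_zero_or_pos i with h0 | h0
      · rw [h0, hTP0 e he, hTP0 e' he', (hY' e e' he he' (Prod.ext_iff.1 h).2).2.2.2.2]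
        have h3 := congrFun h2 0
        rw [hng0, hng0] at h3
        rw [h3]
      · obtain ⟨i, rfl⟩ : ∃ i', i = i' + 1 := ⟨i - 1, by omega⟩
        have h3 := congrFun h2 (Fin.succ ⟨i, by omega⟩)
        rw [hngs e he, hngs e' he'] at h3
        exact h3)
  -- the sum
  have a12 : ∑ i : Fin (k + 1), Real.log (N₀ i) =
      ((P : ℝ) - W₀) * Real.log 2 + (∑ i ∈ range k, ((P : ℝ) - g i)) * Real.log 2 := by
    rw [Fin.sum_univ_succ, Finset.sum_range, Finset.sum_mul]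
    have b0 : Real.log (N₀ 0) = ((P : ℝ) - W₀) * Real.log 2 := by
      rw [hN₀]
      push_cast
      have b1 : wid W₀ g ((0 : Fin (k + 1)) : ℕ) = W₀ := by
        rw [Fin.val_zero]
        rfl
      rw [Real.log_pow, b1, Nat.cast_sub (hw.trans hWP)]
    rw [b0]
    congr 1
    refine Finset.sum_congr rfl fun i _ => ?_
    rw [hN₀]
    push_cast
    have b1 := hc (i + 1) (by have := i.2; omega)
    have b2 : wid W₀ g ((i : ℕ) + 1) = g i := if_neg (Nat.succ_ne_zero _)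
    rw [b2] at b1
    have b3 : wid W₀ g (i.succ : Fin (k + 1)) = g i := by
      rw [Fin.val_succ]
      exact b2
    rw [Real.log_pow, b3, Nat.cast_sub (by omega)]
  have a13 : ∑ i : Fin (k + 1), Real.log ((2 ^ (P - wid W₀ g i) : ℕ) : ℝ) =
      ∑ i : Fin (k + 1), Real.log (N₀ i) := by
    rw [hN₀]
  have b1 : ((J - P : ℕ) : ℝ) = J - P := Nat.cast_sub hP
  have b2 : ((J - W₀ : ℕ) : ℝ) = J - W₀ := Nat.cast_sub hWJ
  rw [b1] at a7 a11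
  rw [b2] at hT
  have b3 : (∑ i ∈ range k, ((P : ℝ) - g i)) * Real.log 2 =
      (∑ i ∈ range k, ((J : ℝ) - g i)) * Real.log 2 - k * (((J : ℝ) - P) * Real.log 2) := by
    have : ∀ i ∈ range k, ((P : ℝ) - g i) = ((J : ℝ) - g i) - (J - P) := fun i _ => by ring
    rw [Finset.sum_congr rfl this, Finset.sum_sub_distrib, Finset.sum_const, card_range,
      nsmul_eq_mul]
    ring
  rw [a13, a12, b3]
  linarith

end ex

/-- **Fullness of the natural digits of the exact point**, for the pairs of a class. -/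
theorem ful_gc {k : ℕ} (h : KP k) {S : PCl m} {w₀ w₁ : ℝ} (hw01 : w₀ ≤ w₁) (hw0 : w₀ ≤ 1)
    (htm : TmWn S w₀) {c : ℕ → Fin m} {b : ℝ}
    (hex : ∀ ρ : ℝ, 0 < ρ → ExvY S w₁ (fun J F ω (i : Fin k) => F.X J ω (c i)) (b - ρ))
    {ρ : ℝ} (hρ : 0 < ρ) :
    Bas S (fun J F A => 0 < Pe F.p A ∧ ∀ (sg sx K s P : ℕ) (L : ℝ) (g : ℕ → ℕ) (V₀ V₁ : Type)
      (z₀ : PtT F → V₀) (z₀' : LnT F → V₀) (P₀ : V₀ → ℕ → PN) (z₁ : PtT F → V₁)
      (z₁' : LnT F → V₁), NLabW F c k ⌊w₀ * J⌋₊ sg g K L A z₀ z₀' P₀ → 0 ≤ L →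
      ⌊w₁ * J⌋₊ ≤ P → P ≤ J → 2 * (1 + ((k + 1 : ℕ) : ℝ) * L) ≤ 2 * 2 ^ s →
      (∀ i < k + 1, wid ⌊w₀ * J⌋₊ g i + s ≤ P) →
      (∀ ω, A ω → z₁ (ptr F J ω) = z₁' (slam F ⌊w₁ * J⌋₊ ω)) →
      ∑ i : Fin (k + 1), Real.log ((2 ^ (P - wid ⌊w₀ * J⌋₊ g i) : ℕ) : ℝ) -
        CH (P2 (Pool.Agent.H49.Ent.cond F.p A True) (slam F ⌊w₀ * J⌋₊))
          (fun e => nrem (fun i : Fin (k + 1) => 2 ^ (P - wid ⌊w₀ * J⌋₊ g i))
            (ndg (2 ^ (P - ⌊w₁ * J⌋₊)) (gsy k ⌊w₁ * J⌋₊ (P₀ (z₀' (slam F ⌊w₀ * J⌋₊ e.1))))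
              (bse (xte c k ⌊w₁ * J⌋₊ P sx F e.1))))
          (fun e => ((z₁' (slam F ⌊w₁ * J⌋₊ e.2), F.W e.2), (z₀' (slam F ⌊w₀ * J⌋₊ e.1),
            (F.T1 ⌊w₀ * J⌋₊ e.1, nidx (fun i : Fin (k + 1) => 2 ^ (P - wid ⌊w₀ * J⌋₊ g i))
              (ndg (2 ^ (P - ⌊w₁ * J⌋₊)) (gsy k ⌊w₁ * J⌋₊ (P₀ (z₀' (slam F ⌊w₀ * J⌋₊ e.1))))
                (bse (xte c k ⌊w₁ * J⌋₊ P sx F e.1))))))) ≤
        (∑ i ∈ range k, ((J : ℝ) - g i)) * Real.log 2 - b * Real.log 2 * J + ρ * J +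
          k * Real.log (11 + 8 * ((k + 1 : ℕ) : ℝ) * L)) := by
  have hl2 : 0 < Real.log 2 := Real.log_pos one_lt_two
  have hl1 : Real.log 2 ≤ 1 := by
    have := Real.log_two_lt_d9
    linarith
  obtain ⟨J₁, hJ₁⟩ := exists_nat_ge (4 * (((k + 1 : ℕ) : ℝ) * Real.log 21) / ρ)
  refine ((full_pair h hw0 htm (hex (ρ / 4) (by positivity)) (ρ := ρ / 4) (by positivity)).and
    (pair_time hw0 htm (ρ := ρ / 4) (by positivity))).mono J₁ ?_
  rintro J hJ F A ⟨⟨hA, hf⟩, -, ht⟩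
  refine ⟨hA, ?_⟩
  intro sg sx K s P L g V₀ V₁ z₀ z₀' P₀ z₁ z₁' hN hL hWP hPJ hs hc h1
  have hJ0 : (0 : ℝ) ≤ J := Nat.cast_nonneg J
  have hJ' : (J₁ : ℝ) ≤ J := by exact_mod_cast hJ
  have e1 := hJ₁.trans hJ'
  rw [div_le_iff₀ hρ] at e1
  have hl := isLaw_cond F.isLaw hA
  have hq := P2_isLaw hl (slam F ⌊w₀ * J⌋₊)
  have h2 := ful_g (sx := sx) hq hN (Nat.floor_le_floor (mul_le_mul_of_nonneg_right hw01 hJ0)) hWP
    hPJ hL hs hc (fun e he => by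
      obtain ⟨c1, c2, c3⟩ := (P2_pos hl e).1 he
      exact ⟨cond_supp c1, cond_supp c2, c3⟩) h1 (fun V z z' hz => hf V z z' hz) ht
  have h3 : (b - ρ / 4 - ρ / 4) * Real.log 2 * J = b * Real.log 2 * J -
      ρ / 2 * J * Real.log 2 := by ring
  have h4 : ρ / 2 * J * Real.log 2 ≤ ρ / 2 * J * 1 :=
    mul_le_mul_of_nonneg_left hl1 (by positivity)
  rw [h3] at h2
  linarith

end Pool.JPN
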