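import Pool.Agent.H53.JM.Exn
import Pool.Agent.H53.JM.FullE

/-!
# Fullness of the natural digits of the exact point, for laws of pairs

`dens_time`: the time of the first sample given the second sample, for laws of bounded density, in a
class. `ful_x`: the natural digits of the exact point of the first sample, in the natural box of its
label of the window `W₀`, are almost full given the label of the window `W₁` of the second sample,
the label of the window `W₀` and the index of the box.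
-/

set_option autoImplicit false

namespace Pool.JPN

open Finset Real MvPolynomial
open Pool.Agent.H49.Ent Pool.Agent.H32.Dense Pool.STK Pool.KA Pool.KSAT Pool.K2S Pool.PB
  Pool.STAT Pool.STAT.CLO Pool.GEN Pool.M3F Pool.KM7 Pool.S6C
open Pool.GRW (TmWn)
open Pool.JPR (tau1 tau1_T tau1_full tm_ful dens_full dens_sup log_fin)

variable {m J : ℕ}

/-- **The time of the first sample**, given the second sample, for laws of bounded density. -/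
theorem dens_time {S : PCl m} {w₀ : ℝ} (hw1 : w₀ ≤ 1) (htm : TmWn S w₀) {C : ℝ} (hC : 1 ≤ C)
    {ρ : ℝ} (hρ : 0 < ρ) :
    Bas S (fun J F A => 0 < Pe F.p A ∧ ∀ Q : F.Ω × F.Ω → ℝ, IsLaw Q →
      (∀ e, Q e ≤ C * P2 (Pool.Agent.H49.Ent.cond F.p A True) (slam F ⌊w₀ * J⌋₊) e) →
      ((J - ⌊w₀ * J⌋₊ : ℕ) : ℝ) * Real.log 2 - ρ * J ≤ CH Q (fun e => F.T e.1) (fun e => e.2)) := by
  have hC0 : 0 < C := by linarith
  obtain ⟨J₂, hJ₂⟩ := exists_nat_ge (2 * C * Real.log 2 / ρ)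
  refine (tm_ful hw1 htm (θ := ρ / (2 * C)) (by positivity)).mono J₂ fun J hJ F A hh =>
    ⟨hh.1, fun Q hQ hd => ?_⟩
  have hl := isLaw_cond F.isLaw hh.1
  have hJ2 : (J₂ : ℝ) ≤ J := by exact_mod_cast hJ
  have hJ0 : (0 : ℝ) ≤ J := Nat.cast_nonneg J
  obtain ⟨w, hw⟩ : ∃ w, w = ⌊w₀ * (J : ℝ)⌋₊ := ⟨_, rfl⟩
  rw [← hw] at hd ⊢
  have hlog : C * Real.log 2 ≤ ρ / 2 * J := by
    have h1 := hJ₂.trans hJ2
    rw [div_le_iff₀ hρ] at h1
    linarith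
  have hf : ((J - w : ℕ) : ℝ) * Real.log 2 - ρ / (2 * C) * J ≤
      CH (F.res A True hl).p (F.res A True hl).T (slam (F.res A True hl) w) := by
    rw [hw]
    exact hh.2.2
  have h1 := tau1_full (F.res A True hl) w hf (fun ω => ω)
  have hq := P2_isLaw hl (slam F w)
  have h2 := dens_full hq hQ hC hd (tau1 F w) (fun e => e.2)
    (M := ((J - w : ℕ) : ℝ) * Real.log 2) (θ := ρ / (2 * C) * J)
    (fun r hr => log_fin (J - w) hr (tau1 F w) (fun e => e.2)) h1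
  have h3 : C * (ρ / (2 * C) * J + Real.log 2) = ρ / 2 * J + C * Real.log 2 := by
    field_simp
  rw [h3] at h2
  have h4 : CH Q (tau1 F w) (fun e => e.2) ≤ CH Q (fun e => F.T e.1) (fun e => e.2) := by
    refine CH_mono_left hQ.nonneg fun e e' _ _ h => ?_
    have h5 : F.T e.1 = F.T e'.1 := (Prod.ext_iff.1 h).1
    unfold tau1
    simp only [h5]
  linarith

/-! ### The digits of the exact point -/

section ex

variable {F : Fam m J} {c : ℕ → Fin m} {r W₀ W₁ sg P : ℕ} {g : ℕ → ℕ} {K : ℕ} {L : ℝ}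
  {A : F.Ω → Prop} {V₀ V₁ : Type} {z₀ : PtT F → V₀} {z₀' : LnT F → V₀} {P₀ : V₀ → ℕ → PN}
  {z₁ : PtT F → V₁} {z₁' : LnT F → V₁}

/-- The natural digits of the exact point. -/
noncomputable def ngx (F : Fam m J) (c : ℕ → Fin m) (P : ℕ) (z₀ : PtT F → V₀)
    (P₀ : V₀ → ℕ → PN) (ω : F.Ω) (i : ℕ) : ℤ :=
  ⌊(2 : ℝ) ^ P * (exn F c P ω i - eval (exn F c P ω) (P₀ (z₀ (ptr F J ω)) i))⌋

/-- The position of the rounded point in the natural box. -/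
theorem pos_px (hN : NLabW F c r W₀ sg g K L A z₀ z₀' P₀) (hWJ : W₀ ≤ J) {ω : F.Ω} (hω : A ω) :
    Bxr 1 (wid W₀ g) (P₀ (z₀ (ptr F J ω))) (r + 1) (px c (ptr F J ω)) := by
  intro i hi
  rcases Nat.eq_zero_or_pos i with h0 | h0
  · subst h0
    rw [hN.zero ω hω, eval_C]
    have h1 := tP_near (F := F) hWJ ω
    have e3 : px c (ptr F J ω) 0 = F.t ω := if_pos rfl
    have e4 : tP F W₀ ω = (F.T1 W₀ ω : ℝ) / 2 ^ W₀ := rfl
    rw [e3, ← e4, abs_sub_comm]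
    exact h1
  · obtain ⟨i, rfl⟩ : ∃ i', i = i' + 1 := ⟨i - 1, by omega⟩
    exact hN.pos ω hω i (by omega)

/-- The label at the exact point and at the rounded point. -/
theorem exn_box (hN : NLabW F c r W₀ sg g K L A z₀ z₀' P₀) (hWJ : W₀ ≤ J) (hP : P ≤ J)
    (hL : 0 ≤ L) {s : ℕ} (hs : 2 * (1 + ((r + 1 : ℕ) : ℝ) * L) ≤ 2 * 2 ^ s)
    (hc : ∀ i < r + 1, wid W₀ g i + s ≤ P) {ω : F.Ω} (hω : A ω) :
    (∀ i ≤ r + 1, |eval (exn F c P ω) (P₀ (z₀ (ptr F J ω)) i) -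
      eval (px c (ptr F J ω)) (P₀ (z₀ (ptr F J ω)) i)| ≤ ((r + 1 : ℕ) : ℝ) * L * (2 / 2 ^ P)) ∧
    ∀ i < r + 1, |exn F c P ω i - eval (exn F c P ω) (P₀ (z₀ (ptr F J ω)) i)| ≤
      4 / 2 ^ wid W₀ g i := by
  have hb := (pos_px hN hWJ hω).mono (show (1 : ℝ) ≤ 2 by norm_num) (le_refl (r + 1))
  have key := near_box (hN.tri _) hL (by positivity : (0 : ℝ) ≤ 2 / 2 ^ P) (hN.grad ω hω) hb (by
    intro i hi
    rw [mul_div_assoc', div_le_div_iff₀ (by positivity) (by positivity)]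
    have h1 : (2 : ℝ) ^ wid W₀ g i * 2 ^ s ≤ 2 ^ P := by
      rw [← pow_add]
      exact pow_le_pow_right₀ (by norm_num) (hc i hi)
    have p1 : (0 : ℝ) < 2 ^ wid W₀ g i := by positivity
    calc (1 + ((r + 1 : ℕ) : ℝ) * L) * 2 * 2 ^ wid W₀ g i =
          2 * (1 + ((r + 1 : ℕ) : ℝ) * L) * 2 ^ wid W₀ g i := by ring
      _ ≤ 2 * 2 ^ s * 2 ^ wid W₀ g i := mul_le_mul_of_nonneg_right hs p1.le
      _ = 2 * (2 ^ wid W₀ g i * 2 ^ s) := by ring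
      _ ≤ 2 * 2 ^ P := by linarith)
  exact ⟨fun i hi => (key i hi).2 _ fun j => exn_px hP c ω j,
    fun i hi => (key (r + 1) le_rfl).1 _ (fun j => exn_px hP c ω j) i hi⟩

variable {Q : F.Ω × F.Ω → ℝ}

/-- The positions given the digits of the exact point. -/
theorem ngx_cnt (hQ : IsLaw Q) (hN : NLabW F c r W₀ sg g K L A z₀ z₀' P₀) (hWJ : W₀ ≤ J)
    (hP : P ≤ J) (hL : 0 ≤ L) {s : ℕ} (hs : 2 * (1 + ((r + 1 : ℕ) : ℝ) * L) ≤ 2 * 2 ^ s)
    (hc : ∀ i < r + 1, wid W₀ g i + s ≤ P) (hA : ∀ e, 0 < Q e → A e.1) {Γ : Type}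
    {Z : F.Ω × F.Ω → Γ}
    (hT : ∀ e e', 0 < Q e → 0 < Q e' → Z e = Z e' → F.T e.1 = F.T e'.1)
    (hz : ∀ e e', 0 < Q e → 0 < Q e' → Z e = Z e' → z₀ (ptr F J e.1) = z₀ (ptr F J e'.1))
    (hn : ∀ e e', 0 < Q e → 0 < Q e' → Z e = Z e' → ∀ i < r + 1,
      ngx F c P z₀ P₀ e.1 i = ngx F c P z₀ P₀ e'.1 i) :
    CH Q (fun e (i : Fin r) => F.X J e.1 (c i)) Z ≤
      r * (((J - P : ℕ) : ℝ) * Real.log 2 + Real.log (11 + 8 * ((r + 1 : ℕ) : ℝ) * L)) := by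
  obtain ⟨C, hC⟩ : ∃ C : ℝ, C = 5 + 4 * ((r + 1 : ℕ) : ℝ) * L := ⟨_, rfl⟩
  have hr0 : (0 : ℝ) ≤ ((r + 1 : ℕ) : ℝ) := Nat.cast_nonneg _
  have hC0 : 0 ≤ C := by rw [hC]; positivity
  have pP : (0 : ℝ) < 2 ^ P := by positivity
  have pJ : (0 : ℝ) < 2 ^ J := by positivity
  have eJ : (2 : ℝ) ^ J = 2 ^ (J - P) * 2 ^ P := by rw [← pow_add, Nat.sub_add_cancel hP]
  have h1 := Ful.ch_vec hQ (fun e (i : Fin r) => F.X J e.1 (c i)) Z
    (fun _ => C * 2 ^ (J - P)) (by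
      intro i e e' he he' hZ hj
      obtain ⟨ξ, hξ⟩ : ∃ ξ, ξ = exn F c P e.1 := ⟨_, rfl⟩
      have b1 := (exn_box hN hWJ hP hL hs hc (hA e he)).1 (i + 1) (by have := i.2; omega)
      have b2 := (exn_box hN hWJ hP hL hs hc (hA e' he')).1 (i + 1) (by have := i.2; omega)
      have b3 := exn_px hP c e.1 (i + 1)
      have b4 := exn_px hP c e'.1 (i + 1)
      have b5 := Ful.fl_eq (hn e e' he he' hZ (i + 1) (by have := i.2; omega))
      have b6 : eval (px c (ptr F J e.1)) (P₀ (z₀ (ptr F J e.1)) (i + 1)) =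
          eval (px c (ptr F J e'.1)) (P₀ (z₀ (ptr F J e'.1)) (i + 1)) := by
        rw [hz e e' he he' hZ]
        exact eval_px (hN.tri _ _) (hT e e' he he' hZ) fun j hj' =>
          hj ⟨j, hj'.trans i.2⟩ hj'
      rw [← mul_sub, abs_mul, abs_of_pos pP] at b5
      have b5' : |(exn F c P e.1 (i + 1) -
          eval (exn F c P e.1) (P₀ (z₀ (ptr F J e.1)) (i + 1))) -
          (exn F c P e'.1 (i + 1) -
          eval (exn F c P e'.1) (P₀ (z₀ (ptr F J e'.1)) (i + 1)))| ≤ 1 / 2 ^ P := by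
        rw [le_div_iff₀ pP, mul_comm]
        exact b5
      rw [px_succ] at b3 b4
      have b7 : |(F.X J e.1 (c i) : ℝ) / 2 ^ J - (F.X J e'.1 (c i) : ℝ) / 2 ^ J| ≤
          C / 2 ^ P := by
        have e1 : C / 2 ^ P = 1 / 2 ^ P + 2 / 2 ^ P + 2 / 2 ^ P +
            ((r + 1 : ℕ) : ℝ) * L * (2 / 2 ^ P) + ((r + 1 : ℕ) : ℝ) * L * (2 / 2 ^ P) := by
          rw [hC]
          field_simp
          ring
        rw [e1]
        have c3 : |exn F c P e.1 (i + 1) - (F.X J e.1 (c i) : ℝ) / 2 ^ J| ≤ 2 / 2 ^ P := b3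
        have c4 : |exn F c P e'.1 (i + 1) - (F.X J e'.1 (c i) : ℝ) / 2 ^ J| ≤ 2 / 2 ^ P := b4
        rw [abs_le] at b1 b2 c3 c4 b5' ⊢
        constructor <;> linarith [b1.1, b1.2, b2.1, b2.2, c3.1, c3.2, c4.1, c4.2, b5'.1, b5'.2]
      have e2 : (F.X J e.1 (c i) : ℝ) / 2 ^ J - (F.X J e'.1 (c i) : ℝ) / 2 ^ J =
          (F.X J e.1 (c i) - F.X J e'.1 (c i)) / (2 ^ (J - P) * 2 ^ P) := by
        rw [← eJ, sub_div]
      rw [e2, abs_div, abs_of_pos (by positivity : (0 : ℝ) < 2 ^ (J - P) * 2 ^ P),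
        div_le_div_iff₀ (by positivity) pP] at b7
      have b8 : |(F.X J e.1 (c i) : ℝ) - F.X J e'.1 (c i)| * 2 ^ P ≤ C * 2 ^ (J - P) * 2 ^ P := by
        linarith
      have b9 := le_of_mul_le_mul_right b8 pP
      push_cast
      exact b9)
  refine h1.trans ?_
  rw [Finset.sum_const, card_range, nsmul_eq_mul]
  refine mul_le_mul_of_nonneg_left ?_ (Nat.cast_nonneg _)
  have p1 : (1 : ℝ) ≤ 2 ^ (J - P) := one_le_pow₀ (by norm_num)
  have hpos : (0 : ℝ) < 11 + 8 * ((r + 1 : ℕ) : ℝ) * L := by positivity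
  rw [← Real.log_pow, ← Real.log_mul (by positivity) hpos.ne']
  refine Real.log_le_log (by positivity) ?_
  rw [hC]
  have : 0 ≤ 8 * ((r + 1 : ℕ) : ℝ) * L := by positivity
  nlinarith

/-- The index of the box has few values. -/
theorem idx_cnt (hQ : IsLaw Q) (hN : NLabW F c r W₀ sg g K L A z₀ z₀' P₀) (hWJ : W₀ ≤ J)
    (hP : P ≤ J) (hL : 0 ≤ L) {s : ℕ} (hs : 2 * (1 + ((r + 1 : ℕ) : ℝ) * L) ≤ 2 * 2 ^ s)
    (hc : ∀ i < r + 1, wid W₀ g i + s ≤ P) (hA : ∀ e, 0 < Q e → A e.1) {Γ : Type}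
    (Z : F.Ω × F.Ω → Γ) :
    CH Q (fun e => nidx (fun i : Fin (r + 1) => 2 ^ (P - wid W₀ g i))
      (fun i => ngx F c P z₀ P₀ e.1 i)) Z ≤ ((r + 1 : ℕ) : ℝ) * Real.log 21 := by
  have h0 : ∀ e, 0 < Q e → ∀ i : Fin (r + 1), |((nidx (fun i : Fin (r + 1) =>
      2 ^ (P - wid W₀ g i)) (fun i => ngx F c P z₀ P₀ e.1 i) i : ℤ) : ℝ)| ≤ 5 := by
    intro e he i
    have h1 := (exn_box hN hWJ hP hL hs hc (hA e he)).2 i i.2
    obtain ⟨N, hNN⟩ : ∃ N : ℕ, N = 2 ^ (P - wid W₀ g i) := ⟨_, rfl⟩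
    have hN1 : 1 ≤ N := by rw [hNN]; exact Nat.one_le_two_pow
    have hN0 : (0 : ℝ) < N := by exact_mod_cast hN1
    have hNr : (N : ℝ) = 2 ^ P / 2 ^ wid W₀ g i := by
      rw [hNN]
      push_cast
      rw [eq_div_iff (by positivity), ← pow_add, Nat.sub_add_cancel (by have := hc i i.2; omega)]
    obtain ⟨x, hx⟩ : ∃ x, x = (2 : ℝ) ^ P * (exn F c P e.1 i -
      eval (exn F c P e.1) (P₀ (z₀ (ptr F J e.1)) i)) := ⟨_, rfl⟩
    have hxN : |x| ≤ 4 * N := by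
      have pP : (0 : ℝ) < 2 ^ P := by positivity
      rw [hx, abs_mul, abs_of_pos pP]
      calc (2 : ℝ) ^ P * |exn F c P e.1 i - eval (exn F c P e.1) (P₀ (z₀ (ptr F J e.1)) i)| ≤
            2 ^ P * (4 / 2 ^ wid W₀ g i) := mul_le_mul_of_nonneg_left h1 pP.le
        _ = 4 * N := by
          rw [hNr]
          ring
    have h2 : ngx F c P z₀ P₀ e.1 i = ⌊x⌋ := by
      rw [hx]
      rfl
    change |((ngx F c P z₀ P₀ e.1 i / ((2 ^ (P - wid W₀ g i) : ℕ) : ℤ) : ℤ) : ℝ)| ≤ 5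
    rw [h2, ← hNN]
    have h3 : ⌊x⌋ / (N : ℤ) = ⌊x / N⌋ := by
      rw [Int.floor_div_natCast]
    rw [h3]
    have h4 : |x / N| ≤ 4 := by
      rw [abs_div, abs_of_pos hN0, div_le_iff₀ hN0]
      exact hxN
    have a1 := Int.floor_le (x / N)
    have a2 := Int.lt_floor_add_one (x / N)
    rw [abs_le] at h4 ⊢
    constructor <;> linarith [h4.1, h4.2]
  have h1 := Ful.ch_vec hQ (fun e => nidx (fun i : Fin (r + 1) => 2 ^ (P - wid W₀ g i))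
      (fun i => ngx F c P z₀ P₀ e.1 i)) Z (fun _ => 10) (by
    intro i e e' he he' _ _
    have h2 := h0 e he i
    have h3 := h0 e' he' i
    push_cast
    rw [abs_le] at h2 h3 ⊢
    constructor <;> linarith [h2.1, h2.2, h3.1, h3.2])
  refine h1.trans (le_of_eq ?_)
  rw [Finset.sum_const, card_range, nsmul_eq_mul]
  norm_num

/-- **Fullness of the natural digits of the exact point.** -/
theorem ful_x (hQ : IsLaw Q) (hN : NLabW F c r W₀ sg g K L A z₀ z₀' P₀) (hw : W₀ ≤ W₁)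
    (hWP : W₁ ≤ P) (hP : P ≤ J) (hL : 0 ≤ L) {s : ℕ}
    (hs : 2 * (1 + ((r + 1 : ℕ) : ℝ) * L) ≤ 2 * 2 ^ s)
    (hc : ∀ i < r + 1, wid W₀ g i + s ≤ P)
    (hsup : ∀ e, 0 < Q e → A e.1 ∧ A e.2 ∧ slam F W₀ e.1 = slam F W₀ e.2)
    (h1 : ∀ ω, A ω → z₁ (ptr F J ω) = z₁' (slam F W₁ ω)) {E₀ θ : ℝ}
    (hE : ∀ (V : Type) (z : PtT F → V) (z' : LnT F → V),
      (∀ ω, A ω → z (ptr F J ω) = z' (slam F W₁ ω)) →
      E₀ ≤ CH Q (fun e (i : Fin r) => F.X J e.1 (c i))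
        (fun e => (F.T e.1, (z' (slam F W₁ e.2), F.W e.2))))
    (hT : ((J - W₀ : ℕ) : ℝ) * Real.log 2 - θ ≤ CH Q (fun e => F.T e.1) (fun e => e.2)) :
    ∑ i : Fin (r + 1), Real.log ((2 ^ (P - wid W₀ g i) : ℕ) : ℝ) -
      CH Q (fun e => nrem (fun i : Fin (r + 1) => 2 ^ (P - wid W₀ g i))
        (ndg (2 ^ (P - W₁)) (fun i : Fin (r + 1) => toF (r + 1) W₁ (P₀ (z₀ (ptr F J e.1)) i))
          (bse (xpt F c r W₁ sg P e.1))))
        (fun e => (z₁ (ptr F J e.2), (z₀ (ptr F J e.1), (F.T1 W₀ e.1,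
          nidx (fun i : Fin (r + 1) => 2 ^ (P - wid W₀ g i))
            (ndg (2 ^ (P - W₁)) (fun i : Fin (r + 1) => toF (r + 1) W₁ (P₀ (z₀ (ptr F J e.1)) i))
              (bse (xpt F c r W₁ sg P e.1))))))) ≤
      (∑ i ∈ range r, ((J : ℝ) - g i)) * Real.log 2 - E₀ + θ +
        r * Real.log (11 + 8 * ((r + 1 : ℕ) : ℝ) * L) + ((r + 1 : ℕ) : ℝ) * Real.log 21 := by
  have hQ0 := hQ.nonneg
  have hWJ : W₀ ≤ J := (hw.trans hWP).trans hP
  have hA : ∀ e, 0 < Q e → A e.1 := fun e he => (hsup e he).1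
  obtain ⟨N₀, hN₀⟩ : ∃ N₀ : Fin (r + 1) → ℕ, N₀ = fun i : Fin (r + 1) =>
    2 ^ (P - wid W₀ g i) := ⟨_, rfl⟩
  have hN₀1 : ∀ i, 1 ≤ N₀ i := fun i => by rw [hN₀]; exact Nat.one_le_two_pow
  obtain ⟨ng, hng⟩ : ∃ ng : F.Ω × F.Ω → Fin (r + 1) → ℤ, ng =
    fun (e : F.Ω × F.Ω) (i : Fin (r + 1)) => ngx F c P z₀ P₀ e.1 i := ⟨_, rfl⟩
  have e0 : ∀ e : F.Ω × F.Ω, ndg (2 ^ (P - W₁))
      (fun i : Fin (r + 1) => toF (r + 1) W₁ (P₀ (z₀ (ptr F J e.1)) i))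
      (bse (xpt F c r W₁ sg P e.1)) = ng e := by
    intro e
    funext i
    rw [hng]
    exact ndg_xpt (hN.tri _) hWP e.1 i
  simp only [e0]
  rw [← hN₀]
  obtain ⟨R, hR⟩ : ∃ R : F.Ω × F.Ω → V₁ × (V₀ × ℕ), R = fun e =>
    (z₁ (ptr F J e.2), (z₀ (ptr F J e.1), F.T1 W₀ e.1)) := ⟨_, rfl⟩
  obtain ⟨TP, hTP⟩ : ∃ TP : F.Ω × F.Ω → ℕ, TP = fun e => F.T e.1 / 2 ^ (J - P) := ⟨_, rfl⟩
  -- the digits of the exact point from the position in the box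
  have a1 : CH Q ng (fun e => (z₁ (ptr F J e.2), (z₀ (ptr F J e.1), (F.T1 W₀ e.1,
      nidx N₀ (ng e))))) ≤ CH Q (fun e => nrem N₀ (ng e))
      (fun e => (z₁ (ptr F J e.2), (z₀ (ptr F J e.1), (F.T1 W₀ e.1, nidx N₀ (ng e))))) := by
    refine CH_mono_left hQ0 fun e e' _ _ h => ?_
    simp only [Prod.mk.injEq] at h
    obtain ⟨h2, -, -, -, h3⟩ := h
    funext i
    have h4 := nrem_cast hN₀1 (ng e) i
    have h5 := nrem_cast hN₀1 (ng e') i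
    rw [h2, h3] at h4
    linarith
  -- without the index
  have a2 : CH Q ng R ≤ CH Q ng (fun e => (z₁ (ptr F J e.2), (z₀ (ptr F J e.1), (F.T1 W₀ e.1,
      nidx N₀ (ng e))))) + CH Q (fun e => nidx N₀ (ng e)) R := by
    have b1 := CH_le_add hQ0 ng (fun e => nidx N₀ (ng e)) R
    have b2 : CH Q ng (fun e => (nidx N₀ (ng e), R e)) ≤
        CH Q ng (fun e => (z₁ (ptr F J e.2), (z₀ (ptr F J e.1), (F.T1 W₀ e.1,
          nidx N₀ (ng e))))) := by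
      refine CH_mono_cond hQ0 fun e e' _ _ h => ?_
      rw [hR] at h
      simp only [Prod.mk.injEq] at h ⊢
      exact ⟨h.2.1, h.2.2.1, h.2.2.2, h.1⟩
    linarith
  have a3 : CH Q (fun e => nidx N₀ (ng e)) R ≤ ((r + 1 : ℕ) : ℝ) * Real.log 21 := by
    rw [hN₀, hng]
    exact idx_cnt hQ hN hWJ hP hL hs hc hA R
  -- the time
  have hTP0 : ∀ e, 0 < Q e → ngx F c P z₀ P₀ e.1 0 = (TP e : ℤ) - F.T1 W₀ e.1 * 2 ^ (P - W₀) := by
    intro e he
    unfold ngx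
    rw [hN.zero _ (hA e he), eval_C]
    have b1 : exn F c P e.1 0 = (TP e : ℝ) / 2 ^ P := by
      rw [hTP]
      rfl
    rw [b1]
    have hWP' : W₀ ≤ P := hw.trans hWP
    have b2 : (2 : ℝ) ^ P = 2 ^ (P - W₀) * 2 ^ W₀ := by
      rw [← pow_add, Nat.sub_add_cancel hWP']
    have b3 : (2 : ℝ) ^ P * ((TP e : ℝ) / 2 ^ P - (F.T1 W₀ e.1 : ℝ) / 2 ^ W₀) =
        (((TP e : ℤ) - F.T1 W₀ e.1 * 2 ^ (P - W₀) : ℤ) : ℝ) := by
      push_cast
      rw [b2]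
      field_simp
    rw [b3, Int.floor_intCast]
  have hR' : ∀ e e' : F.Ω × F.Ω, R e = R e' → z₁ (ptr F J e.2) = z₁ (ptr F J e'.2) ∧
      z₀ (ptr F J e.1) = z₀ (ptr F J e'.1) ∧ F.T1 W₀ e.1 = F.T1 W₀ e'.1 := by
    intro e e' h
    rw [hR] at h
    simp only [Prod.mk.injEq] at h
    exact h
  have a4 : CH Q (fun e => (ng e, TP e)) R ≤ CH Q ng R := by
    refine CH_mono_left hQ0 fun e e' he he' h => ?_
    obtain ⟨h2, h3⟩ := Prod.ext_iff.1 h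
    have h2' : ng e = ng e' := h2
    have h4 := (hR' e e' h3).2.2
    refine Prod.ext h2' ?_
    have h5 : ngx F c P z₀ P₀ e.1 0 = ngx F c P z₀ P₀ e'.1 0 := by
      have := congrFun h2' 0
      rw [hng] at this
      exact this
    rw [hTP0 e he, hTP0 e' he', h4] at h5
    have : (TP e : ℤ) = TP e' := by linarith
    exact_mod_cast this
  have a5 := CH_chain hQ0 ng TP R
  -- the entropy of the time
  have hslam : ∀ e, 0 < Q e → z₀ (ptr F J e.1) = z₀' (slam F W₀ e.2) ∧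
      F.T1 W₀ e.1 = F.T1 W₀ e.2 := by
    intro e he
    obtain ⟨b1, b2, b3⟩ := hsup e he
    refine ⟨by rw [hN.cls _ b1, b3], ?_⟩
    exact (Prod.ext_iff.1 (Prod.ext_iff.1 b3).2).2
  have a6 : CH Q TP (fun e => e.2) ≤ CH Q TP R := by
    refine CH_mono_cond hQ0 fun e e' he he' h => ?_
    have h2 : e.2 = e'.2 := h
    rw [hR]
    simp only
    rw [(hslam e he).1, (hslam e' he').1, (hslam e he).2, (hslam e' he').2, h2]
  have a7 : CH Q (fun e => F.T e.1) (fun e => e.2) ≤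
      CH Q TP (fun e => e.2) + ((J - P : ℕ) : ℝ) * Real.log 2 := by
    have b1 := CH_le_add hQ0 (fun e => F.T e.1) TP (fun e => e.2)
    obtain ⟨τ, hτ⟩ : ∃ τ : F.Ω × F.Ω → Fin (2 ^ (J - P)), τ = fun e =>
      ⟨F.T e.1 % 2 ^ (J - P), Nat.mod_lt _ (by positivity)⟩ := ⟨_, rfl⟩
    have b2 : CH Q (fun e => F.T e.1) (fun e => (TP e, e.2)) ≤ CH Q τ (fun e => (TP e, e.2)) := by
      refine CH_mono_left hQ0 fun e e' _ _ h => ?_
      obtain ⟨h2, h3⟩ := Prod.ext_iff.1 h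
      have h4 : TP e = TP e' := (Prod.ext_iff.1 h3).1
      have h5 : F.T e.1 % 2 ^ (J - P) = F.T e'.1 % 2 ^ (J - P) := by
        have h6 : τ e = τ e' := h2
        rw [hτ] at h6
        exact congrArg Fin.val h6
      rw [hTP] at h4
      have h7 : F.T e.1 / 2 ^ (J - P) = F.T e'.1 / 2 ^ (J - P) := h4
      change F.T e.1 = F.T e'.1
      rw [← Nat.div_add_mod (F.T e.1) (2 ^ (J - P)), ← Nat.div_add_mod (F.T e'.1) (2 ^ (J - P)),
        h5, h7]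
    have b3 := log_fin (J - P) hQ τ (fun e => (TP e, e.2))
    linarith
  -- the positions
  have e0' : ∀ ω, z₀' ((slam F W₁ ω).1, (slam F W₁ ω).2.1, (slam F W₁ ω).2.2 / 2 ^ (W₁ - W₀)) =
      z₀' (slam F W₀ ω) := fun ω => by rw [← slam_coarse F hw (hWP.trans hP) ω]
  have a8 := hE (V₀ × V₁) (fun x => (z₀ x, z₁ x))
    (fun s => (z₀' (s.1, s.2.1, s.2.2 / 2 ^ (W₁ - W₀)), z₁' s)) (fun ω hω => by
      rw [e0', ← hN.cls ω hω, h1 ω hω])
  obtain ⟨Y, hY⟩ : ∃ Y : F.Ω × F.Ω → ℕ × ((V₀ × V₁) × (ℕ × F.ζ)), Y = fun e =>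
    (F.T e.1, ((z₀' ((slam F W₁ e.2).1, (slam F W₁ e.2).2.1,
      (slam F W₁ e.2).2.2 / 2 ^ (W₁ - W₀)), z₁' (slam F W₁ e.2)), F.W e.2)) := ⟨_, rfl⟩
  have a8' : E₀ ≤ CH Q (fun e (i : Fin r) => F.X J e.1 (c i)) Y := by
    rw [hY]
    exact a8
  have hY' : ∀ e e', 0 < Q e → 0 < Q e' → Y e = Y e' → F.T e.1 = F.T e'.1 ∧
      z₀ (ptr F J e.1) = z₀ (ptr F J e'.1) ∧ z₁ (ptr F J e.2) = z₁ (ptr F J e'.2) ∧
      F.T1 W₀ e.1 = F.T1 W₀ e'.1 := by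
    intro e e' he he' h
    rw [hY] at h
    simp only [Prod.mk.injEq] at h
    obtain ⟨b1, ⟨b2, b3⟩, -⟩ := h
    rw [e0', e0'] at b2
    refine ⟨b1, ?_, ?_, ?_⟩
    · rw [(hslam e he).1, (hslam e' he').1]
      exact b2
    · rw [h1 _ (hsup e he).2.1, h1 _ (hsup e' he').2.1]
      exact b3
    · unfold Fam.T1
      rw [b1]
  have a9 : CH Q ng Y ≤ CH Q ng (fun e => (TP e, R e)) := by
    refine CH_mono_cond hQ0 fun e e' he he' h => ?_
    obtain ⟨b1, b2, b3, b4⟩ := hY' e e' he he' h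
    rw [hR, hTP]
    simp only
    rw [b1, b2, b3, b4]
  have a10 := CH_le_add hQ0 (fun e (i : Fin r) => F.X J e.1 (c i)) ng Y
  have a11 := ngx_cnt (Z := fun e => (ng e, Y e)) hQ hN hWJ hP hL hs hc hA
    (fun e e' he he' h => (hY' e e' he he' (Prod.ext_iff.1 h).2).1)
    (fun e e' he he' h => (hY' e e' he he' (Prod.ext_iff.1 h).2).2.1)
    (fun e e' _ _ h i hi => by
      have h2 : ng e = ng e' := (Prod.ext_iff.1 h).1
      have h3 := congrFun h2 ⟨i, hi⟩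
      rw [hng] at h3
      exact h3)
  -- the sum
  have a12 : ∑ i : Fin (r + 1), Real.log (N₀ i) =
      ((P : ℝ) - W₀) * Real.log 2 + (∑ i ∈ range r, ((P : ℝ) - g i)) * Real.log 2 := by
    rw [Fin.sum_univ_succ, Finset.sum_range, Finset.sum_mul]
    have b0 : Real.log (N₀ 0) = ((P : ℝ) - W₀) * Real.log 2 := by
      rw [hN₀]
      push_cast
      have b1 : wid W₀ g ((0 : Fin (r + 1)) : ℕ) = W₀ := by
        rw [Fin.val_zero]
        rfl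
      rw [Real.log_pow, b1, Nat.cast_sub (hw.trans hWP)]
    rw [b0]
    congr 1
    refine Finset.sum_congr rfl fun i _ => ?_
    rw [hN₀]
    push_cast
    have b1 := hc (i + 1) (by have := i.2; omega)
    have b2 : wid W₀ g ((i : ℕ) + 1) = g i := if_neg (Nat.succ_ne_zero _)
    rw [b2] at b1
    have b3 : wid W₀ g (i.succ : Fin (r + 1)) = g i := by
      rw [Fin.val_succ]
      exact b2
    rw [Real.log_pow, b3, Nat.cast_sub (by omega)]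
  have a13 : ∑ i : Fin (r + 1), Real.log ((2 ^ (P - wid W₀ g i) : ℕ) : ℝ) =
      ∑ i : Fin (r + 1), Real.log (N₀ i) := by
    rw [hN₀]
  have b1 : ((J - P : ℕ) : ℝ) = J - P := Nat.cast_sub hP
  have b2 : ((J - W₀ : ℕ) : ℝ) = J - W₀ := Nat.cast_sub hWJ
  rw [b1] at a7 a11
  rw [b2] at hT
  have b3 : (∑ i ∈ range r, ((P : ℝ) - g i)) * Real.log 2 =
      (∑ i ∈ range r, ((J : ℝ) - g i)) * Real.log 2 - r * (((J : ℝ) - P) * Real.log 2) := by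
    have : ∀ i ∈ range r, ((P : ℝ) - g i) = ((J : ℝ) - g i) - (J - P) := fun i _ => by ring
    rw [Finset.sum_congr rfl this, Finset.sum_sub_distrib, Finset.sum_const, card_range,
      nsmul_eq_mul]
    ring
  rw [a13, a12, b3]
  linarith

end ex

end Pool.JPN
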