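import Pool.Agent.H53.JM.FullE
import Pool.Agent.H53.JM.Nat

/-!
# Row R1: the inputs from the class

The law `Q` of pairs of `full_E`; `k` coordinates; the label `z₀'` closed at the window `w₀` (with
the chart `P`), the label `z₁'` closed at the window `w₁`.
`WW`: the time, the side information, the label `z₀'` and the cell of the first sample, and a branch.
`AA`: the label `z₁'` and the time of the second sample. `BB`: the label `z₁'` of the first sample.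
`inp_dc`, `inp_cnt`, `inp_fa`, `inp_fb`: the fields `dc`, `cnt`, `fa`, `fb` of the local theorem.
-/

set_option autoImplicit false

namespace Pool.JPN

open Finset Real MvPolynomial
open Pool.Agent.H49.Ent Pool.Agent.H32.Dense Pool.STK Pool.KA Pool.KSAT Pool.PB
  Pool.STAT Pool.GEN Pool.M3F Pool.KM7
open Pool.R1 (cv)

variable {m J k : ℕ} {F : Fam m J} {V₀ V₁ : Type}

/-- The side information of a pair. -/
noncomputable def WW (k : ℕ) (F : Fam m J) (c : ℕ → Fin m) (P : V₀ → ℕ → PN) (z₀ : PtT F → V₀)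
    (z₀' : LnT F → V₀) (g : ℕ → ℕ) (d w₀ : ℕ) {n₀ : ℕ} (br : F.Ω × F.Ω → Fin n₀)
    (e : F.Ω × F.Ω) : (ℕ × F.ζ) × (V₀ × ((Fin k → ℤ) × Fin n₀)) :=
  (F.W e.1, (z₀' (slam F w₀ e.1), (ce k F c P z₀ g d e.1, br e)))

/-- The label of the second sample, with its time. -/
def AA (F : Fam m J) (z₁' : LnT F → V₁) (w₁ : ℕ) (e : F.Ω × F.Ω) : V₁ × ℕ :=
  (z₁' (slam F w₁ e.2), F.T e.2)

/-- The label of the first sample. -/
def BB (F : Fam m J) (z₁' : LnT F → V₁) (w₁ : ℕ) (e : F.Ω × F.Ω) : V₁ := z₁' (slam F w₁ e.1)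

variable {c : ℕ → Fin m} {P : V₀ → ℕ → PN} {z₀ : PtT F → V₀} {z₀' : LnT F → V₀}
  {z₁ : PtT F → V₁} {z₁' : LnT F → V₁} {g : ℕ → ℕ} {d w₀ w₁ n₀ : ℕ} {br : F.Ω × F.Ω → Fin n₀}
  {A : F.Ω → Prop} {Q : F.Ω × F.Ω → ℝ}

theorem inp_dc (htri : ∀ v, TriN (P v)) (hA : ∀ e, 0 < Q e → A e.1)
    (h0 : ∀ ω, A ω → z₀ (ptr F J ω) = z₀' (slam F w₀ ω)) (X : ℕ) (t : Fin k → ℕ) :
    Det Q (fun e => ((fun (i : Fin k) => F.X J e.1 (c i)),
        WW k F c P z₀ z₀' g d w₀ br e))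
      (cv X (fun e => yc k F c P z₀ g d e.1) t) := by
  refine nat_dc (pr := Prod.fst) htri X t (fun e e' he he' h => ?_) fun e e' _ _ h => ?_
  · have h1 : z₀' (slam F w₀ e.1) = z₀' (slam F w₀ e'.1) :=
      (Prod.ext_iff.1 (Prod.ext_iff.1 h).2).1
    change z₀ (ptr F J e.1) = z₀ (ptr F J e'.1)
    rw [h0 _ (hA e he), h0 _ (hA e' he'), h1]
  · exact (Prod.ext_iff.1 (Prod.ext_iff.1 h).1).1

theorem inp_cnt (hQ : IsLaw Q) (htri : ∀ v, TriN (P v)) (hA : ∀ e, 0 < Q e → A e.1)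
    (h0 : ∀ ω, A ω → z₀ (ptr F J ω) = z₀' (slam F w₀ ω)) {X : ℕ} {t : Fin k → ℕ}
    (ht : ∀ i : Fin k, g i + d + t i * X ≤ J) :
    CH Q (fun e (i : Fin k) => F.X J e.1 (c i))
      (fun e => (WW k F c P z₀ z₀' g d w₀ br e, cv X (fun e => yc k F c P z₀ g d e.1) t e)) ≤
      (∑ i : Fin k, ((J : ℝ) - g i - d)) * Real.log 2 - (∑ i, (t i : ℝ)) * (X * Real.log 2) +
        k * Real.log 3 := by
  refine nat_cnt (pr := Prod.fst) hQ htri ht (fun e e' he he' h => ?_) (fun e e' _ _ h => ?_)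
    fun e e' _ _ h => ?_
  · have h1 : z₀' (slam F w₀ e.1) = z₀' (slam F w₀ e'.1) :=
      (Prod.ext_iff.1 (Prod.ext_iff.1 h).2).1
    change z₀ (ptr F J e.1) = z₀ (ptr F J e'.1)
    rw [h0 _ (hA e he), h0 _ (hA e' he'), h1]
  · exact (Prod.ext_iff.1 (Prod.ext_iff.1 h).1).1
  · exact (Prod.ext_iff.1 (Prod.ext_iff.1 (Prod.ext_iff.1 h).2).2).1

/-- **Fullness given the label of the second sample.** -/
theorem inp_fa (hQ : IsLaw Q) (hw : w₀ ≤ w₁) (hw₁ : w₁ ≤ J)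
    (hs : ∀ e, 0 < Q e → A e.1 ∧ A e.2 ∧ slam F w₀ e.1 = slam F w₀ e.2)
    (h0 : ∀ ω, A ω → z₀ (ptr F J ω) = z₀' (slam F w₀ ω))
    (h1 : ∀ ω, A ω → z₁ (ptr F J ω) = z₁' (slam F w₁ ω))
    (hb : ∀ ω, A ω → ∀ i < k, |ntc F c P z₀ ω i| ≤ 1 / 2 ^ g i) {E₀ : ℝ}
    (hE : ∀ (V : Type) (z : PtT F → V) (z' : LnT F → V),
      (∀ ω, A ω → z (ptr F J ω) = z' (slam F w₁ ω)) →
      E₀ ≤ CH Q (fun e (i : Fin k) => F.X J e.1 (c i))
        (fun e => (F.T e.1, (z' (slam F w₁ e.2), F.W e.2)))) :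
    E₀ - k * (d * Real.log 2 + Real.log 5) - Real.log n₀ ≤
      CH Q (fun e (i : Fin k) => F.X J e.1 (c i))
        (fun e => (AA F z₁' w₁ e, WW k F c P z₀ z₀' g d w₀ br e)) := by
  have e0 : ∀ ω, z₀' ((slam F w₁ ω).1, (slam F w₁ ω).2.1, (slam F w₁ ω).2.2 / 2 ^ (w₁ - w₀)) =
      z₀' (slam F w₀ ω) := fun ω => by rw [← slam_coarse F hw hw₁ ω]
  have h2 := hE (V₀ × V₁) (fun x => (z₀ x, z₁ x))
    (fun s => (z₀' (s.1, s.2.1, s.2.2 / 2 ^ (w₁ - w₀)), z₁' s)) (fun ω hω => by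
      rw [e0, h0 ω hω, h1 ω hω])
  refine nat_full (pr := Prod.fst) hQ br (fun e he => hb e.1 (hs e he).1) ?_ h2
  intro e e' he he' hz hc hbr
  simp only [Prod.mk.injEq] at hz
  obtain ⟨a1, ⟨a2, a3⟩, a4⟩ := hz
  rw [e0, e0] at a2
  have a5 := Prod.ext_iff.1 a4
  have a6 : F.T e.2 = F.T e'.2 := a5.1
  have a7 : F.Z e.2 = F.Z e'.2 := a5.2
  obtain ⟨b1, b2, b3⟩ := hs e he
  obtain ⟨b1', b2', b3'⟩ := hs e' he'
  have a8 : F.Z e.1 = F.Z e'.1 := by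
    have c1 : F.Z e.1 = F.Z e.2 := (Prod.ext_iff.1 (Prod.ext_iff.1 b3).2).1
    have c2 : F.Z e'.1 = F.Z e'.2 := (Prod.ext_iff.1 (Prod.ext_iff.1 b3').2).1
    rw [c1, c2, a7]
  refine Prod.ext (Prod.ext a3 a6) (Prod.ext (Prod.ext a1 a8) (Prod.ext ?_ (Prod.ext hc hbr)))
  change z₀' (slam F w₀ e.1) = z₀' (slam F w₀ e'.1)
  rw [b3, b3']
  exact a2

/-- **Fullness given the own label.** -/
theorem inp_fb (hQ : IsLaw Q) (hw : w₀ ≤ w₁) (hw₁ : w₁ ≤ J)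
    (hs : ∀ e, 0 < Q e → A e.1)
    (h0 : ∀ ω, A ω → z₀ (ptr F J ω) = z₀' (slam F w₀ ω))
    (h1 : ∀ ω, A ω → z₁ (ptr F J ω) = z₁' (slam F w₁ ω))
    (hb : ∀ ω, A ω → ∀ i < k, |ntc F c P z₀ ω i| ≤ 1 / 2 ^ g i) {E₀ : ℝ}
    (hE : ∀ (V : Type) (z : PtT F → V) (z' : LnT F → V),
      (∀ ω, A ω → z (ptr F J ω) = z' (slam F w₁ ω)) →
      E₀ ≤ CH Q (fun e (i : Fin k) => F.X J e.1 (c i))
        (fun e => (z' (slam F w₁ e.1), F.W e.1))) :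
    E₀ - k * (d * Real.log 2 + Real.log 5) - Real.log n₀ ≤
      CH Q (fun e (i : Fin k) => F.X J e.1 (c i))
        (fun e => (BB F z₁' w₁ e, WW k F c P z₀ z₀' g d w₀ br e)) := by
  have e0 : ∀ ω, z₀' ((slam F w₁ ω).1, (slam F w₁ ω).2.1, (slam F w₁ ω).2.2 / 2 ^ (w₁ - w₀)) =
      z₀' (slam F w₀ ω) := fun ω => by rw [← slam_coarse F hw hw₁ ω]
  have h2 := hE (V₀ × V₁) (fun x => (z₀ x, z₁ x))
    (fun s => (z₀' (s.1, s.2.1, s.2.2 / 2 ^ (w₁ - w₀)), z₁' s)) (fun ω hω => by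
      rw [e0, h0 ω hω, h1 ω hω])
  refine nat_full (pr := Prod.fst) hQ br (fun e he => hb e.1 (hs e he)) ?_ h2
  intro e e' _ _ hz hc hbr
  simp only [Prod.mk.injEq] at hz
  obtain ⟨⟨a2, a3⟩, a4⟩ := hz
  rw [e0, e0] at a2
  exact Prod.ext a3 (Prod.ext a4 (Prod.ext a2 (Prod.ext hc hbr)))

end Pool.JPN
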