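import Pool.Agent.H9.GEN.Dia
import Pool.Agent.H5.M3F.Wgt

/-!
# The chain of a good window with the target on the top

`own_pt`: at a good window `w`, in a greedy order, the chain of two-sided labels of all the
coordinates except the target has a small exponent; the label of the target on the top has the
precision of its threshold, or the precision `Q` if the threshold is larger, and it is visible.
-/

set_option autoImplicit false

namespace Pool.JPN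

open Finset Real MvPolynomial
open Pool.Agent.H49.Ent Pool.Agent.H32.Dense Pool.STK Pool.KA Pool.KSAT Pool.K2S Pool.PB Pool.S6C
open Pool.GEN
open Pool.LBT (ThrOf)
open Pool.ONE (tgs)
open Pool.CHT (TmH chsys bet tau Up1 Rc Pts Ptq gpt_of bas_ev)
open Pool.TOP (T1c T2c t1n)
open Pool.JTN (TgP jatn_pts)
open Pool.FRN (Gdy Wgd UpA tgP_of)

variable {m J : ℕ} {θ : ℝ} {S : PCl m} {P : List (Fin m) × Fin m → ℝ → ℝ → ℝ}

/-- **The chain of a good window**, with the target on the top. -/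
theorem own_pt {k : Fin m} {v : ℝ} {c : ℕ → Fin m} (h : Gdy P k v v c) (hne : S.Ne)
    (hP : ThrOf (chsys m θ) S P) (hθ : 0 < θ) (hS : TmH S) {Pt : ℝ → ℝ → ℝ}
    (hPt : ThrOf (tgs k) S (fun _ => Pt)) {α Q sg : ℝ} (hT1 : T1c S k α sg)
    (hT2 : T2c S k α Q sg) (hα : α ≤ 1) (hsgθ : sg + θ < 1) (hQ0 : 0 < Q) (hQ : Q ≤ sg)
    (hv : 0 < v) (hvα : v < α) (hvQ : v ≤ Q) (hwd : v ∈ Wgd P) (hm : 2 ≤ m) :
    ∀ ε : ℝ, 0 < ε → ∃ (K : ℕ) (K₁ : ℝ), 0 < K₁ ∧ Bas S (fun J F A => ∃ (B : F.Ω → Prop)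
      (e E : ℕ) (g : ℕ → ℕ) (G : PtT F → ℕ → MvPolynomial (Option (Fin m)) ℝ)
      (H : LnT F → ℕ → MvPolynomial (Option (Fin m)) ℝ), Sub B A ∧ Pe F.p A ≤ K₁ * Pe F.p B ∧
      (e : ℝ) ≤ ε * J ∧
      (E : ℝ) ≤ (sg - max (min (Pt v v) Q) (bet P c (m - 2) v v) + ε) * J ∧
      (∀ l < m - 1, |(g l : ℝ) - bet P c l v v * J| ≤ ε * J) ∧
      |(g (m - 1) : ℝ) - min (Pt v v) Q * J| ≤ ε * J ∧
      ChOK F c (m - 1) (fun _ => K) ⌊v * J⌋₊ ⌊v * J⌋₊ e g B G H ∧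
      ChOK F c (m - 1 + 1) (fun _ => K) ⌊v * J⌋₊ ⌊v * J⌋₊ E g B G H) := by
  have hv1 : v < 1 := hvα.trans_le hα
  have hPv : v ≤ Pt v v := hPt.low () v v hv.le le_rfl hv1.le
  have hsg : 0 ≤ sg := by linarith
  have hsg1 : sg < 1 := by linarith
  have hup : UpA P v v := Wgd.self hwd hv1
  have hbd := h.bd hne hP hθ hS hT1 hα hsg hsgθ hv le_rfl hvα
  have hθv : 0 < θ * v := mul_pos hθ hv
  obtain ⟨P₀, hP₀⟩ : ∃ P₀ : ℝ, P₀ = min (Pt v v) Q := ⟨_, rfl⟩
  have hP₀v : v ≤ P₀ := by rw [hP₀]; exact le_min hPv hvQ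
  have hP₀Q : P₀ ≤ Q := by rw [hP₀]; exact min_le_right _ _
  obtain ⟨bt₁, hbt₁⟩ : ∃ b : ℝ, b = bet P c (m - 2) v v := ⟨_, rfl⟩
  have hbt1 : bt₁ ≤ sg := by rw [hbt₁]; exact hbd (m - 2) (by omega)
  obtain ⟨μ, hμ⟩ : ∃ μ : ℝ, μ = max P₀ bt₁ := ⟨_, rfl⟩
  have hμsg : μ ≤ sg := by rw [hμ]; exact max_le (hP₀Q.trans hQ) hbt1
  have hr0 : (0 : ℝ) ≤ ((m - 1 : ℕ) : ℝ) := Nat.cast_nonneg _
  intro ε hε
  rw [← hP₀, ← hbt₁, ← hμ]
  obtain ⟨e, he⟩ : ∃ e : ℝ, e = min (θ * v / 4) (min ε (ε / (4 * (((m - 1 : ℕ) : ℝ) + 1)))) :=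
    ⟨_, rfl⟩
  have he0 : 0 < e := by
    rw [he]
    exact lt_min (by positivity) (lt_min hε (by positivity))
  have he1 : e ≤ θ * v / 4 := by rw [he]; exact min_le_left _ _
  have he3 : e ≤ ε := by
    rw [he]
    exact (min_le_right _ _).trans (min_le_left _ _)
  have he2 : e * (((m - 1 : ℕ) : ℝ) + 1) ≤ ε / 4 := by
    have h1 : e ≤ ε / (4 * (((m - 1 : ℕ) : ℝ) + 1)) := by
      rw [he]
      exact (min_le_right _ _).trans (min_le_right _ _)
    rw [le_div_iff₀ (by positivity)] at h1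
    linarith only [h1]
  have hptq : Ptq S P θ c (m - 1) 1 (fun _ => v) (fun _ => v) (fun _ => 0) (fun _ => θ * v / 2) := by
    refine Ptq.of_up hne hP hθ hS h.inj (fun _ _ => le_rfl) (fun _ _ => by positivity)
      (fun _ _ => hv) (fun _ _ => le_rfl) (fun _ _ => hv1) (fun _ _ => ?_)
      (fun _ _ i _ l _ => hup.rc hv1 c l i) (fun _ _ i _ => hup.up c i) (fun _ _ i hi => ?_)
      fun _ _ i hi l hl => ?_
    · linarith only [hθv]
    · have h4 := hbd i hi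
      have h5 : θ * v ≤ θ * 1 := mul_le_mul_of_nonneg_left hv1.le hθ.le
      linarith only [h4, h5, hsgθ]
    · rw [add_zero]
      exact h.tau hi hl
  have hall : ∀ i, i ≠ c (m - 1) → ∃ j < m - 1, c j = i := by
    rw [h.top]
    exact h.all
  have hT : TgP S c (m - 1) P₀ v v sg := by
    have hPt' : ThrOf (tgs (c (m - 1))) S (fun _ => Pt) := by rw [h.top]; exact hPt
    have hT1' : T1c S (c (m - 1)) α sg := by rw [h.top]; exact hT1
    have hT2' : T2c S (c (m - 1)) α Q sg := by rw [h.top]; exact hT2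
    rw [hP₀]
    exact tgP_of hne hP hθ hS hall hPt' hT1' hT2' hα hsgθ hQ0 hQ hv le_rfl hvα hup hwd
  have hj := jatn_pts hP hθ hS (c := c) (r := m - 1) (N := 1) h.inj (a := fun _ => v)
    (w := fun _ => v) (vs := fun _ => 0) (e₀ := fun _ => θ * v / 2) (e := fun _ => e)
    (E := fun _ => sg - μ + ε / 2) (sg := fun _ => sg) (P₀ := fun _ => P₀) (fun _ _ => le_rfl) hptq
    (fun _ _ => by rw [mul_zero]; exact he0) (fun _ _ => by linarith only [he1, hθv])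
    (fun _ _ => hP₀v) (fun _ _ => hT) (fun _ _ _ _ _ _ => le_rfl)
    (fun _ _ => by rw [add_zero]; linarith only [he2, hμsg, hε]) (fun _ _ => by
      rcases le_total bt₁ P₀ with h1 | h1
      · left
        rw [hμ, max_eq_left h1]
        linarith only [hε]
      · right
        refine ⟨by omega, ?_⟩
        have e1 : m - 1 - 1 = m - 2 := by omega
        rw [e1, ← hbt₁, hμ, max_eq_right h1]
        linarith only [hε])
  obtain ⟨K, d, δ, K₁, hK₁, hd, hb⟩ := hj (ε / 2) (by positivity)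
  obtain ⟨J₁, hJ₁⟩ := exists_nat_ge (2 / ε)
  refine ⟨K, K₁, hK₁, hb.mono J₁ ?_⟩
  rintro J hJ F A ⟨B, G, H, k1, k2, k3, k4⟩
  have hJ0 : (0 : ℝ) ≤ J := Nat.cast_nonneg J
  have hJ' : (J₁ : ℝ) ≤ J := by exact_mod_cast hJ
  have e1 : 2 / ε ≤ J := hJ₁.trans hJ'
  rw [div_le_iff₀ hε] at e1
  have hg : ∀ l ≤ m - 1, ∀ x : ℝ, 0 ≤ x → |(⌊(x - d l) * J⌋₊ : ℝ) - x * J| ≤ ε * J := by
    intro l hl x hx
    have h1 := (hd l hl).1
    have h2 := (hd l hl).2.1
    have h3 : d l * J ≤ ε / 2 * J := mul_le_mul_of_nonneg_right h2 hJ0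
    have h4 := Nat.lt_floor_add_one ((x - d l) * (J : ℝ))
    have h5 : (⌊(x - d l) * J⌋₊ : ℝ) ≤ x * J := by
      rcases le_or_gt 0 (x - d l) with h6 | h6
      · refine (Nat.floor_le (mul_nonneg h6 hJ0)).trans ?_
        exact mul_le_mul_of_nonneg_right (by linarith) hJ0
      · rw [Nat.floor_of_nonpos (mul_nonpos_of_nonpos_of_nonneg h6.le hJ0), Nat.cast_zero]
        positivity
    rw [abs_le]
    constructor
    · linarith only [h3, h4, e1]
    · have : 0 ≤ ε * (J : ℝ) := by positivity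
      linarith only [h5, this]
  have hβ0 : ∀ l, 0 ≤ bet P c l v v := fun l =>
    hv.le.trans (hP.low _ v v hv.le le_rfl hv1.le)
  refine ⟨B, ⌊e * J⌋₊, ⌊(sg - μ + ε / 2) * J⌋₊,
    fun l => ⌊((if l < m - 1 then bet P c l v v else P₀) - d l) * J⌋₊, G 0, H 0, k1, k2,
    (Nat.floor_le (by positivity)).trans (mul_le_mul_of_nonneg_right he3 hJ0), ?_,
    fun l hl => ?_, ?_, k4 0 one_pos, k3.ok 0 one_pos⟩
  · refine (Nat.floor_le (mul_nonneg (by linarith) hJ0)).trans ?_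
    exact mul_le_mul_of_nonneg_right (by linarith) hJ0
  · simp only [if_pos hl]
    exact hg l hl.le _ (hβ0 l)
  · simp only [if_neg (lt_irrefl (m - 1))]
    exact hg (m - 1) le_rfl P₀ (hv.le.trans hP₀v)

end Pool.JPN
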