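import Pool.Agent.H15.KM7.Pair
import Pool.Agent.H99.FRT.TwoH
import Pool.Agent.H5.M3F.KerC
import Pool.Agent.H45.EXA.Nbc

/-!
# The law of pairs

Two samples of a family with the same line, the same side information and the same window of length
`2 ^ (-w)`, conditionally independent. By the two-time theorem, the position of the first sample has
at least the entropy of the position of the second one, given the time of the first sample and any
information about the second one.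

`pair_gen`: for one family; `pair_class`, `full_pair`: in a class, without and with exactness.
-/

set_option autoImplicit false

namespace Pool.JPR

open Finset Real
open Pool.Agent.H49.Ent Pool.Agent.H32.Dense Pool.STK Pool.KA Pool.KSAT Pool.K2S Pool.PB
  Pool.GEN Pool.KM7 Pool.S6C Pool.M3F
open Pool.GRW (TmWn)

variable {m k J : ℕ}

/-- The two samples of a pair are on one line, with one window and one side information. -/
theorem pair_eq {F : Fam m J} {w : ℕ} {p : F.Ω → ℝ} (hp : IsLaw p) {e : F.Ω × F.Ω}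
    (he : 0 < P2 p (slam F w) e) :
    F.u e.1 = F.u e.2 ∧ F.d e.1 = F.d e.2 ∧ F.Z e.1 = F.Z e.2 ∧ F.T1 w e.1 = F.T1 w e.2 := by
  have h1 := ((P2_pos hp e).1 he).2.2
  have h2 := Prod.ext_iff.1 h1
  have h3 := Prod.ext_iff.1 h2.1
  have h4 := Prod.ext_iff.1 h2.2
  exact ⟨h3.1, h3.2, h4.1, h4.2⟩

/-- Conditional independence. -/
theorem pair_CH {Ω GT S : Type} [Fintype Ω] {p : Ω → ℝ} (hp : IsLaw p) (g : Ω → GT) (X : Ω → S) :
    CH (P2 p g) (fun e => X e.1) (fun e => e.2) = CH p X g := by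
  have h1 : CH (P2 p g) (fun e => X e.1) (fun e => (g e.1, e.2)) = CH p X g :=
    CH_dbl_1 (p := p) (b := g) hp.nonneg X (fun ω => ω)
  rw [← h1]
  refine CH_congr (P2_isLaw hp g).nonneg (fun _ _ _ _ h => (Prod.ext_iff.1 h).1)
    (fun _ _ _ _ h => (Prod.ext_iff.1 h).1) ?_ ?_
  · intro e e' he he' h
    refine Prod.ext ?_ h
    have h2 : e.2 = e'.2 := h
    change g e.1 = g e'.1
    rw [((P2_pos hp e).1 he).2.2, ((P2_pos hp e').1 he').2.2, h2]
  · intro e e' _ _ h
    exact (Prod.ext_iff.1 h).2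

/-- **The family of the second samples**, in the coordinates `c`. -/
noncomputable def prF (F : Fam m J) (w : ℕ) (c : Fin k → Fin m) : Fam k J where
  Ω := F.Ω × F.Ω
  ζ := F.ζ
  fin := inferInstance
  p := P2 F.p (slam F w)
  u := fun e i => F.u e.2 (c i)
  d := fun e i => F.d e.2 (c i)
  T := fun e => F.T e.2
  Z := fun e => F.Z e.2
  isLaw := P2_isLaw F.isLaw (slam F w)
  dir := fun e i => F.dir e.2 (c i)
  tim := fun e => F.tim e.2

/-- The time of the first sample in the window. -/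
def tau1 (F : Fam m J) (w : ℕ) (e : F.Ω × F.Ω) : Fin (2 ^ (J - w)) :=
  ⟨F.T e.1 % 2 ^ (J - w), Nat.mod_lt _ (by positivity)⟩

theorem tau1_T (F : Fam m J) (w : ℕ) {p : F.Ω → ℝ} (hp : IsLaw p) {e : F.Ω × F.Ω}
    (he : 0 < P2 p (slam F w) e) :
    F.T e.2 / 2 ^ (J - w) * 2 ^ (J - w) + (tau1 F w e : ℕ) = F.T e.1 := by
  obtain ⟨-, -, -, h⟩ := pair_eq hp he
  unfold Fam.T1 at h
  rw [← h]
  exact Nat.div_add_mod' (F.T e.1) (2 ^ (J - w))

theorem log_fin (n : ℕ) {E T : Type} [Fintype E] {q : E → ℝ} (hq : IsLaw q) (τ : E → Fin (2 ^ n))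
    (W : E → T) : CH q τ W ≤ (n : ℝ) * Real.log 2 := by
  refine (CH_le_card hq.nonneg hq.sum_one τ W (fun _ => univ)
    (fun _ _ => Finset.mem_univ _)).trans (le_of_eq ?_)
  rw [Ex_const hq.sum_one, Finset.card_univ, Fintype.card_fin]
  push_cast
  rw [Real.log_pow]

/-- The time of the first sample is nearly uniform given the second one. -/
theorem tau1_full (F : Fam m J) (w : ℕ) {h : ℝ} (hf : h ≤ CH F.p F.T (slam F w)) {T : Type}
    (K : F.Ω → T) : h ≤ CH (P2 F.p (slam F w)) (tau1 F w) (fun e => K e.2) := by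
  have hp := F.isLaw
  have hq := P2_isLaw hp (slam F w)
  have h1 : CH (P2 F.p (slam F w)) (tau1 F w) (fun e => e.2) =
      CH (P2 F.p (slam F w)) (fun e => F.T e.1) (fun e => e.2) := by
    refine CH_congr hq.nonneg ?_ ?_ (fun _ _ _ _ h => h) (fun _ _ _ _ h => h)
    · intro e e' he he' h
      have h1 := Prod.ext_iff.1 h
      have h2 : tau1 F w e = tau1 F w e' := h1.1
      have h3 : e.2 = e'.2 := h1.2
      change F.T e.1 = F.T e'.1
      rw [← tau1_T F w hp he, ← tau1_T F w hp he', h2, h3]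
    · intro e e' _ _ h
      have h2 : F.T e.1 = F.T e'.1 := (Prod.ext_iff.1 h).1
      unfold tau1
      simp only [h2]
  have h2 : CH (P2 F.p (slam F w)) (tau1 F w) (fun e => e.2) ≤
      CH (P2 F.p (slam F w)) (tau1 F w) (fun e => K e.2) :=
    CH_mono_cond hq.nonneg fun e e' _ _ h => by
      have h3 : e.2 = e'.2 := h
      change K e.2 = K e'.2
      rw [h3]
  rw [h1, pair_CH hp (slam F w) F.T] at h2
  exact hf.trans h2

/-- **Two samples, one family**: given the time of the first sample and any information about the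
second sample, the position of the first sample has at least the entropy of the position of the
second one. -/
theorem pair_gen (h : KP k) : ∀ ε > 0, ∃ θ > 0, ∃ J₀ : ℕ, ∀ J ≥ J₀, ∀ (m : ℕ) (F : Fam m J)
    (c : Fin k → Fin m) (w : ℕ), w ≤ J →
    ((J - w : ℕ) : ℝ) * Real.log 2 - θ * J ≤ CH F.p F.T (slam F w) →
    ∀ (κ : Type) (K : F.Ω → κ),
      CH F.p (fun ω i => F.X J ω (c i)) (fun ω => (K ω, F.W ω)) ≤
        CH (P2 F.p (slam F w)) (fun e i => F.X J e.1 (c i))
          (fun e => (F.T e.1, (K e.2, F.W e.2))) + ε * J := by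
  intro ε hε
  obtain ⟨θ, hθ, J₀, htwo⟩ := Pool.TWG.two_time_gen h (ε / 2) (by positivity)
  refine ⟨min θ (ε / 2), lt_min hθ (by positivity), J₀, fun J hJ m F c w hw hf κ K => ?_⟩
  have hJ0 : (0 : ℝ) ≤ J := Nat.cast_nonneg J
  have hp := F.isLaw
  have hq := P2_isLaw hp (slam F w)
  have hq0 := hq.nonneg
  obtain ⟨q, hqq⟩ : ∃ q, q = P2 F.p (slam F w) := ⟨_, rfl⟩
  have hsup : ∀ {e : F.Ω × F.Ω}, 0 < q e → 0 < P2 F.p (slam F w) e := fun he => by
    rwa [hqq] at he
  have hf1 : ((J - w : ℕ) : ℝ) * Real.log 2 - θ * J ≤ CH F.p F.T (slam F w) :=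
    (sub_le_sub_left (mul_le_mul_of_nonneg_right (min_le_left _ _) hJ0) _).trans hf
  have hf2 : ((J - w : ℕ) : ℝ) * Real.log 2 - ε / 2 * J ≤ CH F.p F.T (slam F w) :=
    (sub_le_sub_left (mul_le_mul_of_nonneg_right (min_le_right _ _) hJ0) _).trans hf
  have hmain := htwo J hJ (prF F w c) w hw κ (fun e => K e.2) (tau1 F w) (by
    have h1 := tau1_full F w hf1 (fun ω => (((fun i => F.u ω (c i), fun i => F.d ω (c i)) :
      (Fin k → ℝ) × (Fin k → ℝ)), (K ω, F.W ω)))
    exact h1)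
  -- the conclusion of the two-time theorem in terms of the pairs
  have e1 : CH (prF F w c).p (fun e => fl J (Pool.TWG.xT (prF F w c) w (tau1 F w) e))
      (fun e => (tau1 F w e, (K e.2, (prF F w c).W e))) =
      CH q (fun e i => F.X J e.1 (c i)) (fun e => (F.T e.1, (K e.2, F.W e.2))) := by
    rw [hqq]
    have hx : ∀ e : F.Ω × F.Ω, 0 < P2 F.p (slam F w) e →
        fl J (Pool.TWG.xT (prF F w c) w (tau1 F w) e) = fun i => F.X J e.1 (c i) := by
      intro e he
      obtain ⟨a1, a2, -, a4⟩ := pair_eq hp he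
      have a5 : Pool.TWG.tau (prF F w c) w (tau1 F w) e = F.T e.1 := tau1_T F w hp he
      have a6 : Pool.TWG.xT (prF F w c) w (tau1 F w) e = fun i => F.x e.1 (c i) := by
        funext i
        unfold Pool.TWG.xT
        rw [a5]
        change F.u e.2 (c i) + (F.T e.1 : ℝ) / 2 ^ J * F.d e.2 (c i) =
          F.u e.1 (c i) + (F.T e.1 : ℝ) / 2 ^ J * F.d e.1 (c i)
        rw [a1, a2]
      rw [a6]
      rfl
    refine CH_congr hq0 ?_ ?_ ?_ ?_
    · intro e e' he he' h
      have h1 := (Prod.ext_iff.1 h).1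
      change fl J (Pool.TWG.xT (prF F w c) w (tau1 F w) e) =
        fl J (Pool.TWG.xT (prF F w c) w (tau1 F w) e') at h1
      rw [hx e he, hx e' he'] at h1
      exact h1
    · intro e e' he he' h
      have h1 := (Prod.ext_iff.1 h).1
      change (fun i => F.X J e.1 (c i)) = (fun i => F.X J e'.1 (c i)) at h1
      change fl J (Pool.TWG.xT (prF F w c) w (tau1 F w) e) =
        fl J (Pool.TWG.xT (prF F w c) w (tau1 F w) e')
      rw [hx e he, hx e' he']
      exact h1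
    · intro e e' he he' h
      have h1 := Prod.ext_iff.1 h
      have h2 : tau1 F w e = tau1 F w e' := h1.1
      have h3 : (K e.2, F.W e.2) = (K e'.2, F.W e'.2) := h1.2
      have h4 : F.T e.2 = F.T e'.2 := (Prod.ext_iff.1 (Prod.ext_iff.1 h3).2).1
      refine Prod.ext ?_ h3
      change F.T e.1 = F.T e'.1
      rw [← tau1_T F w hp he, ← tau1_T F w hp he', h2, h4]
    · intro e e' _ _ h
      have h1 := Prod.ext_iff.1 h
      have h2 : F.T e.1 = F.T e'.1 := h1.1
      refine Prod.ext ?_ h1.2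
      change tau1 F w e = tau1 F w e'
      unfold tau1
      simp only [h2]
  have e2 : CH (prF F w c).p ((prF F w c).X J)
      (fun e => (tau1 F w e, (K e.2, (prF F w c).W e))) =
      CH q (fun e i => F.X J e.2 (c i)) (fun e => (tau1 F w e, (K e.2, F.W e.2))) := by
    rw [hqq]
    rfl
  rw [e1, e2] at hmain
  rw [← hqq]
  rw [← hqq] at hq hq0
  -- the entropy of the second sample
  have e3 : CH q (fun e i => F.X J e.2 (c i)) (fun e => (K e.2, F.W e.2)) =
      CH F.p (fun ω i => F.X J ω (c i)) (fun ω => (K ω, F.W ω)) := by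
    rw [hqq]
    exact (P2_snd hp (slam F w)).CH_eq (fun ω i => F.X J ω (c i)) (fun ω => (K ω, F.W ω))
  have c1 := CH_chain hq0 (fun e i => F.X J e.2 (c i)) (tau1 F w) (fun e => (K e.2, F.W e.2))
  have c2 := CH_chain hq0 (tau1 F w) (fun e i => F.X J e.2 (c i)) (fun e => (K e.2, F.W e.2))
  have c3 : CH q (fun e => ((fun i => F.X J e.2 (c i)), tau1 F w e)) (fun e => (K e.2, F.W e.2)) =
      CH q (fun e => (tau1 F w e, fun i => F.X J e.2 (c i))) (fun e => (K e.2, F.W e.2)) :=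
    Pool.MIC.CH_swl hq0 _ _ _
  have c4 : ((J - w : ℕ) : ℝ) * Real.log 2 - ε / 2 * J ≤
      CH q (tau1 F w) (fun e => ((fun i => F.X J e.2 (c i)), (K e.2, F.W e.2))) := by
    rw [hqq]
    exact tau1_full F w hf2 (fun ω => ((fun i => F.X J ω (c i)), (K ω, F.W ω)))
  have c5 := log_fin (J - w) hq (tau1 F w) (fun e => (K e.2, F.W e.2))
  have c6 : (0 : ℝ) ≤ ε / 2 * J := by positivity
  linarith

/-- **Two samples in a class**: the defect is small for every information about the second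
sample. -/
theorem pair_class (h : KP k) {S : PCl m} {w₀ : ℝ} (hw1 : w₀ ≤ 1)
    (htm : TmWn S w₀) (c : Fin k → Fin m) {ρ : ℝ} (hρ : 0 < ρ) :
    Bas S (fun J F A => 0 < Pe F.p A ∧ ∀ (κ : Type) (K : F.Ω → κ),
      CH (Pool.Agent.H49.Ent.cond F.p A True) (fun ω i => F.X J ω (c i))
        (fun ω => (K ω, F.W ω)) - ρ * J ≤
      CH (P2 (Pool.Agent.H49.Ent.cond F.p A True) (slam F ⌊w₀ * J⌋₊))
        (fun e i => F.X J e.1 (c i)) (fun e => (F.T e.1, (K e.2, F.W e.2)))) := by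
  obtain ⟨θ, hθ, J₀, hgen⟩ := pair_gen h ρ hρ
  refine (htm θ hθ).mono J₀ fun J hJ F A hh => ⟨hh.1, fun κ K => ?_⟩
  have hJ0 : (0 : ℝ) ≤ J := Nat.cast_nonneg J
  have hl := isLaw_cond F.isLaw hh.1
  have hwJ : ⌊w₀ * (J : ℝ)⌋₊ ≤ J := by
    have h1 : ⌊w₀ * (J : ℝ)⌋₊ ≤ ⌊(J : ℝ)⌋₊ :=
      Nat.floor_le_floor (by
        calc w₀ * (J : ℝ) ≤ 1 * J := mul_le_mul_of_nonneg_right hw1 hJ0
          _ = J := one_mul _)
    rwa [Nat.floor_natCast] at h1
  have h1 := hgen J hJ m (F.res A True hl) c ⌊w₀ * J⌋₊ hwJ (by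
    have h2 := hh.2 (J - ⌊w₀ * (J : ℝ)⌋₊) (by omega)
    have h3 : ⌊w₀ * (J : ℝ)⌋₊ + (J - ⌊w₀ * (J : ℝ)⌋₊) = J := by omega
    rw [h3] at h2
    refine h2.trans (le_of_eq ?_)
    have h4 : F.T1 J = F.T := by
      funext ω
      unfold Fam.T1
      rw [Nat.sub_self, pow_zero, Nat.div_one]
    rw [h4]
    rfl) κ K
  have h2 : CH (Pool.Agent.H49.Ent.cond F.p A True) (fun ω i => F.X J ω (c i))
        (fun ω => (K ω, F.W ω)) ≤
      CH (P2 (Pool.Agent.H49.Ent.cond F.p A True) (slam F ⌊w₀ * J⌋₊))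
        (fun e i => F.X J e.1 (c i)) (fun e => (F.T e.1, (K e.2, F.W e.2))) + ρ * J := h1
  linarith

/-- **(F)**: the position of the first sample is full given its time, the time of the second sample
and every label of the second sample which is closed at the window `w₁`. -/
theorem full_pair (h : KP k) {S : PCl m} {w₀ w₁ : ℝ} (hw1 : w₀ ≤ 1)
    (htm : TmWn S w₀) {c : Fin k → Fin m} {b : ℝ}
    (hex : ExvY S w₁ (fun J F ω (i : Fin k) => F.X J ω (c i)) b) {ρ : ℝ} (hρ : 0 < ρ) :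
    Bas S (fun J F A => 0 < Pe F.p A ∧ ∀ (V : Type) (z : PtT F → V) (z' : LnT F → V),
      (∀ ω, A ω → z (ptr F J ω) = z' (slam F ⌊w₁ * J⌋₊ ω)) →
      (b - ρ) * Real.log 2 * J ≤
      CH (P2 (Pool.Agent.H49.Ent.cond F.p A True) (slam F ⌊w₀ * J⌋₊))
        (fun e i => F.X J e.1 (c i))
        (fun e => (F.T e.1, (z' (slam F ⌊w₁ * J⌋₊ e.2), F.W e.2)))) := by
  have hl2 : 0 < Real.log 2 := Real.log_pos one_lt_two
  refine ((pair_class h hw1 htm c (ρ := ρ * Real.log 2) (by positivity)).and hex).mono 0 ?_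
  rintro J - F A ⟨⟨h1, h2⟩, h3⟩
  refine ⟨h1, fun V z z' hz => ?_⟩
  have h4 := h2 V (fun ω => z' (slam F ⌊w₁ * J⌋₊ ω))
  have h5 := h3 V z z' hz
  have h6 : (b - ρ) * Real.log 2 * J = b * Real.log 2 * J - ρ * Real.log 2 * J := by ring
  rw [h6]
  linarith

/-- The time of the first sample, given the second sample and the window. -/
theorem pair_time {S : PCl m} {w₀ : ℝ} (hw1 : w₀ ≤ 1) (htm : TmWn S w₀) {ρ : ℝ} (hρ : 0 < ρ) :
    Bas S (fun J F A => 0 < Pe F.p A ∧
      ((J - ⌊w₀ * J⌋₊ : ℕ) : ℝ) * Real.log 2 - ρ * J ≤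
      CH (P2 (Pool.Agent.H49.Ent.cond F.p A True) (slam F ⌊w₀ * J⌋₊))
        (fun e => F.T e.1) (fun e => e.2)) := by
  refine (htm ρ hρ).mono 0 fun J _ F A hh => ⟨hh.1, ?_⟩
  have hJ0 : (0 : ℝ) ≤ J := Nat.cast_nonneg J
  have hl := isLaw_cond F.isLaw hh.1
  have hwJ : ⌊w₀ * (J : ℝ)⌋₊ ≤ J := by
    have h1 : ⌊w₀ * (J : ℝ)⌋₊ ≤ ⌊(J : ℝ)⌋₊ :=
      Nat.floor_le_floor (by
        calc w₀ * (J : ℝ) ≤ 1 * J := mul_le_mul_of_nonneg_right hw1 hJ0
          _ = J := one_mul _)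
    rwa [Nat.floor_natCast] at h1
  have h2 := hh.2 (J - ⌊w₀ * (J : ℝ)⌋₊) (by omega)
  have h3 : ⌊w₀ * (J : ℝ)⌋₊ + (J - ⌊w₀ * (J : ℝ)⌋₊) = J := by omega
  have h4 : F.T1 J = F.T := by
    funext ω
    unfold Fam.T1
    rw [Nat.sub_self, pow_zero, Nat.div_one]
  rw [h3, h4] at h2
  rw [pair_CH hl (slam F ⌊w₀ * J⌋₊) F.T]
  exact h2

end Pool.JPR
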