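import Pool.Agent.H53.JM.Tri
import Pool.Agent.H53.JM.Inp

/-!
# Row R2: the counting fields from the class

`k + 1` coordinates; `lv` is the place of the falling level, the others are calm. `ys`: the positions
of the calm coordinates in the cell; `vf`: the natural coordinate of the falling level; `dgz`: the
digits of the calm positions. The fields `dc`, `cnt`, `dz`, `dy`, `ex`, `c2` of the data of row R2.
-/

set_option autoImplicit false

namespace Pool.JPN

open Finset Real MvPolynomial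
open Pool.Agent.H49.Ent Pool.Agent.H32.Dense Pool.STK Pool.KA Pool.KSAT Pool.PB
  Pool.STAT Pool.GEN Pool.M3F
open Pool.R1 (cv)

variable {m J k : ℕ} {F : Fam m J} {V : Type}

/-- The positions of the calm coordinates in the cell. -/
noncomputable def ys (F : Fam m J) (c : ℕ → Fin m) (P : V → ℕ → PN) (z₀ : PtT F → V)
    (g : ℕ → ℕ) (d : ℕ) (lv : Fin (k + 1)) (ω : F.Ω) (l : Fin k) : ℝ :=
  yc (k + 1) F c P z₀ g d ω (lv.succAbove l)

/-- The natural coordinate of the falling level, with the unit `2 ^ (-gv)`. -/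
noncomputable def vf (F : Fam m J) (c : ℕ → Fin m) (P : V → ℕ → PN) (z₀ : PtT F → V)
    (gv : ℕ) (lv : Fin (k + 1)) (off : ℝ) (ω : F.Ω) : ℝ := 2 ^ gv * ntc F c P z₀ ω lv - off

/-- The number of the digits of a calm position. -/
def jz (J : ℕ) (g : ℕ → ℕ) (d : ℕ) (lv : Fin (k + 1)) (l : Fin k) : ℕ :=
  J - g (lv.succAbove l) - d

/-- The digits of the calm positions. -/
noncomputable def dgz (F : Fam m J) (c : ℕ → Fin m) (P : V → ℕ → PN) (z₀ : PtT F → V)
    (g : ℕ → ℕ) (d : ℕ) (lv : Fin (k + 1)) (ω : F.Ω) (l : Fin k) : ℤ :=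
  ⌊(2 : ℝ) ^ jz J g d lv l * ys F c P z₀ g d lv ω l⌋

variable {c : ℕ → Fin m} {P : V → ℕ → PN} {z₀ : PtT F → V} {g : ℕ → ℕ} {d gv : ℕ}
  {lv : Fin (k + 1)}

theorem ys_nonneg (ω : F.Ω) (l : Fin k) : 0 ≤ ys F c P z₀ g d lv ω l := yc_nonneg ω _

theorem ys_lt (ω : F.Ω) (l : Fin k) : ys F c P z₀ g d lv ω l < 1 := yc_lt ω _

section ent

variable {E Γ : Type} {q : E → ℝ} {pr : E → F.Ω} {W : E → Γ} {X : ℕ}

/-- The calm digits determine the cells. -/
theorem tb_dc {cap : Fin k → ℕ} (hcap : ∀ l, cap l * X ≤ jz J g d lv l) :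
    Det q (fun e => (dgz F c P z₀ g d lv (pr e), W e))
      (cv X (fun e => ys F c P z₀ g d lv (pr e)) cap) := by
  intro e e' _ _ h
  have h1 : dgz F c P z₀ g d lv (pr e) = dgz F c P z₀ g d lv (pr e') := (Prod.ext_iff.1 h).1
  funext l
  exact Pool.R1.fl_nest (hcap l) (congrFun h1 l)

/-- Floors of near numbers. -/
theorem fl_near {a b : ℝ} {N : ℕ} (h : |a - b| ≤ N) : |((⌊a⌋ - ⌊b⌋ : ℤ) : ℝ)| ≤ N + 1 := by
  have a1 := Int.floor_le a
  have a2 := Int.lt_floor_add_one a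
  have b1 := Int.floor_le b
  have b2 := Int.lt_floor_add_one b
  rw [abs_le] at h ⊢
  push_cast
  constructor <;> linarith [h.1, h.2]

theorem log_cnt3 (D J : ℕ) :
    Real.log (2 * (((2 ^ (J - D) : ℕ) : ℝ) + 1) + 1) ≤
      ((J - D : ℕ) : ℝ) * Real.log 2 + Real.log 5 := by
  push_cast
  have p1 : (1 : ℝ) ≤ 2 ^ (J - D) := one_le_pow₀ (by norm_num)
  rw [← Real.log_pow, ← Real.log_mul (by positivity) (by norm_num)]
  refine Real.log_le_log (by positivity) ?_
  linarith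

/-- **The number of the calm digits in a cell.** -/
theorem tb_cnt [Fintype E] (hq : IsLaw q) {t : Fin k → ℕ} (ht : ∀ l, t l * X ≤ jz J g d lv l) :
    CH q (fun e => dgz F c P z₀ g d lv (pr e))
      (fun e => (W e, cv X (fun e => ys F c P z₀ g d lv (pr e)) t e)) ≤
      (∑ l, (jz J g d lv l : ℝ)) * Real.log 2 - (∑ l, (t l : ℝ)) * (X * Real.log 2) +
        k * Real.log 5 := by
  have h2 := Ful.ch_vec hq (fun e => dgz F c P z₀ g d lv (pr e))
    (fun e => (W e, cv X (fun e => ys F c P z₀ g d lv (pr e)) t e))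
    (fun i => if h : i < k then ((2 ^ (jz J g d lv ⟨i, h⟩ - t ⟨i, h⟩ * X) : ℕ) : ℝ) + 1 else 0) (by
    intro l e e' _ _ h _
    rw [dif_pos l.2]
    have h3 : cv X (fun e => ys F c P z₀ g d lv (pr e)) t e =
      cv X (fun e => ys F c P z₀ g d lv (pr e)) t e' := (Prod.ext_iff.1 h).2
    have h4 := Ful.fl_eq (congrFun h3 l)
    refine fl_near ?_
    obtain ⟨n, hn⟩ := Nat.exists_eq_add_of_le (ht l)
    have e1 : jz J g d lv l - t l * X = n := by omega
    rw [hn, Nat.add_sub_cancel_left, ← mul_sub, pow_add, abs_mul, abs_of_pos (by positivity :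
      (0 : ℝ) < 2 ^ (t l * X) * 2 ^ n)]
    rw [← mul_sub, abs_mul, abs_of_pos (by positivity : (0 : ℝ) < 2 ^ (t l * X))] at h4
    have p2 : (0 : ℝ) < 2 ^ n := by positivity
    push_cast
    have h5 := mul_le_mul_of_nonneg_left h4 p2.le
    linarith)
  refine h2.trans (le_of_eq_of_le (Finset.sum_range _) ?_)
  have h3 : ∀ l : Fin k, Real.log (2 * (if h : (l : ℕ) < k then
      ((2 ^ (jz J g d lv ⟨l, h⟩ - t ⟨l, h⟩ * X) : ℕ) : ℝ) + 1 else 0) + 1) ≤
      ((jz J g d lv l : ℝ) - t l * X) * Real.log 2 + Real.log 5 := by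
    intro l
    rw [dif_pos l.2]
    refine (log_cnt3 (t l * X) (jz J g d lv l)).trans (le_of_eq ?_)
    rw [Nat.cast_sub (ht l)]
    push_cast
    rfl
  refine (Finset.sum_le_sum fun l _ => h3 l).trans (le_of_eq ?_)
  rw [Finset.sum_add_distrib, ← Finset.sum_mul, Finset.sum_const, Finset.card_univ,
    Fintype.card_fin, nsmul_eq_mul, Finset.sum_sub_distrib, ← Finset.sum_mul]
  ring

/-- **The digits determine the positions.** -/
theorem tb_dy {off : E → ℝ} (htri : ∀ v, TriN (P v))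
    (hvW : ∀ e e', 0 < q e → 0 < q e' → W e = W e' →
      z₀ (ptr F J (pr e)) = z₀ (ptr F J (pr e')))
    (hTW : ∀ e e', 0 < q e → 0 < q e' → W e = W e' → F.T (pr e) = F.T (pr e'))
    (hoW : ∀ e e', 0 < q e → 0 < q e' → W e = W e' → off e = off e') :
    Det q (fun e => ((fun (i : Fin (k + 1)) => F.X J (pr e) (c i)), W e))
      (fun e => (ys F c P z₀ g d lv (pr e), vf F c P z₀ gv lv (off e) (pr e))) := by
  intro e e' he he' h
  have h1 := Prod.ext_iff.1 h
  have h2 : (fun (i : Fin (k + 1)) => F.X J (pr e) (c i)) =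
    fun (i : Fin (k + 1)) => F.X J (pr e') (c i) := h1.1
  have h3 : W e = W e' := h1.2
  have h4 : ∀ i : Fin (k + 1), ntc F c P z₀ (pr e) i = ntc F c P z₀ (pr e') i := fun i =>
    ntc_eq htri (hvW e e' he he' h3) (hTW e e' he he' h3) fun j hj =>
      congrFun h2 ⟨j, by have := i.2; omega⟩
  refine Prod.ext (funext fun l => ?_) ?_
  · change ys F c P z₀ g d lv (pr e) l = ys F c P z₀ g d lv (pr e') l
    unfold ys yc ce
    simp only [h4]
  · change vf F c P z₀ gv lv (off e) (pr e) = vf F c P z₀ gv lv (off e') (pr e')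
    unfold vf
    simp only [h4, hoW e e' he he' h3]

theorem tb_dz (htri : ∀ v, TriN (P v))
    (hvW : ∀ e e', 0 < q e → 0 < q e' → W e = W e' →
      z₀ (ptr F J (pr e)) = z₀ (ptr F J (pr e')))
    (hTW : ∀ e e', 0 < q e → 0 < q e' → W e = W e' → F.T (pr e) = F.T (pr e')) :
    Det q (fun e => ((fun (i : Fin (k + 1)) => F.X J (pr e) (c i)), W e))
      (fun e => dgz F c P z₀ g d lv (pr e)) := by
  intro e e' he he' h
  have h1 := tb_dy (g := g) (d := d) (gv := 0) (lv := lv) (off := fun _ => 0) (W := W) htri hvW hTW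
    (fun _ _ _ _ _ => rfl) e e' he he' h
  have h2 : ys F c P z₀ g d lv (pr e) = ys F c P z₀ g d lv (pr e') := (Prod.ext_iff.1 h1).1
  change dgz F c P z₀ g d lv (pr e) = dgz F c P z₀ g d lv (pr e')
  unfold dgz
  rw [h2]

variable [Fintype E]

/-- The general count with the calm cells and the falling level. -/
theorem tb_gen (hq : IsLaw q) {Θ : Type} (Z : E → Θ) (htri : ∀ v, TriN (P v)) {off : E → ℝ}
    (hvZ : ∀ e e', 0 < q e → 0 < q e' → Z e = Z e' →
      z₀ (ptr F J (pr e)) = z₀ (ptr F J (pr e')))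
    (hTZ : ∀ e e', 0 < q e → 0 < q e' → Z e = Z e' → F.T (pr e) = F.T (pr e'))
    (hoZ : ∀ e e', 0 < q e → 0 < q e' → Z e = Z e' → off e = off e')
    (hcZ : ∀ e e', 0 < q e → 0 < q e' → Z e = Z e' → ∀ l : Fin k,
      ce (k + 1) F c P z₀ g d (pr e) (lv.succAbove l) =
        ce (k + 1) F c P z₀ g d (pr e') (lv.succAbove l))
    {t : Fin k → ℕ} (hg : ∀ l : Fin k, g (lv.succAbove l) + d + t l ≤ J)
    (hcv : ∀ e e', 0 < q e → 0 < q e' → Z e = Z e' → ∀ l : Fin k,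
      ⌊(2 : ℝ) ^ t l * ys F c P z₀ g d lv (pr e) l⌋ =
        ⌊(2 : ℝ) ^ t l * ys F c P z₀ g d lv (pr e') l⌋)
    {j : ℕ} (hj : gv + j ≤ J) (φ : E → (Fin k → ℝ) → ℝ)
    (hφ : ∀ e e', 0 < q e → 0 < q e' → Z e = Z e' → φ e = φ e')
    (hφl : ∀ e, 0 < q e → ∀ y y' : Fin k → ℝ, (∀ l, lv.succAbove l < lv → y l = y' l) →
      φ e y = φ e y')
    (hv : ∀ e e', 0 < q e → 0 < q e' → Z e = Z e' →
      ⌊(2 : ℝ) ^ j * (vf F c P z₀ gv lv (off e) (pr e) - φ e (ys F c P z₀ g d lv (pr e)))⌋ =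
      ⌊(2 : ℝ) ^ j * (vf F c P z₀ gv lv (off e') (pr e') -
        φ e' (ys F c P z₀ g d lv (pr e')))⌋) :
    CH q (fun e (i : Fin (k + 1)) => F.X J (pr e) (c i)) Z ≤
      (∑ l : Fin k, ((J : ℝ) - g (lv.succAbove l) - d - t l)) * Real.log 2 +
        ((J : ℝ) - gv - j) * Real.log 2 + (k + 1) * Real.log 3 := by
  obtain ⟨tt, htt⟩ : ∃ tt : Fin (k + 1) → ℕ, tt = fun i => lv.insertNth (α := fun _ => ℕ) (gv + j)
    (fun l => g (lv.succAbove l) + d + t l) i := ⟨_, rfl⟩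
  have ht1 : tt lv = gv + j := by rw [htt]; simp
  have ht2 : ∀ l, tt (lv.succAbove l) = g (lv.succAbove l) + d + t l := by
    intro l
    rw [htt]
    simp
  obtain ⟨ψ, hψ⟩ : ∃ ψ : E → Fin (k + 1) → ℝ, ψ = fun e i => if i = lv then
    (off e + φ e (ys F c P z₀ g d lv (pr e))) / 2 ^ gv else 0 := ⟨_, rfl⟩
  have h1 := ntc_cnt (c := c) (P := P) (z₀ := z₀) (pr := pr) hq Z htri tt ψ hvZ hTZ ?_ ?_
  · refine h1.trans (le_of_eq ?_)
    rw [Fin.sum_univ_succAbove _ lv, ht1]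
    have e1 : ((J - (gv + j) : ℕ) : ℝ) = (J : ℝ) - gv - j := by
      rw [Nat.cast_sub hj]
      push_cast
      ring
    have e2 : ∀ l : Fin k, (((J - tt (lv.succAbove l) : ℕ) : ℝ) * Real.log 2 + Real.log 3) =
        ((J : ℝ) - g (lv.succAbove l) - d - t l) * Real.log 2 + Real.log 3 := by
      intro l
      rw [ht2, Nat.cast_sub (hg l)]
      push_cast
      ring
    rw [e1, Finset.sum_congr rfl fun l _ => e2 l, Finset.sum_add_distrib, ← Finset.sum_mul,
      Finset.sum_const, Finset.card_univ, Fintype.card_fin, nsmul_eq_mul]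
    ring
  · intro i e e' he he' hZ hX
    rw [hψ]
    by_cases hi : i = lv
    · simp only [if_pos hi]
      subst hi
      have h2 : φ e (ys F c P z₀ g d i (pr e)) = φ e' (ys F c P z₀ g d i (pr e')) := by
        rw [hφ e e' he he' hZ]
        refine hφl e' he' _ _ fun l hl => ?_
        have h3 : ntc F c P z₀ (pr e) (i.succAbove l) = ntc F c P z₀ (pr e') (i.succAbove l) :=
          ntc_eq htri (hvZ e e' he he' hZ) (hTZ e e' he he' hZ) fun j hj =>
            hX j (lt_of_le_of_lt hj hl)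
        unfold ys yc ce
        simp only [h3]
      rw [h2, hoZ e e' he he' hZ]
    · simp only [if_neg hi]
  · intro i e e' he he' hZ hX
    rw [hψ]
    rcases Fin.eq_self_or_eq_succAbove lv i with hi | ⟨l, rfl⟩
    · subst hi
      rw [ht1]
      simp only [if_true]
      have e1 : ∀ e : E, (2 : ℝ) ^ (gv + j) * (ntc F c P z₀ (pr e) i -
          (off e + φ e (ys F c P z₀ g d i (pr e))) / 2 ^ gv) =
          2 ^ j * (vf F c P z₀ gv i (off e) (pr e) - φ e (ys F c P z₀ g d i (pr e))) := by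
        intro e
        unfold vf
        rw [pow_add]
        field_simp
        ring
      rw [e1, e1]
      exact hv e e' he he' hZ
    · rw [ht2]
      simp only [if_neg (Fin.succAbove_ne lv l), sub_zero]
      rw [floor_add_digits (g (lv.succAbove l) + d) (t l),
        floor_add_digits (g (lv.succAbove l) + d) (t l)]
      have h3 : ⌊(2 : ℝ) ^ (g (lv.succAbove l) + d) * ntc F c P z₀ (pr e) (lv.succAbove l)⌋ =
          ⌊(2 : ℝ) ^ (g (lv.succAbove l) + d) * ntc F c P z₀ (pr e') (lv.succAbove l)⌋ :=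
        hcZ e e' he he' hZ l
      have h4 : ⌊(2 : ℝ) ^ t l * (2 ^ (g (lv.succAbove l) + d) *
          ntc F c P z₀ (pr e) (lv.succAbove l) -
          ⌊(2 : ℝ) ^ (g (lv.succAbove l) + d) * ntc F c P z₀ (pr e) (lv.succAbove l)⌋)⌋ =
          ⌊(2 : ℝ) ^ t l * (2 ^ (g (lv.succAbove l) + d) *
          ntc F c P z₀ (pr e') (lv.succAbove l) -
          ⌊(2 : ℝ) ^ (g (lv.succAbove l) + d) * ntc F c P z₀ (pr e') (lv.succAbove l)⌋)⌋ :=
        hcv e e' he he' hZ l
      rw [h3, ← h4, h3]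

/-- **The calm digits and the falling level determine the positions**, up to few values. -/
theorem tb_ex (hq : IsLaw q) (htri : ∀ v, TriN (P v)) {off : E → ℝ}
    (hvW : ∀ e e', 0 < q e → 0 < q e' → W e = W e' →
      z₀ (ptr F J (pr e)) = z₀ (ptr F J (pr e')))
    (hTW : ∀ e e', 0 < q e → 0 < q e' → W e = W e' → F.T (pr e) = F.T (pr e'))
    (hoW : ∀ e e', 0 < q e → 0 < q e' → W e = W e' → off e = off e')
    (hcW : ∀ e e', 0 < q e → 0 < q e' → W e = W e' → ∀ l : Fin k,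
      ce (k + 1) F c P z₀ g d (pr e) (lv.succAbove l) =
        ce (k + 1) F c P z₀ g d (pr e') (lv.succAbove l))
    (hg : ∀ l : Fin k, g (lv.succAbove l) + d ≤ J) {E₀ : ℕ} (hE : gv + E₀ = J) :
    CH q (fun e (i : Fin (k + 1)) => F.X J (pr e) (c i))
      (fun e => (⌊(2 : ℝ) ^ E₀ * vf F c P z₀ gv lv (off e) (pr e)⌋,
        (dgz F c P z₀ g d lv (pr e), W e))) ≤ (k + 1) * Real.log 3 := by
  have hz : ∀ l : Fin k, g (lv.succAbove l) + d + jz J g d lv l = J := by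
    intro l
    have := hg l
    unfold jz
    omega
  have hW : ∀ e e' : E, (⌊(2 : ℝ) ^ E₀ * vf F c P z₀ gv lv (off e) (pr e)⌋,
        (dgz F c P z₀ g d lv (pr e), W e)) =
      (⌊(2 : ℝ) ^ E₀ * vf F c P z₀ gv lv (off e') (pr e')⌋,
        (dgz F c P z₀ g d lv (pr e'), W e')) → W e = W e' := fun e e' h =>
    (Prod.ext_iff.1 (Prod.ext_iff.1 h).2).2
  refine (tb_gen (c := c) (P := P) (z₀ := z₀) (g := g) (d := d) (gv := gv) (lv := lv) (pr := pr) hq
    (fun e => (⌊(2 : ℝ) ^ E₀ * vf F c P z₀ gv lv (off e) (pr e)⌋,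
        (dgz F c P z₀ g d lv (pr e), W e))) htri (off := off)
    (fun e e' he he' h => hvW e e' he he' (hW e e' h))
    (fun e e' he he' h => hTW e e' he he' (hW e e' h))
    (fun e e' he he' h => hoW e e' he he' (hW e e' h))
    (fun e e' he he' h => hcW e e' he he' (hW e e' h))
    (t := jz J g d lv) (fun l => (hz l).le)
    (fun e e' _ _ h l => congrFun (Prod.ext_iff.1 (Prod.ext_iff.1 h).2).1 l)
    (j := E₀) hE.le (fun _ _ => 0) (fun _ _ _ _ _ => rfl) (fun _ _ _ _ _ => rfl)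
    (fun e e' _ _ h => by
      have h1 := (Prod.ext_iff.1 h).1
      simp only [sub_zero]
      exact h1)).trans (le_of_eq ?_)
  have e1 : ∀ l : Fin k, ((J : ℝ) - g (lv.succAbove l) - d - jz J g d lv l) = 0 := by
    intro l
    have h1 : ((g (lv.succAbove l) + d + jz J g d lv l : ℕ) : ℝ) = J := by rw [hz l]
    push_cast at h1
    linarith
  have e2 : ((J : ℝ) - gv - E₀) = 0 := by
    have h1 : ((gv + E₀ : ℕ) : ℝ) = J := by rw [hE]
    push_cast at h1
    linarith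
  rw [e2, Finset.sum_eq_zero fun l _ => e1 l]
  ring

/-- **The count with a representative.** -/
theorem tb_c2 (hq : IsLaw q) (htri : ∀ v, TriN (P v)) {off : E → ℝ}
    (hvW : ∀ e e', 0 < q e → 0 < q e' → W e = W e' →
      z₀ (ptr F J (pr e)) = z₀ (ptr F J (pr e')))
    (hTW : ∀ e e', 0 < q e → 0 < q e' → W e = W e' → F.T (pr e) = F.T (pr e'))
    (hoW : ∀ e e', 0 < q e → 0 < q e' → W e = W e' → off e = off e')
    (hcW : ∀ e e', 0 < q e → 0 < q e' → W e = W e' → ∀ l : Fin k,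
      ce (k + 1) F c P z₀ g d (pr e) (lv.succAbove l) =
        ce (k + 1) F c P z₀ g d (pr e') (lv.succAbove l))
    (hg : ∀ l : Fin k, g (lv.succAbove l) + d ≤ J) {E₀ : ℕ} (hE : gv + E₀ = J) {K : ℕ}
    {b : E → (Fin k → Fin (K + 1)) → ℝ}
    (hb : ∀ e, 0 < q e → ∀ y y' : Fin k → ℝ, (∀ l, lv.succAbove l < lv → y l = y' l) →
      Pool.JMN.ev (b e) y = Pool.JMN.ev (b e) y')
    {T : E → E} (hT : ∀ e, 0 < q e → 0 < q (T e) ∧ W (T e) = W e) {t : Fin k → ℕ}
    (ht : ∀ l, t l * X ≤ jz J g d lv l) {j : ℕ} (hj : j ≤ E₀) :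
    CH q (fun e (i : Fin (k + 1)) => F.X J (pr e) (c i))
      (fun e => (⌊(2 : ℝ) ^ j * (vf F c P z₀ gv lv (off e) (pr e) -
        Pool.JMN.ev (b (T e)) (ys F c P z₀ g d lv (pr e)))⌋,
        (T e, (W e, cv X (fun e => ys F c P z₀ g d lv (pr e)) t e)))) ≤
      (∑ l, (jz J g d lv l : ℝ)) * Real.log 2 + ((E₀ : ℝ) - j) * Real.log 2 -
        (∑ l, (t l : ℝ)) * (X * Real.log 2) + (k + 1) * Real.log 3 := by
  have hz : ∀ l : Fin k, g (lv.succAbove l) + d + jz J g d lv l = J := by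
    intro l
    have := hg l
    unfold jz
    omega
  obtain ⟨Z, hZ⟩ : ∃ Z : E → ℤ × (E × (Γ × (Fin k → ℤ))), Z = fun e =>
      (⌊(2 : ℝ) ^ j * (vf F c P z₀ gv lv (off e) (pr e) -
        Pool.JMN.ev (b (T e)) (ys F c P z₀ g d lv (pr e)))⌋,
        (T e, (W e, cv X (fun e => ys F c P z₀ g d lv (pr e)) t e))) := ⟨_, rfl⟩
  rw [← hZ]
  have h1 : ∀ e e', Z e = Z e' → ⌊(2 : ℝ) ^ j * (vf F c P z₀ gv lv (off e) (pr e) -
        Pool.JMN.ev (b (T e)) (ys F c P z₀ g d lv (pr e)))⌋ =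
        ⌊(2 : ℝ) ^ j * (vf F c P z₀ gv lv (off e') (pr e') -
        Pool.JMN.ev (b (T e')) (ys F c P z₀ g d lv (pr e')))⌋ ∧ T e = T e' ∧ W e = W e' ∧
        ∀ l, ⌊(2 : ℝ) ^ (t l * X) * ys F c P z₀ g d lv (pr e) l⌋ =
          ⌊(2 : ℝ) ^ (t l * X) * ys F c P z₀ g d lv (pr e') l⌋ := by
    intro e e' h
    rw [hZ] at h
    simp only [Prod.mk.injEq] at h
    exact ⟨h.1, h.2.1, h.2.2.1, fun l => congrFun h.2.2.2 l⟩
  refine (tb_gen (c := c) (P := P) (z₀ := z₀) (g := g) (d := d) (gv := gv) (lv := lv) (pr := pr) hq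
    Z htri (off := off)
    (fun e e' he he' h => hvW e e' he he' (h1 e e' h).2.2.1)
    (fun e e' he he' h => hTW e e' he he' (h1 e e' h).2.2.1)
    (fun e e' he he' h => hoW e e' he he' (h1 e e' h).2.2.1)
    (fun e e' he he' h => hcW e e' he he' (h1 e e' h).2.2.1)
    (t := fun l => t l * X) (fun l => by have := ht l; have := hz l; omega)
    (fun e e' _ _ h => (h1 e e' h).2.2.2)
    (j := j) (by omega) (fun e => Pool.JMN.ev (b (T e)))
    (fun e e' _ _ h => by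
      rw [(h1 e e' h).2.1])
    (fun e he => hb _ (hT e he).1)
    (fun e e' _ _ h => (h1 e e' h).1)).trans (le_of_eq ?_)
  have e1 : ∀ l : Fin k, ((J : ℝ) - g (lv.succAbove l) - d - ((t l * X : ℕ) : ℝ)) =
      (jz J g d lv l : ℝ) - t l * X := by
    intro l
    have h1 : ((g (lv.succAbove l) + d + jz J g d lv l : ℕ) : ℝ) = J := by rw [hz l]
    push_cast at h1 ⊢
    linarith
  have e2 : ((J : ℝ) - gv - j) = (E₀ : ℝ) - j := by
    have h1 : ((gv + E₀ : ℕ) : ℝ) = J := by rw [hE]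
    push_cast at h1
    linarith
  rw [e2, Finset.sum_congr rfl fun l _ => e1 l, Finset.sum_sub_distrib, ← Finset.sum_mul]
  ring

end ent

section ww

variable {V₀ : Type} {P₀ : V₀ → ℕ → PN} {zz : PtT F → V₀} {zz' : LnT F → V₀} {w₀ n₀ : ℕ}
  {br : F.Ω × F.Ω → Fin n₀} {A : F.Ω → Prop} {Q : F.Ω × F.Ω → ℝ}

/-- The world of row R1 determines the record, the time and the cell. -/
theorem ww_fields (hA : ∀ e, 0 < Q e → A e.1)
    (h0 : ∀ ω, A ω → zz (ptr F J ω) = zz' (slam F w₀ ω)) (e e' : F.Ω × F.Ω) (he : 0 < Q e)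
    (he' : 0 < Q e') (h : WW k F c P₀ zz zz' g d w₀ br e = WW k F c P₀ zz zz' g d w₀ br e') :
    zz (ptr F J e.1) = zz (ptr F J e'.1) ∧ F.T e.1 = F.T e'.1 ∧ F.W e.1 = F.W e'.1 ∧
      (∀ i : Fin k, ce k F c P₀ zz g d e.1 i = ce k F c P₀ zz g d e'.1 i) ∧ br e = br e' := by
  have a1 : F.W e.1 = F.W e'.1 := (Prod.ext_iff.1 h).1
  have a2 : zz' (slam F w₀ e.1) = zz' (slam F w₀ e'.1) := (Prod.ext_iff.1 (Prod.ext_iff.1 h).2).1
  have a3 : ce k F c P₀ zz g d e.1 = ce k F c P₀ zz g d e'.1 :=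
    (Prod.ext_iff.1 (Prod.ext_iff.1 (Prod.ext_iff.1 h).2).2).1
  have a4 : br e = br e' := (Prod.ext_iff.1 (Prod.ext_iff.1 (Prod.ext_iff.1 h).2).2).2
  refine ⟨?_, (Prod.ext_iff.1 a1).1, a1, fun i => congrFun a3 i, a4⟩
  rw [h0 _ (hA e he), h0 _ (hA e' he'), a2]

end ww

end Pool.JPN
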