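import Pool.Agent.H53.JM.Tdd

/-!
# The digits of the time in the natural cells of the pairs, in a class
-/

set_option autoImplicit false

namespace Pool.JPN

open Finset Real MvPolynomial
open Pool.Agent.H49.Ent Pool.Agent.H32.Dense Pool.STK Pool.KA Pool.KSAT Pool.K2S Pool.PB
  Pool.STAT Pool.STAT.CLO Pool.GEN Pool.M3F Pool.KM7 Pool.S6C
open Pool.GRW (TmWn)
open Pool.JPR (dens_sup)

/-- **The digits of the time in the natural cells, for the pairs of a class.** First part: the large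
cell. Second part: a small cell, the label may contain the line, the whole second sample, the time
of the window `W₁` and the index of the small cell. -/
theorem tdd_c {m : ℕ} (k K : ℕ) {S : PCl m} {w₀ w₁ : ℝ} (h0 : 0 ≤ w₀) (hw01 : w₀ < w₁)
    (hw1 : w₁ ≤ 1) (htm : TmWn S w₀) {C₁ : ℝ} (hC₁ : 1 ≤ C₁) {ρ : ℝ} (hρ : 0 < ρ) :
    Bas S (fun J F A => 0 < Pe F.p A ∧ ∀ (Q : F.Ω × F.Ω → ℝ), IsLaw Q →
      (∀ e, Q e ≤ C₁ * P2 (Pool.Agent.H49.Ent.cond F.p A True) (slam F ⌊w₀ * J⌋₊) e) →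
      ∀ (sg sx s P : ℕ) (L : ℝ) (c : ℕ → Fin m) (g : ℕ → ℕ) (V₀ : Type) (z₀ : PtT F → V₀)
      (z₀' : LnT F → V₀) (P₀ : V₀ → ℕ → PN), NLabW F c k ⌊w₀ * J⌋₊ sg g K L A z₀ z₀' P₀ →
      0 ≤ L → ⌊w₁ * J⌋₊ ≤ P → P ≤ J → 2 * (1 + ((k + 1 : ℕ) : ℝ) * L) ≤ 2 * 2 ^ s →
      (∀ i < k + 1, wid ⌊w₀ * J⌋₊ g i + s ≤ P) →
      (∀ (Γ : Type) (Z : F.Ω × F.Ω → Γ), (∀ e e', 0 < Q e → 0 < Q e' → e.2 = e'.2 →
        nidx (fun i : Fin (k + 1) => 2 ^ (P - wid ⌊w₀ * J⌋₊ g i))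
          (ngp F c k ⌊w₀ * J⌋₊ ⌊w₁ * J⌋₊ sx P z₀' P₀ e) =
        nidx (fun i : Fin (k + 1) => 2 ^ (P - wid ⌊w₀ * J⌋₊ g i))
          (ngp F c k ⌊w₀ * J⌋₊ ⌊w₁ * J⌋₊ sx P z₀' P₀ e') → Z e = Z e') →
        Real.log ((2 ^ (P - ⌊w₀ * J⌋₊) : ℕ) : ℝ) -
          CH Q (fun e => nrem (fun i : Fin (k + 1) => 2 ^ (P - wid ⌊w₀ * J⌋₊ g i))
            (ngp F c k ⌊w₀ * J⌋₊ ⌊w₁ * J⌋₊ sx P z₀' P₀ e) 0) Z ≤ ρ * J) ∧
      (∀ (dp : Fin (k + 1) → ℕ) (Δ : ℕ), ⌊w₁ * J⌋₊ ≤ ⌊w₀ * J⌋₊ + dp 0 →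
        (∀ i : Fin (k + 1), wid ⌊w₀ * J⌋₊ g i + dp i ≤ P) → (∀ i, dp i ≤ dp 0 + Δ) →
        ∀ (Γ : Type) (Z : F.Ω × F.Ω → Γ), (∀ e e', 0 < Q e → 0 < Q e' →
          slam F ⌊w₁ * J⌋₊ e.1 = slam F ⌊w₁ * J⌋₊ e'.1 → e.2 = e'.2 →
          nidx (fun i : Fin (k + 1) => 2 ^ (P - wid ⌊w₀ * J⌋₊ g i - dp i))
            (ngp F c k ⌊w₀ * J⌋₊ ⌊w₁ * J⌋₊ sx P z₀' P₀ e) =
          nidx (fun i : Fin (k + 1) => 2 ^ (P - wid ⌊w₀ * J⌋₊ g i - dp i))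
            (ngp F c k ⌊w₀ * J⌋₊ ⌊w₁ * J⌋₊ sx P z₀' P₀ e') → Z e = Z e') →
        Real.log ((2 ^ (P - ⌊w₀ * J⌋₊ - dp 0) : ℕ) : ℝ) -
          CH Q (fun e => nrem (fun i : Fin (k + 1) => 2 ^ (P - wid ⌊w₀ * J⌋₊ g i - dp i))
            (ngp F c k ⌊w₀ * J⌋₊ ⌊w₁ * J⌋₊ sx P z₀' P₀ e) 0) Z ≤
          ρ * J + k * (Δ * Real.log 2))) := by
  obtain ⟨C, hC, htd⟩ := tdd k K
  have hl2 : 0 < Real.log 2 := Real.log_pos one_lt_two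
  have hl1 : Real.log 2 ≤ 1 := by
    have := Real.log_two_lt_d9
    linarith
  have hk0 : (0 : ℝ) ≤ k := Nat.cast_nonneg k
  have hwd : 0 < w₁ - w₀ := by linarith
  obtain ⟨h₀, hh₀⟩ : ∃ h₀ : ℝ, h₀ = min (ρ / (8 * ((k : ℝ) + 1))) ((w₁ - w₀) * Real.log 2 / 2) :=
    ⟨_, rfl⟩
  have hh0 : 0 < h₀ := by rw [hh₀]; exact lt_min (by positivity) (by positivity)
  have hh1 : (k : ℝ) * h₀ ≤ ρ / 8 := by
    have h1 : h₀ ≤ ρ / (8 * ((k : ℝ) + 1)) := by rw [hh₀]; exact min_le_left _ _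
    rw [le_div_iff₀ (by positivity)] at h1
    linarith
  have hh2 : h₀ ≤ (w₁ - w₀) * Real.log 2 / 2 := by rw [hh₀]; exact min_le_right _ _
  obtain ⟨ρ', hρ'⟩ : ∃ ρ' : ℝ, ρ' = min (ρ / 8) (ρ * h₀ / (12 * ((k : ℝ) + 1) * C)) := ⟨_, rfl⟩
  have hρ0 : 0 < ρ' := by rw [hρ']; exact lt_min (by positivity) (by positivity)
  have hρ1 : ρ' ≤ ρ / 8 := by rw [hρ']; exact min_le_left _ _
  have hρ2 : 3 * k * C * ρ' ≤ ρ / 4 * h₀ := by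
    have h1 : ρ' ≤ ρ * h₀ / (12 * ((k : ℝ) + 1) * C) := by rw [hρ']; exact min_le_right _ _
    rw [le_div_iff₀ (by positivity)] at h1
    have h2 : 0 ≤ ρ' * C := by positivity
    linarith
  obtain ⟨c₁, hc₁⟩ : ∃ c₁ : ℝ, c₁ = ((k + 1 : ℕ) : ℝ) * Real.log 21 := ⟨_, rfl⟩
  have hc1 : 0 ≤ c₁ := by
    rw [hc₁]
    exact mul_nonneg (Nat.cast_nonneg _) (Real.log_nonneg (by norm_num))
  obtain ⟨J₁, hJ₁⟩ := exists_nat_ge (8 * (c₁ + k * Real.log (5 * C)) / ρ)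
  obtain ⟨J₂, hJ₂⟩ := exists_nat_ge (8 * (3 * k * C * (c₁ + 1)) / (ρ * h₀))
  obtain ⟨J₃, hJ₃⟩ := exists_nat_ge ((Real.log C + Real.log 2) / h₀)
  refine (dens_time (hw01.le.trans hw1) htm hC₁ hρ0).mono (J₁ + J₂ + J₃ + 1) ?_
  rintro J hJ F A ⟨hA, ht⟩
  refine ⟨hA, ?_⟩
  intro Q hQ hd sg sx s P L c g V₀ z₀ z₀' P₀ hN hL hWP hPJ hs hc
  have hJ0 : (0 : ℝ) ≤ J := Nat.cast_nonneg J
  have hJ1 : (1 : ℝ) ≤ J := by exact_mod_cast (by omega : 1 ≤ J)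
  have hQ0 := hQ.nonneg
  have j1 : c₁ + k * Real.log (5 * C) ≤ ρ / 8 * J := by
    have h1 : (J₁ : ℝ) ≤ J := by exact_mod_cast (by omega : J₁ ≤ J)
    have h2 := hJ₁.trans h1
    rw [div_le_iff₀ hρ] at h2
    linarith
  have j2 : 3 * k * C * (c₁ + 1) ≤ ρ / 8 * J * h₀ := by
    have h1 : (J₂ : ℝ) ≤ J := by exact_mod_cast (by omega : J₂ ≤ J)
    have h2 := hJ₂.trans h1
    rw [div_le_iff₀ (by positivity)] at h2
    linarith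
  have j3 : Real.log C + Real.log 2 ≤ h₀ * J := by
    have h1 : (J₃ : ℝ) ≤ J := by exact_mod_cast (by omega : J₃ ≤ J)
    have h2 := hJ₃.trans h1
    rw [div_le_iff₀ hh0] at h2
    linarith
  have hl := isLaw_cond F.isLaw hA
  have hpp : ∀ e, 0 < Q e → 0 < P2 (Pool.Agent.H49.Ent.cond F.p A True)
      (slam F ⌊w₀ * J⌋₊) e := by
    intro e he
    have h1 := hd e
    by_contra hcon
    push Not at hcon
    have h2 : C₁ * P2 (Pool.Agent.H49.Ent.cond F.p A True) (slam F ⌊w₀ * J⌋₊) e ≤ 0 :=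
      mul_nonpos_of_nonneg_of_nonpos (by linarith) hcon
    linarith
  have hsup : ∀ e, 0 < Q e → A e.1 ∧ A e.2 ∧ slam F ⌊w₀ * J⌋₊ e.1 = slam F ⌊w₀ * J⌋₊ e.2 := by
    intro e he
    obtain ⟨c1, c2, c3⟩ := (P2_pos hl e).1 (hpp e he)
    exact ⟨of_eq_true ((cond_pos_iff F.isLaw.nonneg A True e.1).1 c1).2,
      of_eq_true ((cond_pos_iff F.isLaw.nonneg A True e.2).1 c2).2, c3⟩
  have hTm := ht Q hQ hd
  have hA1 : ∀ e, 0 < Q e → A e.1 := fun e he => (hsup e he).1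
  have hsl : ∀ e, 0 < Q e → slam F ⌊w₀ * J⌋₊ e.1 = slam F ⌊w₀ * J⌋₊ e.2 :=
    fun e he => (hsup e he).2.2
  have hW01 : ⌊w₀ * (J : ℝ)⌋₊ ≤ ⌊w₁ * (J : ℝ)⌋₊ :=
    Nat.floor_le_floor (mul_le_mul_of_nonneg_right hw01.le hJ0)
  constructor
  · intro Γ Z hZ
    have h1 := tdb (sx := sx) hQ hN hW01 hWP hPJ hL hs hc hA1 hsl hTm (Z := fun e => e.2)
      (fun e e' _ _ h => h)
    have h2 : CH Q (fun e => nrem (fun i : Fin (k + 1) => 2 ^ (P - wid ⌊w₀ * J⌋₊ g i))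
        (ngp F c k ⌊w₀ * J⌋₊ ⌊w₁ * J⌋₊ sx P z₀' P₀ e) 0) (fun e => (e.2,
        nidx (fun i : Fin (k + 1) => 2 ^ (P - wid ⌊w₀ * J⌋₊ g i))
          (ngp F c k ⌊w₀ * J⌋₊ ⌊w₁ * J⌋₊ sx P z₀' P₀ e))) ≤
        CH Q (fun e => nrem (fun i : Fin (k + 1) => 2 ^ (P - wid ⌊w₀ * J⌋₊ g i))
        (ngp F c k ⌊w₀ * J⌋₊ ⌊w₁ * J⌋₊ sx P z₀' P₀ e) 0) Z := by
      refine CH_mono_cond hQ0 fun e e' he he' h => ?_
      obtain ⟨h3, h4⟩ := Prod.ext_iff.1 h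
      exact hZ e e' he he' h3 h4
    have h3 : ρ' * (J : ℝ) ≤ ρ / 8 * J := mul_le_mul_of_nonneg_right hρ1 hJ0
    have h4 : 0 ≤ (k : ℝ) * Real.log (5 * C) := mul_nonneg hk0 (Real.log_nonneg (by linarith))
    have h5 : 0 ≤ ρ * J := by positivity
    rw [← hc₁] at h1
    linarith
  · intro dp Δ hd0 hdp hΔ Γ Z hZ
    have hWr0 : ((⌊w₀ * (J : ℝ)⌋₊ : ℕ) : ℝ) ≤ w₀ * J := Nat.floor_le (by positivity)
    have hWr1 : w₁ * (J : ℝ) < ((⌊w₁ * (J : ℝ)⌋₊ : ℕ) : ℝ) + 1 := Nat.lt_floor_add_one _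
    have hWPr : ((⌊w₁ * (J : ℝ)⌋₊ : ℕ) : ℝ) ≤ P := by exact_mod_cast hWP
    have hCh : C * Real.exp (h₀ * J) ≤ ((2 ^ (P - ⌊w₀ * (J : ℝ)⌋₊) : ℕ) : ℝ) := by
      have e1 : ((2 ^ (P - ⌊w₀ * (J : ℝ)⌋₊) : ℕ) : ℝ) =
          Real.exp (((P : ℝ) - ⌊w₀ * (J : ℝ)⌋₊) * Real.log 2) := by
        rw [← Nat.cast_sub (by omega : ⌊w₀ * (J : ℝ)⌋₊ ≤ P), Real.exp_nat_mul,
          Real.exp_log two_pos]
        push_cast
        rfl
      have e2 : C = Real.exp (Real.log C) := (Real.exp_log (by linarith)).symm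
      rw [e1]
      nth_rewrite 1 [e2]
      rw [← Real.exp_add]
      refine Real.exp_le_exp.2 ?_
      have h1 : (w₁ - w₀) * J - 1 ≤ (P : ℝ) - ⌊w₀ * (J : ℝ)⌋₊ := by
        linarith
      have h2 := mul_le_mul_of_nonneg_right h1 hl2.le
      have h3 := mul_le_mul_of_nonneg_right hh2 hJ0
      linarith
    have h1 := htd (sx := sx) hQ hN hW01 hWP hPJ hL hs hc hA1 hsl hTm (dp := dp) (Δ := Δ)
      (Dm := J) hd0 hdp hΔ (fun i => by have := hdp i; omega) (h := h₀ * J) (by positivity) hCh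
    have h2 : CH Q (fun e => nrem (fun i : Fin (k + 1) => 2 ^ (P - wid ⌊w₀ * J⌋₊ g i - dp i))
        (ngp F c k ⌊w₀ * J⌋₊ ⌊w₁ * J⌋₊ sx P z₀' P₀ e) 0)
        (fun e => ((slam F ⌊w₁ * J⌋₊ e.1, e.2),
        nidx (fun i : Fin (k + 1) => 2 ^ (P - wid ⌊w₀ * J⌋₊ g i - dp i))
          (ngp F c k ⌊w₀ * J⌋₊ ⌊w₁ * J⌋₊ sx P z₀' P₀ e))) ≤
        CH Q (fun e => nrem (fun i : Fin (k + 1) => 2 ^ (P - wid ⌊w₀ * J⌋₊ g i - dp i))
        (ngp F c k ⌊w₀ * J⌋₊ ⌊w₁ * J⌋₊ sx P z₀' P₀ e) 0) Z := by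
      refine CH_mono_cond hQ0 fun e e' he he' h => ?_
      obtain ⟨h3, h4⟩ := Prod.ext_iff.1 h
      obtain ⟨h5, h6⟩ := Prod.ext_iff.1 h3
      exact hZ e e' he he' h5 h6 h4
    rw [← hc₁] at h1
    -- the numbers
    have n1 : Real.log (2 * (C * Real.exp (h₀ * J) * 2 ^ Δ + 1) + 1) ≤
        Real.log (5 * C) + h₀ * J + Δ * Real.log 2 := by
      have e1 : (1 : ℝ) ≤ Real.exp (h₀ * J) := Real.one_le_exp (by positivity)
      have e2 : (1 : ℝ) ≤ 2 ^ Δ := one_le_pow₀ (by norm_num)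
      have e3 : 1 ≤ C * Real.exp (h₀ * J) * 2 ^ Δ := by
        exact one_le_mul_of_one_le_of_one_le (one_le_mul_of_one_le_of_one_le hC e1) e2
      have e4 : Real.log (5 * C) + h₀ * J + Δ * Real.log 2 =
          Real.log (5 * C * Real.exp (h₀ * J) * 2 ^ Δ) := by
        have p1 : (0 : ℝ) < 5 * C := by positivity
        rw [Real.log_mul (x := 5 * C * Real.exp (h₀ * J)) (by positivity) (by positivity),
          Real.log_mul (x := 5 * C) p1.ne' (Real.exp_pos _).ne', Real.log_exp, Real.log_pow]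
      rw [e4]
      refine Real.log_le_log (by positivity) ?_
      linarith
    have n2 : Real.log (2 * 2 ^ J + 1) ≤ 3 * (J : ℝ) := by
      have e1 : (1 : ℝ) ≤ 2 ^ J := one_le_pow₀ (by norm_num)
      have e2 : Real.log (2 * 2 ^ J + 1) ≤ Real.log (2 ^ (J + 2)) := by
        refine Real.log_le_log (by positivity) ?_
        rw [pow_add]
        linarith
      rw [Real.log_pow] at e2
      push_cast at e2
      have e3 : ((J : ℝ) + 2) * Real.log 2 ≤ (J + 2) * 1 :=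
        mul_le_mul_of_nonneg_left hl1 (by linarith)
      linarith
    have n3 : (k : ℝ) * (C * (ρ' * J + c₁ + 1) / (h₀ * J) * Real.log (2 * 2 ^ J + 1)) ≤
        ρ / 4 * J + ρ / 8 * J := by
      have e0 : 0 ≤ C * (ρ' * J + c₁ + 1) / (h₀ * J) := by positivity
      have e1 := mul_le_mul_of_nonneg_left (mul_le_mul_of_nonneg_left n2 e0) hk0
      have e2 : (k : ℝ) * (C * (ρ' * J + c₁ + 1) / (h₀ * J) * (3 * J)) =
          (3 * k * C * ρ' * J + 3 * k * C * (c₁ + 1)) / h₀ := by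
        have : (J : ℝ) ≠ 0 := by linarith
        field_simp
        ring
      rw [e2] at e1
      refine e1.trans ?_
      rw [div_le_iff₀ hh0]
      have e3 := mul_le_mul_of_nonneg_right hρ2 hJ0
      linarith
    have n4 : (k : ℝ) * Real.log (2 * (C * Real.exp (h₀ * J) * 2 ^ Δ + 1) + 1) ≤
        k * Real.log (5 * C) + ρ / 8 * J + k * (Δ * Real.log 2) := by
      have e1 := mul_le_mul_of_nonneg_left n1 hk0
      have e2 := mul_le_mul_of_nonneg_right hh1 hJ0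
      linarith
    have n5 : ρ' * (J : ℝ) ≤ ρ / 8 * J := mul_le_mul_of_nonneg_right hρ1 hJ0
    have n6 : (k : ℝ) * (Real.log (2 * (C * Real.exp (h₀ * J) * 2 ^ Δ + 1) + 1) +
        C * (ρ' * J + c₁ + 1) / (h₀ * J) * Real.log (2 * 2 ^ J + 1)) =
        k * Real.log (2 * (C * Real.exp (h₀ * J) * 2 ^ Δ + 1) + 1) +
        k * (C * (ρ' * J + c₁ + 1) / (h₀ * J) * Real.log (2 * 2 ^ J + 1)) := by ring
    rw [n6] at h1
    have n7 : 0 ≤ ρ * J := by positivity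
    linarith

end Pool.JPN
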