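import Pool.Agent.H53.JM.Fug
import Pool.Agent.H81.JM.Vel

/-!
# The digits of the time in the natural cells of the pairs

`CH_few`: few values on a large event. `vel_idx`: the cells met by a line of bounded natural
velocity. `tdb`: the digits of the time in the large cell. `tdd`: the digits of the time in a small
cell, given the line, the second sample, the time of the window `W₁` and the index of the small
cell.
-/

set_option autoImplicit false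

namespace Pool.JPN

open Finset Real MvPolynomial
open Pool.Agent.H49.Ent Pool.Agent.H32.Dense Pool.STK Pool.KA Pool.KSAT Pool.K2S Pool.PB
  Pool.STAT Pool.STAT.CLO Pool.GEN Pool.M3F Pool.KM7 Pool.S6C
open Pool.GRW (TmWn)
open Pool.JPR (tau1 tau1_T tau1_full tm_ful dens_full dens_sup log_fin full_pair pair_time)
open Pool.GEO (gsy gsy_succ gsy_deg xte tmw lna lnb xte_dig xte_line)
open Pool.IEN (ms ms_nonneg)
open Pool.JMS (Vel zln eval_zln line_time rpos_time vel_ev)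

/-- **Few values on a large event.** -/
theorem CH_few {Ω T : Type} [Fintype Ω] {d : ℕ} {p : Ω → ℝ} (hp : IsLaw p) (X : Ω → Fin d → ℤ)
    (W : Ω → T) (E : Ω → Prop) {a b : ℝ} (ha : 0 ≤ a)
    (h1 : ∀ ω ω', 0 < p ω → 0 < p ω' → W ω = W ω' → E ω → ∀ i, |((X ω i - X ω' i : ℤ) : ℝ)| ≤ a)
    (h2 : ∀ ω ω', 0 < p ω → 0 < p ω' → W ω = W ω' → ∀ i, |((X ω i - X ω' i : ℤ) : ℝ)| ≤ b) :
    CH p X W ≤ d * (Real.log (2 * a + 1) + ms p (fun ω => ¬ E ω) * Real.log (2 * b + 1)) := by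
  classical
  have h3 := CH_le_vec hp.nonneg hp.sum_one X W (fun ω => if E ω then a else b)
    (fun ω ω' hω hω' hW i => by
      by_cases hE : E ω
      · simp only [if_pos hE]
        exact h1 ω ω' hω hω' hW hE i
      · simp only [if_neg hE]
        exact h2 ω ω' hω hω' hW i)
  refine h3.trans (mul_le_mul_of_nonneg_left ?_ (Nat.cast_nonneg d))
  have la : 0 ≤ Real.log (2 * a + 1) := Real.log_nonneg (by linarith)
  have h4 : Pool.Agent.H32.Dense.Ex p (fun ω => Real.log (2 * (if E ω then a else b) + 1)) ≤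
      Pool.Agent.H32.Dense.Ex p (fun ω => Real.log (2 * a + 1) +
        (if ¬ E ω then 1 else 0) * Real.log (2 * b + 1)) := by
    refine Ex_mono hp.nonneg fun ω _ => ?_
    by_cases hE : E ω
    · rw [if_pos hE, if_neg (not_not.2 hE)]
      linarith
    · rw [if_neg hE, if_pos hE]
      linarith
  refine h4.trans (le_of_eq ?_)
  rw [Ex_add, Ex_const hp.sum_one]
  congr 1
  unfold Pool.Agent.H32.Dense.Ex ms
  rw [Finset.sum_mul]
  refine Finset.sum_congr rfl fun ω _ => ?_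
  by_cases hE : E ω
  · simp only [hE, not_true_eq_false, if_false, zero_mul, mul_zero]
  · simp only [hE, not_false_eq_true, if_true, one_mul]

section vel

variable {k : ℕ} {M : ℕ} {N₀ N₂ D : Fin (k + 1) → ℕ}
  {G : Fin (k + 1) → MvPolynomial (Fin (k + 1)) ℝ} {b : Fin (k + 1) → ℤ}
  {la lb y y' : Fin (k + 1) → ℝ}

/-- **The cells met by a line of bounded natural velocity.** -/
theorem vel_idx (hM : 1 ≤ M) (hN₂ : ∀ i, 1 ≤ N₂ i) (hD : ∀ i, 1 ≤ D i)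
    (hN₀ : ∀ i, N₀ i = D i * N₂ i) (hG : G 0 = 0)
    (ht : ((ndg M G y 0 : ℤ) : ℝ) = M * y 0) (ht' : ((ndg M G y' 0 : ℤ) : ℝ) = M * y' 0)
    (hl : ∀ l, y l = la l + y 0 * lb l) (hl' : ∀ l, y' l = la l + y' 0 * lb l)
    (hb : nidx N₀ (ndg M G y) = b) (hb' : nidx N₀ (ndg M G y') = b) {V : ℝ}
    (hV : Vel V M N₀ G b la lb) (h0 : nidx N₂ (ndg M G y) 0 = nidx N₂ (ndg M G y') 0)
    (i : Fin k) :
    |((nidx N₂ (ndg M G y) i.succ - nidx N₂ (ndg M G y') i.succ : ℤ) : ℝ)| ≤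
      V * ((D i.succ : ℝ) / D 0) + 1 := by
  have hM0 : (0 : ℝ) < M := by exact_mod_cast hM
  have hD0 : ∀ i, (0 : ℝ) < D i := fun i => by exact_mod_cast hD i
  have hN20 : ∀ i, (0 : ℝ) < N₂ i := fun i => by exact_mod_cast hN₂ i
  have hN1 : ∀ i, 1 ≤ N₀ i := fun i => by rw [hN₀]; exact Nat.mul_pos (hD i) (hN₂ i)
  have hN00 : ∀ i, (0 : ℝ) < N₀ i := fun i => by exact_mod_cast hN1 i
  have hN0r : ∀ i, (N₀ i : ℝ) = D i * N₂ i := fun i => by rw [hN₀]; push_cast; rfl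
  -- the relative times
  obtain ⟨τ, hτ⟩ : ∃ τ, τ = rpos M N₀ G b y 0 := ⟨_, rfl⟩
  obtain ⟨τ', hτ'⟩ : ∃ τ', τ' = rpos M N₀ G b y' 0 := ⟨_, rfl⟩
  have e1 : τ = (nrem N₀ (ndg M G y) 0 : ℝ) / N₀ 0 := by
    rw [hτ, ← hb]
    exact rpos_time hM hN1 hG ht
  have e2 : τ' = (nrem N₀ (ndg M G y') 0 : ℝ) / N₀ 0 := by
    rw [hτ', ← hb']
    exact rpos_time hM hN1 hG ht'
  have hmem : ∀ n : Fin (k + 1) → ℤ, (nrem N₀ n 0 : ℝ) / N₀ 0 ∈ Set.Icc (0 : ℝ) 1 := by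
    intro n
    have h1 := nrem_lt (Ng := N₀) hN1 n 0
    constructor
    · positivity
    · rw [div_le_one (hN00 0)]
      exact_mod_cast h1.le
  have m1 : τ ∈ Set.Icc (0 : ℝ) 1 := by rw [e1]; exact hmem _
  have m2 : τ' ∈ Set.Icc (0 : ℝ) 1 := by rw [e2]; exact hmem _
  -- their difference
  have d1 : |τ - τ'| ≤ 1 / D 0 := by
    have h1 : τ - τ' = ((ndg M G y 0 : ℝ) - ndg M G y' 0) / N₀ 0 := by
      have h2 : (nrem N₀ (ndg M G y) 0 : ℝ) =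
          (ndg M G y 0 : ℝ) - (nidx N₀ (ndg M G y) 0 : ℝ) * N₀ 0 := by
        exact_mod_cast nrem_cast hN1 (ndg M G y) 0
      have h3 : (nrem N₀ (ndg M G y') 0 : ℝ) =
          (ndg M G y' 0 : ℝ) - (nidx N₀ (ndg M G y') 0 : ℝ) * N₀ 0 := by
        exact_mod_cast nrem_cast hN1 (ndg M G y') 0
      rw [e1, e2, h2, h3, hb, hb']
      ring
    have h4 : |(ndg M G y 0 : ℝ) - ndg M G y' 0| ≤ N₂ 0 := by
      have h5 := nrem_cast hN₂ (ndg M G y) 0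
      have h6 := nrem_cast hN₂ (ndg M G y') 0
      have h7 := nrem_lt (Ng := N₂) hN₂ (ndg M G y) 0
      have h8 := nrem_lt (Ng := N₂) hN₂ (ndg M G y') 0
      rw [h0] at h5
      have h9 : ndg M G y 0 - ndg M G y' 0 =
          (nrem N₂ (ndg M G y) 0 : ℤ) - (nrem N₂ (ndg M G y') 0 : ℤ) := by
        rw [h5, h6]
        ring
      have h10 : ((ndg M G y 0 : ℝ) - ndg M G y' 0) =
          (nrem N₂ (ndg M G y) 0 : ℝ) - (nrem N₂ (ndg M G y') 0 : ℝ) := by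
        exact_mod_cast h9
      have h11 : (nrem N₂ (ndg M G y) 0 : ℝ) ≤ N₂ 0 := by exact_mod_cast h7.le
      have h12 : (nrem N₂ (ndg M G y') 0 : ℝ) ≤ N₂ 0 := by exact_mod_cast h8.le
      have h13 : (0 : ℝ) ≤ (nrem N₂ (ndg M G y) 0 : ℝ) := Nat.cast_nonneg _
      have h14 : (0 : ℝ) ≤ (nrem N₂ (ndg M G y') 0 : ℝ) := Nat.cast_nonneg _
      rw [h10, abs_le]
      constructor <;> linarith
    rw [h1, abs_div, abs_of_pos (hN00 0), div_le_div_iff₀ (hN00 0) (hD0 0), hN0r]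
    calc |(ndg M G y 0 : ℝ) - ndg M G y' 0| * D 0 ≤ N₂ 0 * D 0 :=
          mul_le_mul_of_nonneg_right h4 (hD0 0).le
      _ = 1 * (D 0 * N₂ 0) := by ring
  -- the natural coordinate
  have z1 : (zln M N₀ G b la lb i).eval τ = rpos M N₀ G b y i.succ := by
    rw [eval_zln, hτ, line_time hM hN1 hG hl]
  have z2 : (zln M N₀ G b la lb i).eval τ' = rpos M N₀ G b y' i.succ := by
    rw [eval_zln, hτ', line_time hM hN1 hG hl']
  have hV0 : 0 ≤ V := (abs_nonneg _).trans (hV i τ m1)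
  have mv : |rpos M N₀ G b y i.succ - rpos M N₀ G b y' i.succ| ≤ V * |τ - τ'| := by
    rw [← z1, ← z2]
    have h1 := Convex.norm_image_sub_le_of_norm_deriv_le
      (f := fun x => (zln M N₀ G b la lb i).eval x) (C := V) (s := Set.Icc (0 : ℝ) 1)
      (x := τ') (y := τ) (fun x _ => (zln M N₀ G b la lb i).differentiableAt)
      (fun x hx => by
        rw [Real.norm_eq_abs, Polynomial.deriv]
        exact hV i x hx) (convex_Icc 0 1) m2 m1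
    simpa only [Real.norm_eq_abs] using h1
  -- the indices
  obtain ⟨u, hu⟩ : ∃ u, u = (M : ℝ) * (y i.succ - eval y (G i.succ)) := ⟨_, rfl⟩
  obtain ⟨u', hu'⟩ : ∃ u', u' = (M : ℝ) * (y' i.succ - eval y' (G i.succ)) := ⟨_, rfl⟩
  have r1 : rpos M N₀ G b y i.succ = u / N₀ i.succ - b i.succ := by
    have := (hN00 i.succ).ne'
    unfold rpos
    rw [hu]
    field_simp
  have r2 : rpos M N₀ G b y' i.succ = u' / N₀ i.succ - b i.succ := by
    have := (hN00 i.succ).ne'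
    unfold rpos
    rw [hu']
    field_simp
  have n1 : nidx N₂ (ndg M G y) i.succ = ⌊u / N₂ i.succ⌋ := by
    unfold nidx ndg
    rw [← hu, Int.floor_div_natCast]
  have n2 : nidx N₂ (ndg M G y') i.succ = ⌊u' / N₂ i.succ⌋ := by
    unfold nidx ndg
    rw [← hu', Int.floor_div_natCast]
  have k1 : |u / N₂ i.succ - u' / N₂ i.succ| ≤ V * ((D i.succ : ℝ) / D 0) := by
    have h1 : u / N₂ i.succ - u' / N₂ i.succ =
        D i.succ * (rpos M N₀ G b y i.succ - rpos M N₀ G b y' i.succ) := by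
      have := (hN20 i.succ).ne'
      have := (hD0 i.succ).ne'
      rw [r1, r2, hN0r]
      field_simp
      ring
    rw [h1, abs_mul, abs_of_pos (hD0 _)]
    calc (D i.succ : ℝ) * |rpos M N₀ G b y i.succ - rpos M N₀ G b y' i.succ| ≤
          D i.succ * (V * (1 / D 0)) :=
          mul_le_mul_of_nonneg_left (mv.trans (mul_le_mul_of_nonneg_left d1 hV0)) (hD0 _).le
      _ = _ := by ring
  rw [n1, n2]
  push_cast
  have f1 := Int.floor_le (u / N₂ i.succ)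
  have f2 := Int.lt_floor_add_one (u / N₂ i.succ)
  have f3 := Int.floor_le (u' / N₂ i.succ)
  have f4 := Int.lt_floor_add_one (u' / N₂ i.succ)
  rw [abs_le] at k1 ⊢
  constructor <;> linarith [k1.1, k1.2]

/-- The cells of a large cell. -/
theorem sub_idx (hD : ∀ i, 1 ≤ D i) (hN₀ : ∀ i, N₀ i = D i * N₂ i)
    {n n' : Fin (k + 1) → ℤ} (h : nidx N₀ n = nidx N₀ n') (i : Fin (k + 1)) :
    |((nidx N₂ n i - nidx N₂ n' i : ℤ) : ℝ)| ≤ D i := by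
  have hDz : (0 : ℤ) < D i := by exact_mod_cast hD i
  have key : ∀ n : Fin (k + 1) → ℤ, nidx N₀ n i = nidx N₂ n i / (D i : ℤ) := by
    intro n
    unfold nidx
    rw [Int.ediv_ediv_of_nonneg (by positivity), hN₀]
    congr 1
    push_cast
    ring
  have h1 := congrFun h i
  rw [key, key] at h1
  have a1 := Int.emod_add_mul_ediv (nidx N₂ n i) (D i)
  have a2 := Int.emod_add_mul_ediv (nidx N₂ n' i) (D i)
  have b1 := Int.emod_nonneg (nidx N₂ n i) hDz.ne'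
  have b2 := Int.emod_nonneg (nidx N₂ n' i) hDz.ne'
  have b3 := Int.emod_lt_of_pos (nidx N₂ n i) hDz
  have b4 := Int.emod_lt_of_pos (nidx N₂ n' i) hDz
  rw [h1] at a1
  have h2 : |nidx N₂ n i - nidx N₂ n' i| ≤ (D i : ℤ) := by
    rw [abs_le]
    constructor <;> linarith
  exact_mod_cast h2

end vel

section fam

variable {m J : ℕ} {F : Fam m J} {c : ℕ → Fin m} {k W₀ W₁ sg sx P : ℕ} {g : ℕ → ℕ} {K : ℕ}
  {L : ℝ} {A : F.Ω → Prop} {V₀ : Type} {z₀ : PtT F → V₀} {z₀' : LnT F → V₀} {P₀ : V₀ → ℕ → PN}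
  {Q : F.Ω × F.Ω → ℝ}

/-- The digits of the exact point of the first sample. -/
noncomputable def ngp (F : Fam m J) (c : ℕ → Fin m) (k W₀ W₁ sx P : ℕ) {V₀ : Type}
    (z₀' : LnT F → V₀) (P₀ : V₀ → ℕ → PN) (e : F.Ω × F.Ω) : Fin (k + 1) → ℤ :=
  ndg (2 ^ (P - W₁)) (gsy k W₁ (P₀ (z₀' (slam F W₀ e.1)))) (bse (xte c k W₁ P sx F e.1))

theorem ngp_zero (e : F.Ω × F.Ω) :
    ngp F c k W₀ W₁ sx P z₀' P₀ e 0 = ((F.T e.1 / 2 ^ (J - P) : ℕ) : ℤ) :=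
  (xte_dig c k W₁ P sx e.1 (G := gsy k W₁ (P₀ (z₀' (slam F W₀ e.1)))) rfl).2

theorem ngp_ngx (hN : NLabW F c k W₀ sg g K L A z₀ z₀' P₀) (hWP : W₁ ≤ P) {e : F.Ω × F.Ω}
    (he : A e.1) (i : Fin k) :
    ngp F c k W₀ W₁ sx P z₀' P₀ e i.succ = ngx F c P z₀ P₀ e.1 (i.val + 1) := by
  unfold ngp
  rw [ndg_xte (hN.tri _) hWP e.1 i, ← hN.cls _ he]
  rfl

/-- The index of the large cell has few values. -/
theorem idb_cnt (hQ : IsLaw Q) (hN : NLabW F c k W₀ sg g K L A z₀ z₀' P₀) (hw : W₀ ≤ W₁)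
    (hWP : W₁ ≤ P) (hP : P ≤ J) (hL : 0 ≤ L) {s : ℕ}
    (hs : 2 * (1 + ((k + 1 : ℕ) : ℝ) * L) ≤ 2 * 2 ^ s)
    (hc : ∀ i < k + 1, wid W₀ g i + s ≤ P) (hA : ∀ e, 0 < Q e → A e.1) {Γ : Type}
    (Z : F.Ω × F.Ω → Γ)
    (hZ : ∀ e e', 0 < Q e → 0 < Q e' → Z e = Z e' → F.T1 W₀ e.1 = F.T1 W₀ e'.1) :
    CH Q (fun e => nidx (fun i : Fin (k + 1) => 2 ^ (P - wid W₀ g i))
      (ngp F c k W₀ W₁ sx P z₀' P₀ e)) Z ≤ ((k + 1 : ℕ) : ℝ) * Real.log 21 := by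
  have hWJ : W₀ ≤ J := (hw.trans hWP).trans hP
  refine le_trans ?_ (idx_cnt hQ hN hWJ hP hL hs hc hA Z)
  refine CH_mono_left hQ.nonneg fun e e' he he' h => ?_
  obtain ⟨h2, h3⟩ := Prod.ext_iff.1 h
  have hT1 : ∀ e, nidx (fun i : Fin (k + 1) => 2 ^ (P - wid W₀ g i))
      (ngp F c k W₀ W₁ sx P z₀' P₀ e) 0 = (F.T1 W₀ e.1 : ℤ) := by
    intro e
    unfold nidx
    rw [ngp_zero e]
    have b1 : wid W₀ g ((0 : Fin (k + 1)) : ℕ) = W₀ := by
      rw [Fin.val_zero]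
      rfl
    simp only [b1]
    unfold Fam.T1
    rw [← Int.natCast_div, Nat.div_div_eq_div_mul, ← pow_add]
    have : J - P + (P - W₀) = J - W₀ := by omega
    rw [this]
  funext i
  have h2' := congrFun h2 i
  refine Fin.cases ?_ (fun i h2' => ?_) i h2'
  · intro _
    rw [hT1 e, hT1 e', hZ e e' he he' h3]
  · unfold nidx at h2' ⊢
    rw [ngp_ngx hN hWP (hA e he) i, ngp_ngx hN hWP (hA e' he') i]
    exact h2'

/-- The rest of the digits of the time, given any label and the index of the time. -/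
theorem tdr (hQ : IsLaw Q) (hw : W₀ ≤ W₁) (hWP : W₁ ≤ P) (hP : P ≤ J)
    (hsup : ∀ e, 0 < Q e → slam F W₀ e.1 = slam F W₀ e.2) {θ : ℝ}
    (hT : ((J - W₀ : ℕ) : ℝ) * Real.log 2 - θ ≤ CH Q (fun e => F.T e.1) (fun e => e.2))
    {d : ℕ} (hd : W₀ + d ≤ P) {N₂ : Fin (k + 1) → ℕ} (hN₂ : ∀ i, 1 ≤ N₂ i)
    (hN₂0 : N₂ 0 = 2 ^ (P - W₀ - d)) {Γ : Type} (Z : F.Ω × F.Ω → Γ)
    (hZ : ∀ e e', 0 < Q e → 0 < Q e' → e.2 = e'.2 → F.T1 (W₀ + d) e.1 = F.T1 (W₀ + d) e'.1 →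
      Z e = Z e') :
    Real.log ((N₂ 0 : ℕ) : ℝ) -
      CH Q (fun e => nrem N₂ (ngp F c k W₀ W₁ sx P z₀' P₀ e) 0)
        (fun e => (Z e, nidx N₂ (ngp F c k W₀ W₁ sx P z₀' P₀ e))) ≤ θ +
      CH Q (fun e => nidx N₂ (ngp F c k W₀ W₁ sx P z₀' P₀ e))
        (fun e => (F.T1 (W₀ + d) e.1, e.2)) := by
  have hQ0 := hQ.nonneg
  obtain ⟨ng, hng⟩ : ∃ ng : F.Ω × F.Ω → Fin (k + 1) → ℤ, ng =
    ngp F c k W₀ W₁ sx P z₀' P₀ := ⟨_, rfl⟩
  obtain ⟨TP, hTP⟩ : ∃ TP : F.Ω × F.Ω → ℕ, TP = fun e => F.T e.1 / 2 ^ (J - P) := ⟨_, rfl⟩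
  have hng0 : ∀ e, ng e 0 = (TP e : ℤ) := by
    intro e
    rw [hng, hTP]
    exact ngp_zero e
  rw [← hng]
  -- the whole time
  have a1 : CH Q TP (fun e => (Z e, nidx N₂ (ng e))) ≤
      CH Q (fun e => nrem N₂ (ng e) 0) (fun e => (Z e, nidx N₂ (ng e))) := by
    refine CH_mono_left hQ0 fun e e' _ _ h => ?_
    simp only [Prod.mk.injEq] at h
    obtain ⟨h1, -, h3⟩ := h
    have h4 := nrem_cast hN₂ (ng e) 0
    have h5 := nrem_cast hN₂ (ng e') 0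
    rw [h1, h3] at h4
    have h6 : ng e 0 = ng e' 0 := by linarith
    rw [hng0, hng0] at h6
    exact_mod_cast h6
  have a2 : CH Q TP (fun e => (nidx N₂ (ng e), (F.T1 (W₀ + d) e.1, e.2))) ≤
      CH Q TP (fun e => (Z e, nidx N₂ (ng e))) := by
    refine CH_mono_cond hQ0 fun e e' he he' h => ?_
    simp only [Prod.mk.injEq] at h ⊢
    exact ⟨hZ e e' he he' h.2.2 h.2.1, h.1⟩
  have a3 := CH_le_add hQ0 TP (fun e => nidx N₂ (ng e)) (fun e => (F.T1 (W₀ + d) e.1, e.2))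
  -- the index of the time
  have a4 := CH_le_add hQ0 TP (fun e => F.T1 (W₀ + d) e.1) (fun e => e.2)
  have a5 : CH Q (fun e => F.T1 (W₀ + d) e.1) (fun e => e.2) ≤ (d : ℝ) * Real.log 2 := by
    obtain ⟨τ, hτ⟩ : ∃ τ : F.Ω × F.Ω → Fin (2 ^ d), τ = fun e =>
      ⟨F.T1 (W₀ + d) e.1 % 2 ^ d, Nat.mod_lt _ (by positivity)⟩ := ⟨_, rfl⟩
    have b2 : CH Q (fun e => F.T1 (W₀ + d) e.1) (fun e => e.2) ≤ CH Q τ (fun e => e.2) := by
      refine CH_mono_left hQ0 fun e e' he he' h => ?_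
      obtain ⟨h2, h3⟩ := Prod.ext_iff.1 h
      have h6 : τ e = τ e' := h2
      have h3' : e.2 = e'.2 := h3
      have h5 : F.T1 (W₀ + d) e.1 % 2 ^ d = F.T1 (W₀ + d) e'.1 % 2 ^ d := by
        rw [hτ] at h6
        exact congrArg Fin.val h6
      have hdiv : ∀ e : F.Ω × F.Ω, F.T1 (W₀ + d) e.1 / 2 ^ d = F.T1 W₀ e.1 := by
        intro e
        unfold Fam.T1
        rw [Nat.div_div_eq_div_mul, ← pow_add]
        have : J - (W₀ + d) + d = J - W₀ := by omega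
        rw [this]
      have h7 : F.T1 W₀ e.1 = F.T1 W₀ e'.1 := by
        have c1 : F.T1 W₀ e.1 = F.T1 W₀ e.2 := (Prod.ext_iff.1 (Prod.ext_iff.1 (hsup e he)).2).2
        have c2 : F.T1 W₀ e'.1 = F.T1 W₀ e'.2 :=
          (Prod.ext_iff.1 (Prod.ext_iff.1 (hsup e' he')).2).2
        rw [c1, c2, h3']
      rw [← hdiv e, ← hdiv e'] at h7
      show F.T1 (W₀ + d) e.1 = F.T1 (W₀ + d) e'.1
      rw [← Nat.div_add_mod (F.T1 (W₀ + d) e.1) (2 ^ d),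
        ← Nat.div_add_mod (F.T1 (W₀ + d) e'.1) (2 ^ d), h5, h7]
    exact b2.trans (log_fin d hQ τ (fun e => e.2))
  have a6 : CH Q (fun e => F.T e.1) (fun e => e.2) ≤
      CH Q TP (fun e => e.2) + ((J - P : ℕ) : ℝ) * Real.log 2 := by
    have b1 := CH_le_add hQ0 (fun e => F.T e.1) TP (fun e => e.2)
    obtain ⟨τ, hτ⟩ : ∃ τ : F.Ω × F.Ω → Fin (2 ^ (J - P)), τ = fun e =>
      ⟨F.T e.1 % 2 ^ (J - P), Nat.mod_lt _ (by positivity)⟩ := ⟨_, rfl⟩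
    have b2 : CH Q (fun e => F.T e.1) (fun e => (TP e, e.2)) ≤ CH Q τ (fun e => (TP e, e.2)) := by
      refine CH_mono_left hQ0 fun e e' _ _ h => ?_
      obtain ⟨h2, h3⟩ := Prod.ext_iff.1 h
      have h4 : TP e = TP e' := (Prod.ext_iff.1 h3).1
      have h5 : F.T e.1 % 2 ^ (J - P) = F.T e'.1 % 2 ^ (J - P) := by
        have h6 : τ e = τ e' := h2
        rw [hτ] at h6
        exact congrArg Fin.val h6
      rw [hTP] at h4
      have h7 : F.T e.1 / 2 ^ (J - P) = F.T e'.1 / 2 ^ (J - P) := h4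
      change F.T e.1 = F.T e'.1
      rw [← Nat.div_add_mod (F.T e.1) (2 ^ (J - P)), ← Nat.div_add_mod (F.T e'.1) (2 ^ (J - P)),
        h5, h7]
    have b3 := log_fin (J - P) hQ τ (fun e => (TP e, e.2))
    linarith
  have e1 : Real.log ((N₂ 0 : ℕ) : ℝ) = ((P : ℝ) - W₀ - d) * Real.log 2 := by
    rw [hN₂0]
    push_cast
    rw [Real.log_pow, Nat.cast_sub (by omega), Nat.cast_sub (by omega)]
  have b1 : ((J - P : ℕ) : ℝ) = J - P := Nat.cast_sub hP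
  have b2 : ((J - W₀ : ℕ) : ℝ) = J - W₀ := Nat.cast_sub (by omega)
  rw [b1] at a6
  rw [b2] at hT
  rw [e1]
  linarith

/-- **The digits of the time in the large cell.** -/
theorem tdb (hQ : IsLaw Q) (hN : NLabW F c k W₀ sg g K L A z₀ z₀' P₀) (hw : W₀ ≤ W₁)
    (hWP : W₁ ≤ P) (hP : P ≤ J) (hL : 0 ≤ L) {s : ℕ}
    (hs : 2 * (1 + ((k + 1 : ℕ) : ℝ) * L) ≤ 2 * 2 ^ s)
    (hc : ∀ i < k + 1, wid W₀ g i + s ≤ P) (hA : ∀ e, 0 < Q e → A e.1)
    (hsup : ∀ e, 0 < Q e → slam F W₀ e.1 = slam F W₀ e.2) {θ : ℝ}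
    (hT : ((J - W₀ : ℕ) : ℝ) * Real.log 2 - θ ≤ CH Q (fun e => F.T e.1) (fun e => e.2))
    {Γ : Type} (Z : F.Ω × F.Ω → Γ)
    (hZ : ∀ e e', 0 < Q e → 0 < Q e' → e.2 = e'.2 → Z e = Z e') :
    Real.log ((2 ^ (P - W₀) : ℕ) : ℝ) -
      CH Q (fun e => nrem (fun i : Fin (k + 1) => 2 ^ (P - wid W₀ g i))
        (ngp F c k W₀ W₁ sx P z₀' P₀ e) 0)
        (fun e => (Z e, nidx (fun i : Fin (k + 1) => 2 ^ (P - wid W₀ g i))
          (ngp F c k W₀ W₁ sx P z₀' P₀ e))) ≤ θ + ((k + 1 : ℕ) : ℝ) * Real.log 21 := by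
  have b1 : wid W₀ g ((0 : Fin (k + 1)) : ℕ) = W₀ := by
    rw [Fin.val_zero]
    rfl
  have h1 := tdr (F := F) (c := c) (k := k) (sx := sx) (z₀' := z₀') (P₀ := P₀) hQ hw hWP hP
    hsup hT (d := 0) (by omega) (N₂ := fun i : Fin (k + 1) => 2 ^ (P - wid W₀ g i))
    (fun i => Nat.one_le_two_pow) (by
      simp only [b1, Nat.sub_zero]) Z (fun e e' he he' h _ => hZ e e' he he' h)
  have h2 := idb_cnt (sx := sx) hQ hN hw hWP hP hL hs hc hA
    (Z := fun e => (F.T1 (W₀ + 0) e.1, e.2)) (fun e e' _ _ h => (Prod.ext_iff.1 h).1)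
  simp only [b1] at h1
  linarith

end fam

/-- **The digits of the time in a small cell**, given the line, the second sample, the time of the
window `W₁` and the index of the small cell. -/
theorem tdd (k K : ℕ) : ∃ C : ℝ, 1 ≤ C ∧ ∀ {m J : ℕ} {F : Fam m J} {c : ℕ → Fin m}
    {W₀ W₁ sg sx P : ℕ} {g : ℕ → ℕ} {L : ℝ} {A : F.Ω → Prop} {V₀ : Type} {z₀ : PtT F → V₀}
    {z₀' : LnT F → V₀} {P₀ : V₀ → ℕ → PN} {Q : F.Ω × F.Ω → ℝ}, IsLaw Q →
    NLabW F c k W₀ sg g K L A z₀ z₀' P₀ → W₀ ≤ W₁ → W₁ ≤ P → P ≤ J → 0 ≤ L →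
    ∀ {s : ℕ}, 2 * (1 + ((k + 1 : ℕ) : ℝ) * L) ≤ 2 * 2 ^ s →
    (∀ i < k + 1, wid W₀ g i + s ≤ P) → (∀ e, 0 < Q e → A e.1) →
    (∀ e, 0 < Q e → slam F W₀ e.1 = slam F W₀ e.2) →
    ∀ {θ : ℝ}, ((J - W₀ : ℕ) : ℝ) * Real.log 2 - θ ≤
      CH Q (fun e => F.T e.1) (fun e => e.2) →
    ∀ {dp : Fin (k + 1) → ℕ} {Δ Dm : ℕ}, W₁ ≤ W₀ + dp 0 →
    (∀ i : Fin (k + 1), wid W₀ g i + dp i ≤ P) →
    (∀ i, dp i ≤ dp 0 + Δ) → (∀ i, dp i ≤ Dm) → ∀ {h : ℝ}, 0 < h →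
    C * Real.exp h ≤ ((2 ^ (P - W₀) : ℕ) : ℝ) →
    Real.log ((2 ^ (P - W₀ - dp 0) : ℕ) : ℝ) -
      CH Q (fun e => nrem (fun i : Fin (k + 1) => 2 ^ (P - wid W₀ g i - dp i))
        (ngp F c k W₀ W₁ sx P z₀' P₀ e) 0)
        (fun e => ((slam F W₁ e.1, e.2), nidx (fun i : Fin (k + 1) =>
          2 ^ (P - wid W₀ g i - dp i)) (ngp F c k W₀ W₁ sx P z₀' P₀ e))) ≤
      θ + ((k + 1 : ℕ) : ℝ) * Real.log 21 + k * (Real.log (2 * (C * Real.exp h * 2 ^ Δ + 1) + 1) +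
        C * (θ + ((k + 1 : ℕ) : ℝ) * Real.log 21 + 1) / h * Real.log (2 * 2 ^ Dm + 1)) := by
  obtain ⟨C, hC, hve⟩ := vel_ev k K
  refine ⟨C, hC, ?_⟩
  intro m J F c W₀ W₁ sg sx P g L A V₀ z₀ z₀' P₀ Q hQ hN hw hWP hP hL s hs hc hA hsup θ hT dp Δ
    Dm hd0 hdp hΔ hDm h hh hCh
  have hQ0 := hQ.nonneg
  have hexp := Real.exp_pos h
  obtain ⟨ng, hng⟩ : ∃ ng : F.Ω × F.Ω → Fin (k + 1) → ℤ, ng =
    ngp F c k W₀ W₁ sx P z₀' P₀ := ⟨_, rfl⟩
  obtain ⟨N₀, hN₀⟩ : ∃ N₀ : Fin (k + 1) → ℕ, N₀ = fun i : Fin (k + 1) =>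
    2 ^ (P - wid W₀ g i) := ⟨_, rfl⟩
  obtain ⟨N₂, hN₂⟩ : ∃ N₂ : Fin (k + 1) → ℕ, N₂ = fun i : Fin (k + 1) =>
    2 ^ (P - wid W₀ g i - dp i) := ⟨_, rfl⟩
  obtain ⟨D, hD⟩ : ∃ D : Fin (k + 1) → ℕ, D = fun i => 2 ^ dp i := ⟨_, rfl⟩
  have hN₀1 : ∀ i, 1 ≤ N₀ i := fun i => by rw [hN₀]; exact Nat.one_le_two_pow
  have hN₂1 : ∀ i, 1 ≤ N₂ i := fun i => by rw [hN₂]; exact Nat.one_le_two_pow
  have hD1 : ∀ i, 1 ≤ D i := fun i => by rw [hD]; exact Nat.one_le_two_pow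
  have hND : ∀ i, N₀ i = D i * N₂ i := by
    intro i
    rw [hN₀, hN₂, hD]
    simp only
    rw [← pow_add]
    congr 1
    have := hdp i
    omega
  have hM1 : 1 ≤ 2 ^ (P - W₁) := Nat.one_le_two_pow
  have w0 : wid W₀ g ((0 : Fin (k + 1)) : ℕ) = W₀ := by
    rw [Fin.val_zero]
    rfl
  have hN₂0 : N₂ 0 = 2 ^ (P - W₀ - dp 0) := by
    rw [hN₂]
    simp only [w0]
  have hN₀0 : N₀ 0 = 2 ^ (P - W₀) := by
    rw [hN₀]
    simp only [w0]
  have hd0' := hdp 0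
  rw [w0] at hd0'
  rw [← hng, ← hN₂, ← hN₂0]
  -- the geometry
  obtain ⟨G, hG⟩ : ∃ G : F.Ω × F.Ω → Fin (k + 1) → MvPolynomial (Fin (k + 1)) ℝ, G = fun e =>
    gsy k W₁ (P₀ (z₀' (slam F W₀ e.1))) := ⟨_, rfl⟩
  obtain ⟨y, hy⟩ : ∃ y : F.Ω × F.Ω → Fin (k + 1) → ℝ, y = fun e =>
    bse (xte c k W₁ P sx F e.1) := ⟨_, rfl⟩
  obtain ⟨la, hla⟩ : ∃ la : F.Ω × F.Ω → Fin (k + 1) → ℝ, la = fun e i =>
    lna c k W₁ sx (F.l e.1) (some i) := ⟨_, rfl⟩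
  obtain ⟨lb, hlb⟩ : ∃ lb : F.Ω × F.Ω → Fin (k + 1) → ℝ, lb = fun e i =>
    lnb c k sx (F.l e.1) (some i) := ⟨_, rfl⟩
  have hngy : ∀ e, ng e = ndg (2 ^ (P - W₁)) (G e) (y e) := fun e => by
    rw [hng, hG, hy]
    rfl
  have hG0 : ∀ e, G e 0 = 0 := fun e => by rw [hG]; rfl
  have hyt : ∀ e, ((ndg (2 ^ (P - W₁)) (G e) (y e) 0 : ℤ) : ℝ) =
      ((2 ^ (P - W₁) : ℕ) : ℝ) * y e 0 := fun e => by
    rw [hG, hy]
    exact (xte_dig c k W₁ P sx e.1 (G := gsy k W₁ (P₀ (z₀' (slam F W₀ e.1)))) rfl).1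
  have hyl : ∀ e l, y e l = la e l + y e 0 * lb e l := fun e l => by
    rw [hla, hlb, hy]
    exact xte_line c k W₁ P sx e.1 (some l)
  obtain ⟨Vl, hVl⟩ : ∃ Vl : F.Ω × F.Ω → Prop, Vl = fun e =>
    Vel (C * Real.exp h) (2 ^ (P - W₁)) N₀ (G e) (nidx N₀ (ng e)) (la e) (lb e) := ⟨_, rfl⟩
  -- the fast lines
  have hv := hve (F.Ω × F.Ω) (LnT F × (Fin (k + 1) → ℤ)) Q
    (fun e => (slam F W₀ e.1, nidx N₀ (ng e))) (2 ^ (P - W₁)) N₀
    (fun γ => gsy k W₁ (P₀ (z₀' γ.1))) (fun γ => γ.2)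
    (fun γ i => lna c k W₁ sx γ.1.1 (some i)) (fun γ i => lnb c k sx γ.1.1 (some i)) y h hQ hM1
    hN₀1 hh (by rw [hN₀0]; exact hCh) (fun e he => by
      refine ⟨gsy_deg fun i => hN.deg _ i, rfl, ?_, ?_, ?_⟩
      · rw [hngy, hG]
      · have := hyt e
        rw [hG] at this
        exact this
      · intro l
        have := hyl e l
        rw [hla, hlb] at this
        exact this)
  have hv' : ms Q (fun e => ¬ Vl e) ≤
      C * (θ + ((k + 1 : ℕ) : ℝ) * Real.log 21 + 1) / h := by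
    have h1 := tdb (sx := sx) hQ hN hw hWP hP hL hs hc hA hsup hT
      (Z := fun e => slam F W₀ e.1) (fun e e' he he' h => by
        rw [hsup e he, hsup e' he', h])
    rw [← hng, ← hN₀, ← hN₀0] at h1
    have h2 : (fun e => ndg (2 ^ (P - W₁)) (gsy k W₁ (P₀ (z₀' (slam F W₀ e.1)))) (y e)) = ng := by
      funext e
      rw [hngy, hG]
    have h3 : ms Q (fun e => ¬ Vl e) ≤ C * ((Real.log (N₀ 0 : ℝ) -
        CH Q (fun e => nrem N₀ (ng e) 0) (fun e => (slam F W₀ e.1, nidx N₀ (ng e)))) + 1) / h := by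
      rw [hVl, hG, hla, hlb]
      rw [← h2] at hv ⊢
      exact hv
    refine h3.trans ?_
    refine div_le_div_of_nonneg_right ?_ hh.le
    exact mul_le_mul_of_nonneg_left (by linarith) (by linarith)
  -- the index of the small cell
  have h1 := tdr (F := F) (c := c) (k := k) (sx := sx) (z₀' := z₀') (P₀ := P₀) hQ hw hWP hP
    hsup hT (d := dp 0) hd0' hN₂1 hN₂0 (Z := fun e => (slam F W₁ e.1, e.2))
    (fun e e' he he' h2 h3 => by
      have a1 : slam F W₀ e.1 = slam F W₀ e'.1 := by rw [hsup e he, hsup e' he', h2]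
      have a2 : F.T1 W₁ e.1 = F.T1 W₁ e'.1 := by
        have a3 : ∀ e : F.Ω × F.Ω, F.T1 (W₀ + dp 0) e.1 / 2 ^ (W₀ + dp 0 - W₁) =
            F.T1 W₁ e.1 := by
          intro e
          unfold Fam.T1
          rw [Nat.div_div_eq_div_mul, ← pow_add]
          have : J - (W₀ + dp 0) + (W₀ + dp 0 - W₁) = J - W₁ := by omega
          rw [this]
        rw [← a3, ← a3, h3]
      have a4 : slam F W₁ e.1 = slam F W₁ e'.1 := by
        unfold slam at a1 ⊢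
        simp only [Prod.mk.injEq] at a1 ⊢
        exact ⟨a1.1, a1.2.1, a2⟩
      exact Prod.ext a4 h2)
  rw [← hng] at h1
  obtain ⟨Y, hY⟩ : ∃ Y : F.Ω × F.Ω → ℕ × F.Ω, Y = fun e => (F.T1 (W₀ + dp 0) e.1, e.2) :=
    ⟨_, rfl⟩
  have hYs : ∀ e e', 0 < Q e → 0 < Q e' → Y e = Y e' → slam F W₀ e.1 = slam F W₀ e'.1 ∧
      F.T1 (W₀ + dp 0) e.1 = F.T1 (W₀ + dp 0) e'.1 := by
    intro e e' he he' hh'
    rw [hY] at hh'
    obtain ⟨h2, h3⟩ := Prod.ext_iff.1 hh'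
    have h3' : e.2 = e'.2 := h3
    exact ⟨by rw [hsup e he, hsup e' he', h3'], h2⟩
  have h2 : CH Q (fun e => nidx N₂ (ng e)) Y ≤ CH Q (fun e => nidx N₀ (ng e)) Y +
      CH Q (fun e (i : Fin k) => nidx N₂ (ng e) i.succ) (fun e => (nidx N₀ (ng e), Y e)) := by
    have b1 := CH_le_add hQ0 (fun e => nidx N₂ (ng e)) (fun e => nidx N₀ (ng e)) Y
    have b2 : CH Q (fun e => nidx N₂ (ng e)) (fun e => (nidx N₀ (ng e), Y e)) ≤
        CH Q (fun e (i : Fin k) => nidx N₂ (ng e) i.succ) (fun e => (nidx N₀ (ng e), Y e)) := by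
      refine CH_mono_left hQ0 fun e e' he he' h => ?_
      obtain ⟨h3, h4⟩ := Prod.ext_iff.1 h
      funext i
      refine Fin.cases ?_ (fun i => ?_) i
      · have h5 := (hYs e e' he he' (Prod.ext_iff.1 h4).2).2
        have h6 : ∀ e : F.Ω × F.Ω, nidx N₂ (ng e) 0 = (F.T1 (W₀ + dp 0) e.1 : ℤ) := by
          intro e
          unfold nidx
          rw [hng, ngp_zero e, hN₂0]
          unfold Fam.T1
          rw [← Int.natCast_div, Nat.div_div_eq_div_mul, ← pow_add]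
          have : J - P + (P - W₀ - dp 0) = J - (W₀ + dp 0) := by omega
          rw [this]
        rw [h6, h6, h5]
      · exact congrFun h3 i
    linarith
  have h3 : CH Q (fun e => nidx N₀ (ng e)) Y ≤ ((k + 1 : ℕ) : ℝ) * Real.log 21 := by
    have b1 := idb_cnt (sx := sx) hQ hN hw hWP hP hL hs hc hA (Z := Y) (fun e e' he he' h => by
      have h5 := (hYs e e' he he' h).1
      exact (Prod.ext_iff.1 (Prod.ext_iff.1 h5).2).2)
    rw [← hng, ← hN₀] at b1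
    exact b1
  have h4 := CH_few hQ (fun e (i : Fin k) => nidx N₂ (ng e) i.succ)
    (fun e => (nidx N₀ (ng e), Y e)) Vl (a := C * Real.exp h * 2 ^ Δ + 1) (b := 2 ^ Dm)
    (by positivity)
    (fun e e' he he' hh' hE i => by
      obtain ⟨c1, c2⟩ := Prod.ext_iff.1 hh'
      have c1' : nidx N₀ (ng e) = nidx N₀ (ng e') := c1
      obtain ⟨c3, c4⟩ := hYs e e' he he' c2
      have cG : G e = G e' := by rw [hG]; simp only [c3]
      have cl : F.l e.1 = F.l e'.1 := (Prod.ext_iff.1 c3).1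
      have cla : la e = la e' := by rw [hla]; simp only [cl]
      have clb : lb e = lb e' := by rw [hlb]; simp only [cl]
      rw [hVl] at hE
      have k1 := vel_idx (y := y e) (y' := y e') (N₂ := N₂) (D := D) hM1 hN₂1 hD1 hND (hG0 e)
        (hyt e) (by rw [cG]; exact hyt e') (hyl e) (by rw [cla, clb]; exact hyl e')
        (by rw [← hngy]) (by rw [cG, ← hngy, ← c1']) hE (by
          rw [cG, ← hngy, ← cG, ← hngy]
          have h6 : ∀ e : F.Ω × F.Ω, nidx N₂ (ng e) 0 = (F.T1 (W₀ + dp 0) e.1 : ℤ) := by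
            intro e
            unfold nidx
            rw [hng, ngp_zero e, hN₂0]
            unfold Fam.T1
            rw [← Int.natCast_div, Nat.div_div_eq_div_mul, ← pow_add]
            have : J - P + (P - W₀ - dp 0) = J - (W₀ + dp 0) := by omega
            rw [this]
          rw [h6, h6, c4]) i
      rw [← hngy, cG, ← hngy] at k1
      refine k1.trans ?_
      have k2 : (D i.succ : ℝ) / D 0 ≤ 2 ^ Δ := by
        rw [hD]
        push_cast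
        rw [div_le_iff₀ (by positivity), ← pow_add]
        exact pow_le_pow_right₀ (by norm_num) (by have := hΔ i.succ; omega)
      have k3 : 0 ≤ C * Real.exp h := by positivity
      have := mul_le_mul_of_nonneg_left k2 k3
      linarith)
    (fun e e' he he' hh' i => by
      have c1' : nidx N₀ (ng e) = nidx N₀ (ng e') := (Prod.ext_iff.1 hh').1
      have k1 := sub_idx (N₂ := N₂) hD1 hND c1' i.succ
      refine k1.trans ?_
      rw [hD]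
      push_cast
      exact pow_le_pow_right₀ (by norm_num) (hDm _))
  have h5 : (0 : ℝ) ≤ Real.log (2 * 2 ^ Dm + 1) := Real.log_nonneg (by
    have : (0 : ℝ) < 2 ^ Dm := by positivity
    linarith)
  have h6 := mul_le_mul_of_nonneg_right hv' h5
  have h7 : (k : ℝ) * (Real.log (2 * (C * Real.exp h * 2 ^ Δ + 1) + 1) +
      ms Q (fun e => ¬ Vl e) * Real.log (2 * 2 ^ Dm + 1)) ≤
      k * (Real.log (2 * (C * Real.exp h * 2 ^ Δ + 1) + 1) +
        C * (θ + ((k + 1 : ℕ) : ℝ) * Real.log 21 + 1) / h * Real.log (2 * 2 ^ Dm + 1)) :=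
    mul_le_mul_of_nonneg_left (by linarith) (Nat.cast_nonneg k)
  rw [← hY] at h1
  linarith

end Pool.JPN
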